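import Pool.Agent.Work.MP_bf01b2_co.Sh.StmtsG

/-! Part G, item Sub (helper96): subtrees of a prefix closed set of strings. -/

set_option autoImplicit false

namespace Pool.Agent.Work.MP_bf01b2_co.Sh

open Pool.Agent.Work.MP_bf01b2_co.Bd

open Classical

namespace IGSub

theorem mem_sub (T : Finset (List Bool)) (v u : List Bool) : u ∈ sub T v ↔ v ++ u ∈ T := by
  unfold sub
  rw [Finset.mem_image]
  constructor
  · rintro ⟨x, hx, rfl⟩
    obtain ⟨hx1, hx2⟩ := Finset.mem_filter.1 hx
    have h2 : v ++ x.drop v.length = x := by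
      conv_rhs => rw [← List.take_append_drop v.length x, hx2]
    rw [h2]
    exact hx1
  · intro h
    refine ⟨v ++ u, Finset.mem_filter.2 ⟨h, ?_⟩, ?_⟩
    · exact List.take_left
    · exact List.drop_left

end IGSub

open IGSub

theorem pr_Sub : StSub := by
  intro T
  refine ⟨mem_sub T, ?_, ?_, ?_, ?_⟩
  · intro hT v u hu t
    have h2 := hT _ ((mem_sub T v u).1 hu) (v.length + t)
    rw [List.take_length_add_append] at h2
    exact (mem_sub T _ _).2 h2
  · intro v w
    refine Finset.card_le_card_of_injOn (fun u => w ++ u) ?_ ?_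
    · intro u hu
      have hu' := (mem_sub T _ _).1 hu
      rw [List.append_assoc] at hu'
      exact (mem_sub T _ _).2 hu'
    · intro u _ u' _ h
      exact List.append_cancel_left h
  · intro v w
    ext u
    rw [mem_sub, mem_sub, mem_sub, List.append_assoc]
  · intro v hv
    rw [mem_sub, List.append_nil]
    exact hv

end Pool.Agent.Work.MP_bf01b2_co.Sh
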