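import Pool.Agent.Work.MP_bf01b2_co.Sh.StmtsQ

/-!
# MP_bf01b2_co, theorem SHALLOW: item Pd (the padded labels)
-/

set_option autoImplicit false

namespace Pool.Agent.Work.MP_bf01b2_co.Sh

open Pool.Agent.Work.MP_bf01b2_co.Bd

namespace IQPd

theorem pd_lt {m1 M : ℕ} (x : Vc m1) (i : Fin M) (h : i.1 < m1) : pd M x i = x ⟨i.1, h⟩ :=
  dif_pos h

theorem pd_ge {m1 M : ℕ} (x : Vc m1) (i : Fin M) (h : ¬ i.1 < m1) : pd M x i = 0 :=
  dif_neg h

/-- the coordinate of `Fin M` with the same number. -/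
def up {m1 M : ℕ} (hM : m1 ≤ M) (i : Fin m1) : Fin M := ⟨i.1, lt_of_lt_of_le i.2 hM⟩

theorem pd_up {m1 M : ℕ} (hM : m1 ≤ M) (x : Vc m1) (i : Fin m1) : pd M x (up hM i) = x i :=
  pd_lt x (up hM i) i.2

theorem up_inj {m1 M : ℕ} (hM : m1 ≤ M) {i j : Fin m1} (h : up hM i = up hM j) : i = j := by
  have h1 : (up hM i).1 = (up hM j).1 := congrArg Fin.val h
  exact Fin.ext h1

theorem pd_inj {m1 M : ℕ} (hM : m1 ≤ M) {x x' : Vc m1} (h : pd M x = pd M x') : x = x' := by
  funext i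
  have h1 := congrFun h (up hM i)
  rwa [pd_up, pd_up] at h1

theorem par_pd {m1 M : ℕ} (hM : m1 ≤ M) (x : Vc m1) : par (pd M x) = par x := by
  unfold par
  refine (Fintype.sum_of_injective (up hM) (fun i j h => up_inj hM h) x (pd M x) ?_ ?_).symm
  · intro i hi
    apply pd_ge
    intro h
    exact hi ⟨⟨i.1, h⟩, rfl⟩
  · intro i
    rw [pd_up]

theorem pd_single {m1 M : ℕ} (hM : m1 ≤ M) (x : Vc m1) (i : Fin m1) :
    pd M (x + Pi.single i 1) = pd M x + Pi.single (up hM i) 1 := by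
  funext l
  rw [Pi.add_apply]
  by_cases h : l.1 < m1
  · have h0 : l = up hM ⟨l.1, h⟩ := rfl
    rw [h0, pd_up, pd_up, Pi.add_apply, Pi.single_apply, Pi.single_apply]
    by_cases h1 : (⟨l.1, h⟩ : Fin m1) = i
    · rw [if_pos h1, if_pos (congrArg (up hM) h1)]
    · rw [if_neg h1, if_neg (fun h2 => h1 (up_inj hM h2))]
  · rw [pd_ge _ _ h, pd_ge _ _ h, zero_add, Pi.single_apply, if_neg]
    intro h2
    apply h
    rw [h2]
    exact i.2

end IQPd

open IQPd in
/-- item Pd -/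
theorem pr_Pd : StPd := by
  intro m1 M hM
  have hM1 : m1 ≤ M := by omega
  set fd : Bool → Fin M := fun a => ⟨m1 + (if a then 1 else 0), by split_ifs <;> omega⟩ with hfd
  have hf : ∀ a, (fd a).1 = m1 + (if a then 1 else 0) := fun a => rfl
  have hf0 : ∀ (x : Vc m1) (a : Bool), pd M x (fd a) = 0 := by
    intro x a
    apply pd_ge
    rw [hf]
    omega
  have hfi : ∀ a a', fd a = fd a' → a = a' := by
    intro a a' h
    have h1 := Fin.ext_iff.1 h
    rw [hf, hf] at h1
    cases a <;> cases a' <;> simp at h1 ⊢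
  refine ⟨fd, par_pd hM1, fun x i => ⟨_, pd_single hM1 x i⟩, fun x => ⟨⟨fun j hj => ?_, fun h => ?_⟩,
    fun a => ⟨fun j hj => ?_, fun h => ?_⟩⟩, fun x x' a a' h => ?_, fun x x' => pd_inj hM1,
    fun x x' a h => ?_⟩
  · exact pd_ge _ _ (by omega)
  · have h1 := h (fd false) (by rw [hf]; omega) (by rw [hf]; simp)
    rw [hf0] at h1
    exact zero_ne_one h1
  · rw [Pi.add_apply, pd_ge _ _ (by omega), zero_add, Pi.single_apply, if_neg]
    intro h2
    rw [h2, hf] at hj
    split_ifs at hj <;> omega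
  · have h1 := h (fd (!a)) (by rw [hf]; omega) (by rw [hf]; split_ifs <;> omega)
    rw [Pi.add_apply, hf0, zero_add, Pi.single_apply, if_neg] at h1
    · exact zero_ne_one h1
    · intro h2
      have h3 := hfi _ _ h2
      cases a <;> simp at h3
  · have h1 := congrFun h (fd a)
    rw [Pi.add_apply, Pi.add_apply, hf0, hf0, zero_add, zero_add, Pi.single_eq_same,
      Pi.single_apply] at h1
    by_cases h2 : fd a = fd a'
    · have h3 := hfi _ _ h2
      refine ⟨h3, ?_⟩
      rw [h3] at h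
      exact pd_inj hM1 (add_right_cancel h)
    · rw [if_neg h2] at h1
      exact absurd h1 one_ne_zero
  · have h1 := congrFun h (fd a)
    rw [Pi.add_apply, hf0, hf0, zero_add, Pi.single_eq_same] at h1
    exact zero_ne_one h1

end Pool.Agent.Work.MP_bf01b2_co.Sh
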