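import Pool.Agent.Work.MP_bf01b2_co.Sh.StmtsP

/-!
# MP_bf01b2_co, THEOREM LARGE, part P2: tiles with two ends

A key has two sides `false`, `true`. The side `true` uses the seed `g + e_φ` and the initial label
`l + η` in the same private columns; on the spine (the prefixes of `ze`) both sides use the same
columns, so there they differ by the label coordinate `φ` only.
Every item `X` is a statement `StX`, file `Sh/P2_X.lean`, theorem `pr_X`, auxiliary lemmas in
`namespace IPX`. Nobody waits for anybody.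
-/

set_option autoImplicit false

namespace Pool.Agent.Work.MP_bf01b2_co.Sh

open Classical

open Pool.Agent.Work.MP_bf01b2_co.Bd (PrefClosed)

/-- the number of the side -/
def sd (s : Bool) : ZMod 2 := if s then 1 else 0

/-- the seed of the side `s` -/
def gs {M : ℕ} (φ : Fin M) (g : Vc M) (s : Bool) : Vc M := if s then g + Pi.single φ 1 else g

/-- the initial label of the side `s` -/
def li {M : ℕ} (η l : Vc M) (s : Bool) : Vc M := if s then l + η else l

/-- nodes: key, parity, side, address -/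
abbrev Nd2 (W : Type) (M J : ℕ) (b : W → ℕ) (t : W → Bool → Finset (List Bool)) : Type :=
  Σ x : Ky W M J b, ZMod 2 × (Σ s : Bool, {u // u ∈ t x.1 s})

/-- the nodes of a class: parity class `c`, label `μ` -/
def InC2 {W : Type} {M : ℕ} (m1 J : ℕ) {b : W → ℕ} {t : W → Bool → Finset (List Bool)}
    (φ : Fin M) (dw : W → ZMod 2) (c : ZMod 2) (μ : Vc M) (x : Nd2 W M J b t) : Prop :=
  (x.2.2.2.1.length : ZMod 2) + sd x.2.2.1 = dw x.1.1 + c ∧
    mu m1 J (gs φ x.1.2.1.1 x.2.2.1) x.1.2.1.2.1 x.2.2.2.1 = μ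

/-- the size of the parity class `c` of the piece of type `w`, both sides -/
noncomputable def Nw2 {W : Type} (t : W → Bool → Finset (List Bool)) (dw : W → ZMod 2) (w : W)
    (c : ZMod 2) : ℕ :=
  ((t w false).filter fun u => (u.length : ZMod 2) = dw w + c).card +
    ((t w true).filter fun u => (u.length : ZMod 2) + 1 = dw w + c).card

/-- the numerical condition for the packing -/
def Fits2 {W : Type} [Fintype W] (k M J : ℕ) (b : W → ℕ) (t : W → Bool → Finset (List Bool))
    (dw : W → ZMod 2) : Prop :=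
  ∀ c : ZMod 2, ∑ w, 2 * b w * (J + 1) * Nw2 t dw w c +
    2 * (Fintype.card (Ky W M J b) * 2 ^ (2 * M + 1)) ≤ 2 ^ k

/-- [Gs] (EASY) the seed `g + e_φ`. Proof. `tg` is coordinatewise: `tg (g + x) u = tg g u + x`. `Bad m1` only
looks at the coordinates `≥ m1`, and `φ < m1`; so the same case of `mu`, and `mu` gets the same
redirection. `Tl` depends on `g` by `Bad` only. `par (x + Pi.single φ 1) = par x + 1`, and
`al0 = M + κ + par (tg g u)`: `(κ + 1) + (par + 1) = κ + par` in `ZMod 2`. -/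
def StGs : Prop := ∀ (M m1 J : ℕ) (g : Vc M) (φ : Fin M) (s : ℕ) (κ : ZMod 2) (u : List Bool),
  φ.1 < m1 →
  (Bad m1 (tg (g + Pi.single φ 1) u) ↔ Bad m1 (tg g u)) ∧
  (Tl m1 (g + Pi.single φ 1) u ↔ Tl m1 g u) ∧
  mu m1 J (g + Pi.single φ 1) s u = mu m1 J g s u + Pi.single φ 1 ∧
  al0 (g + Pi.single φ 1) (κ + 1) u = al0 g κ u

/-- [Loc2] (EASY-MEDIUM) vertices of the transport on different sides in the same private column have
different labels. Proof. `¬ Tl` gives `|u| ≤ 2 M + 1`, and `Bad m1 (tg g u)` if `|u| = 2 M + 1` (the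
same for `u'`). Let `y = ev u = ev u'`, `|y| = 2 i ≤ 2 M`; `u = y` or `u = y ++ [e]`, and the same for
`u'`. Write `g' = g + Pi.single φ 1`, `l' = l + η`. (1) `φ < i`: the bit `φ` is processed for both (for
`i = M` also in `mu`: the redirection changes a coordinate `≥ m1 + 2` only), with the letter number
`2 φ < |y|` of `y`: values `g φ + lt y (2 φ)` and `g φ + 1 + lt y (2 φ)`. (2) `i < φ`: the bit `φ` is not
processed: `l φ` and `l φ + 1` (`(|u| + 1) / 2 ≤ i + 1 ≤ φ`). (3) `i = φ`: the bit `ψ > φ` is not processed: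
`l ψ` and `l ψ + 1`. (In (2), (3) `i < M`, so `|u|, |u'| ≤ 2 M`.) -/
def StLoc2 : Prop := ∀ (M m1 J : ℕ) (g : Vc M) (s : ℕ) (l η : Vc M) (φ ψ : Fin M)
  (u u' : List Bool), m1 + 2 + J = M → φ.1 < m1 → φ < ψ → η φ = 1 → η ψ = 1 →
  ¬ Tl m1 g u → ¬ Tl m1 (g + Pi.single φ 1) u' → ev u = ev u' →
  (if u.length ≤ 2 * M then lab g l u else mu m1 J g s u) ≠
    (if u'.length ≤ 2 * M then lab (g + Pi.single φ 1) (l + η) u'
      else mu m1 J (g + Pi.single φ 1) s u')

/-- [Cls2] (EASY-MEDIUM) the size of a class. (h : StLaw) Copy of `Sh/P_Cls.lean` with sides. Proof. The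
nodes of the class are counted by type `w`, number of the copy, parity, side `s`, address `u ∈ t w s`
with `|u| + sd s = dw w + c` (`Nw2`), and seed `(g, j)`: at most `J + 1` by `StLaw` (for `s = true` after the
bijection `g ↦ g + Pi.single φ 1`). -/
def StCls2 : Prop := ∀ (W : Type) [Fintype W] (M m1 J : ℕ) (b : W → ℕ)
  (t : W → Bool → Finset (List Bool)) (φ : Fin M) (dw : W → ZMod 2) (c : ZMod 2) (μ : Vc M),
  m1 + 2 + J = M → 1 ≤ J →
  (Finset.univ.filter fun x : Nd2 W M J b t => InC2 m1 J φ dw c μ x).card ≤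
    ∑ w, 2 * b w * (J + 1) * Nw2 t dw w c

/-- [Inj2] (MEDIUM) abstract packing with pairs. `N` = nodes, `cl` = class, `pr` = partner class,
`sp z z'` : the nodes `z`, `z'` form a spine pair. Proof. Call `z` a left node if `sp z z'` for some `z'`
(then `z'` is unique by `hu1`), a right node if `sp z' z` for some `z'`; no node is both (`hlr`). Let `E` be
the set of left nodes. For a class `K` let `E K` = left nodes `z` with `cl z = K` or `pr (cl z) = K`. For a
left node `z` exactly one node of its pair is in `K` if `z ∈ E K` (`cl z' = pr (cl z) ≠ cl z`, and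
`pr` is an involution): this gives an injection of `E K` into the nodes of class `K`, so
`|E K| ≤ #K`. `E K = E (pr K)`. Choose for every class `K` an injection `r K : E K → A` with
`r (pr K) = r K` (choose one class of each pair `{K, pr K}`, e.g. by a linear order or by `Quotient.out` of
the relation `K' = K ∨ K' = pr K`). Then the other nodes (neither left nor right) of class `K` are
`#K - |E K|`, so they can be mapped injectively into `A` minus the image of `r K`. `f z = r (cl z) z` for left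
nodes, `f z' = r (cl z) z` for the right partner, and these injections for the other nodes. -/
def StInj2 : Prop := ∀ (N Q B : Type) [Fintype N] [Fintype Q] (A : Finset B) (cl : N → Q)
  (pr : Q → Q) (sp : N → N → Prop), (∀ K, pr (pr K) = K) → (∀ K, pr K ≠ K) →
  (∀ z z', sp z z' → cl z' = pr (cl z)) →
  (∀ z z1 z2, sp z z1 → sp z z2 → z1 = z2) → (∀ z z1 z2, sp z1 z → sp z2 z → z1 = z2) →
  (∀ z z1 z2, ¬ (sp z z1 ∧ sp z2 z)) →
  (∀ K, (Finset.univ.filter fun z => cl z = K).card ≤ A.card) →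
  ∃ f : N → B, (∀ z, f z ∈ A) ∧ (∀ z z', f z = f z' → cl z = cl z' → z = z') ∧
    ∀ z z', sp z z' → f z' = f z

/-- [Clr2] (EASY-MEDIUM) the syndromes of all tiles. (h2 : StPri) (h3 : StYc) (h4 : StCls2) (h5 : StInj2)
(h6 : StGs) Adaptation of `Sh/P_Clr.lean`. Proof. `S` and the complement `A` of the values `S x y + Pi.single 0 α`
exactly as in `P_Clr.lean`. Nodes `N = Nd2 W M J b t`, classes `Q = ZMod 2 × Vc M`, the class of a node is
`((|u| : ZMod 2) + sd s + dw x.1, mu m1 J (gs φ g s) j u)`, the partner of `(c, μ)` is `(c + 1, μ + Pi.single φ 1)`.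
Pairs: `sp z z'` iff `z = ⟨x, π, false, u⟩`, `z' = ⟨x, π, true, u⟩` with `u <+: ze x.1` (and `u` in both
`t x.1 false`, `t x.1 true`): the class of `z'` is the partner class by `StGs`. Every class has at most
`A.card` nodes by `StCls2` and `Fits2` (a node has the class `(c, μ)` iff `InC2 .. c μ`: in `ZMod 2`
`a + b = c ↔ a = b + c`). `C x π s u` is the value of `f` of `StInj2` at the node, `0` if `u ∉ t x.1 s`. -/
def StClr2 : Prop := ∀ (W : Type) [Fintype W] (k M m1 J : ℕ) (b : W → ℕ)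
  (t : W → Bool → Finset (List Bool)) (ze : W → List Bool) (φ : Fin M) (dw : W → ZMod 2),
  m1 + 2 + J = M → 1 ≤ J → φ.1 < m1 → Fits2 (k + 1) M J b t dw →
  ∃ (S : Ky W M J b → List Bool → Vc (k + 1))
    (C : Ky W M J b → ZMod 2 → Bool → List Bool → Vc (k + 1)),
    (∀ x x' y y' α α', y ∈ Ya M → y' ∈ Ya M →
      S x y + Pi.single 0 α = S x' y' + Pi.single 0 α' → x = x' ∧ y = y' ∧ α = α') ∧
    (∀ x π s x' y' α', ∀ u ∈ t x.1 s, y' ∈ Ya M → C x π s u ≠ S x' y' + Pi.single 0 α') ∧
    (∀ x π s x' π' s', ∀ u ∈ t x.1 s, ∀ u' ∈ t x'.1 s', C x π s u = C x' π' s' u' →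
      mu m1 J (gs φ x.2.1.1 s) x.2.1.2.1 u = mu m1 J (gs φ x'.2.1.1 s') x'.2.1.2.1 u' →
      dw x.1 + (u.length : ZMod 2) + sd s = dw x'.1 + (u'.length : ZMod 2) + sd s' →
        x = x' ∧ π = π' ∧ s = s' ∧ u = u') ∧
    ∀ x π, ∀ u, u <+: ze x.1 → u ∈ t x.1 false → u ∈ t x.1 true → C x π true u = C x π false u

/-- [Ct2] (EASY-MEDIUM) the other columns of one tile, both sides. (h : StGs) Proof. Copy
`Sh/P_Ct.lean` (theorem `pr_Ct`, lemmas `IPCt.*`, they can be imported) with its explicit `ct`, for the side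
`s`: seed `gs φ g s`, parity `κ + sd s`, `C s`. For the last claim: `ct` of `z` is a function of `cp (z.take (2 M))`,
`al0`, `Tl` and `C s` at the prefixes of `z`; by `StGs` these are the same for both sides if
`C true u = C false u` for all prefixes `u` of `z`. -/
def StCt2 : Prop := ∀ (R k M m1 : ℕ) (sy : Fin R → Vc (k + 1)) (a : Fin R) (g : Vc M) (φ : Fin M)
  (κ : ZMod 2) (S : List Bool → Vc (k + 1)) (C : Bool → List Bool → Vc (k + 1))
  (cp : List Bool → Vc R), φ.1 < m1 →
  (∀ s : Vc (k + 1), ∃ i, sy i = s) → sy a = Pi.single 0 1 →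
  (∀ y : List Bool, y.length % 2 = 0 → syn sy (cp y) = S [] + S y) →
  ∃ ct : Bool → List Bool → Vc R,
    (∀ s, (∀ (y : List Bool) (e : Bool), y.length = 2 * M → ¬ Bad m1 (tg (gs φ g s) y) →
        ∃ i, ct s (y ++ [e]) =
          cp y + Pi.single a (al0 (gs φ g s) (κ + sd s) y) + Pi.single i 1) ∧
      (∀ (y : List Bool) (e e' : Bool), y.length = 2 * M → Bad m1 (tg (gs φ g s) y) →
        ∃ i, ct s (y ++ [e, e']) =
          cp y + Pi.single a (al0 (gs φ g s) (κ + sd s) y) + Pi.single i 1) ∧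
      (∀ (y : List Bool) (e : Bool), Tl m1 (gs φ g s) y →
        ∃ i, ct s (y ++ [e]) = ct s y + Pi.single i 1) ∧
      ∀ u : List Bool, Tl m1 (gs φ g s) u → syn sy (ct s u) = S [] + C s u) ∧
    ∀ z : List Bool, (∀ u, u <+: z → C true u = C false u) → ct true z = ct false z

/-- [Tile2] (MEDIUM) THE TILES WITH TWO ENDS. (h1 : StAdj) (h2 : StPty) (h3 : StLoc) (h4 : StLaw)
(h5 : StYc) (h6 : StClr2) (h7 : StCp) (h8 : StCt2) (h9 : StLoc2) (h10 : StGs)
Adaptation of `Sh/P_Tile.lean`. Proof. `F x π l s u = pos m1 J a (gs φ g s) j (cp x) (ct x π s) (li η l s) u`,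
`(g, j)` the seed of `x`; `TD m1 a (gs φ g s) (dw x.1 + π + sd s) (t x.1 s) (cp x) (ct x π s)` from `StCt2`, and
`par (li η l s) = dw x.1 + π + sd s` (`par (η w) = 1`). Everything as in `P_Tile.lean` for the sides; new:
two vertices of the transport with the same base point and the same initial label on different
sides have different labels by `StLoc2` (with the roles exchanged if necessary); the last claim: all
prefixes of `ze x.1` are in both shapes, so `C x π true = C x π false` on them, `ct true ze = ct false ze`,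
`Tl m1 g ze` as `2 M + 2 ≤ |ze|`, and `mu` gets `Pi.single φ 1` by `StGs`. -/
def StTile2 : Prop := ∀ (W : Type) [Fintype W] (R k M m1 J : ℕ) (b : W → ℕ)
  (t : W → Bool → Finset (List Bool)) (ze : W → List Bool) (η : W → Vc M) (φ : Fin M)
  (dw : W → ZMod 2) (sy : Fin R → Vc (k + 1)),
  m1 + 2 + J = M → 2 ≤ J → φ.1 < m1 → (∀ w s, PrefClosed (t w s)) →
  (∀ w, η w φ = 1) → (∀ w, ∃ ψ, φ < ψ ∧ η w ψ = 1) → (∀ w, par (η w) = 1) →
  Fits2 (k + 1) M J b t dw → (∀ s : Vc (k + 1), ∃ i, sy i = s) →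
  ∃ (Sg : Ky W M J b → Vc (k + 1)) (Cx : Ky W M J b → Finset (Vc R))
    (F : Ky W M J b → ZMod 2 → Vc M → Bool → List Bool → Vc R × Vc M),
    Function.Injective Sg ∧ (∀ x, (Cx x).card ≤ 2 ^ (2 * M + 2)) ∧
    (∀ x π l, par l = dw x.1 + π → F x π l false [] = (0, l) ∧ F x π l true [] = (0, l + η x.1) ∧
      (∀ s u e, u ++ [e] ∈ t x.1 s → Ad (F x π l s u) (F x π l s (u ++ [e]))) ∧
      (2 * M + 2 ≤ (ze x.1).length → ze x.1 ∈ t x.1 false → ze x.1 ∈ t x.1 true →
        F x π l true (ze x.1) =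
          ((F x π l false (ze x.1)).1, (F x π l false (ze x.1)).2 + Pi.single φ 1)) ∧
      ∀ s, ∀ u ∈ t x.1 s, ¬ Bad m1 (F x π l s u).2 ∨ (F x π l s u).1 ∈ Cx x) ∧
    ∀ x x' π π' l l' p p' s s', ∀ u ∈ t x.1 s, ∀ u' ∈ t x'.1 s', par l = dw x.1 + π →
      par l' = dw x'.1 + π' → syn sy p = Sg x → syn sy p' = Sg x' → par p = π → par p' = π' →
      p + (F x π l s u).1 = p' + (F x' π' l' s' u').1 → (F x π l s u).2 = (F x' π' l' s' u').2 →
        x = x' ∧ p = p' ∧ (l = l' → s = s' ∧ u = u')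

/-- [Nms2] (EASY-MEDIUM) choice of `k`, `τ` and the numbers of copies. (h : StNms) Proof. `StNms` for
the shapes `t' w = (t w false).image (fun u => false :: false :: u) ∪ (t w true).image (fun u => true :: u)`:
the two images are disjoint, the maps are injective, and the lengths are `|u| + 2`, `|u| + 1`; so
`Nw t' dw w c = Nw2 t dw w c`, and `Fits` for `t'` is `Fits2` for `t`. -/
def StNms2 : Prop := ∀ (M : ℕ) (W : Type) [Fintype W] (t : W → Bool → Finset (List Bool)),
  102 ≤ M →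
  ∃ (k : ℕ) (τ : ℝ), 0 < τ ∧ τ ≤ 1 ∧ ∀ (dw : W → ZMod 2) (x : W → ℝ) (y : ℝ),
    (∀ w, 0 ≤ x w) → 0 ≤ y → y * 2 ^ (2 * M + 14) ≤ 1 → ∑ w, x w ≤ 4 * y →
    (∀ c : ZMod 2, ∑ w, x w * Nw2 t dw w c ≤ 67 / 100 * 2 ^ (M - 1)) →
    ∃ b : W → ℕ, Fits2 (k + 1) M 100 b t dw ∧
      ∀ w, 21 / 20 * max (x w) τ * 2 ^ (k + 1) + 1 +
        ((b w * (2 ^ M * 100) : ℕ) : ℝ) * 2 ^ (2 * M + 2) * (21 / 20 * max y τ) ≤
          ((b w * (2 ^ M * 100) : ℕ) : ℝ)

end Pool.Agent.Work.MP_bf01b2_co.Sh
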