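import Pool.Agent.Work.MP_bf01b2_co.Sh.StmtsZ
import Pool.Agent.Work.MP_bf01b2_co.Sh.StmtsP2

/-!
# MP_bf01b2_co, THEOREM D (both bipartition classes at most `(1 - δ) 2 ^ n`): core and numbers

The same as `StCoZ`, `StNms2` with arbitrarily small losses. Every item `X` is a statement `StX`, file
`Sh/D_X.lean`, theorem `pr_X`, auxiliary lemmas in `namespace IDX`. Nobody waits for anybody.
-/

set_option autoImplicit false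

namespace Pool.Agent.Work.MP_bf01b2_co.Sh

open Classical

/-- [CoZD] (EASY-MEDIUM, copy of `Sh/P_CoZ.lean`) the typed core with the loss `1 + η`. (h : StEmT)
Proof. Copy `pr_CoZ` (the lemmas `IPCoZ.zb_inj, Ad_of, flp_of, classes, card_ne` can be imported) with
`r0` in place of `45`: choose `r0 ≥ 45` with `(1 / 2) ^ r0 ≤ η / 8` (`exists_pow_lt_of_lt_one`, then add
`45`); `exp z ≤ 1 + 2 z` for `0 ≤ z ≤ 1 / 2` (from `1 - z ≤ exp (- z)`), so `exp ((1/2) ^ r0) ≤ 1 + η / 4`.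
`m1 = 2 ^ 10 * ⌊aa r0⌋₊ + 1` depends on `η` only. `StEmT` with `r0`, `τ = 1 / 2`, `η / 4`,
`c0 = 1 / (8 * 2 ^ k)`, `am = τ / 2 ^ r0`; `n = R + r0`, `R0 = n0 + 2 * r0 + 100 * 2 ^ k` (`pr_CoZ` uses
`Rl.card ≥ n / 2` and `n = R + r0`, nothing else). The constant:
`(1 + η / 4) * exp ((1/2) ^ r0) ≤ (1 + η / 4) ^ 2 ≤ 1 + η` as `η ≤ 1`. -/
def StCoZD : Prop := ∀ η : ℝ, 0 < η → η ≤ 1 →
  ∃ m1 : ℕ, ∀ (k : ℕ) (W : Type) [Fintype W] (τ : ℝ), 1 ≤ k → 0 < τ → τ ≤ 1 →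
  ∃ R0 : ℕ, ∀ R : ℕ, R0 ≤ R → ∀ (H : Finset (List Bool)) (K : W → Finset (List Bool)),
  Bd.PrefClosed H → (H.card : ℝ) ≤ 2 ^ R → (∀ w, K w ⊆ H) →
  ∃ (Φ : List Bool → Vc R) (lm : List Bool → Vc m1) (sy : Fin R → Vc k) (N1 : ℕ), 0 < N1 ∧
    (∀ s : Vc k, s ≠ 0 → (Finset.univ.filter fun i => sy i = s).card = N1) ∧
    (∃ i, sy i = 0) ∧
    (∀ y e, y ++ [e] ∈ H → Ad (Φ y, lm y) (Φ (y ++ [e]), lm (y ++ [e]))) ∧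
    (∀ u ∈ H, ∀ v ∈ H, Φ u = Φ v → lm u = lm v → u = v) ∧
    (∀ w s x, s ≠ 0 → (ct1 sy Φ (K w) s x : ℝ) ≤
      (1 + η) * max (((K w).card : ℝ) / 2 ^ R) τ * N1) ∧
    ∀ s x, s ≠ 0 → (ct1 sy Φ H s x : ℝ) ≤ (1 + η) * max ((H.card : ℝ) / 2 ^ R) τ * N1

/-- [NmsD] (MEDIUM, adaptation of `Sh/P_Nms.lean`) choice of `k`, `τ` and the numbers of copies.
Proof. `P = 2 ^ M`, `Nt = ∑ w, (t w).card`, `ω = card W`, `Q = 2 ^ (k + 1)`. Choose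
`τ = δ / ((1 + Nt + ω) * (P ^ 2 * 2 ^ 14))` and `k` (a natural number) with
`k ≥ P ^ 4 * J * 2 ^ 30 * ((1 + Nt) * (1 + ω)) / δ` (so `Q ≥` the same). For `m = max (x w) τ`:
`b w = ⌈((1 + δ/100) * m * Q + 1) / ((1 - δ/100) * (P * J))⌉₊`, so
`(1 - δ/100) * (b w * (P * J)) ≥ (1 + δ/100) * m * Q + 1` and
`b w ≤ (1 + δ/40) * m * (Q / (P * J)) + 2`, because `(1 + δ/40) (1 - δ/100) ≥ 1 + δ/100` and
`1 ≤ (1 - δ/100) * (P * J)`. Second claim: `2 ^ (2 M + 2) * (1 + δ/100) * max y τ ≤ δ/100` as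
`max y τ * (P ^ 2 * 2 ^ 14) ≤ δ`. First claim: with `m ≤ x w + τ`,
`∑ w, 2 * b w * (J + 1) * Nw ≤ 2 (J + 1) / J * (1 + δ/40) * (Q / P) * (∑ x Nw + τ Nt) + 4 (J + 1) Nt`
`≤ (1 + δ/25) (1 - δ) Q + 2 (1 + δ/25) τ Nt Q + 8 J Nt` (`(J + 1) / J ≤ 1 + δ/100`), and
`(1 + δ/25) (1 - δ) ≤ 1 - 24/25 δ`; `2 * (card Ky * 2 ^ (2 M + 1)) = 4 P ^ 3 J ∑ b w ≤
4 P ^ 2 (1 + δ/40) (∑ x + τ ω) Q + 8 P ^ 3 J ω`, and `(∑ x + τ ω) P ^ 2 ≤ 5 δ / 2 ^ 14`. The sum of all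
small terms is at most `δ/10 * Q`. -/
def StNmsD : Prop := ∀ (δ : ℝ) (M J : ℕ) (W : Type) [Fintype W] (t : W → Finset (List Bool)),
  0 < δ → δ ≤ 1 → 1 ≤ M → 100 ≤ δ * J →
  ∃ (k : ℕ) (τ : ℝ), 0 < τ ∧ τ ≤ 1 ∧ ∀ (dw : W → ZMod 2) (x : W → ℝ) (y : ℝ),
    (∀ w, 0 ≤ x w) → 0 ≤ y → y * 2 ^ (2 * M + 14) ≤ δ → ∑ w, x w ≤ 4 * y →
    (∀ c : ZMod 2, ∑ w, x w * Nw t dw w c ≤ (1 - δ) * 2 ^ (M - 1)) →
    ∃ b : W → ℕ, Fits (k + 1) M J b t dw ∧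
      ∀ w, (1 + δ / 100) * max (x w) τ * 2 ^ (k + 1) + 1 +
        ((b w * (2 ^ M * J) : ℕ) : ℝ) * 2 ^ (2 * M + 2) * ((1 + δ / 100) * max y τ) ≤
          ((b w * (2 ^ M * J) : ℕ) : ℝ)

/-- [Nms2D] (EASY) the numbers for two sides. (h : StNmsD) Copy of `Sh/P2_Nms2.lean` (its lemmas
`IPNms2.nw_enc`, `IPNms2.fits_enc` can be imported). -/
def StNms2D : Prop := ∀ (δ : ℝ) (M J : ℕ) (W : Type) [Fintype W]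
  (t : W → Bool → Finset (List Bool)), 0 < δ → δ ≤ 1 → 1 ≤ M → 100 ≤ δ * J →
  ∃ (k : ℕ) (τ : ℝ), 0 < τ ∧ τ ≤ 1 ∧ ∀ (dw : W → ZMod 2) (x : W → ℝ) (y : ℝ),
    (∀ w, 0 ≤ x w) → 0 ≤ y → y * 2 ^ (2 * M + 14) ≤ δ → ∑ w, x w ≤ 4 * y →
    (∀ c : ZMod 2, ∑ w, x w * Nw2 t dw w c ≤ (1 - δ) * 2 ^ (M - 1)) →
    ∃ b : W → ℕ, Fits2 (k + 1) M J b t dw ∧
      ∀ w, (1 + δ / 100) * max (x w) τ * 2 ^ (k + 1) + 1 +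
        ((b w * (2 ^ M * J) : ℕ) : ℝ) * 2 ^ (2 * M + 2) * ((1 + δ / 100) * max y τ) ≤
          ((b w * (2 ^ M * J) : ℕ) : ℝ)

end Pool.Agent.Work.MP_bf01b2_co.Sh
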