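import Pool.Agent.Work.MP_bf01b2_co.Sh.DefsG

/-!
# MP_bf01b2_co, theorem SHALLOW: the tree side, statements

Every item `X` is a statement `StX`, file `Sh/I_X.lean`, theorem `pr_X`; the hypotheses named in the
docstring are other items (nobody waits).
-/

set_option autoImplicit false

namespace Pool.Agent.Work.MP_bf01b2_co.Sh

open Pool.Agent.Work.MP_bf01b2_co.Bd

open Classical

/-- [Sub] (EASY) subtrees. Proof. (1) `x = v ++ u` has `x.take v.length = v`, `x.drop v.length = u`;
conversely `x = x.take v.length ++ x.drop v.length`. (2) `v ++ u.take t = (v ++ u).take (v.length + t)`.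
(3) `u ↦ w ++ u` maps `sub T (v ++ w)` injectively into `sub T v`. (4) Membership in both sides is
`v ++ (w ++ u) ∈ T`. (5) clear. -/
def StSub : Prop := ∀ T : Finset (List Bool),
  (∀ v u, u ∈ sub T v ↔ v ++ u ∈ T) ∧
  (Bd.PrefClosed T → ∀ v, Bd.PrefClosed (sub T v)) ∧
  (∀ v w, (sub T (v ++ w)).card ≤ (sub T v).card) ∧
  (∀ v w, sub T (v ++ w) = sub (sub T v) w) ∧
  (∀ v ∈ T, ([] : List Bool) ∈ sub T v)

/-- [Crp] (EASY) the core is prefix closed. (hSub : StSub) Proof. (1) `v.take t` is `[]` or, for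
`v ≠ []` in the core, `S ≤ |sub T v| ≤ |sub T (v.take t)|` by (3) of `StSub` with
`v = v.take t ++ v.drop t`. (2), (3) clear (`T` nonempty and prefix closed contains `[]`; the core is
contained in `insert [] (hv S T)`). (4) by definition. -/
def StCrp : Prop := ∀ (S : ℕ) (T : Finset (List Bool)), Bd.PrefClosed T →
  Bd.PrefClosed (cor S T) ∧ cor S T ⊆ T ∧ (T.Nonempty → ([] : List Bool) ∈ cor S T) ∧
  (cor S T).card ≤ (hv S T).card + 1 ∧
  ∀ x ∈ T, x ∉ cor S T → (sub T x).card < S

/-- [Shp] (EASY) the shapes. Proof. (1) If `A` is prefix closed with less than `S` elements and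
`u ∈ A`, the `u.length + 1` prefixes of `u` are different elements of `A`, so `u.length < S` and
`u ∈ strs S` (`List.ofFn_get`). (2) by definition of `shp`. (3) `strs`: `x ∈ strs L` iff
`x.length ≤ L`; its cardinality is less than `2 ^ (L + 1)` (see `ha_card_strs` in `Bd/HA.lean`). -/
def StShp : Prop :=
  (∀ (S : ℕ) (A : Finset (List Bool)), A.Nonempty → Bd.PrefClosed A → A.card < S → A ∈ shp S) ∧
  (∀ (S : ℕ) (A : Finset (List Bool)), A ∈ shp S → A.Nonempty ∧ Bd.PrefClosed A ∧ A.card < S) ∧
  (∀ (L : ℕ) (x : List Bool), x ∈ strs L ↔ x.length ≤ L) ∧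
  ∀ L : ℕ, (strs L).card < 2 ^ (L + 1)

/-- [Hgt] (EASY) the longest core prefix. (hCrp : StCrp) Proof. Let `v` be in the core and
`v ++ [a]` not in the core. For `x = v ++ a :: w` the prefix `x.take t` is `v.take t`, in the core, if
`t ≤ v.length`; if `t > v.length` then `v ++ [a] = (x.take t).take (v.length + 1)`, so `x.take t` is
not in the core (it is prefix closed). So `Nat.findGreatest` gives `v.length`
(`Nat.findGreatest_eq_iff`). The second claim: for `x ∈ T`, `x ∉ cor S T`, put `t = ht S T x`; the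
prefix `x.take t` is in the core (`Nat.findGreatest_spec` with `t = 0`: `[]` is in the core), `t <
x.length` as `x.take x.length = x` is not in the core, and `x.take (t + 1)` is not in the core
(`Nat.findGreatest_is_greatest`); `x.take (t + 1) = x.take t ++ [x.getD t false]`. -/
def StHgt : Prop := ∀ (S : ℕ) (T : Finset (List Bool)), Bd.PrefClosed T →
  (∀ (v w : List Bool) (a : Bool), v ∈ cor S T → v ++ [a] ∉ cor S T →
    ht S T (v ++ a :: w) = v.length) ∧
  ∀ x ∈ T, x ∉ cor S T → ht S T x < x.length ∧ x.take (ht S T x) ∈ cor S T ∧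
    x.take (ht S T x) ++ [x.getD (ht S T x) false] ∉ cor S T ∧
    x.take (ht S T x) ++ [x.getD (ht S T x) false] ∈ T

/-- [Dcm] (EASY-MEDIUM) every vertex of `T` outside the core is either a child of a core vertex or
it lies below an item. (hSub : StSub) (hCrp : StCrp) (hShp : StShp) (hHgt : StHgt)
Proof. Put `t = ht S T x`, `v = x.take t`, `a = x.getD t false`. If `x.length = t + 1` then
`x = v ++ [a]`. Otherwise `x = v ++ [a, e] ++ u`, `e = x.getD (t + 1) false`, `u = x.drop (t + 2)`.
The vertex `v ++ [a, e]` is in `T`, and the type is `w = ((a, e), (sub T (v ++ [a, e]), v.length))`;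
the subtree is a shape by `StShp`: it is not empty, prefix closed, and it has less than `S` elements,
because `v ++ [a, e]` is not in the core (the core is prefix closed), see (5) of `StCrp`. -/
def StDcm : Prop := ∀ (S : ℕ) (T : Finset (List Bool)), Bd.PrefClosed T → ∀ x ∈ T, x ∉ cor S T →
  (∃ v a, v ∈ cor S T ∧ v ++ [a] ∉ cor S T ∧ v ++ [a] ∈ T ∧ x = v ++ [a]) ∨
  ∃ (w : Wt S) (v u : List Bool), v ∈ Kw S T w ∧ u ∈ w.2.1.1 ∧
    x = v ++ [w.1.1, w.1.2] ++ u

/-- [Unq] (EASY-MEDIUM) uniqueness of the decomposition. (hCrp : StCrp) (hHgt : StHgt) Proof.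
`ht S T (v ++ [a]) = v.length = ht S T (v ++ [a, e] ++ u)` by `StHgt`; so `x` determines the length of
`v`, hence `v`, `a`, and then `e`, `u` (`List.append_inj`); the shape is `sub T (v ++ [a, e])` and the
parity is the one of `v.length`, so the type `w` is determined (`Prod.ext`, `Subtype.ext`). A vertex
`v ++ [a] ++ ..` with `v ++ [a]` not in the core is not in the core. -/
def StUnq : Prop := ∀ (S : ℕ) (T : Finset (List Bool)), Bd.PrefClosed T →
  (∀ v v' a a', v ∈ cor S T → v' ∈ cor S T → v ++ [a] ∉ cor S T → v' ++ [a'] ∉ cor S T →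
    v ++ [a] = v' ++ [a'] → v = v' ∧ a = a') ∧
  (∀ (w w' : Wt S) (v v' u u' : List Bool), v ∈ Kw S T w → v' ∈ Kw S T w' →
    v ++ [w.1.1, w.1.2] ++ u = v' ++ [w'.1.1, w'.1.2] ++ u' → w = w' ∧ v = v' ∧ u = u') ∧
  (∀ (w : Wt S) (v v' u : List Bool) (a : Bool), v ∈ Kw S T w → v' ∈ cor S T →
    v' ++ [a] ∉ cor S T → v ++ [w.1.1, w.1.2] ++ u ≠ v' ++ [a]) ∧
  ∀ (w : Wt S) (v u : List Bool), v ∈ Kw S T w → v ++ [w.1.1, w.1.2] ++ u ∉ cor S T

/-- [Itm] (EASY) the number of items. Proof. For each pair `(a, e)` the sets `Kw S T w` with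
`w.1 = (a, e)` are disjoint (the shape and the parity are determined by `v`) and contained in the
core; there are four pairs. (`Finset.card_biUnion`, `Fintype.sum_prod_type`.) -/
def StItm : Prop := ∀ (S : ℕ) (T : Finset (List Bool)),
  ∑ w : Wt S, (Kw S T w).card ≤ 4 * (cor S T).card

/-- [Cnw] (EASY-MEDIUM) the vertices deep inside the pieces are counted once. (hSub : StSub)
(hUnq : StUnq)
Proof. The map `(w, v, u) ↦ v ++ [w.1.1, w.1.2] ++ u` (`v ∈ Kw S T w`, `u` in the shape of `w`) is
injective by the second claim of `StUnq` and has values in `T` (`u ∈ sub T (v ++ [..])`, `StSub`), and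
the length of the image is `v.length + 2 + u.length = w.2.2 + u.length` in `ZMod 2`.
(`Finset.card_sigma` and `Finset.card_le_card_of_injOn`.) -/
def StCnw : Prop := ∀ (S : ℕ) (T : Finset (List Bool)), Bd.PrefClosed T → ∀ (L : ℕ) (d : ZMod 2),
  ∑ w : Wt S, (Kw S T w).card *
      (w.2.1.1.filter fun u => L ≤ u.length ∧ w.2.2 + (u.length : ZMod 2) = d).card ≤
    (T.filter fun x => (x.length : ZMod 2) = d).card

/-- [Prt] (EASY) each bipartition class has at most about two thirds of the vertices. Proof. Let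
`E`, `O` be the numbers of vertices of even and odd length. A vertex of odd length is a child of the
even vertex `x.dropLast`, a vertex has at most two children: `O ≤ 2 E`. A vertex of even length is
`[]` or a child of an odd vertex: `E ≤ 2 O + 1`. So `3 O ≤ 2 (E + O)` and `3 E ≤ 2 (E + O) + 1`. -/
def StPrt : Prop := ∀ T : Finset (List Bool), Bd.PrefClosed T → ∀ d : ZMod 2,
  3 * (T.filter fun x => (x.length : ZMod 2) = d).card ≤ 2 * T.card + 1

/-! ### The graph side -/

/-- [TrR] (EASY, copy of `Tree.lean`) a tree of maximum degree at most three as a prefix closed set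
of strings, with a given root of degree at most two. Proof. As `treeStr`, with the given `r` in
place of the vertex found there; the statements `s r = []`, `(s v).length = G.dist v r` and
`s v = s (par v) ++ [b v]` are proved there. If `s u = s v ++ [e]` then `u ≠ r`, so
`s u = s (par u) ++ [b u]`, `s v = s (par u)`, `v = par u` and `G.Adj u (par u)`. -/
def StTrR : Prop := ∀ (V : Type) [Fintype V] [DecidableEq V] (G : SimpleGraph V)
  [DecidableRel G.Adj], G.IsTree → (∀ v, G.degree v ≤ 3) → ∀ r : V, G.degree r ≤ 2 →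
  ∃ s : V → List Bool, Function.Injective s ∧ (∀ (v : V) (k : ℕ), ∃ u, s u = (s v).take k) ∧
    (∀ u v, G.Adj u v → (∃ e, s v = s u ++ [e]) ∨ (∃ e, s u = s v ++ [e])) ∧
    (∀ u v e, s u = s v ++ [e] → G.Adj v u) ∧ s r = [] ∧ ∀ v, (s v).length = G.dist r v

/-- [Dsc] (EASY-MEDIUM) descendants in terms of the distance. Proof. Let `s u = s v ++ w`. (1)
`G.dist v u ≤ w.length` by induction on `w` from the right: if `w = w' ++ [e]` there is `u'` with
`s u' = (s u).take ((s v).length + w'.length) = s v ++ w'`, `G.Adj u' u`, and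
`G.dist v u ≤ G.dist v u' + 1` (`G` is connected: `SimpleGraph.Connected.dist_triangle`). (2) So
`G.dist r v + G.dist v u ≤ (s v).length + w.length = (s u).length = G.dist r u`, and the other
inequality is the triangle inequality. -/
def StDsc : Prop := ∀ (V : Type) [Fintype V] [DecidableEq V] (G : SimpleGraph V)
  [DecidableRel G.Adj] (r : V) (s : V → List Bool), G.IsTree →
  (∀ (v : V) (k : ℕ), ∃ u, s u = (s v).take k) →
  (∀ u v e, s u = s v ++ [e] → G.Adj v u) → (∀ v, (s v).length = G.dist r v) →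
  Function.Injective s →
  ∀ u v w, s u = s v ++ w → G.dist r u = G.dist r v + G.dist v u

/-- [Hvy] (EASY) heavy strings are heavy vertices. (hSub : StSub) (hDsc : StDsc) Proof. Let
`T = univ.image s`. The preimage `v` of `x ∈ hv S T` satisfies `S ≤ |sub T (s v)|`; every
`w ∈ sub T (s v)` gives the vertex `u` with `s u = s v ++ w`, which satisfies the equation of
`StDsc`, and `w ↦ u` is injective. So `x ↦ v` maps `hv S T` injectively into the set on the right. -/
def StHvy : Prop := ∀ (V : Type) [Fintype V] [DecidableEq V] (G : SimpleGraph V)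
  [DecidableRel G.Adj] (r : V) (s : V → List Bool), G.IsTree → Function.Injective s →
  (∀ (v : V) (k : ℕ), ∃ u, s u = (s v).take k) →
  (∀ u v e, s u = s v ++ [e] → G.Adj v u) → (∀ v, (s v).length = G.dist r v) → ∀ S : ℕ,
  (hv S (Finset.univ.image s)).card ≤ (Finset.univ.filter fun v : V =>
    S ≤ (Finset.univ.filter fun u : V => G.dist r u = G.dist r v + G.dist v u).card).card

/-- The theorem for prefix closed sets. -/
def StPre : Prop := ∃ ε : ℝ, 0 < ε ∧ ∀ S : ℕ, ∃ n0 : ℕ, ∀ n : ℕ, n0 ≤ n →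
  ∀ T : Finset (List Bool), Bd.PrefClosed T → T.card ≤ 2 ^ n →
  ((hv S T).card : ℝ) ≤ ε * 2 ^ n → ∃ c : List Bool → Fin (n + 1) → Bool,
    (∀ u ∈ T, ∀ v ∈ T, c u = c v → u = v) ∧
    ∀ v e, v ++ [e] ∈ T → hammingDist (c v) (c (v ++ [e])) = 1

/-- [Shl] (EASY) the first final statement: trees with few heavy vertices. (hPre : StPre)
(hTrR : StTrR) (hHvy : StHvy)
Proof. `ε`, `n0` from `StPre`; `s` from `StTrR`; `T = univ.image s` is prefix closed with
`|T| ≤ |V|`; `StHvy`; the homomorphism is `v ↦ c (s v)` as in `Fw/I_Cfn.lean`. -/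
def StShl : Prop := ∃ ε : ℝ, 0 < ε ∧ ∀ S : ℕ, ∃ n0 : ℕ, ∀ n : ℕ, n0 ≤ n →
  ∀ (V : Type) [Fintype V] [DecidableEq V] (G : SimpleGraph V) [DecidableRel G.Adj],
    G.IsTree → (∀ v : V, G.degree v ≤ 3) → Fintype.card V ≤ 2 ^ n → ∀ r : V, G.degree r ≤ 2 →
    ((Finset.univ.filter fun v : V => S ≤ (Finset.univ.filter fun u : V =>
      G.dist r u = G.dist r v + G.dist v u).card).card : ℝ) ≤ ε * 2 ^ n →
      ∃ f : G →g SimpleGraph.fromRel (fun x y : Fin (n + 1) → Bool => hammingDist x y = 1),
        Function.Injective f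

/-- [Hei] (EASY-MEDIUM) the second final statement: trees of height at most `n + C`.
(hPre : StPre) (hTrR : StTrR) (hShp : StShp) (hSub : StSub)
Proof. `ε` from `StPre`; choose `k` with `1 / 2 ^ k ≤ ε`; `S = 2 ^ (C + k + 1)`; `n0` from `StPre` for
this `S`, and `n ≥ max n0 k`. Let `s` be from `StTrR`, `T = univ.image s`; all strings in `T` have
length `≤ n + C`. If `x ∈ T` has length `≥ n - k` then all `u ∈ sub T x` have length `≤ C + k`, so
`|sub T x| ≤ |strs (C + k)| < S` and `x ∉ hv S T`. So `hv S T` consists of strings of length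
`≤ n - k - 1` (if `n = k` it is empty) and `|hv S T| < 2 ^ (n - k) ≤ ε 2 ^ n`. `StPre`, and the
homomorphism `v ↦ c (s v)` as in `Fw/I_Cfn.lean`. -/
def StHei : Prop := ∀ C : ℕ, ∃ n0 : ℕ, ∀ n : ℕ, n0 ≤ n →
  ∀ (V : Type) [Fintype V] [DecidableEq V] (G : SimpleGraph V) [DecidableRel G.Adj],
    G.IsTree → (∀ v : V, G.degree v ≤ 3) → Fintype.card V ≤ 2 ^ n → ∀ r : V, G.degree r ≤ 2 →
    (∀ v : V, G.dist r v ≤ n + C) →
      ∃ f : G →g SimpleGraph.fromRel (fun x y : Fin (n + 1) → Bool => hammingDist x y = 1),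
        Function.Injective f

end Pool.Agent.Work.MP_bf01b2_co.Sh
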