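import Pool.Agent.Work.MP_bf01b2_co.Sh.StmtsZ

/-!
# MP_bf01b2_co, shallow trees, item CoZ: the typed core with vectors over `ZMod 2`
-/

set_option autoImplicit false

namespace Pool.Agent.Work.MP_bf01b2_co.Sh

open Pool.Agent.Work.MP_bf01b2_co.Bd (aa)

open Pool.Agent.Work.MP_bf01b2_co.Fw (Emb Fib A1 Bx)

open Classical

namespace IPCoZ

/-- a bit as an element of `ZMod 2` -/
def zb (β : Bool) : ZMod 2 := if β then 1 else 0

theorem zb_inj : ∀ a b : Bool, zb a = zb b → a = b := by decide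

theorem zb_ne : ∀ a b : Bool, a ≠ b → zb b = zb a + 1 := by decide

theorem zb_dec : ∀ x : ZMod 2, zb (decide (x = 1)) = x := by decide

theorem zb_not : ∀ b : Bool, zb (!b) = zb b + 1 := by decide

theorem A1_single {n : ℕ} (x y : Fin n → Bool) (h : A1 x y) :
    ∃ i, (fun j => zb (y j)) = (fun j => zb (x j)) + (Pi.single i 1 : Vc n) := by
  obtain ⟨i, hi⟩ := h
  refine ⟨i, ?_⟩
  funext j
  rw [Pi.add_apply, Pi.single_apply]
  by_cases hj : j = i
  · rw [if_pos hj]
    exact zb_ne _ _ ((hi j).2 hj)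
  · rw [if_neg hj, add_zero]
    have h1 : x j = y j := not_not.1 (fun h' => hj ((hi j).1 h'))
    rw [h1]

theorem Ad_of {R M : ℕ} (x y : Fin R → Bool) (x' y' : Fin M → Bool)
    (h : Bx A1 A1 (x, x') (y, y')) :
    Ad ((fun j => zb (x j)), (fun j => zb (x' j)))
      ((fun j => zb (y j)), (fun j => zb (y' j))) := by
  rcases h with ⟨h1, h2⟩ | ⟨h1, h2⟩
  · obtain ⟨i, hi⟩ := A1_single _ _ h1
    have h2' : x' = y' := h2
    subst h2'
    exact Or.inl ⟨i, Prod.ext hi rfl⟩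
  · obtain ⟨i, hi⟩ := A1_single _ _ h2
    have h1' : x = y := h1
    subst h1'
    exact Or.inr ⟨i, Prod.ext rfl hi⟩

theorem flp_of {R : ℕ} (y : Fin R → Bool) (x : Vc R) (i : Fin R)
    (h : (fun j => zb (y j)) = x + Pi.single i 1) :
    y = flp i (fun j => decide (x j = 1)) := by
  funext j
  apply zb_inj
  have h1 := congrFun h j
  rw [Pi.add_apply, Pi.single_apply] at h1
  unfold flp
  by_cases hj : j = i
  · rw [if_pos hj] at h1 ⊢
    rw [zb_not, zb_dec]
    exact h1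
  · rw [if_neg hj] at h1 ⊢
    rw [zb_dec]
    rw [add_zero] at h1
    exact h1

theorem classes (k R : ℕ) (Rl : Finset (Fin R)) (N1 : ℕ)
    (h : Fintype.card {s : Vc k // s ≠ 0} * N1 < Rl.card) :
    ∃ sy : Fin R → Vc k, (∀ s, s ≠ 0 → (Finset.univ.filter fun i => sy i = s).card = N1) ∧
      (∃ i, sy i = 0) ∧ ∀ i, sy i ≠ 0 → i ∈ Rl := by
  have hc : Fintype.card ({s : Vc k // s ≠ 0} × Fin N1) < Fintype.card {i // i ∈ Rl} := by
    rw [Fintype.card_prod, Fintype.card_fin, Fintype.card_coe]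
    exact h
  obtain ⟨ι⟩ := Function.Embedding.nonempty_of_card_le hc.le
  have hex : ∃ y : {i // i ∈ Rl}, ∀ x, ι x ≠ y := by
    by_contra hcon
    push Not at hcon
    exact absurd (Fintype.card_le_of_surjective ι hcon) (not_le.2 hc)
  let sy : Fin R → Vc k := fun i =>
    if h : ∃ x, (ι x : Fin R) = i then (h.choose).1.1 else 0
  have h1 : ∀ x, sy (ι x) = x.1.1 := by
    intro x
    have hx : ∃ x', (ι x' : Fin R) = (ι x : Fin R) := ⟨x, rfl⟩
    have h3 : hx.choose = x := ι.injective (Subtype.ext hx.choose_spec)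
    have h4 : sy (ι x) = (hx.choose).1.1 := dif_pos hx
    rw [h4, h3]
  have h2 : ∀ i, (¬ ∃ x, (ι x : Fin R) = i) → sy i = 0 := fun i hi => dif_neg hi
  refine ⟨sy, ?_, ?_, ?_⟩
  · intro s hs
    have h3 : (Finset.univ.filter fun i => sy i = s) =
        Finset.univ.image (fun j : Fin N1 => (ι (⟨s, hs⟩, j) : Fin R)) := by
      ext i
      rw [Finset.mem_filter, Finset.mem_image]
      constructor
      · rintro ⟨-, hi⟩
        by_cases hx : ∃ x, (ι x : Fin R) = i
        · obtain ⟨x, rfl⟩ := hx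
          rw [h1] at hi
          refine ⟨x.2, Finset.mem_univ _, ?_⟩
          have h5 : ((⟨s, hs⟩ : {s : Vc k // s ≠ 0}), x.2) = x :=
            Prod.ext (Subtype.ext hi.symm) rfl
          rw [h5]
        · exact absurd ((h2 i hx).symm.trans hi).symm hs
      · rintro ⟨j, -, rfl⟩
        exact ⟨Finset.mem_univ _, h1 _⟩
    rw [h3, Finset.card_image_of_injective, Finset.card_univ, Fintype.card_fin]
    intro j j' hjj
    have h4 := ι.injective (Subtype.ext hjj)
    exact (Prod.ext_iff.1 h4).2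
  · obtain ⟨y, hy⟩ := hex
    exact ⟨y, h2 _ (fun ⟨x, hx⟩ => hy x (Subtype.ext hx))⟩
  · intro i hi
    by_contra hcon
    exact hi (h2 i (fun ⟨x, hx⟩ => hcon (hx ▸ (ι x).2)))

theorem card_ne (k : ℕ) : Fintype.card {s : Vc k // s ≠ 0} ≤ 2 ^ k := by
  have h1 : Fintype.card (Vc k) = 2 ^ k := by
    rw [Fintype.card_fun, Fintype.card_fin, ZMod.card]
  rw [← h1]
  exact Fintype.card_subtype_le _

theorem exp_le : Real.exp ((1 / 2) ^ 45) ≤ 50 / 49 := by
  have h1 : (1 : ℝ) - (1 / 2) ^ 45 ≤ Real.exp (-(1 / 2) ^ 45) := Real.one_sub_le_exp_neg _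
  have h2 : ((1 : ℝ) / 2) ^ 45 ≤ 1 / 50 := by norm_num
  have h3 : Real.exp ((1 / 2) ^ 45) * Real.exp (-(1 / 2) ^ 45) = 1 := by
    rw [← Real.exp_add, add_neg_cancel, Real.exp_zero]
  have h4 := Real.exp_pos ((1 / 2) ^ 45)
  have h5 : (49 / 50 : ℝ) ≤ Real.exp (-(1 / 2) ^ 45) := by linarith
  have h6 : Real.exp ((1 / 2) ^ 45) * (49 / 50) ≤ 1 :=
    (mul_le_mul_of_nonneg_left h5 h4.le).trans h3.le
  linarith

end IPCoZ

open IPCoZ in
/-- item CoZ -/
theorem pr_CoZ (h : StEmT) : StCoZ := by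
  refine ⟨2 ^ 10 * ⌊aa 45⌋₊ + 1, ?_⟩
  intro k W _ τ hk hτ hτ1
  have hq : (0 : ℝ) < 2 ^ k := by positivity
  have hq1 : (1 : ℝ) ≤ 2 ^ k := one_le_pow₀ (by norm_num)
  obtain ⟨n0, hn0⟩ := h 45 (Fintype.card (Option W)) (Fintype.card {s : Vc k // s ≠ 0}) (1 / 2)
    (1 / 100) (1 / (8 * 2 ^ k)) (τ / 2 ^ 45) le_rfl (by norm_num) (by norm_num) (by positivity)
    (by positivity)
  refine ⟨n0 + 100 * 2 ^ k, ?_⟩
  intro R hR
  obtain ⟨n, hn45, rfl⟩ : ∃ n, 45 ≤ n ∧ n - 45 = R := ⟨R + 45, by omega, by omega⟩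
  intro H K hH hHc hKH
  obtain ⟨-, Rl, hRl, hmain⟩ := hn0 n (by omega)
  -- the number of elements of a class
  set c : ℕ := Rl.card with hc
  have hcpos : 0 < c := by omega
  set N1 : ℕ := (c - 1) / 2 ^ k with hN1
  have hN1a : 2 ^ k * N1 ≤ c - 1 := Nat.mul_div_le _ _
  have hN1b : c - 1 < 2 ^ k * (N1 + 1) := Nat.lt_mul_div_succ _ (by positivity)
  have hnR : (100 : ℝ) * 2 ^ k ≤ n := by
    have : 100 * 2 ^ k ≤ n := by omega
    exact_mod_cast this
  have hcR : (n : ℝ) ≤ 2 * c := by exact_mod_cast hRl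
  have hNR : (c : ℝ) < 2 ^ k * N1 + 2 ^ k + 1 := by
    have : c < 2 ^ k * N1 + 2 ^ k + 1 := by
      have h1 : 2 ^ k * (N1 + 1) = 2 ^ k * N1 + 2 ^ k := by ring
      omega
    exact_mod_cast this
  have hc0 : 1 / (8 * 2 ^ k) * (n : ℝ) ≤ N1 := by
    rw [div_mul_eq_mul_div, div_le_iff₀ (by positivity)]
    have e : (N1 : ℝ) * (8 * 2 ^ k) = 8 * (2 ^ k * N1) := by ring
    rw [e]
    linarith
  have hN1pos : 0 < N1 := by
    have h1 : (0 : ℝ) < 1 / (8 * 2 ^ k) * (n : ℝ) := by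
      have : (0 : ℝ) < n := by linarith
      positivity
    have h2 : (0 : ℝ) < N1 := lt_of_lt_of_le h1 hc0
    exact_mod_cast h2
  obtain ⟨sy, hsy1, hsy2, hsy3⟩ := classes k (n - 45) Rl N1 (by
    calc Fintype.card {s : Vc k // s ≠ 0} * N1 ≤ 2 ^ k * N1 := Nat.mul_le_mul_right _ (card_ne k)
      _ < Rl.card := by omega)
  -- the types
  set eW : Option W ≃ Fin (Fintype.card (Option W)) := Fintype.equivFin _ with heW
  set eS : {s : Vc k // s ≠ 0} ≃ Fin (Fintype.card {s : Vc k // s ≠ 0}) := Fintype.equivFin _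
    with heS
  set KK : Option W → Finset (List Bool) := fun o => o.elim H K with hKK
  have hKKH : ∀ o, KK o ⊆ H := by
    intro o
    cases o with
    | none => exact Finset.Subset.refl H
    | some w => exact hKH w
  have hpow : (2 : ℝ) ^ n = 2 ^ (n - 45) * 2 ^ 45 := by
    rw [← pow_add]
    congr 1
    omega
  have hRpos : (0 : ℝ) < 2 ^ (n - 45) := by positivity
  set mx : Option W → ℝ := fun o => max (((KK o).card : ℝ) / 2 ^ (n - 45)) τ with hmx
  have hKKc : ∀ o, ((KK o).card : ℝ) ≤ 2 ^ (n - 45) := fun o =>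
    le_trans (by exact_mod_cast Finset.card_le_card (hKKH o)) hHc
  have hmx1 : ∀ o, mx o ≤ 1 := fun o => max_le ((div_le_one hRpos).2 (hKKc o)) hτ1
  have hmx0 : ∀ o, 0 < mx o := fun o => lt_of_lt_of_le hτ (le_max_right _ _)
  obtain ⟨Φ, ψ, hEmb, -, hb⟩ := hmain H (fun t => KK (eW.symm t))
    (fun t => mx (eW.symm t) / 2 ^ 45)
    (fun f => Finset.univ.filter fun i => sy i = (eS.symm f).1) (2 ^ 10 * ⌊aa 45⌋₊ + 1) hH
    (by
      rw [hpow]
      have h1 : (0 : ℝ) < 2 ^ (n - 45) := hRpos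
      nlinarith)
    (fun t => hKKH _)
    (fun t => div_le_div_of_nonneg_right (le_max_right _ _) (by positivity))
    (fun t => by
      rw [div_le_one (by positivity)]
      refine (hmx1 _).trans ?_
      norm_num)
    (fun t => by
      rw [hpow]
      have h1 : mx (eW.symm t) / 2 ^ 45 * (2 ^ (n - 45) * 2 ^ 45) =
          mx (eW.symm t) * 2 ^ (n - 45) := by
        field_simp
      rw [h1]
      have h2 : ((KK (eW.symm t)).card : ℝ) / 2 ^ (n - 45) ≤ mx (eW.symm t) := le_max_left _ _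
      rw [div_le_iff₀ hRpos] at h2
      exact h2)
    (fun f i hi => by
      rw [Finset.mem_filter] at hi
      refine hsy3 i ?_
      rw [hi.2]
      exact (eS.symm f).2)
    (fun f => by
      rw [hsy1 _ (eS.symm f).2]
      exact hc0)
    (Nat.lt_succ_self _)
  have hbound : ∀ (o : Option W) (s : Vc k) (x : Vc (n - 45)), s ≠ 0 →
      (ct1 sy (fun v j => zb (Φ v j)) (KK o) s x : ℝ) ≤ 21 / 20 * mx o * N1 := by
    intro o s x hs
    have h1 := hb (eW o) (eS ⟨s, hs⟩) (fun j => decide (x j = 1))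
    simp only [Equiv.symm_apply_apply] at h1
    rw [hsy1 s hs] at h1
    have h2 : ct1 sy (fun v j => zb (Φ v j)) (KK o) s x ≤
        ∑ i ∈ Finset.univ.filter (fun i => sy i = s),
          ((KK o).filter fun v => Φ v = flp i (fun j => decide (x j = 1))).card := by
      unfold ct1
      refine Finset.sum_le_sum fun i _ => Finset.card_le_card ?_
      intro v hv
      rw [Finset.mem_filter] at hv ⊢
      exact ⟨hv.1, flp_of _ _ _ hv.2⟩
    have h3 : (ct1 sy (fun v j => zb (Φ v j)) (KK o) s x : ℝ) ≤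
        ((∑ i ∈ Finset.univ.filter (fun i => sy i = s),
          ((KK o).filter fun v => Φ v = flp i (fun j => decide (x j = 1))).card : ℕ) : ℝ) := by
      exact_mod_cast h2
    refine (h3.trans h1).trans ?_
    have e : (1 + 1 / 100) * Real.exp ((1 / 2) ^ 45) * (mx o / 2 ^ 45) * 2 ^ 45 * (N1 : ℝ) =
        (101 / 100 * Real.exp ((1 / 2) ^ 45)) * (mx o * N1) := by
      field_simp
      ring
    rw [e]
    have h4 : 101 / 100 * Real.exp ((1 / 2) ^ 45) ≤ 21 / 20 := by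
      have := exp_le
      linarith
    have h5 : 0 ≤ mx o * N1 := mul_nonneg (hmx0 o).le (Nat.cast_nonneg _)
    calc (101 / 100 * Real.exp ((1 / 2) ^ 45)) * (mx o * N1) ≤ 21 / 20 * (mx o * N1) :=
          mul_le_mul_of_nonneg_right h4 h5
      _ = 21 / 20 * mx o * N1 := by ring
  refine ⟨fun v j => zb (Φ v j), fun v j => zb (ψ v j), sy, N1, hN1pos, hsy1, hsy2, ?_, ?_, ?_,
    ?_⟩
  · intro y e hy
    exact Ad_of _ _ _ _ (hEmb.adj y e hy)
  · intro u hu v hv h1 h2
    refine hEmb.inj u hu v hv ?_ ?_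
    · funext j
      exact zb_inj _ _ (congrFun h1 j)
    · funext j
      exact zb_inj _ _ (congrFun h2 j)
  · intro w s x hs
    exact hbound (some w) s x hs
  · intro s x hs
    exact hbound none s x hs

end Pool.Agent.Work.MP_bf01b2_co.Sh
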