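import Pool.Agent.Work.MP_bf01b2_co.Sh.StmtsD
import Pool.Agent.Work.MP_bf01b2_co.Sh.P_CoZ

/-!
# MP_bf01b2_co, shallow trees, item CoZD: the typed core with an arbitrarily small loss
-/

set_option autoImplicit false

namespace Pool.Agent.Work.MP_bf01b2_co.Sh

open Pool.Agent.Work.MP_bf01b2_co.Bd (aa)

open Pool.Agent.Work.MP_bf01b2_co.Fw (Emb Fib A1 Bx)

open Classical

namespace IDCoZD

theorem exp_le' (z : ℝ) (h0 : 0 ≤ z) (h1 : z ≤ 1 / 2) : Real.exp z ≤ 1 + 2 * z := by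
  have h2 : (1 : ℝ) - z ≤ Real.exp (-z) := Real.one_sub_le_exp_neg _
  have h3 : Real.exp z * Real.exp (-z) = 1 := by
    rw [← Real.exp_add, add_neg_cancel, Real.exp_zero]
  have h4 := Real.exp_pos z
  have h6 : Real.exp z * (1 - z) ≤ 1 := (mul_le_mul_of_nonneg_left h2 h4.le).trans h3.le
  have h5 : 1 ≤ (1 + 2 * z) * (1 - z) := by nlinarith
  have h7 : (0 : ℝ) < 1 - z := by linarith
  exact le_of_mul_le_mul_right (h6.trans h5) h7

theorem choose_r (η : ℝ) (h0 : 0 < η) : ∃ r0 : ℕ, 45 ≤ r0 ∧ ((1 : ℝ) / 2) ^ r0 ≤ η / 8 := by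
  obtain ⟨m, hm⟩ := exists_pow_lt_of_lt_one (show (0 : ℝ) < η / 8 by positivity)
    (show ((1 : ℝ) / 2) < 1 by norm_num)
  refine ⟨m + 45, by omega, le_trans ?_ hm.le⟩
  exact pow_le_pow_of_le_one (by norm_num) (by norm_num) (by omega)

theorem const_le (η : ℝ) (r0 : ℕ) (h0 : 0 < η) (h1 : η ≤ 1) (h : ((1 : ℝ) / 2) ^ r0 ≤ η / 8) :
    (1 + η / 4) * Real.exp ((1 / 2) ^ r0) ≤ 1 + η := by
  have h2 := exp_le' ((1 / 2) ^ r0) (by positivity) (by linarith)
  have h3 : Real.exp ((1 / 2) ^ r0) ≤ 1 + η / 4 := by linarith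
  calc (1 + η / 4) * Real.exp ((1 / 2) ^ r0) ≤ (1 + η / 4) * (1 + η / 4) :=
        mul_le_mul_of_nonneg_left h3 (by linarith)
    _ ≤ 1 + η := by nlinarith

end IDCoZD

open IPCoZ IDCoZD in
/-- item CoZD -/
theorem pr_CoZD (h : StEmT) : StCoZD := by
  intro η hη hη1
  obtain ⟨r0, hr45, hr0⟩ := choose_r η hη
  have hconst := const_le η r0 hη hη1 hr0
  have h2r : (2 : ℝ) ≤ 2 ^ r0 := by
    calc (2 : ℝ) = 2 ^ 1 := (pow_one _).symm
      _ ≤ 2 ^ r0 := pow_le_pow_right₀ (by norm_num) (by omega)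
  refine ⟨2 ^ 10 * ⌊aa r0⌋₊ + 1, ?_⟩
  intro k W _ τ hk hτ hτ1
  have hq : (0 : ℝ) < 2 ^ k := by positivity
  have hq1 : (1 : ℝ) ≤ 2 ^ k := one_le_pow₀ (by norm_num)
  obtain ⟨n0, hn0⟩ := h r0 (Fintype.card (Option W)) (Fintype.card {s : Vc k // s ≠ 0}) (1 / 2)
    (η / 4) (1 / (8 * 2 ^ k)) (τ / 2 ^ r0) hr45 (by norm_num) (by positivity) (by positivity)
    (by positivity)
  refine ⟨n0 + 2 * r0 + 100 * 2 ^ k, ?_⟩
  intro R hR
  obtain ⟨n, hn45, rfl⟩ : ∃ n, r0 ≤ n ∧ n - r0 = R := ⟨R + r0, by omega, by omega⟩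
  intro H K hH hHc hKH
  obtain ⟨-, Rl, hRl, hmain⟩ := hn0 n (by omega)
  -- the number of elements of a class
  set c : ℕ := Rl.card with hc
  have hcpos : 0 < c := by omega
  set N1 : ℕ := (c - 1) / 2 ^ k with hN1
  have hN1a : 2 ^ k * N1 ≤ c - 1 := Nat.mul_div_le _ _
  have hN1b : c - 1 < 2 ^ k * (N1 + 1) := Nat.lt_mul_div_succ _ (by positivity)
  have hnR : (100 : ℝ) * 2 ^ k ≤ n := by
    have : 100 * 2 ^ k ≤ n := by omega
    exact_mod_cast this
  have hcR : (n : ℝ) ≤ 2 * c := by exact_mod_cast hRl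
  have hNR : (c : ℝ) < 2 ^ k * N1 + 2 ^ k + 1 := by
    have : c < 2 ^ k * N1 + 2 ^ k + 1 := by
      have h1 : 2 ^ k * (N1 + 1) = 2 ^ k * N1 + 2 ^ k := by ring
      omega
    exact_mod_cast this
  have hc0 : 1 / (8 * 2 ^ k) * (n : ℝ) ≤ N1 := by
    rw [div_mul_eq_mul_div, div_le_iff₀ (by positivity)]
    have e : (N1 : ℝ) * (8 * 2 ^ k) = 8 * (2 ^ k * N1) := by ring
    rw [e]
    linarith
  have hN1pos : 0 < N1 := by
    have h1 : (0 : ℝ) < 1 / (8 * 2 ^ k) * (n : ℝ) := by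
      have : (0 : ℝ) < n := by linarith
      positivity
    have h2 : (0 : ℝ) < N1 := lt_of_lt_of_le h1 hc0
    exact_mod_cast h2
  obtain ⟨sy, hsy1, hsy2, hsy3⟩ := classes k (n - r0) Rl N1 (by
    calc Fintype.card {s : Vc k // s ≠ 0} * N1 ≤ 2 ^ k * N1 := Nat.mul_le_mul_right _ (card_ne k)
      _ < Rl.card := by omega)
  -- the types
  set eW : Option W ≃ Fin (Fintype.card (Option W)) := Fintype.equivFin _ with heW
  set eS : {s : Vc k // s ≠ 0} ≃ Fin (Fintype.card {s : Vc k // s ≠ 0}) := Fintype.equivFin _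
    with heS
  set KK : Option W → Finset (List Bool) := fun o => o.elim H K with hKK
  have hKKH : ∀ o, KK o ⊆ H := by
    intro o
    cases o with
    | none => exact Finset.Subset.refl H
    | some w => exact hKH w
  have hpow : (2 : ℝ) ^ n = 2 ^ (n - r0) * 2 ^ r0 := by
    rw [← pow_add]
    congr 1
    omega
  have hRpos : (0 : ℝ) < 2 ^ (n - r0) := by positivity
  set mx : Option W → ℝ := fun o => max (((KK o).card : ℝ) / 2 ^ (n - r0)) τ with hmx
  have hKKc : ∀ o, ((KK o).card : ℝ) ≤ 2 ^ (n - r0) := fun o =>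
    le_trans (by exact_mod_cast Finset.card_le_card (hKKH o)) hHc
  have hmx1 : ∀ o, mx o ≤ 1 := fun o => max_le ((div_le_one hRpos).2 (hKKc o)) hτ1
  have hmx0 : ∀ o, 0 < mx o := fun o => lt_of_lt_of_le hτ (le_max_right _ _)
  obtain ⟨Φ, ψ, hEmb, -, hb⟩ := hmain H (fun t => KK (eW.symm t))
    (fun t => mx (eW.symm t) / 2 ^ r0)
    (fun f => Finset.univ.filter fun i => sy i = (eS.symm f).1) (2 ^ 10 * ⌊aa r0⌋₊ + 1) hH
    (by
      rw [hpow]
      have h1 : (0 : ℝ) < 2 ^ (n - r0) := hRpos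
      nlinarith)
    (fun t => hKKH _)
    (fun t => div_le_div_of_nonneg_right (le_max_right _ _) (by positivity))
    (fun t => by
      rw [div_le_one (by positivity)]
      refine (hmx1 _).trans ?_
      linarith)
    (fun t => by
      rw [hpow]
      have h1 : mx (eW.symm t) / 2 ^ r0 * (2 ^ (n - r0) * 2 ^ r0) =
          mx (eW.symm t) * 2 ^ (n - r0) := by
        field_simp
      rw [h1]
      have h2 : ((KK (eW.symm t)).card : ℝ) / 2 ^ (n - r0) ≤ mx (eW.symm t) := le_max_left _ _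
      rw [div_le_iff₀ hRpos] at h2
      exact h2)
    (fun f i hi => by
      rw [Finset.mem_filter] at hi
      refine hsy3 i ?_
      rw [hi.2]
      exact (eS.symm f).2)
    (fun f => by
      rw [hsy1 _ (eS.symm f).2]
      exact hc0)
    (Nat.lt_succ_self _)
  have hbound : ∀ (o : Option W) (s : Vc k) (x : Vc (n - r0)), s ≠ 0 →
      (ct1 sy (fun v j => zb (Φ v j)) (KK o) s x : ℝ) ≤ (1 + η) * mx o * N1 := by
    intro o s x hs
    have h1 := hb (eW o) (eS ⟨s, hs⟩) (fun j => decide (x j = 1))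
    simp only [Equiv.symm_apply_apply] at h1
    rw [hsy1 s hs] at h1
    have h2 : ct1 sy (fun v j => zb (Φ v j)) (KK o) s x ≤
        ∑ i ∈ Finset.univ.filter (fun i => sy i = s),
          ((KK o).filter fun v => Φ v = flp i (fun j => decide (x j = 1))).card := by
      unfold ct1
      refine Finset.sum_le_sum fun i _ => Finset.card_le_card ?_
      intro v hv
      rw [Finset.mem_filter] at hv ⊢
      exact ⟨hv.1, flp_of _ _ _ hv.2⟩
    have h3 : (ct1 sy (fun v j => zb (Φ v j)) (KK o) s x : ℝ) ≤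
        ((∑ i ∈ Finset.univ.filter (fun i => sy i = s),
          ((KK o).filter fun v => Φ v = flp i (fun j => decide (x j = 1))).card : ℕ) : ℝ) := by
      exact_mod_cast h2
    refine (h3.trans h1).trans ?_
    have e : (1 + η / 4) * Real.exp ((1 / 2) ^ r0) * (mx o / 2 ^ r0) * 2 ^ r0 * (N1 : ℝ) =
        ((1 + η / 4) * Real.exp ((1 / 2) ^ r0)) * (mx o * N1) := by
      field_simp
    rw [e]
    have h4 := hconst
    have h5 : 0 ≤ mx o * N1 := mul_nonneg (hmx0 o).le (Nat.cast_nonneg _)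
    calc ((1 + η / 4) * Real.exp ((1 / 2) ^ r0)) * (mx o * N1) ≤ (1 + η) * (mx o * N1) :=
          mul_le_mul_of_nonneg_right h4 h5
      _ = (1 + η) * mx o * N1 := by ring
  refine ⟨fun v j => zb (Φ v j), fun v j => zb (ψ v j), sy, N1, hN1pos, hsy1, hsy2, ?_, ?_, ?_,
    ?_⟩
  · intro y e hy
    exact Ad_of _ _ _ _ (hEmb.adj y e hy)
  · intro u hu v hv h1 h2
    refine hEmb.inj u hu v hv ?_ ?_
    · funext j
      exact zb_inj _ _ (congrFun h1 j)
    · funext j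
      exact zb_inj _ _ (congrFun h2 j)
  · intro w s x hs
    exact hbound (some w) s x hs
  · intro s x hs
    exact hbound none s x hs

end Pool.Agent.Work.MP_bf01b2_co.Sh
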