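import Pool.Agent.Work.MP_bf01b2_co.Sh.StmtsD

/-!
# MP_bf01b2_co, theorem D, item NmsD: the choice of the numbers with a small loss
-/

set_option autoImplicit false

namespace Pool.Agent.Work.MP_bf01b2_co.Sh

open Classical

namespace IDNmsD

/-- the ceiling -/
theorem ceil_facts (δ P J Q m : ℝ) (hδ : 0 < δ) (hδ1 : δ ≤ 1) (hP : 1 ≤ P) (hJ : 100 ≤ J)
    (hQ : 0 ≤ Q) (hm : 0 ≤ m) :
    ∃ b : ℕ, (1 + δ / 100) * m * Q + 1 ≤ (1 - δ / 100) * (b * (P * J)) ∧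
      (b : ℝ) ≤ (1 + δ / 40) * m * (Q / (P * J)) + 2 := by
  have hP0 : 0 < P := by linarith
  have hJ0 : 0 < J := by linarith
  have hPJ : 100 ≤ P * J := by nlinarith
  have hc : 0 < (1 - δ / 100) * (P * J) := by
    apply mul_pos _ (by positivity)
    linarith
  have hmQ : 0 ≤ m * Q := mul_nonneg hm hQ
  have hz0 : 0 ≤ ((1 + δ / 100) * m * Q + 1) / ((1 - δ / 100) * (P * J)) := by positivity
  refine ⟨⌈((1 + δ / 100) * m * Q + 1) / ((1 - δ / 100) * (P * J))⌉₊, ?_, ?_⟩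
  · have h := Nat.le_ceil (((1 + δ / 100) * m * Q + 1) / ((1 - δ / 100) * (P * J)))
    rw [div_le_iff₀ hc] at h
    linarith
  · have h := Nat.ceil_lt_add_one hz0
    have h2 : ((1 + δ / 100) * m * Q + 1) / ((1 - δ / 100) * (P * J)) ≤
        (1 + δ / 40) * m * (Q / (P * J)) + 1 := by
      rw [div_le_iff₀ hc]
      have h3 : ((1 + δ / 40) * m * (Q / (P * J)) + 1) * ((1 - δ / 100) * (P * J)) =
          (1 + δ / 40) * (1 - δ / 100) * (m * Q) + (1 - δ / 100) * (P * J) := by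
        field_simp
      rw [h3]
      have h4 : 1 + δ / 100 ≤ (1 + δ / 40) * (1 - δ / 100) := by nlinarith
      have h5 : (1 + δ / 100) * (m * Q) ≤ (1 + δ / 40) * (1 - δ / 100) * (m * Q) :=
        mul_le_mul_of_nonneg_right h4 hmQ
      have h6 : 1 ≤ (1 - δ / 100) * (P * J) := by nlinarith
      linarith
    linarith

/-- the final inequality -/
theorem fin (δ P J Q τ Nt om y SN SX SXN : ℝ) (hδ : 0 < δ) (hδ1 : δ ≤ 1) (hP : 1 ≤ P)
    (hJ : 100 ≤ J) (hδJ : 100 ≤ δ * J) (hNt : 0 ≤ Nt) (hom : 0 ≤ om) (hτ : 0 ≤ τ)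
    (hQ : P ^ 4 * J * 2 ^ 30 * ((1 + Nt) * (1 + om)) ≤ δ * Q)
    (hτN : τ * (Nt + om) * (P ^ 2 * 2 ^ 14) ≤ δ)
    (hyP : y * (P ^ 2 * 2 ^ 14) ≤ δ) (hSX : SX ≤ 4 * y) (hSN : SN ≤ Nt)
    (hSXN : SXN ≤ (1 - δ) * (P / 2)) :
    2 * (J + 1) * ((1 + δ / 40) * (SXN + τ * SN) * (Q / (P * J)) + 2 * SN) +
      4 * P ^ 3 * J * ((1 + δ / 40) * (SX + τ * om) * (Q / (P * J)) + 2 * om) ≤ Q := by
  have hP0 : 0 < P := by linarith
  have hJ0 : 0 < J := by linarith
  have hQδ : 0 ≤ δ * Q := le_trans (by positivity) hQ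
  have hQ0 : 0 ≤ Q := by
    by_contra hc
    push Not at hc
    have := mul_neg_of_pos_of_neg hδ hc
    linarith
  have hP2 : 1 ≤ P ^ 2 := one_le_pow₀ hP
  -- first sum
  have hτN1 : τ * Nt * 2 ^ 14 ≤ δ := by
    have h1 : τ * Nt * 2 ^ 14 ≤ τ * (Nt + om) * (P ^ 2 * 2 ^ 14) := by
      have h2 : τ * Nt ≤ τ * (Nt + om) := by
        apply mul_le_mul_of_nonneg_left _ hτ; linarith
      calc τ * Nt * 2 ^ 14 ≤ τ * (Nt + om) * 2 ^ 14 := by
            apply mul_le_mul_of_nonneg_right h2; norm_num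
        _ ≤ τ * (Nt + om) * (P ^ 2 * 2 ^ 14) := by
            apply mul_le_mul_of_nonneg_left _ (by positivity)
            nlinarith
    linarith
  have hQ1 : 2 ^ 30 * (J * Nt) ≤ δ * Q := by
    refine le_trans ?_ hQ
    have h1 : (1 : ℝ) ≤ P ^ 4 := one_le_pow₀ hP
    have h2 : Nt ≤ (1 + Nt) * (1 + om) := by nlinarith [mul_nonneg hNt hom]
    calc 2 ^ 30 * (J * Nt) ≤ 2 ^ 30 * (J * ((1 + Nt) * (1 + om))) := by
          apply mul_le_mul_of_nonneg_left _ (by norm_num)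
          exact mul_le_mul_of_nonneg_left h2 hJ0.le
      _ = 1 * (J * 2 ^ 30 * ((1 + Nt) * (1 + om))) := by ring
      _ ≤ P ^ 4 * (J * 2 ^ 30 * ((1 + Nt) * (1 + om))) := by
          apply mul_le_mul_of_nonneg_right h1 (by positivity)
      _ = _ := by ring
  have hQ2 : 2 ^ 30 * (P ^ 3 * J * om) ≤ δ * Q := by
    refine le_trans ?_ hQ
    have h1 : P ^ 3 ≤ P ^ 4 := pow_le_pow_right₀ hP (by norm_num)
    have h2 : om ≤ (1 + Nt) * (1 + om) := by nlinarith [mul_nonneg hNt hom]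
    calc 2 ^ 30 * (P ^ 3 * J * om) = 2 ^ 30 * J * (P ^ 3 * om) := by ring
      _ ≤ 2 ^ 30 * J * (P ^ 4 * ((1 + Nt) * (1 + om))) := by
          apply mul_le_mul_of_nonneg_left _ (by positivity)
          exact mul_le_mul h1 h2 hom (by positivity)
      _ = _ := by ring
  have s1 : 2 * (J + 1) * ((1 + δ / 40) * (SXN + τ * SN) * (Q / (P * J)) + 2 * SN) ≤
      (1 - 24 / 25 * δ) * Q + δ / 100 * Q := by
    have hJ1 : J + 1 ≤ (1 + δ / 100) * J := by linarith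
    have hA : SXN + τ * SN ≤ (1 - δ) * (P / 2) + τ * Nt := by
      have : τ * SN ≤ τ * Nt := mul_le_mul_of_nonneg_left hSN hτ
      linarith
    have hA0 : 0 ≤ (1 - δ) * (P / 2) + τ * Nt := by
      have : 0 ≤ (1 - δ) * (P / 2) := mul_nonneg (by linarith) (by linarith)
      positivity
    have hQPJ : 0 ≤ Q / (P * J) := by positivity
    have h1 : (1 + δ / 40) * (SXN + τ * SN) * (Q / (P * J)) + 2 * SN ≤
        (1 + δ / 40) * ((1 - δ) * (P / 2) + τ * Nt) * (Q / (P * J)) + 2 * Nt := by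
      have h2 : (1 + δ / 40) * (SXN + τ * SN) ≤ (1 + δ / 40) * ((1 - δ) * (P / 2) + τ * Nt) :=
        mul_le_mul_of_nonneg_left hA (by positivity)
      have h3 := mul_le_mul_of_nonneg_right h2 hQPJ
      linarith
    have h4 : 0 ≤ (1 + δ / 40) * ((1 - δ) * (P / 2) + τ * Nt) * (Q / (P * J)) + 2 * Nt := by
      positivity
    calc 2 * (J + 1) * ((1 + δ / 40) * (SXN + τ * SN) * (Q / (P * J)) + 2 * SN)
        ≤ 2 * (J + 1) * ((1 + δ / 40) * ((1 - δ) * (P / 2) + τ * Nt) * (Q / (P * J)) +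
            2 * Nt) := mul_le_mul_of_nonneg_left h1 (by positivity)
      _ ≤ 2 * ((1 + δ / 100) * J) * ((1 + δ / 40) * ((1 - δ) * (P / 2) + τ * Nt) *
            (Q / (P * J)) + 2 * Nt) := by
          apply mul_le_mul_of_nonneg_right _ h4
          linarith
      _ = (1 + δ / 100) * (1 + δ / 40) * ((1 - δ) * Q + 2 * (τ * Nt) * (Q / P)) +
            4 * (1 + δ / 100) * (J * Nt) := by
          field_simp
          ring
      _ ≤ (1 + δ / 25) * ((1 - δ) * Q + 2 * (τ * Nt) * Q) + 8 * (J * Nt) := by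
          have e1 : Q / P ≤ Q := div_le_self hQ0 hP
          have e2 : (1 + δ / 100) * (1 + δ / 40) ≤ 1 + δ / 25 := by nlinarith
          have e3 : 0 ≤ τ * Nt := mul_nonneg hτ hNt
          have e4 : 0 ≤ (1 - δ) * Q := mul_nonneg (by linarith) hQ0
          have e5 : (1 - δ) * Q + 2 * (τ * Nt) * (Q / P) ≤ (1 - δ) * Q + 2 * (τ * Nt) * Q := by
            have := mul_le_mul_of_nonneg_left e1 (show 0 ≤ 2 * (τ * Nt) by positivity)
            linarith
          have e6 : 0 ≤ (1 - δ) * Q + 2 * (τ * Nt) * (Q / P) := by positivity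
          have e7 : 0 ≤ J * Nt := mul_nonneg hJ0.le hNt
          have e8 := mul_le_mul e2 e5 e6 (by positivity)
          have e9 : 4 * (1 + δ / 100) * (J * Nt) ≤ 8 * (J * Nt) := by
            apply mul_le_mul_of_nonneg_right _ e7
            linarith
          linarith
      _ ≤ (1 - 24 / 25 * δ) * Q + δ / 100 * Q := by
          have e1 : τ * Nt * Q * 2 ^ 14 ≤ δ * Q := by
            have := mul_le_mul_of_nonneg_right hτN1 hQ0
            linarith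
          have e2 : 0 ≤ τ * Nt * Q := by positivity
          have e3 : (1 + δ / 25) * ((1 - δ) * Q) ≤ (1 - 24 / 25 * δ) * Q := by
            have : (1 + δ / 25) * (1 - δ) ≤ 1 - 24 / 25 * δ := by nlinarith
            calc (1 + δ / 25) * ((1 - δ) * Q) = (1 + δ / 25) * (1 - δ) * Q := by ring
              _ ≤ _ := mul_le_mul_of_nonneg_right this hQ0
          have e4 : (1 + δ / 25) * (2 * (τ * Nt) * Q) ≤ 3 * (τ * Nt * Q) := by nlinarith
          linarith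
  have s2 : 4 * P ^ 3 * J * ((1 + δ / 40) * (SX + τ * om) * (Q / (P * J)) + 2 * om) ≤
      δ / 100 * Q := by
    have h1 : 4 * P ^ 3 * J * ((1 + δ / 40) * (SX + τ * om) * (Q / (P * J)) + 2 * om) =
        4 * (1 + δ / 40) * ((SX + τ * om) * P ^ 2 * Q) + 8 * (P ^ 3 * J * om) := by
      field_simp
      ring
    have h2 : (SX + τ * om) * P ^ 2 * 2 ^ 14 ≤ 5 * δ := by
      have h3 : SX * (P ^ 2 * 2 ^ 14) ≤ 4 * (y * (P ^ 2 * 2 ^ 14)) := by
        calc SX * (P ^ 2 * 2 ^ 14) ≤ 4 * y * (P ^ 2 * 2 ^ 14) := by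
              apply mul_le_mul_of_nonneg_right hSX (by positivity)
          _ = _ := by ring
      have h4 : τ * om * (P ^ 2 * 2 ^ 14) ≤ τ * (Nt + om) * (P ^ 2 * 2 ^ 14) := by
        apply mul_le_mul_of_nonneg_right _ (by positivity)
        apply mul_le_mul_of_nonneg_left _ hτ
        linarith
      nlinarith
    have h5 : (SX + τ * om) * P ^ 2 * Q * 2 ^ 14 ≤ 5 * (δ * Q) := by
      have := mul_le_mul_of_nonneg_right h2 hQ0
      linarith
    have h6 : 4 * (1 + δ / 40) * ((SX + τ * om) * P ^ 2 * Q) ≤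
        4 * (1 + δ / 40) * (5 * (δ * Q) / 2 ^ 14) := by
      apply mul_le_mul_of_nonneg_left _ (by positivity)
      rw [le_div_iff₀ (by norm_num)]
      exact h5
    have h7 : 4 * (1 + δ / 40) * (5 * (δ * Q) / 2 ^ 14) ≤ 5 * (5 * (δ * Q) / 2 ^ 14) := by
      apply mul_le_mul_of_nonneg_right _ (by positivity)
      linarith
    rw [h1]
    linarith
  nlinarith

end IDNmsD

open IDNmsD in
theorem pr_NmsD : StNmsD := by
  intro δ M J W _ t hδ hδ1 hM hδJ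
  obtain ⟨Nt, hNt⟩ : ∃ Nt : ℕ, Nt = ∑ w, (t w).card := ⟨_, rfl⟩
  obtain ⟨om, hom⟩ : ∃ om : ℕ, om = Fintype.card W := ⟨_, rfl⟩
  obtain ⟨P, hPd⟩ : ∃ P : ℝ, P = 2 ^ M := ⟨_, rfl⟩
  have hP : 1 ≤ P := by rw [hPd]; exact one_le_pow₀ (by norm_num)
  have hP0 : 0 < P := by linarith
  have hJ : (100 : ℝ) ≤ J := by
    have h1 : (0 : ℝ) ≤ J := Nat.cast_nonneg _
    nlinarith
  have hJ0 : (0 : ℝ) < J := by linarith
  obtain ⟨k, hk⟩ : ∃ k : ℕ,
    k = ⌈P ^ 4 * J * 2 ^ 30 * ((1 + (Nt : ℝ)) * (1 + om)) / δ⌉₊ := ⟨_, rfl⟩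
  obtain ⟨τ, hτd⟩ : ∃ τ : ℝ, τ = δ / ((1 + (Nt : ℝ) + om) * (P ^ 2 * 2 ^ 14)) := ⟨_, rfl⟩
  have hNt0 : (0 : ℝ) ≤ Nt := Nat.cast_nonneg _
  have hom0 : (0 : ℝ) ≤ om := Nat.cast_nonneg _
  have hden : 1 ≤ (1 + (Nt : ℝ) + om) * (P ^ 2 * 2 ^ 14) := by
    have h1 : (1 : ℝ) ≤ 1 + Nt + om := by linarith
    have h2 : (1 : ℝ) ≤ P ^ 2 := one_le_pow₀ hP
    nlinarith
  have hτ0 : 0 < τ := by rw [hτd]; positivity
  have hτ1 : τ ≤ 1 := by
    rw [hτd, div_le_one (by linarith)]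
    linarith
  have hτe : τ * ((1 + (Nt : ℝ) + om) * (P ^ 2 * 2 ^ 14)) = δ := by
    rw [hτd]
    field_simp
  refine ⟨k, τ, hτ0, hτ1, ?_⟩
  intro dw x y hx hy hyM hxy hxN
  have hp2 : (2 : ℝ) ^ (2 * M + 14) = P ^ 2 * 2 ^ 14 := by
    rw [hPd, pow_add, mul_comm 2 M, pow_mul]
  have hp3 : (2 : ℝ) ^ (2 * M + 2) = P ^ 2 * 4 := by
    rw [hPd, pow_add, mul_comm 2 M, pow_mul]
    norm_num
  have hp4 : (2 : ℝ) ^ (M - 1) = P / 2 := by
    rw [hPd]
    obtain ⟨m, rfl⟩ : ∃ m, M = m + 1 := ⟨M - 1, by omega⟩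
    rw [Nat.add_sub_cancel, pow_succ]
    ring
  rw [hp2] at hyM
  obtain ⟨Q, hQd⟩ : ∃ Q : ℝ, Q = 2 ^ (k + 1) := ⟨_, rfl⟩
  have hQ : P ^ 4 * J * 2 ^ 30 * ((1 + (Nt : ℝ)) * (1 + om)) ≤ δ * Q := by
    have h1 : k < 2 ^ (k + 1) := lt_trans (Nat.lt_succ_self k) (Nat.lt_two_pow_self)
    have h2 : (k : ℝ) ≤ 2 ^ (k + 1) := by exact_mod_cast h1.le
    have h3 := Nat.le_ceil (P ^ 4 * J * 2 ^ 30 * ((1 + (Nt : ℝ)) * (1 + om)) / δ)
    rw [← hk] at h3
    have h4 := h3.trans h2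
    rw [← hQd, div_le_iff₀ hδ] at h4
    linarith
  have hQδ : 0 ≤ δ * Q := le_trans (by positivity) hQ
  have hQ0 : 0 ≤ Q := by rw [hQd]; positivity
  have hτNo : τ * ((Nt : ℝ) + om) * (P ^ 2 * 2 ^ 14) ≤ δ := by
    rw [← hτe, mul_assoc]
    apply mul_le_mul_of_nonneg_left _ hτ0.le
    apply mul_le_mul_of_nonneg_right _ (by positivity)
    linarith
  have hτP : τ * (P ^ 2 * 2 ^ 14) ≤ δ := by
    rw [← hτe]
    apply mul_le_mul_of_nonneg_left _ hτ0.le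
    have h1 : (1 : ℝ) ≤ 1 + Nt + om := by linarith
    have h2 : 0 < P ^ 2 * (2 : ℝ) ^ 14 := by positivity
    nlinarith
  have hm : ∀ w, 0 ≤ max (x w) τ := fun w => le_max_of_le_right hτ0.le
  choose b hb1 hb2 using fun w => ceil_facts δ P J Q (max (x w) τ) hδ hδ1 hP hJ hQ0 (hm w)
  refine ⟨b, ?_, ?_⟩
  · intro c
    have hcard : Fintype.card (Ky W M J b) = ∑ w, 2 ^ M * J * b w := by
      rw [Fintype.card_sigma]
      refine Finset.sum_congr rfl fun w _ => ?_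
      rw [Fintype.card_prod, Fintype.card_prod, Fintype.card_fin, Fintype.card_fin]
      congr 2
      simp [Vc]
    have hb3 : ∀ w, (b w : ℝ) ≤ (1 + δ / 40) * (x w + τ) * (Q / (P * J)) + 2 := by
      intro w
      refine (hb2 w).trans ?_
      have h1 : max (x w) τ ≤ x w + τ := max_le (by linarith) (by linarith [hx w])
      have h2 : 0 ≤ Q / (P * J) := by positivity
      have h3 : (1 + δ / 40) * max (x w) τ ≤ (1 + δ / 40) * (x w + τ) :=
        mul_le_mul_of_nonneg_left h1 (by positivity)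
      have h4 := mul_le_mul_of_nonneg_right h3 h2
      linarith
    have hN : ∑ w, (Nw t dw w c : ℝ) ≤ Nt := by
      rw [hNt]
      push_cast
      refine Finset.sum_le_sum fun w _ => ?_
      exact_mod_cast Finset.card_filter_le _ _
    have hxN2 : ∑ w, x w * Nw t dw w c ≤ (1 - δ) * (P / 2) := by
      have := hxN c
      rw [hp4] at this
      linarith
    have hfin := fin δ P J Q τ Nt om y (∑ w, (Nw t dw w c : ℝ)) (∑ w, x w)
      (∑ w, x w * Nw t dw w c) hδ hδ1 hP hJ hδJ hNt0 hom0 hτ0.le hQ hτNo hyM hxy hN hxN2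
    have s1 : ∑ w, (2 * (b w : ℝ) * (J + 1) * Nw t dw w c) ≤
        2 * (J + 1) * ((1 + δ / 40) * (∑ w, x w * Nw t dw w c + τ * ∑ w, (Nw t dw w c : ℝ)) *
          (Q / (P * J)) + 2 * ∑ w, (Nw t dw w c : ℝ)) := by
      have e1 : 2 * ((J : ℝ) + 1) * ((1 + δ / 40) * (∑ w, x w * Nw t dw w c + τ *
          ∑ w, (Nw t dw w c : ℝ)) * (Q / (P * J)) + 2 * ∑ w, (Nw t dw w c : ℝ)) =
          ∑ w, 2 * ((J : ℝ) + 1) * ((1 + δ / 40) * (x w + τ) * (Q / (P * J)) + 2) *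
            (Nw t dw w c : ℝ) := by
        rw [Finset.mul_sum, ← Finset.sum_add_distrib, Finset.mul_sum, Finset.sum_mul,
          Finset.mul_sum, ← Finset.sum_add_distrib, Finset.mul_sum]
        refine Finset.sum_congr rfl fun w _ => ?_
        ring
      rw [e1]
      refine Finset.sum_le_sum fun w _ => ?_
      have h1 : (0 : ℝ) ≤ Nw t dw w c := Nat.cast_nonneg _
      have h2 := mul_le_mul_of_nonneg_left (hb3 w) (show (0 : ℝ) ≤ 2 * (J + 1) by positivity)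
      have h3 := mul_le_mul_of_nonneg_right h2 h1
      linarith
    have s2 : 2 * ((∑ w, P * J * (b w : ℝ)) * (P ^ 2 * 2)) ≤
        4 * P ^ 3 * J * ((1 + δ / 40) * (∑ w, x w + τ * om) * (Q / (P * J)) + 2 * om) := by
      have e1 : ((1 + δ / 40) * (∑ w, x w + τ * om) * (Q / (P * J)) + 2 * om) =
          ∑ w, ((1 + δ / 40) * (x w + τ) * (Q / (P * J)) + 2) := by
        rw [Finset.sum_add_distrib, ← Finset.sum_mul, ← Finset.mul_sum, Finset.sum_add_distrib,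
          Finset.sum_const, Finset.sum_const, Finset.card_univ, ← hom, nsmul_eq_mul, nsmul_eq_mul]
        ring
      rw [e1, ← Finset.mul_sum]
      have h1 : ∑ w, (b w : ℝ) ≤ ∑ w, ((1 + δ / 40) * (x w + τ) * (Q / (P * J)) + 2) :=
        Finset.sum_le_sum fun w _ => hb3 w
      have h2 : 0 ≤ 4 * P ^ 3 * J := by positivity
      calc 2 * ((P * J * ∑ w, (b w : ℝ)) * (P ^ 2 * 2)) = 4 * P ^ 3 * J * ∑ w, (b w : ℝ) := by
            ring
        _ ≤ _ := mul_le_mul_of_nonneg_left h1 h2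
    have key : (∑ w, (2 * (b w : ℝ) * (J + 1) * Nw t dw w c)) +
        2 * ((∑ w, P * J * (b w : ℝ)) * (P ^ 2 * 2)) ≤ Q := (add_le_add s1 s2).trans hfin
    rw [hcard]
    have h9 : ((∑ w, 2 * b w * (J + 1) * Nw t dw w c +
        2 * ((∑ w, 2 ^ M * J * b w) * 2 ^ (2 * M + 1)) : ℕ) : ℝ) ≤ ((2 ^ (k + 1) : ℕ) : ℝ) := by
      push_cast
      rw [← hQd]
      refine le_trans (le_of_eq ?_) key
      rw [hPd, pow_add, mul_comm 2 M, pow_mul, pow_one]
    exact_mod_cast h9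
  · intro w
    rw [hp3, ← hQd]
    push_cast
    rw [← hPd]
    have h1 := hb1 w
    have h2 : (P ^ 2 * 2 ^ 14) * max y τ ≤ δ := by
      rcases max_cases y τ with ⟨h, -⟩ | ⟨h, -⟩ <;> rw [h] <;> linarith
    have hB : 0 ≤ (b w : ℝ) * (P * J) := by positivity
    have hmy : 0 ≤ max y τ := le_max_of_le_left hy
    have hPm : 0 ≤ P ^ 2 * max y τ := by positivity
    have h3 : (b w : ℝ) * (P * J) * (P ^ 2 * 4) * ((1 + δ / 100) * max y τ) ≤
        δ / 100 * ((b w : ℝ) * (P * J)) := by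
      have h4 : (P ^ 2 * 4) * ((1 + δ / 100) * max y τ) ≤ δ / 100 := by
        have e1 : (P ^ 2 * 4) * ((1 + δ / 100) * max y τ) ≤ 5 * (P ^ 2 * max y τ) := by
          nlinarith
        linarith
      calc (b w : ℝ) * (P * J) * (P ^ 2 * 4) * ((1 + δ / 100) * max y τ) =
            (b w : ℝ) * (P * J) * ((P ^ 2 * 4) * ((1 + δ / 100) * max y τ)) := by ring
        _ ≤ (b w : ℝ) * (P * J) * (δ / 100) := mul_le_mul_of_nonneg_left h4 hB
        _ = _ := by ring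
    linarith

end Pool.Agent.Work.MP_bf01b2_co.Sh
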