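import Pool.Agent.Work.MP_bf01b2_co.Sh.StmtsG

/-!
# MP_bf01b2_co, theorem SHALLOW, part G, item Prt: the bipartition classes
-/

set_option autoImplicit false

namespace Pool.Agent.Work.MP_bf01b2_co.Sh

open Pool.Agent.Work.MP_bf01b2_co.Bd

open Classical

namespace IGPrt

theorem half (T : Finset (List Bool)) (hT : Bd.PrefClosed T) (d : ZMod 2) :
    (T.filter fun x => (x.length : ZMod 2) = d).card ≤
      2 * (T.filter fun x => ¬ (x.length : ZMod 2) = d).card + 1 := by
  set B := T.filter fun x => ¬ (x.length : ZMod 2) = d with hB
  have h1 : (T.filter fun x => (x.length : ZMod 2) = d) ⊆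
      insert [] (B.image (fun y => y ++ [false]) ∪ B.image (fun y => y ++ [true])) := by
    intro x hx
    obtain ⟨hxT, hxd⟩ := Finset.mem_filter.mp hx
    rcases List.eq_nil_or_concat x with h0 | ⟨y, e, h0⟩
    · rw [h0]
      exact Finset.mem_insert_self _ _
    · have h0' : x = y ++ [e] := by rw [h0, List.concat_eq_append]
      have hyT : y ∈ T := by
        have h2 := hT x hxT y.length
        rw [h0', List.take_left'] at h2
        · exact h2
        · rfl
      have hyB : y ∈ B := by
        rw [hB]
        refine Finset.mem_filter.mpr ⟨hyT, fun h3 => ?_⟩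
        rw [h0', List.length_append, List.length_singleton] at hxd
        push_cast at hxd
        rw [h3] at hxd
        exact one_ne_zero (add_eq_left.mp hxd)
      apply Finset.mem_insert_of_mem
      rw [Finset.mem_union]
      cases e with
      | false => exact Or.inl (Finset.mem_image.mpr ⟨y, hyB, h0'.symm⟩)
      | true => exact Or.inr (Finset.mem_image.mpr ⟨y, hyB, h0'.symm⟩)
  refine (Finset.card_le_card h1).trans ((Finset.card_insert_le _ _).trans ?_)
  have h2 := Finset.card_union_le (B.image (fun y => y ++ [false]))
    (B.image (fun y => y ++ [true]))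
  have h3 : (B.image (fun y => y ++ [false])).card ≤ B.card := Finset.card_image_le
  have h4 : (B.image (fun y => y ++ [true])).card ≤ B.card := Finset.card_image_le
  omega

end IGPrt

theorem pr_Prt : StPrt := by
  intro T hT d
  have h1 := IGPrt.half T hT d
  have h2 := Finset.card_filter_add_card_filter_not (s := T)
    (fun x : List Bool => (x.length : ZMod 2) = d)
  omega

end Pool.Agent.Work.MP_bf01b2_co.Sh
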