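import Pool.Agent.Work.MP_bf01b2_co.Sh.StmtsG

/-! Part G, item Shp (helper59): the finite set of shapes. -/

set_option autoImplicit false

namespace Pool.Agent.Work.MP_bf01b2_co.Sh

open Pool.Agent.Work.MP_bf01b2_co.Bd

open Classical

namespace IGShp

theorem mem_strs (L : ℕ) (x : List Bool) : x ∈ strs L ↔ x.length ≤ L := by
  unfold strs
  rw [Finset.mem_biUnion]
  constructor
  · rintro ⟨l, hl, hx⟩
    obtain ⟨f, -, rfl⟩ := Finset.mem_image.1 hx
    rw [List.length_ofFn]
    exact Nat.lt_succ_iff.1 (Finset.mem_range.1 hl)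
  · intro h
    exact ⟨x.length, Finset.mem_range.2 (by omega),
      Finset.mem_image.2 ⟨x.get, Finset.mem_univ _, List.ofFn_get x⟩⟩

theorem card_strs (L : ℕ) : (strs L).card + 1 ≤ 2 ^ (L + 1) := by
  have h1 : (strs L).card ≤ ∑ l ∈ Finset.range (L + 1), 2 ^ l := by
    unfold strs
    refine Finset.card_biUnion_le.trans ?_
    apply Finset.sum_le_sum
    intro l _
    refine Finset.card_image_le.trans ?_
    rw [Finset.card_univ, Fintype.card_fun, Fintype.card_bool, Fintype.card_fin]
  have h2 : ∀ n : ℕ, ∑ l ∈ Finset.range n, 2 ^ l + 1 = 2 ^ n := by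
    intro n
    induction n with
    | zero => simp
    | succ n ih => rw [Finset.sum_range_succ, pow_succ]; omega
  have := h2 (L + 1)
  omega

theorem len_lt {A : Finset (List Bool)} (hA : Bd.PrefClosed A) {u : List Bool} (hu : u ∈ A) :
    u.length + 1 ≤ A.card := by
  have h : (Finset.range (u.length + 1)).card ≤ A.card := by
    refine Finset.card_le_card_of_injOn (fun t => u.take t) (fun t _ => hA u hu t) ?_
    intro t ht t' ht' h
    have h1 := congrArg List.length h
    rw [Finset.mem_coe, Finset.mem_range] at ht ht'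
    simp only [List.length_take] at h1
    omega
  rwa [Finset.card_range] at h

end IGShp

open IGShp

theorem pr_Shp : StShp := by
  refine ⟨?_, ?_, mem_strs, fun L => card_strs L⟩
  · intro S A hne hA hc
    unfold shp
    rw [Finset.mem_filter, Finset.mem_powerset]
    refine ⟨fun u hu => ?_, hne, hA, hc⟩
    rw [mem_strs]
    have := len_lt hA hu
    omega
  · intro S A hA
    unfold shp at hA
    exact (Finset.mem_filter.1 hA).2

end Pool.Agent.Work.MP_bf01b2_co.Sh
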