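import Pool.Agent.Work.MP_bf01b2_co.Sh.StmtsM

/-!
# MP_bf01b2_co, theorem SHALLOW, item Cb2: the product of two cubes is a cube
-/

set_option autoImplicit false

namespace Pool.Agent.Work.MP_bf01b2_co.Sh

namespace IMCb2

theorem z2_inj : ∀ a b : ZMod 2, decide (a = 1) = decide (b = 1) → a = b := by decide

theorem z2_ne : ∀ a : ZMod 2, decide (a = 1) ≠ decide (a + 1 = 1) := by decide

/-- The map of the product to the cube. -/
def cc (R M : ℕ) (p : (Fin R → ZMod 2) × (Fin M → ZMod 2)) (i : Fin (R + M)) : Bool :=
  decide (Fin.append p.1 p.2 i = 1)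

theorem cc_left (R M : ℕ) (p : (Fin R → ZMod 2) × (Fin M → ZMod 2)) (j : Fin R) :
    cc R M p (Fin.castAdd M j) = decide (p.1 j = 1) := by
  unfold cc
  rw [Fin.append_left]

theorem cc_right (R M : ℕ) (p : (Fin R → ZMod 2) × (Fin M → ZMod 2)) (j : Fin M) :
    cc R M p (Fin.natAdd R j) = decide (p.2 j = 1) := by
  unfold cc
  rw [Fin.append_right]

theorem single_step {k : ℕ} (x y : Fin k → ZMod 2) (j : Fin k) (h : y = x + Pi.single j 1)
    (i : Fin k) : decide (x i = 1) ≠ decide (y i = 1) ↔ i = j := by
  rw [h, Pi.add_apply]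
  constructor
  · intro hne
    by_contra hij
    rw [Pi.single_eq_of_ne hij, add_zero] at hne
    exact hne rfl
  · rintro rfl
    rw [Pi.single_eq_same]
    exact z2_ne (x i)

theorem castAdd_ne_natAdd {R M : ℕ} (i : Fin R) (j : Fin M) :
    Fin.castAdd M i ≠ Fin.natAdd R j := by
  intro h
  have h1 := congrArg Fin.val h
  rw [Fin.val_castAdd, Fin.val_natAdd] at h1
  have := i.2
  omega

end IMCb2

open IMCb2 in
theorem pr_Cb2 : StCb2 := by
  intro R M n hn
  subst hn
  refine ⟨cc R M, ?_, ?_⟩
  · intro p q h
    refine Prod.ext (funext fun j => ?_) (funext fun j => ?_)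
    · have h1 := congrFun h (Fin.castAdd M j)
      rw [cc_left, cc_left] at h1
      exact z2_inj _ _ h1
    · have h1 := congrFun h (Fin.natAdd R j)
      rw [cc_right, cc_right] at h1
      exact z2_inj _ _ h1
  · intro p q h
    unfold hammingDist
    rw [Finset.card_eq_one]
    rcases h with ⟨j, h1, h2⟩ | ⟨j, h1, h2⟩
    · refine ⟨Fin.castAdd M j, ?_⟩
      ext i
      rw [Finset.mem_filter, Finset.mem_singleton]
      refine Fin.addCases (fun i => ?_) (fun i => ?_) i
      · rw [cc_left, cc_left, single_step p.1 q.1 j h1 i]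
        constructor
        · rintro ⟨-, rfl⟩
          rfl
        · intro h3
          exact ⟨Finset.mem_univ _, Fin.castAdd_injective _ _ h3⟩
      · rw [cc_right, cc_right, h2]
        constructor
        · rintro ⟨-, h3⟩
          exact absurd rfl h3
        · intro h3
          exact absurd h3.symm (castAdd_ne_natAdd j i)
    · refine ⟨Fin.natAdd R j, ?_⟩
      ext i
      rw [Finset.mem_filter, Finset.mem_singleton]
      refine Fin.addCases (fun i => ?_) (fun i => ?_) i
      · rw [cc_left, cc_left, h1]
        constructor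
        · rintro ⟨-, h3⟩
          exact absurd rfl h3
        · intro h3
          exact absurd h3 (castAdd_ne_natAdd i j)
      · rw [cc_right, cc_right, single_step p.2 q.2 j h2 i]
        constructor
        · rintro ⟨-, rfl⟩
          rfl
        · intro h3
          exact ⟨Finset.mem_univ _, Fin.natAdd_injective _ _ h3⟩

end Pool.Agent.Work.MP_bf01b2_co.Sh
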