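import Pool.Agent.Work.MP_bf01b2_co.Sh.StmtsP2

set_option autoImplicit false

/-! # Item Clr2 of part P2: the syndromes of all tiles with two ends -/

namespace Pool.Agent.Work.MP_bf01b2_co.Sh

open Classical

namespace IPClr2

/-- the private addresses are few -/
theorem card_Ya (h3 : StYc) (M : ℕ) : (Ya M).card ≤ 2 ^ (2 * M + 1) :=
  (Finset.card_filter_le _ _).trans (h3.2 (2 * M))

/-- in `ZMod 2` -/
theorem cls_iff (a d c : ZMod 2) : a + d = c ↔ a = d + c := by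
  revert a d c; decide

theorem add_one_add_one (c : ZMod 2) : c + 1 + 1 = c := by
  revert c; decide

theorem add_one_ne (c : ZMod 2) : c + 1 ≠ c := by
  revert c; decide

theorem add_self2 {M : ℕ} (x : Vc M) : x + x = 0 := by
  funext i
  show x i + x i = 0
  exact CharTwo.add_self_eq_zero (x i)

section

variable {W : Type} {M J : ℕ} {b : W → ℕ} {t : W → Bool → Finset (List Bool)}

/-- the node -/
def nd (x : Ky W M J b) (π : ZMod 2) (s : Bool) (u : List Bool) (h : u ∈ t x.1 s) :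
    Nd2 W M J b t := ⟨x, π, s, ⟨u, h⟩⟩

theorem nd_inj {x x' : Ky W M J b} {π π' : ZMod 2} {s s' : Bool} {u u' : List Bool}
    {h : u ∈ t x.1 s} {h' : u' ∈ t x'.1 s'} (e : nd x π s u h = nd x' π' s' u' h') :
    x = x' ∧ π = π' ∧ s = s' ∧ u = u' := by
  have hx : x = x' := congrArg Sigma.fst e
  subst hx
  have h6 := eq_of_heq (Sigma.mk.inj e).2
  rw [Prod.mk.injEq] at h6
  obtain ⟨h7, h8⟩ := h6
  have hs : s = s' := congrArg Sigma.fst h8
  subst hs
  have h9 := eq_of_heq (Sigma.mk.inj h8).2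
  exact ⟨rfl, h7, rfl, congrArg Subtype.val h9⟩

/-- the class of a node -/
noncomputable def cl (m1 : ℕ) (φ : Fin M) (dw : W → ZMod 2) (z : Nd2 W M J b t) : ZMod 2 × Vc M :=
  ((z.2.2.2.1.length : ZMod 2) + sd z.2.2.1 + dw z.1.1,
    mu m1 J (gs φ z.1.2.1.1 z.2.2.1) z.1.2.1.2.1 z.2.2.2.1)

/-- the partner class -/
def pr (φ : Fin M) (K : ZMod 2 × Vc M) : ZMod 2 × Vc M := (K.1 + 1, K.2 + Pi.single φ 1)

/-- the spine pairs -/
def sp (ze : W → List Bool) (z z' : Nd2 W M J b t) : Prop :=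
  ∃ (x : Ky W M J b) (π : ZMod 2) (u : List Bool) (h1 : u ∈ t x.1 false) (h2 : u ∈ t x.1 true),
    u <+: ze x.1 ∧ z = nd x π false u h1 ∧ z' = nd x π true u h2

theorem sp_cl (hG : StGs) {m1 : ℕ} {φ : Fin M} (hφ : φ.1 < m1) {dw : W → ZMod 2}
    {ze : W → List Bool} {z z' : Nd2 W M J b t} (h : sp ze z z') :
    cl m1 φ dw z' = pr φ (cl m1 φ dw z) := by
  obtain ⟨x, π, u, h1, h2, -, rfl, rfl⟩ := h
  have hg := (hG M m1 J x.2.1.1 φ x.2.1.2.1 0 u hφ).2.2.1
  refine Prod.ext ?_ ?_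
  · show (u.length : ZMod 2) + 1 + dw x.1 = (u.length : ZMod 2) + 0 + dw x.1 + 1
    ring
  · exact hg

end

end IPClr2

open IPClr2 in
theorem pr_Clr2 (h2 : StPri) (h3 : StYc) (h4 : StCls2) (h5 : StInj2) (h6 : StGs) : StClr2 := by
  intro W _ k M m1 J b t ze φ dw hM hJ hφ hF
  -- the private syndromes
  have hcP : Fintype.card (Ky W M J b × {y // y ∈ Ya M}) ≤ 2 ^ k := by
    rw [Fintype.card_prod, Fintype.card_coe]
    have h0 := hF 0
    have h1 : 2 * (Fintype.card (Ky W M J b) * 2 ^ (2 * M + 1)) ≤ 2 ^ (k + 1) :=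
      le_trans (Nat.le_add_left _ _) h0
    have h5 : Fintype.card (Ky W M J b) * (Ya M).card ≤
        Fintype.card (Ky W M J b) * 2 ^ (2 * M + 1) := Nat.mul_le_mul_left _ (card_Ya h3 M)
    have h6 : 2 ^ (k + 1) = 2 * 2 ^ k := by ring
    omega
  obtain ⟨S0, hS0⟩ := h2 k (Ky W M J b × {y // y ∈ Ya M}) hcP
  -- the free syndromes
  let B : Finset (Vc (k + 1)) := (Finset.univ :
    Finset ((Ky W M J b × {y // y ∈ Ya M}) × ZMod 2)).image fun p => S0 p.1 + Pi.single 0 p.2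
  let A : Finset (Vc (k + 1)) := Bᶜ
  have hBc : B.card ≤ 2 * (Fintype.card (Ky W M J b) * 2 ^ (2 * M + 1)) := by
    refine (Finset.card_image_le).trans ?_
    rw [Finset.card_univ, Fintype.card_prod, Fintype.card_prod, Fintype.card_coe, ZMod.card]
    have h5 : Fintype.card (Ky W M J b) * (Ya M).card ≤
        Fintype.card (Ky W M J b) * 2 ^ (2 * M + 1) := Nat.mul_le_mul_left _ (card_Ya h3 M)
    omega
  have hAc : 2 ^ (k + 1) - 2 * (Fintype.card (Ky W M J b) * 2 ^ (2 * M + 1)) ≤ A.card := by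
    have : A.card = 2 ^ (k + 1) - B.card := by
      show (Bᶜ : Finset (Vc (k + 1))).card = _
      rw [Finset.card_compl]
      simp [ZMod.card]
    omega
  have hcl : ∀ K : ZMod 2 × Vc M,
      (Finset.univ.filter fun z : Nd2 W M J b t => cl m1 φ dw z = K).card ≤ A.card := by
    rintro ⟨c, μ⟩
    have h7 : (Finset.univ.filter fun z : Nd2 W M J b t => cl m1 φ dw z = (c, μ)) ⊆
        (Finset.univ.filter fun x : Nd2 W M J b t => InC2 m1 J φ dw c μ x) := by
      intro z hz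
      rw [Finset.mem_filter] at hz ⊢
      obtain ⟨h8, h9⟩ := Prod.mk.injEq _ _ _ _ ▸ hz.2
      exact ⟨Finset.mem_univ _, (cls_iff _ _ _).1 h8, h9⟩
    refine (Finset.card_le_card h7).trans ((h4 W M m1 J b t φ dw c μ hM hJ).trans ?_)
    have h0 := hF c
    omega
  obtain ⟨f, hfA, hfi, hfs⟩ := h5 (Nd2 W M J b t) (ZMod 2 × Vc M) (Vc (k + 1)) A
    (cl m1 φ dw) (pr φ) (sp ze)
    (fun K => Prod.ext (add_one_add_one K.1) (by
      show K.2 + Pi.single φ 1 + Pi.single φ 1 = K.2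
      rw [add_assoc, add_self2, add_zero]))
    (fun K h => add_one_ne K.1 (congrArg Prod.fst h))
    (fun z z' h => sp_cl h6 hφ h)
    (by
      rintro z z1 z2 ⟨x, π, u, a1, a2, -, rfl, rfl⟩ ⟨x', π', u', b1, b2, -, e, rfl⟩
      obtain ⟨rfl, rfl, -, rfl⟩ := nd_inj e
      rfl)
    (by
      rintro z z1 z2 ⟨x, π, u, a1, a2, -, rfl, rfl⟩ ⟨x', π', u', b1, b2, -, rfl, e⟩
      obtain ⟨rfl, rfl, -, rfl⟩ := nd_inj e
      rfl)
    (by
      rintro z z1 z2 ⟨⟨x, π, u, a1, a2, -, rfl, rfl⟩, x', π', u', b1, b2, -, rfl, e⟩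
      exact absurd (nd_inj e).2.2.1 (by decide))
    (fun K => by convert hcl K)
  refine ⟨fun x y => if hy : y ∈ Ya M then S0 (x, ⟨y, hy⟩) else 0,
    fun x π s u => if hu : u ∈ t x.1 s then f (nd x π s u hu) else 0, ?_, ?_, ?_, ?_⟩
  · intro x x' y y' α α' hy hy' h
    simp only [hy, hy', dif_pos] at h
    obtain ⟨h1, h2⟩ := hS0 _ _ _ _ h
    rw [Prod.mk.injEq, Subtype.mk.injEq] at h1
    exact ⟨h1.1, h1.2, h2⟩
  · intro x π s x' y' α' u hu hy' h
    simp only [hu, hy', dif_pos] at h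
    have hA := hfA (nd x π s u hu)
    rw [h] at hA
    have : S0 (x', ⟨y', hy'⟩) + Pi.single 0 α' ∈ B := by
      refine Finset.mem_image.2 ⟨((x', ⟨y', hy'⟩), α'), Finset.mem_univ _, rfl⟩
    exact (Finset.mem_compl.1 hA) this
  · intro x π s x' π' s' u hu u' hu' h hmu hdw
    simp only [hu, hu', dif_pos] at h
    have hcc : cl m1 φ dw (nd x π s u hu) = cl m1 φ dw (nd x' π' s' u' hu') := by
      refine Prod.ext ?_ hmu
      show (u.length : ZMod 2) + sd s + dw x.1 = (u'.length : ZMod 2) + sd s' + dw x'.1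
      rw [add_comm _ (dw x.1), add_comm _ (dw x'.1), ← add_assoc, ← add_assoc]
      exact hdw
    exact nd_inj (hfi _ _ h hcc)
  · intro x π u hp h0 h1
    simp only [h0, h1, dif_pos]
    exact hfs _ _ ⟨x, π, u, h0, h1, hp, rfl, rfl⟩

end Pool.Agent.Work.MP_bf01b2_co.Sh
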