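import Pool.Agent.Work.MP_bf01b2_co.Sh.StmtsP2

/-!
# Item Cls2 : the size of a class of nodes, two sides
-/

set_option autoImplicit false

namespace Pool.Agent.Work.MP_bf01b2_co.Sh

open Classical

namespace IPCls2

/-- type, number of the copy, parity, side and address of a node -/
def fz {W : Type} {M J : ℕ} {b : W → ℕ} {t : W → Bool → Finset (List Bool)}
    (x : Nd2 W M J b t) :
    Σ w : W, Fin (b w) × ZMod 2 × (Σ _ : Bool, List Bool) :=
  ⟨x.1.1, x.1.2.2, x.2.1, ⟨x.2.2.1, x.2.2.2.1⟩⟩

theorem fz_inj {W : Type} {M J : ℕ} {b : W → ℕ} {t : W → Bool → Finset (List Bool)}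
    (x y : Nd2 W M J b t) (h : fz x = fz y) (h2 : x.1.2.1 = y.1.2.1) : x = y := by
  obtain ⟨⟨w, gs, i⟩, α, s, u, hu⟩ := x
  obtain ⟨⟨w', gs', i'⟩, α', s', u', hu'⟩ := y
  simp only [fz] at h h2
  obtain ⟨h3, h4⟩ := Sigma.mk.inj h
  subst h3
  have h5 := eq_of_heq h4
  simp only [Prod.mk.injEq] at h5
  obtain ⟨h6, h7, h8⟩ := h5
  obtain ⟨h9, h10⟩ := Sigma.mk.inj h8
  subst h9
  have h11 := eq_of_heq h10
  subst h6 h7 h11 h2
  rfl

theorem gs_inj {M : ℕ} (φ : Fin M) (s : Bool) : Function.Injective fun g : Vc M => gs φ g s := by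
  intro g g' h
  cases s
  · simpa [gs] using h
  · simpa [gs] using h

end IPCls2

open IPCls2

theorem pr_Cls2 (h : StLaw) : StCls2 := by
  intro W _ M m1 J b t φ dw c μ hM hJ
  set T : Finset (Σ w : W, Fin (b w) × ZMod 2 × (Σ _ : Bool, List Bool)) :=
    Finset.univ.sigma fun w => (Finset.univ : Finset (Fin (b w))) ×ˢ
      ((Finset.univ : Finset (ZMod 2)) ×ˢ
        ((Finset.univ : Finset Bool).sigma fun s =>
          (t w s).filter fun u => (u.length : ZMod 2) + sd s = dw w + c)) with hT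
  have hmaps : ∀ x ∈ Finset.univ.filter fun x : Nd2 W M J b t => InC2 m1 J φ dw c μ x,
      fz x ∈ T := by
    intro x hx
    rw [Finset.mem_filter] at hx
    rw [hT, Finset.mem_sigma, Finset.mem_product, Finset.mem_product, Finset.mem_sigma,
      Finset.mem_filter]
    exact ⟨Finset.mem_univ _, Finset.mem_univ _, Finset.mem_univ _, Finset.mem_univ _,
      x.2.2.2.2, hx.2.1⟩
  have hfib : ∀ B ∈ T, (Finset.filter (fun x => fz x = B)
      (Finset.univ.filter fun x : Nd2 W M J b t => InC2 m1 J φ dw c μ x)).card ≤ J + 1 := by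
    intro B _
    refine le_trans (Finset.card_le_card_of_injOn
      (fun x => (gs φ x.1.2.1.1 x.2.2.1, x.1.2.1.2)) ?_ ?_)
      (h M m1 J B.2.2.2.2 μ hM hJ).2
    · intro x hx
      simp only [Finset.coe_filter, Finset.mem_univ, true_and, Set.mem_ofPred_eq,
        Finset.mem_filter] at hx ⊢
      obtain ⟨⟨-, h1⟩, h2⟩ := hx
      rw [← h2]
      exact h1
    · intro x hx y hy hxy
      simp only [Finset.coe_filter, Finset.mem_univ, true_and, Set.mem_ofPred_eq,
        Finset.mem_filter] at hx hy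
      have h3 := hx.2.trans hy.2.symm
      have h4 : x.2.2.1 = y.2.2.1 := by
        have h5 := congrArg (fun z : Σ w : W, Fin (b w) × ZMod 2 × (Σ _ : Bool, List Bool) =>
          z.2.2.2.1) h3
        exact h5
      refine fz_inj x y h3 ?_
      simp only [Prod.mk.injEq] at hxy
      obtain ⟨h6, h7⟩ := hxy
      rw [h4] at h6
      exact Prod.ext (gs_inj φ _ h6) h7
  refine (Finset.card_le_mul_card_image_of_maps_to hmaps (J + 1) hfib).trans (le_of_eq ?_)
  rw [hT, Finset.card_sigma, Finset.mul_sum]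
  refine Finset.sum_congr rfl fun w _ => ?_
  rw [Finset.card_product, Finset.card_product, Finset.card_univ, Finset.card_univ,
    Fintype.card_fin, ZMod.card, Finset.card_sigma, Fintype.sum_bool]
  have h3 : Nw2 t dw w c = ((t w true).filter fun u => (u.length : ZMod 2) + sd true = dw w + c).card
      + ((t w false).filter fun u => (u.length : ZMod 2) + sd false = dw w + c).card := by
    simp [Nw2, sd, add_comm]
  rw [h3]
  ring

end Pool.Agent.Work.MP_bf01b2_co.Sh
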