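import Pool.Agent.Work.MP_bf01b2_co.Sh.StmtsP

/-!
# MP_bf01b2_co, shallow trees, item Ct: the other columns of one tile
-/

set_option autoImplicit false

namespace Pool.Agent.Work.MP_bf01b2_co.Sh

open Classical

namespace IPCt

theorem vv {n : ℕ} (x : Vc n) : x + x = 0 := by
  funext c
  exact CharTwo.add_self_eq_zero (x c)

theorem syn_add {R k : ℕ} (sy : Fin R → Vc k) (x y : Vc R) :
    syn sy (x + y) = syn sy x + syn sy y := by
  funext c
  show ∑ i, (x i + y i) * sy i c = (∑ i, x i * sy i c) + ∑ i, y i * sy i c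
  rw [← Finset.sum_add_distrib]
  exact Finset.sum_congr rfl fun i _ => add_mul _ _ _

theorem syn_zero {R k : ℕ} (sy : Fin R → Vc k) : syn sy (0 : Vc R) = 0 := by
  funext c
  show ∑ i, (0 : ZMod 2) * sy i c = 0
  simp

theorem syn_single {R k : ℕ} (sy : Fin R → Vc k) (j : Fin R) (v : ZMod 2) :
    syn sy (Pi.single j v) = fun c => v * sy j c := by
  funext c
  show ∑ i, (Pi.single j v : Vc R) i * sy i c = v * sy j c
  rw [Finset.sum_eq_single j]
  · rw [Pi.single_eq_same]
  · intro i _ hi
    rw [Pi.single_eq_of_ne hi, zero_mul]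
  · intro h
    exact absurd (Finset.mem_univ j) h

theorem syn_one {R k : ℕ} (sy : Fin R → Vc k) (j : Fin R) :
    syn sy (Pi.single j 1) = sy j := by
  rw [syn_single]
  funext c
  exact one_mul _

theorem tg_app {M : ℕ} (g : Vc M) (y z : List Bool) (hy : 2 * M ≤ y.length) :
    tg g (y ++ z) = tg g y := by
  funext i
  show g i + lt (y ++ z) (2 * i.1) = g i + lt y (2 * i.1)
  have hi : 2 * i.1 < y.length := by
    have := i.2
    omega
  have h : (y ++ z).getD (2 * i.1) false = y.getD (2 * i.1) false := by
    rw [List.getD_append _ _ _ _ hi]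
  unfold lt
  rw [h]

theorem tl_take {M : ℕ} (m1 : ℕ) (g : Vc M) (u : List Bool) (j : ℕ)
    (h : Tl m1 g (u.take j)) : Tl m1 g u := by
  obtain ⟨h1, h2⟩ := h
  rw [List.length_take] at h1 h2
  refine ⟨by omega, fun h3 => ?_⟩
  have h4 : u.take j = u := List.take_of_length_le (by omega)
  rw [h4] at h2
  exact h2 (by omega)

/-- the sum in the definition of `ct` -/
noncomputable def sT {R M k : ℕ} (m1 : ℕ) (g : Vc M) (D : List Bool → Vc k)
    (dir : Vc k → Fin R) (u : List Bool) : Vc R :=
  ∑ i ∈ Finset.range u.length, if Tl m1 g (u.take (i + 1)) then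
    Pi.single (dir (D (u.take i) + D (u.take (i + 1)))) 1 else 0

theorem sT_succ {R M k : ℕ} (m1 : ℕ) (g : Vc M) (D : List Bool → Vc k)
    (dir : Vc k → Fin R) (u : List Bool) (e : Bool) :
    sT m1 g D dir (u ++ [e]) = sT m1 g D dir u +
      if Tl m1 g (u ++ [e]) then Pi.single (dir (D u + D (u ++ [e]))) 1 else 0 := by
  unfold sT
  rw [List.length_append, List.length_singleton, Finset.sum_range_succ]
  congr 1
  · refine Finset.sum_congr rfl fun i hi => ?_
    have hi' := Finset.mem_range.mp hi
    rw [List.take_append_of_le_length (by omega), List.take_append_of_le_length (by omega)]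
  · have h1 : (u ++ [e]).take (u.length + 1) = u ++ [e] :=
      List.take_of_length_le (by rw [List.length_append, List.length_singleton])
    have h2 : (u ++ [e]).take u.length = u := by
      rw [List.take_append_of_le_length le_rfl, List.take_of_length_le le_rfl]
    rw [h1, h2]

theorem sT_zero {R M k : ℕ} (m1 : ℕ) (g : Vc M) (D : List Bool → Vc k)
    (dir : Vc k → Fin R) (u : List Bool) (h : ¬ Tl m1 g u) : sT m1 g D dir u = 0 := by
  unfold sT
  refine Finset.sum_eq_zero fun i _ => ?_
  rw [if_neg]
  exact fun h1 => h (tl_take m1 g u _ h1)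

theorem sT_syn {R M k : ℕ} (m1 : ℕ) (g : Vc M) (sy : Fin R → Vc k) (D E : List Bool → Vc k)
    (dir : Vc k → Fin R) (hdir : ∀ s, sy (dir s) = s)
    (hD : ∀ u, ¬ Tl m1 g u → D u = E (u.take (2 * M))) (u : List Bool) :
    2 * M ≤ u.length → syn sy (sT m1 g D dir u) = E (u.take (2 * M)) + D u := by
  induction u using List.reverseRecOn with
  | nil =>
    intro h
    have h1 : ¬ Tl m1 g ([] : List Bool) := fun h2 => by
      have := h2.1
      simp at this
    rw [sT_zero _ _ _ _ _ h1, syn_zero, hD _ h1, vv]
  | append_singleton v e ih =>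
    intro h
    rw [List.length_append, List.length_singleton] at h
    by_cases h1 : Tl m1 g (v ++ [e])
    · have h2 : 2 * M ≤ v.length := by
        have := h1.1
        rw [List.length_append, List.length_singleton] at this
        omega
      rw [sT_succ, if_pos h1, syn_add, ih h2, syn_one, hdir,
        List.take_append_of_le_length h2]
      have h3 := vv (D v)
      calc E (v.take (2 * M)) + D v + (D v + D (v ++ [e]))
          = E (v.take (2 * M)) + D (v ++ [e]) + (D v + D v) := by abel
        _ = _ := by rw [h3, add_zero]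
    · rw [sT_zero _ _ _ _ _ h1, syn_zero, hD _ h1, vv]

end IPCt

open IPCt in
theorem pr_Ct : StCt := by
  intro R k M m1 sy a g κ S C cp hsurj ha hcp
  choose dir hdir using hsurj
  let E : List Bool → Vc (k + 1) := fun z => S z + Pi.single 0 (al0 g κ z)
  let D : List Bool → Vc (k + 1) := fun u => if Tl m1 g u then C u else E (u.take (2 * M))
  let ct : List Bool → Vc R := fun u =>
    cp (u.take (2 * M)) + Pi.single a (al0 g κ (u.take (2 * M))) + sT m1 g D dir u
  have hct : ∀ u, ct u = cp (u.take (2 * M)) + Pi.single a (al0 g κ (u.take (2 * M))) +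
    sT m1 g D dir u := fun u => rfl
  have hDn : ∀ u, ¬ Tl m1 g u → D u = E (u.take (2 * M)) := fun u hu => if_neg hu
  have hDp : ∀ u, Tl m1 g u → D u = C u := fun u hu => if_pos hu
  have hnot : ∀ y : List Bool, y.length = 2 * M → ¬ Tl m1 g y := fun y hy h => by
    have := h.1
    omega
  refine ⟨ct, ?_, ?_, ?_, ?_⟩
  · intro y e hy hb
    have h1 : Tl m1 g (y ++ [e]) := by
      refine ⟨by rw [List.length_append, List.length_singleton]; omega, fun _ => ?_⟩
      rw [tg_app g y _ hy.ge]
      exact hb
    refine ⟨dir (D y + D (y ++ [e])), ?_⟩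
    rw [hct, List.take_append_of_le_length hy.ge, List.take_of_length_le hy.le, sT_succ,
      sT_zero _ _ _ _ _ (hnot y hy), if_pos h1, zero_add]
  · intro y e e' hy hb
    have h0 : y ++ [e, e'] = (y ++ [e]) ++ [e'] := by simp
    have hl : (y ++ [e]).length = 2 * M + 1 := by
      rw [List.length_append, List.length_singleton, hy]
    have h1 : ¬ Tl m1 g (y ++ [e]) := fun h => by
      have := h.2 hl
      rw [tg_app g y _ hy.ge] at this
      exact this hb
    have h2 : Tl m1 g ((y ++ [e]) ++ [e']) := by
      have hl2 : ((y ++ [e]) ++ [e']).length = 2 * M + 2 := by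
        rw [List.length_append, hl, List.length_singleton]
      exact ⟨by omega, fun h3 => by omega⟩
    refine ⟨dir (D (y ++ [e]) + D ((y ++ [e]) ++ [e'])), ?_⟩
    rw [h0, hct, List.take_append_of_le_length (by omega),
      List.take_append_of_le_length hy.ge, List.take_of_length_le hy.le, sT_succ,
      sT_zero _ _ _ _ _ h1, if_pos h2, zero_add]
  · intro y e hy
    have h0 : 2 * M < y.length := hy.1
    have h1 : Tl m1 g (y ++ [e]) := by
      have hl : (y ++ [e]).length = y.length + 1 := by
        rw [List.length_append, List.length_singleton]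
      exact ⟨by omega, fun h3 => by omega⟩
    refine ⟨dir (D y + D (y ++ [e])), ?_⟩
    rw [hct, hct, List.take_append_of_le_length h0.le, sT_succ, if_pos h1]
    exact (add_assoc _ _ _).symm
  · intro u hu
    have h0 : 2 * M < u.length := hu.1
    have hlt : (u.take (2 * M)).length = 2 * M := by
      rw [List.length_take]
      omega
    have h1 := hcp (u.take (2 * M)) (by rw [hlt]; omega)
    have h2 := sT_syn m1 g sy D E dir hdir hDn u h0.le
    have h3 : syn sy (Pi.single a (al0 g κ (u.take (2 * M)))) =
        Pi.single 0 (al0 g κ (u.take (2 * M))) := by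
      rw [syn_single, ha]
      funext c
      by_cases hc : c = 0
      · subst hc
        rw [Pi.single_eq_same, Pi.single_eq_same, mul_one]
      · rw [Pi.single_eq_of_ne hc, Pi.single_eq_of_ne hc, mul_zero]
    rw [hct, syn_add, syn_add, h1, h2, h3, hDp u hu]
    have h4 := vv (S (u.take (2 * M)) + Pi.single 0 (al0 g κ (u.take (2 * M))))
    calc S [] + S (u.take (2 * M)) + Pi.single 0 (al0 g κ (u.take (2 * M))) +
          (S (u.take (2 * M)) + Pi.single 0 (al0 g κ (u.take (2 * M))) + C u)
        = S [] + C u + ((S (u.take (2 * M)) + Pi.single 0 (al0 g κ (u.take (2 * M)))) +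
            (S (u.take (2 * M)) + Pi.single 0 (al0 g κ (u.take (2 * M))))) := by abel
      _ = _ := by rw [h4, add_zero]

end Pool.Agent.Work.MP_bf01b2_co.Sh
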