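import Pool.Agent.Work.MP_bf01b2_co.Sh.StmtsP2
import Pool.Agent.Work.MP_bf01b2_co.Sh.P_Ct

/-!
# MP_bf01b2_co, THEOREM LARGE, item Ct2: the other columns of one tile, both sides
-/

set_option autoImplicit false

namespace Pool.Agent.Work.MP_bf01b2_co.Sh

open Classical

namespace IPCt2

open IPCt

/-- the syndromes along an address -/
noncomputable def dD {M k : ℕ} (m1 : ℕ) (g : Vc M) (κ : ZMod 2) (S C : List Bool → Vc (k + 1))
    (u : List Bool) : Vc (k + 1) :=
  if Tl m1 g u then C u else S (u.take (2 * M)) + Pi.single 0 (al0 g κ (u.take (2 * M)))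

/-- the columns -/
noncomputable def cE {R M k : ℕ} (m1 : ℕ) (g : Vc M) (κ : ZMod 2) (a : Fin R)
    (S C : List Bool → Vc (k + 1)) (cp : List Bool → Vc R) (dir : Vc (k + 1) → Fin R)
    (u : List Bool) : Vc R :=
  cp (u.take (2 * M)) + Pi.single a (al0 g κ (u.take (2 * M))) + sT m1 g (dD m1 g κ S C) dir u

theorem core (R k M m1 : ℕ) (sy : Fin R → Vc (k + 1)) (a : Fin R) (g : Vc M) (κ : ZMod 2)
    (S C : List Bool → Vc (k + 1)) (cp : List Bool → Vc R) (dir : Vc (k + 1) → Fin R)
    (hdir : ∀ s, sy (dir s) = s) (ha : sy a = Pi.single 0 1)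
    (hcp : ∀ y : List Bool, y.length % 2 = 0 → syn sy (cp y) = S [] + S y) :
    (∀ (y : List Bool) (e : Bool), y.length = 2 * M → ¬ Bad m1 (tg g y) →
      ∃ i, cE m1 g κ a S C cp dir (y ++ [e]) =
        cp y + Pi.single a (al0 g κ y) + Pi.single i 1) ∧
    (∀ (y : List Bool) (e e' : Bool), y.length = 2 * M → Bad m1 (tg g y) →
      ∃ i, cE m1 g κ a S C cp dir (y ++ [e, e']) =
        cp y + Pi.single a (al0 g κ y) + Pi.single i 1) ∧
    (∀ (y : List Bool) (e : Bool), Tl m1 g y →
      ∃ i, cE m1 g κ a S C cp dir (y ++ [e]) = cE m1 g κ a S C cp dir y + Pi.single i 1) ∧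
    ∀ u : List Bool, Tl m1 g u → syn sy (cE m1 g κ a S C cp dir u) = S [] + C u := by
  have hct : ∀ u, cE m1 g κ a S C cp dir u =
    cp (u.take (2 * M)) + Pi.single a (al0 g κ (u.take (2 * M))) +
    sT m1 g (dD m1 g κ S C) dir u := fun u => rfl
  have hDn : ∀ u, ¬ Tl m1 g u → dD m1 g κ S C u =
      (fun z => S z + Pi.single 0 (al0 g κ z)) (u.take (2 * M)) := fun u hu => if_neg hu
  have hDp : ∀ u, Tl m1 g u → dD m1 g κ S C u = C u := fun u hu => if_pos hu
  have hnot : ∀ y : List Bool, y.length = 2 * M → ¬ Tl m1 g y := fun y hy h => by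
    have := h.1
    omega
  refine ⟨?_, ?_, ?_, ?_⟩
  · intro y e hy hb
    have h1 : Tl m1 g (y ++ [e]) := by
      refine ⟨by rw [List.length_append, List.length_singleton]; omega, fun _ => ?_⟩
      rw [tg_app g y _ hy.ge]
      exact hb
    refine ⟨dir (dD m1 g κ S C y + dD m1 g κ S C (y ++ [e])), ?_⟩
    rw [hct, List.take_append_of_le_length hy.ge, List.take_of_length_le hy.le, sT_succ,
      sT_zero _ _ _ _ _ (hnot y hy), if_pos h1, zero_add]
  · intro y e e' hy hb
    have h0 : y ++ [e, e'] = (y ++ [e]) ++ [e'] := by simp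
    have hl : (y ++ [e]).length = 2 * M + 1 := by
      rw [List.length_append, List.length_singleton, hy]
    have h1 : ¬ Tl m1 g (y ++ [e]) := fun h => by
      have := h.2 hl
      rw [tg_app g y _ hy.ge] at this
      exact this hb
    have h2 : Tl m1 g ((y ++ [e]) ++ [e']) := by
      have hl2 : ((y ++ [e]) ++ [e']).length = 2 * M + 2 := by
        rw [List.length_append, hl, List.length_singleton]
      exact ⟨by omega, fun h3 => by omega⟩
    refine ⟨dir (dD m1 g κ S C (y ++ [e]) + dD m1 g κ S C ((y ++ [e]) ++ [e'])), ?_⟩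
    rw [h0, hct, List.take_append_of_le_length (by omega),
      List.take_append_of_le_length hy.ge, List.take_of_length_le hy.le, sT_succ,
      sT_zero _ _ _ _ _ h1, if_pos h2, zero_add]
  · intro y e hy
    have h0 : 2 * M < y.length := hy.1
    have h1 : Tl m1 g (y ++ [e]) := by
      have hl : (y ++ [e]).length = y.length + 1 := by
        rw [List.length_append, List.length_singleton]
      exact ⟨by omega, fun h3 => by omega⟩
    refine ⟨dir (dD m1 g κ S C y + dD m1 g κ S C (y ++ [e])), ?_⟩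
    rw [hct, hct, List.take_append_of_le_length h0.le, sT_succ, if_pos h1]
    exact (add_assoc _ _ _).symm
  · intro u hu
    have h0 : 2 * M < u.length := hu.1
    have hlt : (u.take (2 * M)).length = 2 * M := by
      rw [List.length_take]
      omega
    have h1 := hcp (u.take (2 * M)) (by rw [hlt]; omega)
    have h2 := sT_syn m1 g sy (dD m1 g κ S C) (fun z => S z + Pi.single 0 (al0 g κ z)) dir hdir
      hDn u h0.le
    have h3 : syn sy (Pi.single a (al0 g κ (u.take (2 * M)))) =
        Pi.single 0 (al0 g κ (u.take (2 * M))) := by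
      rw [syn_single, ha]
      funext c
      by_cases hc : c = 0
      · subst hc
        rw [Pi.single_eq_same, Pi.single_eq_same, mul_one]
      · rw [Pi.single_eq_of_ne hc, Pi.single_eq_of_ne hc, mul_zero]
    rw [hct, syn_add, syn_add, h1, h2, h3, hDp u hu]
    have h4 := vv (S (u.take (2 * M)) + Pi.single 0 (al0 g κ (u.take (2 * M))))
    calc S [] + S (u.take (2 * M)) + Pi.single 0 (al0 g κ (u.take (2 * M))) +
          (S (u.take (2 * M)) + Pi.single 0 (al0 g κ (u.take (2 * M))) + C u)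
        = S [] + C u + ((S (u.take (2 * M)) + Pi.single 0 (al0 g κ (u.take (2 * M)))) +
            (S (u.take (2 * M)) + Pi.single 0 (al0 g κ (u.take (2 * M))))) := by abel
      _ = _ := by rw [h4, add_zero]

theorem same (h : StGs) (R k M m1 : ℕ) (a : Fin R) (g : Vc M) (φ : Fin M) (κ : ZMod 2)
    (S : List Bool → Vc (k + 1)) (C C' : List Bool → Vc (k + 1))
    (cp : List Bool → Vc R) (dir : Vc (k + 1) → Fin R) (hφ : φ.1 < m1) (z : List Bool)
    (hC : ∀ u, u <+: z → C' u = C u) :
    cE m1 (g + Pi.single φ 1) (κ + 1) a S C' cp dir z = cE m1 g κ a S C cp dir z := by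
  have hD : ∀ i, dD m1 (g + Pi.single φ 1) (κ + 1) S C' (z.take i) =
      dD m1 g κ S C (z.take i) := by
    intro i
    have h1 := h M m1 0 g φ 0 κ (z.take i) hφ
    have h2 := h M m1 0 g φ 0 κ ((z.take i).take (2 * M)) hφ
    unfold dD
    rw [h2.2.2.2, hC _ (List.take_prefix i z)]
    by_cases ht : Tl m1 g (z.take i)
    · rw [if_pos ht, if_pos (h1.2.1.mpr ht)]
    · rw [if_neg ht, if_neg (fun hh => ht (h1.2.1.mp hh))]
  have h3 := h M m1 0 g φ 0 κ (z.take (2 * M)) hφ
  unfold cE
  rw [h3.2.2.2]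
  congr 1
  unfold sT
  refine Finset.sum_congr rfl fun i _ => ?_
  have h4 := (h M m1 0 g φ 0 κ (z.take (i + 1)) hφ).2.1
  rw [hD i, hD (i + 1)]
  by_cases ht : Tl m1 g (z.take (i + 1))
  · rw [if_pos ht, if_pos (h4.mpr ht)]
  · rw [if_neg ht, if_neg (fun hh => ht (h4.mp hh))]

end IPCt2

open IPCt2 in
theorem pr_Ct2 (h : StGs) : StCt2 := by
  intro R k M m1 sy a g φ κ S C cp hφ hsurj ha hcp
  choose dir hdir using hsurj
  refine ⟨fun s => cE m1 (gs φ g s) (κ + sd s) a S (C s) cp dir, fun s => ?_, fun z hz => ?_⟩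
  · exact core R k M m1 sy a (gs φ g s) (κ + sd s) S (C s) cp dir hdir ha hcp
  · have h1 := same h R k M m1 a g φ κ S (C false) (C true) cp dir hφ z hz
    have e1 : gs φ g true = g + Pi.single φ 1 := rfl
    have e2 : gs φ g false = g := rfl
    have e3 : κ + sd true = κ + 1 := rfl
    have e4 : κ + sd false = κ := add_zero κ
    show cE m1 (gs φ g true) (κ + sd true) a S (C true) cp dir z =
      cE m1 (gs φ g false) (κ + sd false) a S (C false) cp dir z
    rw [e1, e2, e3, e4]
    exact h1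

end Pool.Agent.Work.MP_bf01b2_co.Sh
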