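import Pool.Agent.Work.MP_bf01b2_co.Sh.StmtsP2

/-!
# Item Gs: the seed of the second side
-/

set_option autoImplicit false

namespace Pool.Agent.Work.MP_bf01b2_co.Sh

open Classical

namespace IPGs

lemma tg_add {M : ℕ} (g x : Vc M) (u : List Bool) : tg (g + x) u = tg g u + x := by
  funext i
  simp only [tg, Pi.add_apply]
  ring

lemma bad_add {M : ℕ} (m1 : ℕ) (μ : Vc M) (φ : Fin M) (hφ : φ.1 < m1) :
    Bad m1 (μ + Pi.single φ 1) ↔ Bad m1 μ := by
  have h : ∀ j : Fin M, m1 ≤ j.1 → (μ + Pi.single φ 1 : Vc M) j = μ j := by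
    intro j hj
    have hne : j ≠ φ := by
      intro h
      rw [h] at hj
      omega
    rw [Pi.add_apply, Pi.single_eq_of_ne hne, add_zero]
  unfold Bad
  constructor
  · rintro ⟨h1, h2⟩
    refine ⟨fun j hj => by rw [← h j (by omega)]; exact h1 j hj, fun h3 => h2 fun j hj hj' => ?_⟩
    rw [h j hj]
    exact h3 j hj hj'
  · rintro ⟨h1, h2⟩
    refine ⟨fun j hj => by rw [h j (by omega)]; exact h1 j hj, fun h3 => h2 fun j hj hj' => ?_⟩
    rw [← h j hj]
    exact h3 j hj hj'

end IPGs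

open IPGs in
theorem pr_Gs : StGs := by
  intro M m1 J g φ s κ u hφ
  have hb : Bad m1 (tg (g + Pi.single φ 1) u) ↔ Bad m1 (tg g u) := by
    rw [tg_add]
    exact bad_add m1 _ φ hφ
  refine ⟨hb, ?_, ?_, ?_⟩
  · unfold Tl
    rw [hb]
  · unfold mu
    by_cases h : Bad m1 (tg g u)
    · rw [if_pos h, if_pos (hb.2 h), tg_add]
      exact add_right_comm _ _ _
    · rw [if_neg h, if_neg (fun h' => h (hb.1 h')), tg_add]
  · unfold al0
    have h1 : par (tg (g + Pi.single φ 1) u) = par (tg g u) + 1 := by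
      rw [tg_add]
      unfold par
      simp only [Pi.add_apply, Finset.sum_add_distrib]
      rw [Finset.sum_pi_single']
      simp
    rw [h1]
    have h2 : (1 : ZMod 2) + 1 = 0 := rfl
    linear_combination h2

end Pool.Agent.Work.MP_bf01b2_co.Sh
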