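import Pool.Agent.Work.MP_bf01b2_co.Sh.StmtsP2

/-!
# MP_bf01b2_co, THEOREM LARGE, part P2, item Inj2: abstract packing with pairs
-/

set_option autoImplicit false

namespace Pool.Agent.Work.MP_bf01b2_co.Sh

open Classical

namespace IPInj2

/-- Extension of an injection into a large enough set. -/
theorem ext_inj {α β : Type} [Fintype α] (A : Finset β) (s : Finset α) (v : α → β)
    (hA : ∀ z ∈ s, v z ∈ A) (hinj : Set.InjOn v (s : Set α)) (hcard : Fintype.card α ≤ A.card) :
    ∃ h : α → β, (∀ z, h z ∈ A) ∧ Function.Injective h ∧ ∀ z ∈ s, h z = v z := by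
  have hsub : s.image v ⊆ A := by
    intro x hx
    obtain ⟨z, hz, rfl⟩ := Finset.mem_image.1 hx
    exact hA z hz
  have hle : (s.image v).card ≤ Fintype.card α :=
    Finset.card_image_le.trans (Finset.card_le_univ s)
  obtain ⟨u, hu1, hu2, hu3⟩ := Finset.exists_subsuperset_card_eq hsub hle hcard
  obtain ⟨g, hg⟩ := Finset.exists_equiv_extend_of_card_eq hu3.symm hu1 hinj
  refine ⟨fun z => (g z : β), fun z => hu2 (g z).2, ?_, hg⟩
  intro z z' hz
  exact g.injective (Subtype.ext hz)

/-- An injection into a large enough set. -/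
theorem some_inj {α β : Type} [Fintype α] (A : Finset β) (hcard : Fintype.card α ≤ A.card) :
    ∃ h : α → β, (∀ z, h z ∈ A) ∧ Function.Injective h := by
  have h : Nonempty (α ↪ A) := by
    apply Function.Embedding.nonempty_of_card_le
    rw [Fintype.card_coe]
    exact hcard
  obtain ⟨e⟩ := h
  refine ⟨fun z => (e z : β), fun z => (e z).2, ?_⟩
  intro z z' hz
  exact e.injective (Subtype.ext hz)

/-- A representative of every pair of classes. -/
theorem exists_rep {Q : Type} [Fintype Q] (pr : Q → Q) (h1 : ∀ K, pr (pr K) = K)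
    (h2 : ∀ K, pr K ≠ K) : ∃ P : Q → Prop, ∀ K, P (pr K) ↔ ¬ P K := by
  have e := Fintype.equivFin Q
  refine ⟨fun K => e K < e (pr K), fun K => ?_⟩
  show e (pr K) < e (pr (pr K)) ↔ ¬ e K < e (pr K)
  rw [h1]
  have hne : e (pr K) ≠ e K := fun h => h2 K (e.injective h)
  constructor
  · intro h h'
    exact lt_asymm h h'
  · intro h
    exact lt_of_le_of_ne (not_lt.1 h) hne

end IPInj2

open IPInj2 in
theorem pr_Inj2 : StInj2 := by
  intro N Q B _ _ A cl pr sp hpr hprne hsp hu1 hu2 hlr hcard
  obtain ⟨P, hP⟩ := exists_rep pr hpr hprne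
  have hc : ∀ K, Fintype.card {z : N // cl z = K} ≤ A.card := by
    intro K
    rw [Fintype.card_subtype]
    exact hcard K
  -- the symmetric relation
  set m : N → N → Prop := fun z w => sp z w ∨ sp w z with hm
  have mcl : ∀ z w, m z w → cl w = pr (cl z) := by
    rintro z w (h | h)
    · exact hsp z w h
    · rw [hsp w z h, hpr]
  have muniq : ∀ z w1 w2, m z w1 → m z w2 → w1 = w2 := by
    rintro z w1 w2 (h | h) (h' | h')
    · exact hu1 z w1 w2 h h'
    · exact absurd ⟨h, h'⟩ (hlr z w1 w2)
    · exact absurd ⟨h', h⟩ (hlr z w2 w1)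
    · exact hu2 z w1 w2 h h'
  have msymm : ∀ z w, m z w → m w z := fun z w h => h.symm
  -- injections of the classes
  choose g hgA hginj using fun K => some_inj (α := {z : N // cl z = K}) A (hc K)
  set G : N → B := fun z => g (cl z) ⟨z, rfl⟩ with hG
  have hGA : ∀ z, G z ∈ A := fun z => hgA _ _
  have hGg : ∀ z K (h : cl z = K), g K ⟨z, h⟩ = G z := by
    intro z K h
    subst h
    rfl
  have hGinj : ∀ z z', G z = G z' → cl z = cl z' → z = z' := by
    intro z z' h hcl
    rw [← hGg z (cl z') hcl] at h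
    have := hginj (cl z') h
    exact congrArg Subtype.val this
  -- the second classes
  have hH : ∀ K, ∃ h : {z : N // cl z = K} → B, (∀ z, h z ∈ A) ∧ Function.Injective h ∧
      ∀ z w, m z.1 w → h z = G w := by
    intro K
    set s : Finset {z : N // cl z = K} := Finset.univ.filter fun z => ∃ w, m z.1 w with hs
    set v : {z : N // cl z = K} → B := fun z =>
      if h : ∃ w, m z.1 w then G h.choose else G z.1 with hv
    have hvw : ∀ (z : {z : N // cl z = K}) w, m z.1 w → v z = G w := by
      intro z w hw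
      have hex : ∃ w, m z.1 w := ⟨w, hw⟩
      rw [hv]
      simp only
      rw [dif_pos hex, muniq z.1 _ _ hex.choose_spec hw]
    obtain ⟨h, h1, h2, h3⟩ := ext_inj A s v
      (by
        intro z hz
        obtain ⟨w, hw⟩ := (Finset.mem_filter.1 hz).2
        rw [hvw z w hw]
        exact hGA w)
      (by
        intro z hz z' hz' hzz
        obtain ⟨w, hw⟩ := (Finset.mem_filter.1 (Finset.mem_coe.1 hz)).2
        obtain ⟨w', hw'⟩ := (Finset.mem_filter.1 (Finset.mem_coe.1 hz')).2
        rw [hvw z w hw, hvw z' w' hw'] at hzz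
        have hww : w = w' := hGinj w w' hzz (by rw [mcl _ _ hw, mcl _ _ hw', z.2, z'.2])
        subst hww
        exact Subtype.ext (muniq w z.1 z'.1 (msymm _ _ hw) (msymm _ _ hw')))
      (hc K)
    refine ⟨h, h1, h2, fun z w hw => ?_⟩
    rw [h3 z (Finset.mem_filter.2 ⟨Finset.mem_univ _, w, hw⟩), hvw z w hw]
  choose H hHA hHinj hHm using hH
  have hHH : ∀ z K (h : cl z = K), H K ⟨z, h⟩ = H (cl z) ⟨z, rfl⟩ := by
    intro z K h
    subst h
    rfl
  refine ⟨fun z => if P (cl z) then G z else H (cl z) ⟨z, rfl⟩, ?_, ?_, ?_⟩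
  · intro z
    by_cases h : P (cl z)
    · simp only [h, if_true]
      exact hGA z
    · simp only [h, if_false]
      exact hHA _ _
  · intro z z' hzz hcl
    by_cases h : P (cl z)
    · have h' : P (cl z') := hcl ▸ h
      simp only [h, h', if_true] at hzz
      exact hGinj z z' hzz hcl
    · have h' : ¬ P (cl z') := hcl ▸ h
      simp only [h, h', if_false] at hzz
      rw [← hHH z (cl z') hcl] at hzz
      exact congrArg Subtype.val (hHinj (cl z') hzz)
  · intro z z' hs
    have hc' : cl z' = pr (cl z) := hsp z z' hs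
    by_cases h : P (cl z)
    · have h' : ¬ P (cl z') := by
        rw [hc', hP]
        exact not_not.2 h
      simp only [h, h', if_true, if_false]
      exact hHm (cl z') ⟨z', rfl⟩ z (Or.inr hs)
    · have h' : P (cl z') := by
        rw [hc', hP]
        exact h
      simp only [h, h', if_true, if_false]
      exact (hHm (cl z) ⟨z, rfl⟩ z' (Or.inl hs)).symm

end Pool.Agent.Work.MP_bf01b2_co.Sh
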