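import Pool.Agent.Work.MP_bf01b2_co.Sh.StmtsP2

/-!
# MP_bf01b2_co, THEOREM LARGE, part P2, item Loc2: labels of the transport on different sides
-/

set_option autoImplicit false

namespace Pool.Agent.Work.MP_bf01b2_co.Sh

open Classical

namespace IPLoc2

/-- The label of the transport. -/
noncomputable def lb {M : ℕ} (m1 J : ℕ) (g : Vc M) (s : ℕ) (l : Vc M) (u : List Bool) : Vc M :=
  if u.length ≤ 2 * M then lab g l u else mu m1 J g s u

theorem ev_len (u : List Bool) : (ev u).length = 2 * (u.length / 2) := by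
  unfold ev
  rw [List.length_take]
  omega

/-- A processed coordinate. -/
theorem proc {M : ℕ} (m1 J : ℕ) (g : Vc M) (s : ℕ) (l : Vc M) (u : List Bool) (j : Fin M)
    (h : 2 * j.1 + 1 ≤ u.length) (hj : j.1 < m1) : lb m1 J g s l u j = g j + lt u (2 * j.1) := by
  unfold lb
  by_cases h1 : u.length ≤ 2 * M
  · rw [if_pos h1]
    unfold lab
    have h2 : j.1 < (u.length + 1) / 2 := by omega
    rw [if_pos h2]
    rfl
  · rw [if_neg h1]
    unfold mu
    by_cases h2 : Bad m1 (tg g u)
    · rw [if_pos h2, Pi.add_apply]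
      have h3 : un M (m1 + 2 + (s + if u.getD (2 * M) false then 1 else 0) % J) j = 0 := by
        unfold un
        have h4 : ¬ (j.1 = m1 + 2 + (s + if u.getD (2 * M) false then 1 else 0) % J) := by
          omega
        rw [if_neg h4]
      rw [h3, add_zero]
      rfl
    · rw [if_neg h2]
      rfl

/-- A coordinate which is not processed. -/
theorem nproc {M : ℕ} (m1 J : ℕ) (g : Vc M) (s : ℕ) (l : Vc M) (u : List Bool) (j : Fin M)
    (h : u.length / 2 < j.1) : lb m1 J g s l u j = l j := by
  have hj := j.2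
  have h1 : u.length ≤ 2 * M := by omega
  have h2 : ¬ (j.1 < (u.length + 1) / 2) := by omega
  unfold lb
  rw [if_pos h1]
  unfold lab
  rw [if_neg h2]

theorem lt_ev (u : List Bool) (i : ℕ) (h : i < 2 * (u.length / 2)) : lt (ev u) i = lt u i := by
  unfold lt ev
  have h1 : (u.take (2 * (u.length / 2))).getD i false = u.getD i false := by
    rw [List.getD_eq_getElem?_getD, List.getD_eq_getElem?_getD, List.getElem?_take_of_lt h]
  rw [h1]

end IPLoc2

open IPLoc2 in
theorem pr_Loc2 : StLoc2 := by
  intro M m1 J g s l η φ ψ u u' hM hφ hφψ hη1 hη2 h1 h2 hev hl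
  have hl' : lb m1 J g s l u = lb m1 J (g + Pi.single φ 1) s (l + η) u' := hl
  have hlen : u.length / 2 = u'.length / 2 := by
    have h3 := congrArg List.length hev
    rw [ev_len, ev_len] at h3
    omega
  have h01 : ∀ z : ZMod 2, z ≠ z + 1 := by decide
  by_cases hc : φ.1 < u.length / 2
  · have h3 := congrFun hl' φ
    rw [proc m1 J g s l u φ (by omega) hφ, proc m1 J _ s _ u' φ (by omega) hφ] at h3
    have h4 : lt u (2 * φ.1) = lt u' (2 * φ.1) := by
      rw [← lt_ev u _ (by omega), ← lt_ev u' _ (by omega), hev]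
    rw [h4, Pi.add_apply, Pi.single_eq_same] at h3
    have h5 := add_right_cancel h3
    exact h01 _ h5
  · have h6 : ∃ j : Fin M, u.length / 2 < j.1 ∧ η j = 1 := by
      by_cases h7 : u.length / 2 < φ.1
      · exact ⟨φ, h7, hη1⟩
      · refine ⟨ψ, ?_, hη2⟩
        have h8 : φ.1 < ψ.1 := hφψ
        omega
    obtain ⟨j, hj1, hj2⟩ := h6
    have h3 := congrFun hl' j
    rw [nproc m1 J g s l u j hj1, nproc m1 J _ s _ u' j (by omega), Pi.add_apply, hj2] at h3
    exact h01 _ h3

end Pool.Agent.Work.MP_bf01b2_co.Sh
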