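import Pool.Agent.Work.MP_bf01b2_co.Sh.StmtsP

/-!
# MP_bf01b2_co, shallow trees, item Adj: consecutive addresses have adjacent positions
-/

set_option autoImplicit false

namespace Pool.Agent.Work.MP_bf01b2_co.Sh

open Classical

namespace IPAdj

theorem lt_app (u : List Bool) (e : Bool) (i : ℕ) (h : i < u.length) :
    lt (u ++ [e]) i = lt u i := by
  unfold lt
  rw [List.getD_append _ _ _ _ h]

theorem tg_app {M : ℕ} (g : Vc M) (u : List Bool) (e : Bool) (j : Fin M)
    (h : 2 * j.1 < u.length) : tg g (u ++ [e]) j = tg g u j := by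
  unfold tg
  rw [lt_app u e _ h]

theorem tg_app' {M : ℕ} (g : Vc M) (u : List Bool) (e : Bool) (h : 2 * M ≤ u.length) :
    tg g (u ++ [e]) = tg g u := by
  funext j
  exact tg_app g u e j (by omega)

theorem mu_app {M : ℕ} (m1 J : ℕ) (g : Vc M) (s : ℕ) (u : List Bool) (e : Bool)
    (h : 2 * M < u.length) : mu m1 J g s (u ++ [e]) = mu m1 J g s u := by
  unfold mu
  rw [tg_app' g u e h.le, List.getD_append _ _ _ _ h]

theorem un_eq (M n : ℕ) (h : n < M) : un M n = Pi.single (⟨n, h⟩ : Fin M) (1 : ZMod 2) := by
  funext j
  unfold un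
  rw [Pi.single_apply]
  by_cases hj : j.1 = n
  · rw [if_pos hj, if_pos (Fin.ext hj)]
  · rw [if_neg hj, if_neg (fun h' => hj (congrArg Fin.val h'))]

theorem lab_full {M : ℕ} (g l : Vc M) (u : List Bool) (h : M ≤ (u.length + 1) / 2) :
    lab g l u = tg g u := by
  funext j
  unfold lab
  rw [if_pos (by omega)]

theorem alp_full {M : ℕ} (g l : Vc M) (κ : ZMod 2) (hl : par l = κ) (u : List Bool)
    (h : M ≤ (u.length + 1) / 2) : alp g l u = al0 g κ u := by
  unfold alp al0
  rw [Finset.sum_congr rfl (fun i _ => if_pos (show i.1 < (u.length + 1) / 2 by omega)),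
    Finset.sum_add_distrib, Finset.sum_add_distrib, Finset.sum_const, Finset.card_univ,
    Fintype.card_fin, nsmul_eq_mul, mul_one, ← hl]
  rfl

theorem ev_even (u : List Bool) (i : ℕ) (h : u.length = 2 * i) : ev u = u := by
  unfold ev
  rw [h]
  exact List.take_of_length_le (by omega)

theorem ev_odd (u : List Bool) (e : Bool) (i : ℕ) (h : u.length = 2 * i) :
    ev (u ++ [e]) = u := by
  unfold ev
  rw [List.length_append, List.length_singleton, h, show 2 * ((2 * i + 1) / 2) = u.length by omega]
  exact List.take_left

theorem not_Tl {M : ℕ} (m1 : ℕ) (g : Vc M) (u : List Bool) (h : u.length ≤ 2 * M) :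
    ¬ Tl m1 g u := fun h' => absurd h'.1 (by omega)

theorem zmod_cases (x y : ZMod 2) (h : x ≠ y) : x = y + 1 := by
  revert x y
  decide

theorem zmod_a (x : ZMod 2) : 1 + x + x = 1 := by
  revert x
  decide

theorem zmod_b (x : ZMod 2) : 1 + x + (x + 1) = 0 := by
  revert x
  decide

/-- the change of `alp` on an even level -/
theorem alp_even {M : ℕ} (g l : Vc M) (u : List Bool) (e : Bool) (i : ℕ) (hi : i < M)
    (h : u.length = 2 * i) : alp g l (u ++ [e]) =
      alp g l u + (1 + l ⟨i, hi⟩ + tg g (u ++ [e]) ⟨i, hi⟩) := by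
  unfold alp
  rw [← Finset.add_sum_erase _ _ (Finset.mem_univ (⟨i, hi⟩ : Fin M)),
    ← Finset.add_sum_erase (Finset.univ) (fun j : Fin M => if j.1 < (u.length + 1) / 2 then
      1 + l j + tg g u j else 0) (Finset.mem_univ (⟨i, hi⟩ : Fin M))]
  rw [if_pos (show i < ((u ++ [e]).length + 1) / 2 by
      rw [List.length_append, List.length_singleton]; omega),
    if_neg (show ¬ i < (u.length + 1) / 2 by omega), zero_add, add_comm]
  congr 1
  refine Finset.sum_congr rfl fun j hj => ?_
  have hne : j.1 ≠ i := fun h' => (Finset.mem_erase.1 hj).1 (Fin.ext h')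
  by_cases hlt : j.1 < i
  · rw [if_pos (by rw [List.length_append, List.length_singleton]; omega),
      if_pos (by omega), tg_app g u e j (by omega)]
  · rw [if_neg (by rw [List.length_append, List.length_singleton]; omega), if_neg (by omega)]

/-- the label on an even level -/
theorem lab_even {M : ℕ} (g l : Vc M) (u : List Bool) (e : Bool) (i : ℕ) (hi : i < M)
    (h : u.length = 2 * i) (j : Fin M) : lab g l (u ++ [e]) j =
      if j.1 = i then tg g (u ++ [e]) ⟨i, hi⟩ else lab g l u j := by
  unfold lab
  by_cases hj : j.1 = i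
  · have hj' : j = ⟨i, hi⟩ := Fin.ext hj
    subst hj'
    rw [if_pos rfl, if_pos (by rw [List.length_append, List.length_singleton]; omega)]
  · rw [if_neg hj]
    by_cases hlt : j.1 < i
    · rw [if_pos (by rw [List.length_append, List.length_singleton]; omega),
        if_pos (by omega), tg_app g u e j (by omega)]
    · rw [if_neg (by rw [List.length_append, List.length_singleton]; omega),
        if_neg (by omega)]

theorem lab_at {M : ℕ} (g l : Vc M) (u : List Bool) (i : ℕ) (hi : i < M)
    (h : u.length = 2 * i) : lab g l u ⟨i, hi⟩ = l ⟨i, hi⟩ := by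
  unfold lab
  rw [if_neg (show ¬ i < (u.length + 1) / 2 by omega)]

theorem lab_odd {M : ℕ} (g l : Vc M) (u : List Bool) (e : Bool) (i : ℕ)
    (h : u.length = 2 * i + 1) : lab g l (u ++ [e]) = lab g l u := by
  funext j
  unfold lab
  by_cases hlt : j.1 < i + 1
  · rw [if_pos (by rw [List.length_append, List.length_singleton]; omega),
      if_pos (by omega), tg_app g u e j (by omega)]
  · rw [if_neg (by rw [List.length_append, List.length_singleton]; omega), if_neg (by omega)]

theorem alp_odd {M : ℕ} (g l : Vc M) (u : List Bool) (e : Bool) (i : ℕ)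
    (h : u.length = 2 * i + 1) : alp g l (u ++ [e]) = alp g l u := by
  unfold alp
  refine Finset.sum_congr rfl fun j _ => ?_
  by_cases hlt : j.1 < i + 1
  · rw [if_pos (by rw [List.length_append, List.length_singleton]; omega),
      if_pos (by omega), tg_app g u e j (by omega)]
  · rw [if_neg (by rw [List.length_append, List.length_singleton]; omega), if_neg (by omega)]

theorem split_last (u : List Bool) (n : ℕ) (h : u.length = n + 1) :
    ∃ (y : List Bool) (e1 : Bool), u = y ++ [e1] ∧ y.length = n := by
  have hne : u ≠ [] := by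
    intro h0
    rw [h0, List.length_nil] at h
    omega
  refine ⟨u.dropLast, u.getLast hne, (List.dropLast_append_getLast hne).symm, ?_⟩
  rw [List.length_dropLast, h]
  omega

end IPAdj

open IPAdj in
/-- item Adj -/
theorem pr_Adj : StAdj := by
  intro R M m1 J a g s κ t cp ct l hM hJ hTD hl u e hue
  have hlen : (u ++ [e]).length = u.length + 1 := by
    rw [List.length_append, List.length_singleton]
  by_cases hTl : Tl m1 g u
  · -- (E)
    have hTl' : Tl m1 g (u ++ [e]) := ⟨by rw [hlen]; have := hTl.1; omega, fun h0 => by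
      rw [hlen] at h0
      have := hTl.1
      omega⟩
    obtain ⟨i, hi⟩ := hTD.ct3 u e hTl hue
    refine Or.inl ⟨i, ?_⟩
    unfold pos
    rw [if_pos hTl, if_pos hTl', hi, mu_app m1 J g s u e hTl.1]
  · rcases lt_trichotomy u.length (2 * M) with hlt | heq | hgt
    · have hTl' : ¬ Tl m1 g (u ++ [e]) := not_Tl m1 g _ (by rw [hlen]; omega)
      have hp : pos m1 J a g s cp ct l u = (cp (ev u) + Pi.single a (alp g l u), lab g l u) := by
        unfold pos
        rw [if_neg hTl, if_pos hlt.le]
      have hp' : pos m1 J a g s cp ct l (u ++ [e]) =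
          (cp (ev (u ++ [e])) + Pi.single a (alp g l (u ++ [e])), lab g l (u ++ [e])) := by
        unfold pos
        rw [if_neg hTl', if_pos (by rw [hlen]; omega)]
      rw [hp, hp']
      rcases Nat.even_or_odd' u.length with ⟨i, hi | hi⟩
      · -- (A)
        have hiM : i < M := by omega
        rw [ev_even u i hi, ev_odd u e i hi]
        by_cases hT : tg g (u ++ [e]) ⟨i, hiM⟩ = l ⟨i, hiM⟩
        · refine Or.inl ⟨a, ?_⟩
          rw [alp_even g l u e i hiM hi, hT, zmod_a, Pi.single_add, ← add_assoc]
          congr 1
          funext j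
          rw [lab_even g l u e i hiM hi j]
          split_ifs with hj
          · have hj' : j = ⟨i, hiM⟩ := Fin.ext hj
            subst hj'
            rw [hT]
            exact (lab_at g l u i hiM hi).symm
          · rfl
        · refine Or.inr ⟨⟨i, hiM⟩, ?_⟩
          have hT' := zmod_cases _ _ hT
          rw [alp_even g l u e i hiM hi, hT', zmod_b, add_zero]
          congr 1
          funext j
          rw [lab_even g l u e i hiM hi j, Pi.add_apply, Pi.single_apply]
          by_cases hj : j.1 = i
          · have hj' : j = ⟨i, hiM⟩ := Fin.ext hj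
            subst hj'
            rw [if_pos rfl, if_pos rfl, hT']
            congr 1
            exact (lab_at g l u i hiM hi).symm
          · rw [if_neg hj, if_neg (fun h' => hj (congrArg Fin.val h')), add_zero]
      · -- (B)
        obtain ⟨y, e1, rfl, hy⟩ := split_last u (2 * i) hi
        obtain ⟨i', hi'⟩ := hTD.cps y e1 e (by omega) (by omega)
        refine Or.inl ⟨i', ?_⟩
        rw [lab_odd g l _ e i hi, alp_odd g l _ e i hi, ev_odd y e1 i hy,
          ev_even (y ++ [e1] ++ [e]) (i + 1) (by rw [hlen, hi]; ring), List.append_assoc]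
        change (cp (y ++ [e1, e]) + _, _) = _
        rw [hi']
        simp only [Prod.mk.injEq, and_true]
        abel
    · -- (C)
      have hfull : M ≤ (u.length + 1) / 2 := by omega
      have hfull' : M ≤ ((u ++ [e]).length + 1) / 2 := by rw [hlen]; omega
      have htg : tg g (u ++ [e]) = tg g u := tg_app' g u e heq.ge
      have hp : pos m1 J a g s cp ct l u = (cp u + Pi.single a (al0 g κ u), tg g u) := by
        unfold pos
        rw [if_neg hTl, if_pos heq.le, ev_even u M heq, lab_full g l u hfull,
          alp_full g l κ hl u hfull]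
      have hal : al0 g κ (u ++ [e]) = al0 g κ u := by
        unfold al0
        rw [htg]
      rw [hp]
      by_cases hB : Bad m1 (tg g u)
      · have hTl' : ¬ Tl m1 g (u ++ [e]) := fun h' => h'.2 (by rw [hlen, heq]) (by
          rw [htg]
          exact hB)
        have hn : m1 + 2 + (s + if (u ++ [e]).getD (2 * M) false then 1 else 0) % J < M := by
          have := Nat.mod_lt (s + if (u ++ [e]).getD (2 * M) false then 1 else 0)
            (show 0 < J by omega)
          omega
        refine Or.inr ⟨⟨_, hn⟩, ?_⟩
        unfold pos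
        rw [if_neg hTl', if_neg (by rw [hlen]; omega), ev_odd u e M heq,
          alp_full g l κ hl _ hfull', hal]
        congr 1
        unfold mu
        rw [htg, if_pos hB, un_eq M _ hn]
      · have hTl' : Tl m1 g (u ++ [e]) := ⟨by rw [hlen]; omega, fun _ => by
          rw [htg]
          exact hB⟩
        obtain ⟨i, hi⟩ := hTD.ct1 u e heq hue hB
        refine Or.inl ⟨i, ?_⟩
        unfold pos
        rw [if_pos hTl', hi]
        congr 1
        unfold mu
        rw [htg, if_neg hB]
    · -- (D)
      have hlen2 : u.length = 2 * M + 1 := by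
        by_contra hne
        exact hTl ⟨hgt, fun h0 => absurd h0 hne⟩
      have hB : Bad m1 (tg g u) := by
        by_contra hne
        exact hTl ⟨hgt, fun _ => hne⟩
      obtain ⟨y, e1, rfl, hy⟩ := split_last u (2 * M) hlen2
      have htg : tg g (y ++ [e1]) = tg g y := tg_app' g y e1 hy.ge
      have hal : al0 g κ (y ++ [e1]) = al0 g κ y := by
        unfold al0
        rw [htg]
      have hTl' : Tl m1 g (y ++ [e1] ++ [e]) := ⟨by rw [hlen]; omega, fun h0 => by
        rw [hlen] at h0
        omega⟩
      have happ : y ++ [e1] ++ [e] = y ++ [e1, e] := by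
        rw [List.append_assoc]
        rfl
      obtain ⟨i, hi⟩ := hTD.ct2 y e1 e hy (by rw [← happ]; exact hue) (by rw [← htg]; exact hB)
      refine Or.inl ⟨i, ?_⟩
      unfold pos
      rw [if_neg hTl, if_pos hTl', if_neg (by omega), mu_app m1 J g s _ e hgt,
        ev_odd y e1 M hy, alp_full g l κ hl _ (by omega), hal, happ, hi]

end Pool.Agent.Work.MP_bf01b2_co.Sh
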