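import Pool.Agent.Work.MP_bf01b2_co.Sh.StmtsP

/-!
# MP_bf01b2_co, theorem SHALLOW, part P, item Cp: the private columns
-/

set_option autoImplicit false

namespace Pool.Agent.Work.MP_bf01b2_co.Sh

open Classical

namespace IPCp

theorem two (k : ℕ) (x : Vc k) : x + x = 0 := by
  funext c
  have : ∀ z : ZMod 2, z + z = 0 := by decide
  exact this (x c)

theorem syn_add {R k : ℕ} (sy : Fin R → Vc k) (x y : Vc R) :
    syn sy (x + y) = syn sy x + syn sy y := by
  funext c
  simp only [syn, Pi.add_apply, add_mul, Finset.sum_add_distrib]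

theorem syn_zero {R k : ℕ} (sy : Fin R → Vc k) : syn sy 0 = 0 := by
  funext c
  simp only [syn, Pi.zero_apply, zero_mul, Finset.sum_const_zero]

theorem syn_single {R k : ℕ} (sy : Fin R → Vc k) (j : Fin R) :
    syn sy (Pi.single j 1) = sy j := by
  funext c
  simp only [syn]
  rw [Finset.sum_eq_single j]
  · rw [Pi.single_eq_same, one_mul]
  · intro b _ hb
    rw [Pi.single_eq_of_ne hb, zero_mul]
  · intro h
    exact absurd (Finset.mem_univ j) h

theorem syn_sum {R k : ℕ} (sy : Fin R → Vc k) (f : ℕ → Vc R) (m : ℕ) :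
    syn sy (∑ i ∈ Finset.range m, f i) = ∑ i ∈ Finset.range m, syn sy (f i) := by
  induction m with
  | zero => rw [Finset.sum_range_zero, Finset.sum_range_zero, syn_zero]
  | succ m ih => rw [Finset.sum_range_succ, Finset.sum_range_succ, syn_add, ih]

theorem tele {k : ℕ} (f : ℕ → Vc k) (m : ℕ) :
    ∑ i ∈ Finset.range m, (f i + f (i + 1)) = f 0 + f m := by
  induction m with
  | zero => rw [Finset.sum_range_zero, two]
  | succ m ih =>
    rw [Finset.sum_range_succ, ih]
    have h := two k (f m)
    calc f 0 + f m + (f m + f (m + 1)) = f 0 + (f m + f m) + f (m + 1) := by abel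
      _ = f 0 + f (m + 1) := by rw [h, add_zero]

end IPCp

open IPCp

theorem pr_Cp : StCp := by
  intro R k sy S hsy
  choose dir hdir using hsy
  refine ⟨fun u => ∑ i ∈ Finset.range (u.length / 2),
    Pi.single (dir (S (u.take (2 * i)) + S (u.take (2 * i + 2)))) 1, ?_, ?_, ?_⟩
  · show ∑ i ∈ Finset.range (([] : List Bool).length / 2), _ = (0 : Vc R)
    rw [List.length_nil]
    rfl
  · intro y e e' hy
    have hl : (y ++ [e, e']).length / 2 = y.length / 2 + 1 := by
      rw [List.length_append]
      show (y.length + 2) / 2 = _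
      omega
    refine ⟨dir (S ((y ++ [e, e']).take (2 * (y.length / 2))) +
      S ((y ++ [e, e']).take (2 * (y.length / 2) + 2))), ?_⟩
    show ∑ i ∈ Finset.range ((y ++ [e, e']).length / 2), _ = _
    rw [hl, Finset.sum_range_succ]
    congr 1
    apply Finset.sum_congr rfl
    intro i hi
    have hi' := Finset.mem_range.mp hi
    rw [List.take_append_of_le_length (by omega), List.take_append_of_le_length (by omega)]
  · intro y hy
    show syn sy (∑ i ∈ Finset.range (y.length / 2),
      Pi.single (dir (S (y.take (2 * i)) + S (y.take (2 * i + 2)))) 1) = _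
    rw [syn_sum]
    have h1 : ∀ i, syn sy (Pi.single (dir (S (y.take (2 * i)) + S (y.take (2 * i + 2)))) 1) =
        (fun j => S (y.take (2 * j))) i + (fun j => S (y.take (2 * j))) (i + 1) := by
      intro i
      rw [syn_single, hdir]
      rfl
    rw [Finset.sum_congr rfl fun i _ => h1 i, tele]
    show S (y.take (2 * 0)) + S (y.take (2 * (y.length / 2))) = _
    have h2 : 2 * (y.length / 2) = y.length := by omega
    rw [h2, List.take_length, Nat.mul_zero, List.take_zero]

end Pool.Agent.Work.MP_bf01b2_co.Sh
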