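import Pool.Agent.Work.MP_bf01b2_co.Sh.StmtsP

/-!
# MP_bf01b2_co, shallow trees, item Hal: the theorem of Hall for degrees
-/

set_option autoImplicit false

namespace Pool.Agent.Work.MP_bf01b2_co.Sh

open Classical

namespace IPHal

theorem hal (I P : Type) [Fintype P] [Nonempty P] (V : Finset I) (r : I → P → Prop) (D : ℝ)
    (hD : 0 < D) (h1 : ∀ v ∈ V, D ≤ ((Finset.univ.filter fun p => r v p).card : ℝ))
    (h2 : ∀ p, ((V.filter fun v => r v p).card : ℝ) ≤ D) :
    ∃ f : I → P, (∀ v ∈ V, r v (f v)) ∧ ∀ v ∈ V, ∀ v' ∈ V, f v = f v' → v = v' := by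
  have hall : ∀ s : Finset V, s.card ≤
      (s.biUnion fun v : V => Finset.univ.filter fun p => r v.1 p).card := by
    intro s
    have c1 : (s.card : ℝ) * D ≤ ∑ v ∈ s, ((Finset.univ.filter fun p => r v.1 p).card : ℝ) := by
      rw [← nsmul_eq_mul, ← Finset.sum_const]
      exact Finset.sum_le_sum fun v _ => h1 v.1 v.2
    set B := s.biUnion fun v : V => Finset.univ.filter fun p => r v.1 p with hB
    have c2 : ∑ v ∈ s, ((Finset.univ.filter fun p => r v.1 p).card : ℝ) =
        ∑ p ∈ B, ((s.filter fun v : V => r v.1 p).card : ℝ) := by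
      have e1 : ∀ v ∈ s, (Finset.univ.filter fun p => r v.1 p) = B.filter fun p => r v.1 p := by
        intro v hv
        ext p
        simp only [Finset.mem_filter, Finset.mem_univ, true_and, hB, Finset.mem_biUnion]
        constructor
        · intro h
          exact ⟨⟨v, hv, h⟩, h⟩
        · intro h
          exact h.2
      rw [Finset.sum_congr rfl fun v hv => by rw [e1 v hv]]
      have e2 := Finset.sum_card_bipartiteAbove_eq_sum_card_bipartiteBelow (s := s) (t := B)
        (fun (v : V) (p : P) => r v.1 p)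
      unfold Finset.bipartiteAbove Finset.bipartiteBelow at e2
      exact_mod_cast e2
    have c3 : ∑ p ∈ B, ((s.filter fun v : V => r v.1 p).card : ℝ) ≤ (B.card : ℝ) * D := by
      rw [← nsmul_eq_mul, ← Finset.sum_const]
      refine Finset.sum_le_sum fun p _ => le_trans ?_ (h2 p)
      have e3 : (s.filter fun v : V => r v.1 p).card ≤ (V.filter fun v => r v p).card := by
        refine Finset.card_le_card_of_injOn (fun v : V => v.1) ?_ ?_
        · intro v hv
          have hv' := (Finset.mem_filter.1 (Finset.mem_coe.1 hv)).2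
          exact Finset.mem_coe.2 (Finset.mem_filter.2 ⟨v.2, hv'⟩)
        · intro v _ v' _ h
          exact Subtype.ext h
      exact_mod_cast e3
    have c4 : (s.card : ℝ) * D ≤ (B.card : ℝ) * D := c1.trans (c2.le.trans c3)
    have c5 : (s.card : ℝ) ≤ (B.card : ℝ) := le_of_mul_le_mul_right c4 hD
    exact_mod_cast c5
  obtain ⟨g, hg, hgr⟩ := (Finset.all_card_le_biUnion_card_iff_exists_injective
    (fun v : V => Finset.univ.filter fun p => r v.1 p)).1 hall
  refine ⟨fun v => if h : v ∈ V then g ⟨v, h⟩ else Classical.arbitrary P, ?_, ?_⟩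
  · intro v hv
    have := hgr ⟨v, hv⟩
    simp only [dif_pos hv]
    exact (Finset.mem_filter.1 this).2
  · intro v hv v' hv' h
    simp only [dif_pos hv, dif_pos hv'] at h
    exact congrArg Subtype.val (hg h)

end IPHal

theorem pr_Hal : StHal := IPHal.hal

end Pool.Agent.Work.MP_bf01b2_co.Sh
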