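import Pool.Agent.Work.MP_bf01b2_co.Sh.StmtsP

/-!
# MP_bf01b2_co, theorem SHALLOW, part P, item Law: the law of the final label
-/

set_option autoImplicit false

namespace Pool.Agent.Work.MP_bf01b2_co.Sh

open Classical

namespace IPLaw

theorem tg_inj {M : ℕ} (g g' : Vc M) (u : List Bool) (h : tg g u = tg g' u) : g = g' := by
  funext i
  have h1 := congrFun h i
  unfold tg at h1
  exact add_right_cancel h1

theorem bad_at {M m1 J : ℕ} (hM : m1 + 2 + J = M) (hJ : 1 ≤ J) (ν : Vc M) (hν : Bad m1 ν) (a : ℕ) :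
    ∃ j : Fin M, j.1 = m1 + 2 + a % J ∧ ν j = 0 := by
  have h1 : a % J < J := Nat.mod_lt _ hJ
  refine ⟨⟨m1 + 2 + a % J, by omega⟩, rfl, hν.1 _ ?_⟩
  show m1 + 2 ≤ m1 + 2 + a % J
  omega

theorem part1 {M m1 J : ℕ} (u : List Bool) (μ : Vc M) (hM : m1 + 2 + J = M) (hJ : 1 ≤ J)
    (hμ : Bad m1 μ) (g : Vc M) (s : ℕ) : mu m1 J g s u ≠ μ := by
  intro h
  unfold mu at h
  by_cases hb : Bad m1 (tg g u)
  · rw [if_pos hb] at h
    obtain ⟨j, hj, hj0⟩ := bad_at hM hJ _ hb (s + if u.getD (2 * M) false then 1 else 0)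
    have h1 := congrFun h j
    have h2 : μ j = 0 := hμ.1 j (by rw [hj]; omega)
    rw [Pi.add_apply, hj0, h2, un, if_pos hj, zero_add] at h1
    exact one_ne_zero h1
  · rw [if_neg hb] at h
    rw [h] at hb
    exact hb hμ

theorem mod_inj {J s s' e : ℕ} (hs : s < J) (hs' : s' < J) (h : (s + e) % J = (s' + e) % J) :
    s = s' := by
  have h1 : s ≡ s' [MOD J] := Nat.ModEq.add_right_cancel' e h
  have h2 : s % J = s' % J := h1
  rwa [Nat.mod_eq_of_lt hs, Nat.mod_eq_of_lt hs'] at h2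

theorem inj2 {M m1 J : ℕ} (hM : m1 + 2 + J = M) (hJ : 1 ≤ J) (ν ν' : Vc M) (a a' : ℕ)
    (hν : Bad m1 ν) (hν' : Bad m1 ν')
    (h : ν + un M (m1 + 2 + a % J) = ν' + un M (m1 + 2 + a' % J)) : ν = ν' ∧ a % J = a' % J := by
  obtain ⟨j, hj, hj0⟩ := bad_at hM hJ ν hν a
  have h1 := congrFun h j
  have h2 : ν' j = 0 := hν'.1 j (by rw [hj]; omega)
  rw [Pi.add_apply, Pi.add_apply, hj0, h2, zero_add, zero_add, un, un, if_pos hj] at h1
  have h3 : a % J = a' % J := by
    by_contra hne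
    rw [if_neg (by rw [hj]; omega)] at h1
    exact one_ne_zero h1
  refine ⟨?_, h3⟩
  rw [h3] at h
  exact add_right_cancel h

end IPLaw

open IPLaw in
theorem pr_Law : StLaw := by
  intro M m1 J u μ hM hJ
  refine ⟨fun hμ g s => part1 u μ hM hJ hμ g s, ?_⟩
  have hsub : (Finset.univ.filter fun x : Vc M × Fin J => mu m1 J x.1 x.2.1 u = μ) ⊆
      (Finset.univ.filter fun x : Vc M × Fin J => tg x.1 u = μ) ∪
      (Finset.univ.filter fun x : Vc M × Fin J => Bad m1 (tg x.1 u) ∧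
        tg x.1 u + un M (m1 + 2 + (x.2.1 + if u.getD (2 * M) false then 1 else 0) % J) = μ) := by
    intro x hx
    rw [Finset.mem_filter] at hx
    rw [Finset.mem_union, Finset.mem_filter, Finset.mem_filter]
    have h1 := hx.2
    unfold mu at h1
    by_cases hb : Bad m1 (tg x.1 u)
    · rw [if_pos hb] at h1
      exact Or.inr ⟨Finset.mem_univ _, hb, h1⟩
    · rw [if_neg hb] at h1
      exact Or.inl ⟨Finset.mem_univ _, h1⟩
  refine (Finset.card_le_card hsub).trans ((Finset.card_union_le _ _).trans ?_)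
  refine Nat.add_le_add ?_ ?_
  · have h1 : (Finset.univ : Finset (Fin J)).card = J := by simp
    refine le_trans (Finset.card_le_card_of_injOn (fun x => x.2)
      (t := (Finset.univ : Finset (Fin J))) (fun x _ => Finset.mem_univ _) ?_) h1.le
    rintro ⟨g, s⟩ hx ⟨g', s'⟩ hx' h
    rw [Finset.mem_coe, Finset.mem_filter] at hx hx'
    simp only at h
    have h2 : g = g' := tg_inj g g' u (hx.2.trans hx'.2.symm)
    rw [h2, h]
  · rw [Finset.card_le_one]
    rintro ⟨g, s⟩ hx ⟨g', s'⟩ hx'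
    rw [Finset.mem_filter] at hx hx'
    obtain ⟨h1, h2⟩ := inj2 hM hJ _ _ _ _ hx.2.1 hx'.2.1 (hx.2.2.trans hx'.2.2.symm)
    have h3 : g = g' := tg_inj g g' u h1
    have h4 : s.1 = s'.1 := mod_inj s.2 s'.2 h2
    rw [h3, Fin.ext h4]

end Pool.Agent.Work.MP_bf01b2_co.Sh
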