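import Pool.Agent.Work.MP_bf01b2_co.Sh.StmtsP

/-!
# MP_bf01b2_co, theorem SHALLOW, part P, item Loc: the labels of the transport
-/

set_option autoImplicit false

namespace Pool.Agent.Work.MP_bf01b2_co.Sh

open Classical

namespace IPLoc

/-- The label of the transport. -/
noncomputable def lb {M : ℕ} (m1 J : ℕ) (g : Vc M) (s : ℕ) (l : Vc M) (u : List Bool) : Vc M :=
  if u.length ≤ 2 * M then lab g l u else mu m1 J g s u

theorem lt_app (y : List Bool) (e : Bool) (i : ℕ) (h : i < y.length) :
    lt (y ++ [e]) i = lt y i := by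
  unfold lt
  rw [List.getD_append _ _ _ _ h]

theorem lt_last (y : List Bool) (e : Bool) (i : ℕ) (h : y.length = i) :
    lt (y ++ [e]) i = if e then 1 else 0 := by
  subst h
  unfold lt
  rw [List.getD_append_right _ _ _ _ le_rfl, Nat.sub_self]
  rfl

theorem getD_last (y : List Bool) (e : Bool) (i : ℕ) (h : y.length = i) :
    (y ++ [e]).getD i false = e := by
  subst h
  rw [List.getD_append_right _ _ _ _ le_rfl, Nat.sub_self]
  rfl

theorem tg_app {M : ℕ} (g : Vc M) (y : List Bool) (e : Bool) (j : Fin M)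
    (h : 2 * j.1 < y.length) : tg g (y ++ [e]) j = tg g y j := by
  unfold tg
  rw [lt_app y e _ h]

/-- A vertex and its child, `i < M`. -/
theorem caseB {M : ℕ} (m1 J : ℕ) (g : Vc M) (s : ℕ) (l : Vc M) (y : List Bool) (e : Bool) (i : ℕ)
    (hy : y.length = 2 * i) (hi : i < M) (ha : alp g l y = alp g l (y ++ [e]))
    (hl : lb m1 J g s l y = lb m1 J g s l (y ++ [e])) : False := by
  have hlen : (y ++ [e]).length = 2 * i + 1 := by rw [List.length_append, hy]; rfl
  have e1 : (y.length + 1) / 2 = i := by omega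
  have e2 : ((y ++ [e]).length + 1) / 2 = i + 1 := by omega
  unfold lb at hl
  rw [if_pos (by omega), if_pos (by omega)] at hl
  have h1 := congrFun hl ⟨i, hi⟩
  unfold lab at h1
  rw [e1, e2, if_neg (by simp), if_pos (by simp)] at h1
  unfold alp at ha
  rw [e1, e2] at ha
  have h2 : ∑ j : Fin M, (if j.1 < i + 1 then 1 + l j + tg g (y ++ [e]) j else 0) =
      (∑ j : Fin M, if j.1 < i then 1 + l j + tg g y j else 0) +
        ∑ j : Fin M, if j = ⟨i, hi⟩ then 1 + l j + tg g (y ++ [e]) j else 0 := by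
    rw [← Finset.sum_add_distrib]
    apply Finset.sum_congr rfl
    intro j _
    by_cases h3 : j.1 < i
    · rw [if_pos (by omega), if_pos h3, if_neg (by intro h; rw [h] at h3; exact lt_irrefl _ h3),
        add_zero, tg_app g y e j (by omega)]
    · by_cases h4 : j.1 = i
      · rw [if_pos (by omega), if_neg h3, if_pos (Fin.ext h4), zero_add]
      · rw [if_neg (by omega), if_neg h3, if_neg (by intro h; exact h4 (by rw [h])), add_zero]
  rw [h2, Finset.sum_ite_eq' Finset.univ, if_pos (Finset.mem_univ _)] at ha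
  have h5 := left_eq_add.mp ha
  rw [← h1] at h5
  have h6 : ∀ z : ZMod 2, 1 + z + z ≠ 0 := by decide
  exact h6 _ h5

theorem caseC {M : ℕ} (m1 J : ℕ) (g : Vc M) (s : ℕ) (l : Vc M) (y : List Bool) (e e' : Bool)
    (i : ℕ) (hy : y.length = 2 * i) (hi : i < M)
    (hl : lb m1 J g s l (y ++ [e]) = lb m1 J g s l (y ++ [e'])) : e = e' := by
  have hlen : (y ++ [e]).length = 2 * i + 1 := by rw [List.length_append, hy]; rfl
  have hlen' : (y ++ [e']).length = 2 * i + 1 := by rw [List.length_append, hy]; rfl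
  have e1 : ((y ++ [e']).length + 1) / 2 = i + 1 := by omega
  have e2 : ((y ++ [e]).length + 1) / 2 = i + 1 := by omega
  unfold lb at hl
  rw [if_pos (by omega), if_pos (by omega)] at hl
  have h1 := congrFun hl ⟨i, hi⟩
  unfold lab at h1
  rw [e1, e2, if_pos (by simp), if_pos (by simp)] at h1
  unfold tg at h1
  have h2 := add_left_cancel h1
  rw [lt_last y e _ hy, lt_last y e' _ hy] at h2
  cases e <;> cases e' <;> simp_all

theorem kM {M m1 J : ℕ} (h : m1 + 2 + J = M) (hJ : 2 ≤ J) (n : ℕ) : m1 + 2 + n % J < M := by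
  have := Nat.mod_lt n (by omega : 0 < J)
  omega

theorem tg_eq {M : ℕ} (g : Vc M) (y : List Bool) (e : Bool) (hy : y.length = 2 * M) :
    tg g (y ++ [e]) = tg g y := by
  funext j
  exact tg_app g y e j (by have := j.2; omega)

theorem lab_eq {M : ℕ} (g l : Vc M) (y : List Bool) (hy : y.length = 2 * M) :
    lab g l y = tg g y := by
  funext j
  unfold lab
  rw [if_pos (by have := j.2; omega)]

theorem lb_last {M : ℕ} (m1 J : ℕ) (g : Vc M) (s : ℕ) (l : Vc M) (y : List Bool) (e : Bool)
    (hy : y.length = 2 * M) (hb : Bad m1 (tg g (y ++ [e]))) :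
    lb m1 J g s l (y ++ [e]) =
      tg g y + un M (m1 + 2 + (s + if e then 1 else 0) % J) := by
  have hlen : (y ++ [e]).length = 2 * M + 1 := by rw [List.length_append, hy]; rfl
  unfold lb
  rw [if_neg (by omega)]
  unfold mu
  rw [if_pos hb, tg_eq g y e hy, getD_last y e _ hy]

theorem caseB' {M : ℕ} (m1 J : ℕ) (g : Vc M) (s : ℕ) (l : Vc M) (y : List Bool) (e : Bool)
    (hM : m1 + 2 + J = M) (hJ : 2 ≤ J) (hy : y.length = 2 * M)
    (hb : Bad m1 (tg g (y ++ [e])))
    (hl : lb m1 J g s l y = lb m1 J g s l (y ++ [e])) : False := by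
  rw [lb_last m1 J g s l y e hy hb] at hl
  unfold lb at hl
  rw [if_pos (by omega), lab_eq g l y hy] at hl
  have h1 := left_eq_add.mp hl
  have h2 := congrFun h1 ⟨_, kM hM hJ (s + if e then 1 else 0)⟩
  unfold un at h2
  rw [if_pos rfl] at h2
  exact one_ne_zero h2

theorem mod_ne (s J : ℕ) (hJ : 2 ≤ J) (h : (s + 0) % J = (s + 1) % J) : False := by
  have h1 : (s + 0) ≡ (s + 1) [MOD J] := h
  have h2 : 0 ≡ 1 [MOD J] := Nat.ModEq.add_left_cancel' s h1
  have h3 := (Nat.modEq_iff_dvd' (by omega)).mp h2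
  have h4 := Nat.le_of_dvd (by omega) h3
  omega

theorem caseC' {M : ℕ} (m1 J : ℕ) (g : Vc M) (s : ℕ) (l : Vc M) (y : List Bool) (e e' : Bool)
    (hM : m1 + 2 + J = M) (hJ : 2 ≤ J) (hy : y.length = 2 * M)
    (hb : Bad m1 (tg g (y ++ [e]))) (hb' : Bad m1 (tg g (y ++ [e'])))
    (hl : lb m1 J g s l (y ++ [e]) = lb m1 J g s l (y ++ [e'])) : e = e' := by
  rw [lb_last m1 J g s l y e hy hb, lb_last m1 J g s l y e' hy hb'] at hl
  have h1 := add_left_cancel hl
  have h2 := congrFun h1 ⟨_, kM hM hJ (s + if e then 1 else 0)⟩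
  unfold un at h2
  rw [if_pos rfl] at h2
  have h3 : m1 + 2 + (s + if e then 1 else 0) % J = m1 + 2 + (s + if e' then 1 else 0) % J := by
    by_contra hne
    rw [if_neg hne] at h2
    exact one_ne_zero h2
  have h4 : (s + if e then 1 else 0) % J = (s + if e' then 1 else 0) % J := by omega
  cases e with
  | false =>
    cases e' with
    | false => rfl
    | true => exact (mod_ne s J hJ h4).elim
  | true =>
    cases e' with
    | false => exact (mod_ne s J hJ h4.symm).elim
    | true => rfl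

theorem notTl {M m1 : ℕ} (g : Vc M) (u : List Bool) (h : ¬ Tl m1 g u) :
    u.length ≤ 2 * M ∨ (u.length = 2 * M + 1 ∧ Bad m1 (tg g u)) := by
  unfold Tl at h
  by_cases h1 : 2 * M < u.length
  · right
    by_contra h2
    exact h ⟨h1, fun h3 h4 => h2 ⟨h3, h4⟩⟩
  · left
    omega

theorem split (u : List Bool) (h : u.length % 2 = 1) :
    ∃ e, u = ev u ++ [e] := by
  have h1 : 2 * (u.length / 2) < u.length := by omega
  refine ⟨u[2 * (u.length / 2)], ?_⟩
  unfold ev
  rw [← List.take_succ_eq_append_getElem h1]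
  have h2 : 2 * (u.length / 2) + 1 = u.length := by omega
  rw [h2, List.take_length]

theorem ev_even (u : List Bool) (h : u.length % 2 = 0) : ev u = u := by
  unfold ev
  have h2 : 2 * (u.length / 2) = u.length := by omega
  rw [h2, List.take_length]

theorem ev_len (u : List Bool) : (ev u).length = 2 * (u.length / 2) := by
  unfold ev
  rw [List.length_take]
  omega

/-- Both cases of a vertex and its child. -/
theorem B {M : ℕ} (m1 J : ℕ) (g : Vc M) (s : ℕ) (l : Vc M) (y : List Bool) (e : Bool)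
    (hM : m1 + 2 + J = M) (hJ : 2 ≤ J) (hy : y.length % 2 = 0) (h : ¬ Tl m1 g (y ++ [e]))
    (ha : alp g l y = alp g l (y ++ [e]))
    (hl : lb m1 J g s l y = lb m1 J g s l (y ++ [e])) : False := by
  have hlen : (y ++ [e]).length = y.length + 1 := by rw [List.length_append]; rfl
  rcases notTl g _ h with h1 | ⟨h1, h2⟩
  · exact caseB m1 J g s l y e (y.length / 2) (by omega) (by omega) ha hl
  · exact caseB' m1 J g s l y e hM hJ (by omega) h2 hl

theorem C {M : ℕ} (m1 J : ℕ) (g : Vc M) (s : ℕ) (l : Vc M) (y : List Bool) (e e' : Bool)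
    (hM : m1 + 2 + J = M) (hJ : 2 ≤ J) (hy : y.length % 2 = 0) (h : ¬ Tl m1 g (y ++ [e]))
    (h' : ¬ Tl m1 g (y ++ [e']))
    (hl : lb m1 J g s l (y ++ [e]) = lb m1 J g s l (y ++ [e'])) : e = e' := by
  have hlen : (y ++ [e]).length = y.length + 1 := by rw [List.length_append]; rfl
  have hlen' : (y ++ [e']).length = y.length + 1 := by rw [List.length_append]; rfl
  rcases notTl g _ h with h1 | ⟨h1, h2⟩
  · exact caseC m1 J g s l y e e' (y.length / 2) (by omega) (by omega) hl
  · rcases notTl g _ h' with h3 | ⟨h3, h4⟩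
    · omega
    · exact caseC' m1 J g s l y e e' hM hJ (by omega) h2 h4 hl

end IPLoc

open IPLoc in
theorem pr_Loc : StLoc := by
  intro M m1 J g s l u u' hM hJ h1 h2 hev ha hl
  have hl' : lb m1 J g s l u = lb m1 J g s l u' := hl
  have hlen : u.length / 2 = u'.length / 2 := by
    have h3 := congrArg List.length hev
    rw [ev_len, ev_len] at h3
    omega
  rcases Nat.mod_two_eq_zero_or_one u.length with h3 | h3
  · rcases Nat.mod_two_eq_zero_or_one u'.length with h4 | h4
    · rw [← ev_even u h3, ← ev_even u' h4, hev]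
    · obtain ⟨e, he⟩ := split u' h4
      rw [← hev, ev_even u h3] at he
      rw [he] at h2 ha hl'
      exact (B m1 J g s l u e hM hJ h3 h2 ha hl').elim
  · obtain ⟨e, he⟩ := split u h3
    rcases Nat.mod_two_eq_zero_or_one u'.length with h4 | h4
    · rw [hev, ev_even u' h4] at he
      rw [he] at h1 ha hl'
      exact (B m1 J g s l u' e hM hJ h4 h1 ha.symm hl'.symm).elim
    · obtain ⟨e', he'⟩ := split u' h4
      rw [← hev] at he'
      have h5 : (ev u).length % 2 = 0 := by rw [ev_len]; omega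
      have h6 : e = e' := by
        refine C m1 J g s l (ev u) e e' hM hJ h5 ?_ ?_ ?_
        · rw [← he]; exact h1
        · rw [← he']; exact h2
        · rw [← he, ← he']; exact hl'
      rw [he, he', h6]

end Pool.Agent.Work.MP_bf01b2_co.Sh
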