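import Pool.Agent.Work.MP_bf01b2_co.Sh.StmtsP

/-!
# Item Pri: private syndromes
-/

set_option autoImplicit false

namespace Pool.Agent.Work.MP_bf01b2_co.Sh

theorem pr_Pri : StPri := by
  intro k P _ hP
  have hc : Fintype.card P ≤ Fintype.card (Vc k) := by
    rw [Fintype.card_fun, ZMod.card, Fintype.card_fin]
    exact hP
  obtain ⟨ι⟩ := Function.Embedding.nonempty_of_card_le hc
  refine ⟨fun x => (Fin.cons (0 : ZMod 2) (ι x) : Fin (k + 1) → ZMod 2), ?_⟩
  intro x x' α α' h
  have h0 := congrFun h 0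
  simp only [Pi.add_apply, Fin.cons_zero, Pi.single_eq_same, zero_add] at h0
  refine ⟨?_, h0⟩
  apply ι.injective
  funext j
  have hj := congrFun h j.succ
  simp only [Pi.add_apply, Fin.cons_succ] at hj
  rw [Pi.single_eq_of_ne (Fin.succ_ne_zero j), Pi.single_eq_of_ne (Fin.succ_ne_zero j), add_zero,
    add_zero] at hj
  exact hj

end Pool.Agent.Work.MP_bf01b2_co.Sh
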