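import Pool.Agent.Work.MP_bf01b2_co.Sh.StmtsP

/-! Part P, item Pty (helper96): parity of the positions. -/

set_option autoImplicit false

namespace Pool.Agent.Work.MP_bf01b2_co.Sh

open Classical

namespace IPPty

theorem par_single {n : ℕ} (x : Vc n) (i : Fin n) : par (x + Pi.single i 1) = par x + 1 := by
  unfold par
  have h1 : ∀ j : Fin n, (x + (Pi.single i 1 : Vc n)) j = x j + (Pi.single i 1 : Vc n) j :=
    fun j => rfl
  rw [Finset.sum_congr rfl fun j _ => h1 j, Finset.sum_add_distrib, Finset.sum_pi_single',
    if_pos (Finset.mem_univ i)]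

theorem par_Ad {R M : ℕ} {x y : Vc R × Vc M} (h : Ad x y) :
    par y.1 + par y.2 = par x.1 + par x.2 + 1 := by
  rcases h with ⟨i, rfl⟩ | ⟨i, rfl⟩
  · show par (x.1 + Pi.single i 1) + par x.2 = _
    rw [par_single]
    ring
  · show par x.1 + par (x.2 + Pi.single i 1) = _
    rw [par_single]
    ring

theorem par_zero {n : ℕ} : par (0 : Vc n) = 0 := by
  unfold par
  exact Finset.sum_eq_zero fun _ _ => rfl

end IPPty

open IPPty

theorem pr_Pty (h : StAdj) : StPty := by
  intro R M m1 J a g s κ t cp ct l hM hJ hpc hTD hl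
  have h0 : pos m1 J a g s cp ct l [] = (0, l) := by
    unfold pos
    have h1 : ¬ Tl m1 g [] := by
      rintro ⟨h2, _⟩
      exact absurd h2 (Nat.not_lt_zero _)
    have h2 : ev [] = [] := rfl
    have h3 : alp g l [] = 0 := by
      unfold alp
      refine Finset.sum_eq_zero fun i _ => ?_
      exact if_neg (Nat.not_lt_zero _)
    have h4 : lab g l [] = l := by
      unfold lab
      funext i
      exact if_neg (Nat.not_lt_zero _)
    rw [if_neg h1, h2, hTD.cp0, h3, h4, Pi.single_zero, add_zero,
      if_pos (show ([] : List Bool).length ≤ 2 * M from Nat.zero_le _)]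
  refine ⟨h0, ?_⟩
  intro u
  induction u using List.reverseRecOn with
  | nil =>
    intro _
    rw [h0]
    show par (0 : Vc R) + par l = _
    rw [par_zero, zero_add, List.length_nil, Nat.cast_zero, add_zero]
  | append_singleton u e ih =>
    intro hu
    have hu' : u ∈ t := by
      have h1 := hpc _ hu u.length
      rwa [List.take_left] at h1
    rw [par_Ad (h R M m1 J a g s κ t cp ct l hM hJ hTD hl u e hu), ih hu', List.length_append,
      List.length_singleton, Nat.cast_add, Nat.cast_one]
    ring

end Pool.Agent.Work.MP_bf01b2_co.Sh
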