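import Pool.Agent.Work.MP_bf01b2_co.Sh.StmtsP

set_option autoImplicit false

namespace Pool.Agent.Work.MP_bf01b2_co.Sh

open Classical

/-- [Yc] the strings of length at most `L`. -/
theorem pr_Yc : StYc := by
  refine ⟨fun L y => ?_, fun L => ?_⟩
  · unfold shs
    simp only [Finset.mem_biUnion, Finset.mem_range, Finset.mem_image, Finset.mem_univ, true_and]
    constructor
    · rintro ⟨n, hn, f, rfl⟩
      rw [List.length_ofFn]
      omega
    · intro h
      exact ⟨y.length, by omega, y.get, List.ofFn_get y⟩
  · unfold shs
    refine le_trans Finset.card_biUnion_le ?_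
    have h1 : ∀ n ∈ Finset.range (L + 1),
        (Finset.univ.image (List.ofFn : (Fin n → Bool) → List Bool)).card ≤ 2 ^ n := by
      intro n _
      refine le_trans Finset.card_image_le ?_
      rw [Finset.card_univ, Fintype.card_fun, Fintype.card_bool, Fintype.card_fin]
    refine le_trans (Finset.sum_le_sum h1) ?_
    have h2 := Nat.geomSum_eq (le_refl 2) (L + 1)
    rw [h2]
    simp

end Pool.Agent.Work.MP_bf01b2_co.Sh
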