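import Pool.Agent.Work.MP_bf01b2_co.Sh.StmtsQ

/-!
# MP_bf01b2_co, theorem SHALLOW, item PtC: parity in the core
-/

set_option autoImplicit false

namespace Pool.Agent.Work.MP_bf01b2_co.Sh

open Pool.Agent.Work.MP_bf01b2_co.Bd

open Classical

namespace IQPtC

theorem par_add_single {n : ℕ} (x : Vc n) (i : Fin n) : par (x + Pi.single i 1) = par x + 1 := by
  unfold par
  simp only [Pi.add_apply, Finset.sum_add_distrib, Finset.sum_pi_single', Finset.mem_univ,
    if_true]

end IQPtC

theorem pr_PtC : StPtC := by
  intro R m H Φ lm hH hst v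
  induction v using List.reverseRecOn with
  | nil =>
    intro _
    simp
  | append_singleton v e ih =>
    intro hv
    have hv' : v ∈ H := by
      have := hH _ hv v.length
      rwa [List.take_left'] at this
      rfl
    have h1 := ih hv'
    have h2 : (((v ++ [e]).length : ℕ) : ZMod 2) = (v.length : ZMod 2) + 1 := by
      rw [List.length_append]
      push_cast
      simp
    rw [h2]
    rcases hst v e hv with ⟨i, hi⟩ | ⟨i, hi⟩
    · have a1 : Φ (v ++ [e]) = Φ v + Pi.single i 1 := (Prod.mk.inj hi).1
      have a2 : lm (v ++ [e]) = lm v := (Prod.mk.inj hi).2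
      rw [a1, a2, IQPtC.par_add_single, ← add_assoc, ← h1]
      ring
    · have a1 : Φ (v ++ [e]) = Φ v := (Prod.mk.inj hi).1
      have a2 : lm (v ++ [e]) = lm v + Pi.single i 1 := (Prod.mk.inj hi).2
      rw [a1, a2, IQPtC.par_add_single, ← add_assoc, h1]
      ring

end Pool.Agent.Work.MP_bf01b2_co.Sh
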