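import Pool.Agent.Work.MP_bf01b2_co.Sh.DefsT

/-!
# MP_bf01b2_co, theorem SHALLOW, part T: statements

Every item `X` is a statement `StX`; file `Sh/T_X.lean`, theorem `pr_X` (hypotheses of the theorem =
the statements listed in the docstring, as `theorem pr_X (h1 : StA) (h2 : StB) : StX`), everything
auxiliary in a `namespace IX`. Nobody waits for another item. Landed statements are in
`Bd/Stmts.lean`, `Fw/StmtsL.lean`, definitions in `Bd/Defs.lean`, `Sh/DefsT.lean`.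
-/

set_option autoImplicit false

namespace Pool.Agent.Work.MP_bf01b2_co.Sh

open Pool.Agent.Work.MP_bf01b2_co.Bd

open Pool.Agent.Work.MP_bf01b2_co.Fw

open Classical

/-! ### The asymmetric local lemma -/

/-- [AL] (EASY-MEDIUM) the asymmetric local lemma in counting form. Copy `Bd/LLL.lean` (`avoid`,
`lll_indep` can be used as they are, `α = Bool`).
Proof. Let `N = 2 ^ |I|`, `av U` = the `w` outside of all `A j`, `j ∈ U` (`avoid A U`). Claim, by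
strong induction on `|U|`: `|A j ∩ av U| ≤ x j * |av U|` for all `j ∉ U`. Let `U1` = the `t ∈ U` with
`¬ Disjoint (S j) (S t)`, `U2 = U \ U1`. `A j` is determined by `S j` and `av U2` by the complement
of `S j`, so (`lll_indep`) `|A j ∩ av U2| * N ≤ |A j| * |av U2|`, hence, by the hypothesis,
`|A j ∩ av U| ≤ |A j ∩ av U2| ≤ x j * π * |av U2|`, where `π = ∏ (1 - x j')` over the neighbours
`j' ≠ j` of `j`. Adding the elements of `U1` to `U2` one after the other (a second induction over the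
subsets `V` of `U1`): `|av (U2 ∪ V ∪ {t})| = |av (U2 ∪ V)| - |A t ∩ av (U2 ∪ V)| ≥
(1 - x t) |av (U2 ∪ V)|`, by the claim for `t ∉ U2 ∪ V`, a set with fewer elements than `U`. So
`|av U| ≥ (∏ t ∈ U1, (1 - x t)) |av U2| ≥ π |av U2|` (`U1` is a set of neighbours of `j`, `j ∉ U`, the
other factors are in `[0, 1]`). This proves the claim. The claim gives
`|av (U ∪ {j})| ≥ (1 - x j) |av U|`, so `|av univ| ≥ ∏ (1 - x j) * N > 0`. -/
def StAL : Prop := ∀ (I J : Type) [Fintype I] [DecidableEq I] [Fintype J] [DecidableEq J]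
  (A : J → Finset (I → Bool)) (S : J → Finset I) (x : J → ℝ),
  (∀ j, ∀ w w' : I → Bool, (∀ i ∈ S j, w i = w' i) → w ∈ A j → w' ∈ A j) →
  (∀ j, 0 ≤ x j) → (∀ j, x j < 1) →
  (∀ j, ((A j).card : ℝ) ≤
    x j * (∏ j' ∈ Finset.univ.filter (fun j' => j' ≠ j ∧ ¬ Disjoint (S j) (S j')), (1 - x j')) *
      2 ^ Fintype.card I) →
  ∃ w : I → Bool, ∀ j, w ∉ A j

/-- [AC] (EASY-MEDIUM) the form with the dependence counted by coins, for any set `J` of events.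
(h : StAL)
Proof. First let `J` be finite. `1 - y ≥ exp (-2 y)` for `0 ≤ y ≤ 1 / 2` (`Real.one_sub_le_exp_neg` is
the wrong direction; use `1 / (1 - y) = 1 + y / (1 - y) ≤ 1 + 2 y ≤ exp (2 y)`). So
`∏ (1 - x j') ≥ exp (-2 ∑ x j')` over the neighbours `j' ≠ j` of `j`, and
`∑ x j' ≤ ∑ i ∈ S j, ∑ (j' with i ∈ S j'), x j' ≤ |S j| μ` (every neighbour has an `i ∈ S j ∩ S j'`).
Apply `StAL`. For general `J`: if no `w` is good, choose for every `w : I → Bool` an index `j w` with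
`w ∈ A (j w)`; let `s` be the finite set of these `j w`; the finite case for the subtype `s` gives a
`w` outside of all `A j`, `j ∈ s`, contradiction to `w ∈ A (j w)`. -/
def StAC : Prop := ∀ (I J : Type) [Fintype I] [DecidableEq I]
  (A : J → Finset (I → Bool)) (S : J → Finset I) (x : J → ℝ) (μ : ℝ),
  (∀ j, ∀ w w' : I → Bool, (∀ i ∈ S j, w i = w' i) → w ∈ A j → w' ∈ A j) →
  (∀ j, 0 ≤ x j) → (∀ j, x j ≤ 1 / 2) →
  (∀ i, ∀ s : Finset J, ∑ j ∈ s.filter (fun j => i ∈ S j), x j ≤ μ) →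
  (∀ j, ((A j).card : ℝ) ≤ x j * Real.exp (-(2 * (S j).card * μ)) * 2 ^ Fintype.card I) →
  ∃ w : I → Bool, ∀ j, w ∉ A j

/-! ### The halving step with weights -/

/-- [AH] (MEDIUM, copy of `Bd/Halve.lean`) a halving step for any family of weight functions: every
vertex `v` has a coin `p v` and a bit `e v`. (h : StAC)
Proof. As the theorem `halve`, with `StAC` in place of `lll`. Coins: `I = {i // i ∈ T.image p}`; events:
`J × Bool`, `A (j, β)` = the `w : I → Bool` with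
`W j / 2 + t j < ∑ v ∈ T.filter (fun v => xor (ext w (p v)) (e v) = β), c j v`, determined by
`S (j, β)` = the `i` with `∃ v ∈ T, p v = i ∧ c j v ≠ 0`, `|S (j, β)| ≤ m j` (image of the `v` with
`c j v ≠ 0`), weights `x (j, β) = x j`: the two values of `β` give the factor `2` in the hypothesis on
`μ` (for a finite set `s` of events take its projection to `J`). Probability: as `[xor w e = β] =
1 / 2 + 1 / 2 sg w sg (xor e β)` (`sg_ind`), the sum in the event is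
`(∑ v ∈ T, c j v) / 2 + 1 / 2 ∑ i, sg (w i) C i`, `C i = ∑ (v ∈ T, p v = i), c j v * sg (xor (e v) β)`,
`|C i| ≤ ∑ (v ∈ T, p v = i), c j v ≤ g j`, so `∑ C i ^ 2 ≤ g j * ∑ c j v ≤ g j * W j`; in the event
`2 t j ≤ ∑ sg (w i) C i`; `hoeff_count` gives the bound `2 ^ |I| exp (-(2 t ^ 2 / (g W)))`. -/
def StAH : Prop := ∀ (V P J : Type) (T : Finset V) (p : V → P) (e : V → Bool)
  (c : J → V → ℝ) (W t g x m : J → ℝ) (μ : ℝ),
  (∀ j v, 0 ≤ c j v) → (∀ j, 0 < W j) → (∀ j, 0 < g j) → (∀ j, 0 ≤ t j) →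
  (∀ j, 0 ≤ x j) → (∀ j, x j ≤ 1 / 2) → 0 ≤ μ →
  (∀ j, ∑ v ∈ T, c j v ≤ W j) →
  (∀ j i, ∑ v ∈ T.filter (fun v => p v = i), c j v ≤ g j) →
  (∀ j, ((T.filter fun v => c j v ≠ 0).card : ℝ) ≤ m j) →
  (∀ i, ∀ s : Finset J,
    2 * ∑ j ∈ s.filter (fun j => ∃ v ∈ T, p v = i ∧ c j v ≠ 0), x j ≤ μ) →
  (∀ j, Real.exp (-(2 * t j ^ 2 / (g j * W j))) ≤ x j * Real.exp (-(2 * m j * μ))) →
  ∃ w : P → Bool, ∀ j (β : Bool),
    ∑ v ∈ T.filter (fun v => xor (w (p v)) (e v) = β), c j v ≤ W j / 2 + t j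

/-- [CH] (EASY-MEDIUM, copy of `Bd/HA.lean`) the halving step with weights, for the coins at the cut
levels `p`. (h : StAH)
Proof. As in `half`: `T'` = the `v ∈ T` with `lastLev p v.length ≠ none`, `lv v` the last cut level
`< v.length`, coin `v.take (lv v)`, bit `v.getD (lv v) false`. By the gaps of `p`,
`v.length ≤ lv v + D`, so the `v ∈ T'` with the coin `i` satisfy `Bel D i v`
(`i.length = lv v`); the `v ∈ T` without cut level satisfy `Bel D [] v`. `StAH` for `T'` bounds the sum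
over `T'` by `W j / 2 + t j`, the rest is at most `∑ (v ∈ T, Bel D [] v), c j v ≤ g j`. -/
def StCH : Prop := ∀ (J : Type) (T : Finset (List Bool)) (p : ℕ → Prop) [DecidablePred p]
  (D : ℕ) (c : J → List Bool → ℝ) (W t g x m : J → ℝ) (μ : ℝ),
  (∀ a, ∃ l, a ≤ l ∧ l < a + D ∧ p l) →
  (∀ j v, 0 ≤ c j v) → (∀ j, 0 < W j) → (∀ j, 0 < g j) → (∀ j, 0 ≤ t j) →
  (∀ j, 0 ≤ x j) → (∀ j, x j ≤ 1 / 2) → 0 ≤ μ →
  (∀ j, ∑ v ∈ T, c j v ≤ W j) →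
  (∀ j q, ∑ v ∈ T.filter (fun v => Bel D q v), c j v ≤ g j) →
  (∀ j, ((T.filter fun v => c j v ≠ 0).card : ℝ) ≤ m j) →
  (∀ q, ∀ s : Finset J,
    2 * ∑ j ∈ s.filter (fun j => ∃ v ∈ T, Bel D q v ∧ c j v ≠ 0), x j ≤ μ) →
  (∀ j, Real.exp (-(2 * t j ^ 2 / (g j * W j))) ≤ x j * Real.exp (-(2 * m j * μ))) →
  ∃ κ : List Bool → Bool, ∀ j (β : Bool),
    ∑ v ∈ T.filter (fun v => bit p κ v = β), c j v ≤ W j / 2 + t j + g j

/-! ### Phase A: typed fibres -/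

/-- [TF] (MEDIUM) one halving step for the fibres of finitely many subsets of `T`. (h : StCH)
Proof. `StCH` with `J = Fin k × X`, `c (t, x) v = 1` if `v ∈ K t` and `φ v = x`, else `0`,
`W = m = a t * aa r`, `t (t, x) = a t * (aa (r - 1) - aa r / 2) - 31 ≥ 0`, `g = 31`,
`x = 1 / ((k + 1) * 2 ^ (D + r + 6))`, `μ = 1 / 2 ^ (r + 4)`. Then
`W / 2 + t + g = a t * aa (r - 1)`, and the sum over the `v` with `bit p κ v = β` is the number of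
`v ∈ K t` with `(φ v, bit p κ v) = (x, β)`. Groups: the `v ∈ T` with `Bel D q v` and `φ v = x` lie
pairwise in the same block (`NearD`, common prefix `q`), so there are at most `31` (`ha_same` in
`Bd/HA.lean`). Coins: for a finite set `s` of pairs `(t, x)` which have a `v ∈ T` with `Bel D q v`,
`v ∈ K t`, `φ v = x`, choose such a `v`; `(t, x) ↦ (t, v)` is injective; at most `2 ^ (D + 1)` strings
`v` satisfy `Bel D q v` (`ha_ext`), so `2 * ∑ x ≤ 2 * k * 2 ^ (D + 1) / ((k + 1) 2 ^ (D + r + 6)) ≤ μ`.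
Probability: `2 m μ ≤ 2 * 2 * 2 ^ (r + 1) / 2 ^ (r + 4) = 1 / 2` (`aa r ≤ 2 ^ (r + 1)` for `4 ≤ r`), and
`x ≥ exp (-(k + (20 r ^ 2 + r + 6)))` (`k + 1 ≤ exp k`, `2 ≤ exp 1`), so `NumF` gives the last
hypothesis. -/
def StTF : Prop := ∀ (X : Type) (T : Finset (List Bool)) (φ : List Bool → X) (p : ℕ → Prop)
  [DecidablePred p] (D r k : ℕ) (K : Fin k → Finset (List Bool)) (a : Fin k → ℝ),
  46 ≤ r → D ≤ 20 * r ^ 2 → (∀ a, ∃ l, a ≤ l ∧ l < a + D ∧ p l) → NearD T φ D →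
  (∀ t, K t ⊆ T) → (∀ t, 0 < a t) → (∀ t, a t ≤ 2) → (∀ t, NumF k r (a t)) →
  (∀ t, FibLe (K t) φ (a t * aa r)) →
    ∃ κ : List Bool → Bool, ∀ t, FibLe (K t) (fun v => (φ v, bit p κ v)) (a t * aa (r - 1))

/-- [NT] (EASY-MEDIUM, see `Bd/HN.lean`) the numerical condition holds for large `r`.
Proof. `aa (r - 1) - aa r / 2 = 2 ^ (r + 1) / (r (r - 1)) ≥ 2 ^ (r + 1) / r ^ 2` and
`aa r ≤ 2 ^ (r + 1)`. For large `r`: `31 ≤ am * 2 ^ r / r ^ 2`, so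
`a (..) - 31 ≥ a 2 ^ r / r ^ 2` and the right side of the second condition is at least
`2 a ^ 2 2 ^ (2 r) / r ^ 4 / (31 a 2 ^ (r + 1)) = a 2 ^ r / (31 r ^ 4) ≥ am 2 ^ r / (31 r ^ 4)`, which
exceeds `20 r ^ 2 + r + k + 8` for large `r` (`2 ^ r / r ^ 6` tends to infinity). -/
def StNT : Prop := ∀ (k : ℕ) (am : ℝ), 0 < am → ∃ r2 : ℕ, 46 ≤ r2 ∧ ∀ r, r2 ≤ r →
  ∀ a : ℝ, am ≤ a → NumF k r a

/-- [TI] (EASY-MEDIUM, copy of `Bd/IT.lean`) phase A: the halving steps with typed fibres from the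
scale `r1` down to the scale `r2`. (h1 : StTF) (h2 : RulThm)
Proof. As in `it_ind`: with `I = r1 - r0`, for `d ≤ r1 - r2` there is `κ` with
`FibLe (K t) (Ps B (I - d) I ω κ) (a t * aa (r1 - d))` for all `t`. Start: `2 ^ r1 ≤ aa r1`. Step: the
coordinate `c = I - d ≥ 1` at the scale `r = r0 + c = r1 - d > r2`, `D = 20 c ^ 2 ≤ 20 r ^ 2`,
`RulThm c`. -/
def StTI : Prop := ∀ (s B r0 r1 r2 k : ℕ) (T : Finset (List Bool)) (ω : List Bool → Opt s)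
  (K : Fin k → Finset (List Bool)) (a : Fin k → ℝ), r0 ≤ r2 → r2 ≤ r1 → 46 ≤ r2 →
  NearD T (Bd.P B ω) (20 * (r1 - r0) ^ 2) → (∀ t, K t ⊆ T) → (∀ t, 0 < a t) →
  (∀ t, a t ≤ 2) → (∀ t r, r2 ≤ r → NumF k r (a t)) →
  (∀ t, FibLe (K t) (Bd.P B ω) (a t * 2 ^ r1)) →
    ∃ κ : ℕ → List Bool → Bool,
      ∀ t, FibLe (K t) (Ps B (r2 - r0) (r1 - r0) ω κ) (a t * aa r2)

/-! ### Phase B: typed neighbourhoods -/

/-- [NP] (EASY-MEDIUM, copy of `Bd/HN.lean`) the probability `pr r` is very small.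
Proof. `7400 r ^ 6 ≤ 2 ^ r` for `r ≥ 46` (as `hn_pow`; `2 ^ 46 = 7427 * 46 ^ 6` and more). As in
`halfNum` the exponent `2 (..) ^ 2 / (31 aa r)` is at least
`2 (2 ^ r / r ^ 2) ^ 2 / (31 * 2 ^ (r + 1)) = 2 ^ r / (31 r ^ 4) ≥ 7400 r ^ 2 / 31 ≥ 200 r ^ 2`, and
`2 ^ (40 r ^ 2 + 11 + 2 r) ≤ exp (40 r ^ 2 + 11 + 2 r) ≤ exp (200 r ^ 2)`. -/
def StNP : Prop := ∀ r : ℕ, 46 ≤ r → 2 ^ (40 * r ^ 2 + 11) * pr r ≤ ((1 / 2 : ℝ) ^ r) ^ 2

/-- [RN] (MEDIUM, real inequalities) the numerical conditions of the step of phase B.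
Proof. `L = log (κ 2 ^ (D + r + 6) Nm ^ 2) ≥ 0`, `x2 = exp (-L) ≤ 1 / 2`. The hypothesis gives
`pr r ≤ δ ^ 2 / 2 ^ (40 r ^ 2 + 11)`, so `x1 ≤ 1 / 2`. `μ = 2 ^ (D + 2) x1 + 1 / (2 ^ (r + 4) Nm)`
(second term exact). With `aa r ≤ 2 ^ (r + 1)`: `aa r * 2 ^ (D + 2) * 3 pr r ≤
2 ^ (20 r ^ 2 + r + 5) * pr r ≤ 1 / 8` and `aa r / (2 ^ (r + 4) Nm) ≤ 1 / 8`, so
`2 aa r μ ≤ 1 / 2` and `3 exp (-1 / 2) ≥ 1`. Let `W` be as in the last part. `δ ^ 2 W ≥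
2 ^ (20 r ^ 2 + 8)`, so `W > 0` and (`δ ≤ 1`) `δ W ≥ 2 ^ (20 r ^ 2 + 8) ≥ 4 * 2 ^ (D + 1)`. So
`δ W / 2 - 2 ^ (D + 1) ≥ δ W / 4` and the exponent on the left is at least
`2 (δ W / 4) ^ 2 / (2 ^ (D + 1) W) = δ ^ 2 W / 2 ^ (D + 4)`. On the right,
`2 W μ = 6 W 2 ^ (D + 2) pr r + 2 W / (2 ^ (r + 4) Nm)`; the second term is `≤ 1 / 2`; the first is
`≤ 2 ^ (D + 5) W δ ^ 2 / 2 ^ (40 r ^ 2 + 11) ≤ δ ^ 2 W / 2 ^ (D + 6)` (`D ≤ 20 r ^ 2`). Finally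
`δ ^ 2 W / 2 ^ (D + 4) - δ ^ 2 W / 2 ^ (D + 6) = 3 δ ^ 2 W / 2 ^ (D + 6) ≥ 6 (L + 2) ≥ L + 1 / 2`. -/
def StRN : Prop := ∀ (r D κ : ℕ) (δ Nm : ℝ), 46 ≤ r → D ≤ 20 * r ^ 2 → 1 ≤ κ → 1 ≤ Nm →
  0 < δ → δ ≤ 1 → 2 ^ (40 * r ^ 2 + 11) * pr r ≤ δ ^ 2 →
  ∀ x1 x2 μ : ℝ, x1 = 3 * pr r → x2 = 1 / ((κ : ℝ) * 2 ^ (D + r + 6) * Nm ^ 2) →
  μ = 2 * (2 ^ (D + 1) * x1 + κ * Nm * 2 ^ (D + 1) * x2) →
    0 ≤ x1 ∧ x1 ≤ 1 / 2 ∧ 0 ≤ x2 ∧ x2 ≤ 1 / 2 ∧ 0 ≤ μ ∧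
    pr r ≤ x1 * Real.exp (-(2 * aa r * μ)) ∧
    ∀ W : ℝ, 2 ^ (20 * r ^ 2 + 7) *
        (Real.log ((κ : ℝ) * 2 ^ (D + r + 6) * Nm ^ 2) + 2) ≤ δ ^ 2 * W →
      W ≤ 2 ^ (r + 2) * Nm →
        0 < W ∧ 2 ^ (D + 1) ≤ δ * W / 4 ∧
        Real.exp (-(2 * (δ * W / 2 - 2 ^ (D + 1)) ^ 2 / (2 ^ (D + 1) * W))) ≤
          x2 * Real.exp (-(2 * W * μ))

/-- [RC] (EASY-MEDIUM) combinatorics of the weights `cw`.
Proof. (1), (2) exchange the sums over `y` and `v` (`Finset.sum_comm`, cards as sums of `0` and `1`;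
in (2) the `v` with `bit p κ v = β`). (3) the `y` with `φ v = M y u` form a set with at most one
element because `y ↦ M y u` is injective on `Ys`. (4) if `cw ≠ 0` then it is `≥ 1`; with (1).
(5) `cw ≤ 1` and at most `2 ^ (D + 1)` strings satisfy `Bel D q v` (`ha_ext`). (6) for every `(t, f, u)`
in the filter choose `v ∈ T` with `Bel D q v` and `y ∈ E f` with `φ v = M y u`;
`(t, f, u) ↦ (t, f, y, v)` is injective, because `M y` is injective; there are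
`∑ t f, (E f).card * 2 ^ (D + 1) ≤ k * k3 * Nm * 2 ^ (D + 1)` values. -/
def StRC : Prop := ∀ (X Y : Type) (T : Finset (List Bool)) (φ : List Bool → X) (M : Y → X → X),
  (∀ (K : Finset (List Bool)) (Ys : Finset Y) (u : X), K ⊆ T →
    ∑ v ∈ T, cw K φ M Ys u v = rc K φ M Ys u) ∧
  (∀ (K : Finset (List Bool)) (Ys : Finset Y) (u : X × Bool) (b : List Bool → Bool), K ⊆ T →
    ∑ v ∈ T.filter (fun v => b v = u.2), cw K φ M Ys u.1 v =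
      rc K (fun v => (φ v, b v)) (fun y (u : X × Bool) => (M y u.1, u.2)) Ys u) ∧
  ((∀ y, Function.Injective (M y)) →
    (∀ (K : Finset (List Bool)) (Ys : Finset Y) (u : X) (v : List Bool),
      Set.InjOn (fun y => M y u) Ys → 0 ≤ cw K φ M Ys u v ∧ cw K φ M Ys u v ≤ 1) ∧
    (∀ (K : Finset (List Bool)) (Ys : Finset Y) (u : X), K ⊆ T →
      ((T.filter fun v => cw K φ M Ys u v ≠ 0).card : ℝ) ≤ rc K φ M Ys u) ∧
    (∀ (K : Finset (List Bool)) (Ys : Finset Y) (u : X) (D : ℕ) (q : List Bool),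
      Set.InjOn (fun y => M y u) Ys →
        ∑ v ∈ T.filter (fun v => Bel D q v), cw K φ M Ys u v ≤ 2 ^ (D + 1)) ∧
    (∀ (k k3 D : ℕ) (K : Fin k → Finset (List Bool)) (E : Fin k3 → Finset Y) (Nm : ℝ)
      (q : List Bool) (s : Finset (Fin k × Fin k3 × X)), (∀ f, ((E f).card : ℝ) ≤ Nm) →
        ((s.filter fun j => ∃ v ∈ T, Bel D q v ∧
          cw (K j.1) φ M (E j.2.1) j.2.2 v ≠ 0).card : ℝ) ≤ k * k3 * Nm * 2 ^ (D + 1)))

/-- [RS] (MEDIUM) one step of phase B: the fibres of `T`, and the typed neighbourhoods.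
(h1 : StCH) (h2 : StRC) (h3 : StRN) (h4 : HalfNum)
Proof. `StCH` with `J = X ⊕ (Fin k × Fin k3 × X)`. Kind one: `c (inl x) v = 1` if `φ v = x` (else `0`),
`W = m = aa r`, `t = aa (r - 1) - aa r / 2 - 31` (`≥ 1` by `HalfNum`), `g = 31`, `x = x1 = 3 pr r`. Kind
two: `c (inr (t, f, u)) = cw (K t) φ M (E f) u`, `W = m = w t * |E f|`, `t = δ W / 2 - 2 ^ (D + 1)`,
`g = 2 ^ (D + 1)`, `x = x2 = 1 / (κ 2 ^ (D + r + 6) Nm ^ 2)`, `κ = k k3 + 1`; `μ` as in `StRN`. The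
numerical hypotheses are those of `StRN` (`W ≤ 2 ^ (r + 2) Nm`; `pr r` is the left side for the kind
one). Groups: kind one at most `31` elements (`NearD`, `ha_same`, as in `half`); kind two: (5) of
`StRC`. Number of `v` with `c ≠ 0`: the fibre, resp. (4) of `StRC`. Coins: a finite set
`s ⊂ J` splits in its `inl` part (the `x` which have a `v ∈ T`, `Bel D q v`, `φ v = x`: at most
`2 ^ (D + 1)` by `ha_ext`) and its `inr` part ((6) of `StRC`, `k k3 ≤ κ`); `2 * ∑ x ≤ μ`. Conclusion: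
`W / 2 + t + g = aa (r - 1)`, resp. `W / 2 (1 + δ)`, with (2) of `StRC`. -/
def StRS : Prop := ∀ (X Y : Type) (T : Finset (List Bool)) (φ : List Bool → X) (p : ℕ → Prop)
  [DecidablePred p] (D r k k3 : ℕ) (M : Y → X → X) (K : Fin k → Finset (List Bool))
  (E : Fin k3 → Finset Y) (w : Fin k → ℝ) (δ Nm : ℝ),
  46 ≤ r → D ≤ 20 * r ^ 2 → (∀ a, ∃ l, a ≤ l ∧ l < a + D ∧ p l) → NearD T φ D →
  FibLe T φ (aa r) → (∀ y, Function.Injective (M y)) →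
  (∀ f u, Set.InjOn (fun y => M y u) (E f)) → (∀ t, K t ⊆ T) → 0 < δ → δ ≤ 1 → 1 ≤ Nm →
  2 ^ (40 * r ^ 2 + 11) * pr r ≤ δ ^ 2 → (∀ t, w t ≤ 2 ^ (r + 2)) →
  (∀ f, ((E f).card : ℝ) ≤ Nm) →
  (∀ t f, 2 ^ (20 * r ^ 2 + 7) *
    (Real.log (((k * k3 + 1 : ℕ) : ℝ) * 2 ^ (D + r + 6) * Nm ^ 2) + 2) ≤
      δ ^ 2 * (w t * (E f).card)) →
  (∀ t f u, (rc (K t) φ M (E f) u : ℝ) ≤ w t * (E f).card) →
    ∃ κ : List Bool → Bool, FibLe T (fun v => (φ v, bit p κ v)) (aa (r - 1)) ∧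
      ∀ t f (u : X × Bool),
        (rc (K t) (fun v => (φ v, bit p κ v)) (fun y (u : X × Bool) => (M y u.1, u.2)) (E f) u :
          ℝ) ≤ w t / 2 * (1 + δ) * (E f).card

/-- [RI] (MEDIUM, pattern `Bd/IT.lean`) phase B: all steps from the scale `r2` down to `r0`.
(h1 : StRS) (h2 : RulThm) (h3 : StNP)
Proof. Put `c2 = r2 - r0`, `r = r0 + c`. By induction on `d = c2 - c` there is `κ'` with
`FibLe T (Ps B c I ω κ') (aa (r0 + c))` and, for all `t f u`,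
`rc (K t) (Ps B c I ω κ') tr (E f) u ≤ w t * |E f|`,
`w t = a t * 2 ^ r * (1 + 4 / r2) * exp ((1 / 2) ^ r)`. Start `c = c2`: `rc` is a sum over `y ∈ E f` of
fibres of `K t`, each `≤ a t * aa r2 = a t * 2 ^ r2 * (1 + 4 / r2)`. Step from `c ≥ 1` to `c - 1`:
`StRS` with `φ = Ps B c I ω κ'`, `M = tr` (injective in `u`, and in `y`, as `Pi.single y 1` determines
`y`), `p l = (col l = c)`, `D = 20 c ^ 2 ≤ 20 r ^ 2`, `r ≥ 46`, `δ = (1 / 2) ^ r` (`StNP`).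
`w t ≤ 2 * 2 ^ r * (1 + 4 / 46) * exp ((1 / 2) ^ 46) ≤ 2 ^ (r + 2)`; and
`δ ^ 2 * w t * |E f| ≥ am * N / 2 ^ r`, so the numerical condition follows from the hypothesis
(`r ≤ r2`, `D + r + 6 ≤ 20 r2 ^ 2 + r2 + 6`, monotonicity of `log`). New constant:
`w t / 2 * (1 + δ) ≤ a t * 2 ^ (r - 1) * (1 + 4 / r2) * exp ((1 / 2) ^ r) * exp ((1 / 2) ^ r)` and
`2 (1 / 2) ^ r = (1 / 2) ^ (r - 1)`. The pair (old map, new bit) is identified with `Ps B (c - 1) I`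
as in `it_ind` (`Function.update κ' c`, `NearD` for `Ps` and smaller `D` from `NearD` for `P`); the
count `rc` for a point `(x, g)` is the count for `((x, g without c), g c)`, or `0` if `g` has a bit
outside of `c - 1 < c' ≤ I`. End: `Ps B 0 I = Ph B I`. -/
def StRI : Prop := ∀ (s B r0 r2 I k k3 : ℕ) (T : Finset (List Bool)) (ω : List Bool → Opt s)
  (κ : ℕ → List Bool → Bool) (K : Fin k → Finset (List Bool))
  (E : Fin k3 → Finset (ℕ × ℕ)) (a : Fin k → ℝ) (am N Nm : ℝ), 45 ≤ r0 → r0 ≤ r2 →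
  r2 - r0 ≤ I → NearD T (Bd.P B ω) (20 * I ^ 2) → (∀ t, K t ⊆ T) → 0 < am → 0 < N →
  (∀ t, am ≤ a t) → (∀ t, a t ≤ 2) → (∀ f, N ≤ ((E f).card : ℝ)) →
  (∀ f, ((E f).card : ℝ) ≤ Nm) → 1 ≤ Nm →
  2 ^ (20 * r2 ^ 2 + 2 * r2 + 7) *
    (Real.log (((k * k3 + 1 : ℕ) : ℝ) * 2 ^ (20 * r2 ^ 2 + r2 + 6) * Nm ^ 2) + 2) ≤ am * N →
  FibLe T (Ps B (r2 - r0) I ω κ) (aa r2) →
  (∀ t, FibLe (K t) (Ps B (r2 - r0) I ω κ) (a t * aa r2)) →
    ∃ κ' : ℕ → List Bool → Bool, FibLe T (Ph B I ω κ') (aa r0) ∧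
      ∀ t f u, (rc (K t) (Ph B I ω κ') tr (E f) u : ℝ) ≤
        (1 + 4 / (r2 : ℝ)) * Real.exp ((1 / 2) ^ r0) * a t * 2 ^ r0 * (E f).card

/-! ### The typed load -/

/-- [MoK] (EASY, copy of `Fw/I_MomL.lean`) the exponential moment for a subset `N` of `Nz`.
(h : ProbS)
Proof. Replace `N = Nz s B T w z` by a subset: `ProbS` is for all nonempty `S ⊆ Nz`, and
`|N| ≤ |Nz| ≤ 2 ^ (5 s (B + 1))`. -/
def StMoK : Prop := ∀ q : ℝ, 0 < q → q ≤ 1 → ∀ (s B : ℕ) (T : Finset (List Bool)) (o0 : Opt s)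
  (x : ℕ × ℕ → ZMod 2) (w z : List Bool) (N : Finset (List Bool)), 0 < s → 2 ≤ B →
  Bd.PrefClosed T → w.length ≤ 4 → z.length % (5 * s) = 0 →
  (2 : ℝ) ^ (5 * s * (B + 1)) ≤ q * (Z s : ℝ) ^ (B - 1) → N ⊆ Nz s B T w z →
  ∀ ω : {y // y ∈ T} → Opt s,
    ∑ η : {y // y ∈ T} → Opt s,
      (1 + q) ^ (N.filter fun β => Bd.P B (ex T o0 (mix (Rz s B T z) η ω)) (β ++ w) = x).card ≤
      (1 + q * (1 + q) * (N.card * (1 / (Z s : ℝ)) ^ B)) *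
        Fintype.card ({y // y ∈ T} → Opt s)

/-- [InK] (EASY, copy of `Bd/IZ.lean`) independence. (h : Local)
Proof. The proof of `indZ` shows for every `β ∈ Nz s B T w z'` that the positions of `β ++ w` for `ω`
and `ω'` agree; so the two filtered subsets of `NK` are equal. -/
def StInK : Prop := ∀ (s B : ℕ) (T K : Finset (List Bool)) (o0 : Opt s)
  (x : ℕ × ℕ → ZMod 2) (w z z' : List Bool), 0 < s → 0 < B → Bd.PrefClosed T →
  w.length ≤ 4 → z.length % (5 * s) = 0 → z'.length % (5 * s) = 0 →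
  z.length / (5 * s) % (B + 1) = z'.length / (5 * s) % (B + 1) → z'.length ≤ z.length →
  z' ≠ z → ∀ ω ω' : {y // y ∈ T} → Opt s, (∀ i, i ∉ Rz s B T z → ω i = ω' i) →
    XK B T K o0 x w z' ω = XK B T K o0 x w z' ω'

/-- [SuK] (MEDIUM, copy of `Fw/I_SumL.lean`) (h1 : Peel) (h2 : StMoK) (h3 : StInK) (h4 : Supp)
Proof. As there with `NK`, `XK` in place of `Nz`, `Xz`, and `3 n + 10` in place of `2 n + 10`; the union
bound is over `(i, x, w, ρ)`, there are `k * 2 ^ (7 s B) * 80 (B + 1) < 2 ^ (3 n + 10)` indices. -/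
def StSuK : Prop := ∀ q : ℝ, 0 < q → q ≤ 1 → ∀ (s B n k : ℕ) (T : Finset (List Bool))
  (K : Fin k → Finset (List Bool)) (o0 : Opt s), 0 < s → 2 ≤ B → Bd.PrefClosed T →
  7 * s * B ≤ n → k ≤ 2 ^ n → (2 : ℝ) ^ (5 * s * (B + 1)) ≤ q * (Z s : ℝ) ^ (B - 1) →
  ∃ η : {y // y ∈ T} → Opt s, ∀ (i : Fin k) (x : ℕ × ℕ → ZMod 2) (w : List Bool),
    w.length ≤ 4 → ∀ ρ < B + 1,
      ((∑ z ∈ T.filter (fun z => z.length % (5 * s) = 0 ∧ z.length / (5 * s) % (B + 1) = ρ),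
        XK B T (K i) o0 x w z η : ℕ) : ℝ) ≤
      (1 + q) ^ 2 * ((∑ z ∈ T.filter (fun z => z.length % (5 * s) = 0 ∧
        z.length / (5 * s) % (B + 1) = ρ), (NK s B T (K i) w z).card : ℕ) : ℝ) *
          (1 / (Z s : ℝ)) ^ B + 2 / q * (3 * n + 10)

/-- [LdK] (MEDIUM, copy of `Fw/I_LdL.lean`) the typed lossless load. (h1 : StSuK) (h2 : Near)
Proof. As there. `sumN` becomes `∑ w, ∑ ρ, ∑ z, |NK s B T K w z| ≤ |K|` (the same injective map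
`(w, ρ, z, β) ↦ β ++ w`, its values are in `K`). `ld_shallow`: the vertices of `K ⊆ T` with fewer than
`B` slabs in a fibre are at most `31`. `ld_deep` has to be copied with `K`: a vertex `v ∈ K` with
`B * (5 s) ≤ v.length` is counted by `w`, `ρ`, `z`, `β` with `β ++ w = v`. -/
def StLdK : Prop := ∀ q : ℝ, 0 < q → q ≤ 1 → ∀ (s B n k : ℕ) (T : Finset (List Bool))
  (K : Fin k → Finset (List Bool)), 0 < s → 2 ≤ B → Bd.PrefClosed T → (∀ i, K i ⊆ T) →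
  7 * s * B ≤ n → k ≤ 2 ^ n → (2 : ℝ) ^ (5 * s * (B + 1)) ≤ q * (Z s : ℝ) ^ (B - 1) →
  (2 : ℝ) ^ (7 * s * B) ≤ (1 + q) * (Z s : ℝ) ^ B →
    ∃ ω : List Bool → Opt s, ∀ i, FibLe (K i) (Bd.P B ω)
      ((1 + q) ^ 3 * (K i).card / 2 ^ (7 * s * B) + 93 / q * (B + 1) * (3 * n + 10))

/-! ### The typed core -/

/-- [NN] (EASY) the logarithm is smaller than `n`.
Proof. `Real.isLittleO_log_id_atTop`, or `log (A2 n ^ 2) = log A2 + 2 log n` and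
`log n ≤ 2 sqrt n`. -/
def StNN : Prop := ∀ A1 A2 c : ℝ, 0 < A1 → 0 < A2 → 0 < c → ∃ n0 : ℕ, ∀ n : ℕ, n0 ≤ n →
  A1 * (Real.log (A2 * (n : ℝ) ^ 2) + 2) ≤ c * n

/-- [CoT] (MEDIUM, pattern `Fw/I_CoL.lean`) the typed core. (h1 : StPaL) (h2 : StLdK) (h3 : NearP)
(h4 : StTI) (h5 : StRI) (h6 : StNT) (h7 : StNN) (h8 : LocP) (h9 : Finish) (h10 : EdgeP)
(h11 : EdgeB)
Proof. We may assume `τ ≤ 1` (else the hypothesis on `T` is impossible) and `η ≤ 1` (else replace it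
by `1`), `am ≤ 1`. Let `q = min (τ / 8) (η / 56)`, `r2` from `StNT` for `k + 1` types and `am`,
enlarged such that `r2 ≥ r0` and `16 / η ≤ r2`; `A = 150 / q * (2 / τ + 8 / (η am))`; parameters
`s, B` from `StPaL q A r2` (its `A (B + 1) (2 n + 10) ≤ 2 ^ (n - 7 s B)`), `n0` so large that also
`k + 1 ≤ 2 ^ n` and `StNN` holds with `A1 = 2 ^ (20 r2 ^ 2 + 2 r2 + 7)`,
`A2 = (k k3 + 1) 2 ^ (20 r2 ^ 2 + r2 + 6)`, `c = am c0`; `r1 = n - 7 s B ≥ r2`, `I = r1 - r0`.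
`20 r1 ^ 2 ≤ (B - 2) (5 s) ≤ n` gives `r1 ≤ n / 2`, so `n ≤ 2 (7 s B)`. Types: the `k + 1` sets `T`
(density `a = 1`) and `K t` (density `a' t = (1 + η / 4) a t ≤ 2`). The load: `3 n + 10 ≤ 3 / 2 (2 n +
10)`, so the last term of `StLdK` is at most `(τ / 2) 2 ^ r1` and at most `(η / 8) am 2 ^ r1`.
As `q ≤ τ / 8`, `(1 + q) ^ 3 ≤ 1 + τ / 2` and the fibres of `T` are at most
`((1 + τ / 2) (1 - τ) + τ / 2) 2 ^ r1 ≤ 2 ^ r1` (`load_bound` in `Fw/I_CoL.lean`). As `q ≤ η / 56`,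
`(1 + q) ^ 3 ≤ 1 + 7 q ≤ 1 + η / 8` and the fibres of `K t` are at most
`(1 + η / 8) a t 2 ^ r1 + (η / 8) a t 2 ^ r1 = a' t 2 ^ r1`. Then `StTI` (`NearP` with `D = 20 I ^ 2 ≤ (B - 2) (5 s)`), `StRI` with `N = c0 n`,
`Nm = n`; final constant `(1 + 4 / r2) (1 + η / 4) ≤ (1 + η / 4) ^ 2 ≤ 1 + η`. Labels `ψ`: `LocP`,
`Finish` with `F = ⌊aa r0⌋₊`, as in `pr_CoL`. -/
def StCoT : Prop := ∀ (r0 k k3 : ℕ) (τ η c0 am : ℝ), 45 ≤ r0 → 0 < τ → 0 < η → 0 < c0 →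
  0 < am → ∃ n0 : ℕ, ∀ n : ℕ, n0 ≤ n → r0 ≤ n ∧ ∃ s B I : ℕ, 0 < s ∧ 0 < B ∧
  7 * s * B + I = n - r0 ∧ n ≤ 2 * (7 * s * B) ∧
  ∀ (T : Finset (List Bool)) (K : Fin k → Finset (List Bool)) (a : Fin k → ℝ)
    (E : Fin k3 → Finset (ℕ × ℕ)) (m : ℕ), Bd.PrefClosed T →
    (T.card : ℝ) ≤ (1 - τ) * 2 ^ n → (∀ t, K t ⊆ T) → (∀ t, am ≤ a t) → (∀ t, a t ≤ 1) →
    (∀ t, ((K t).card : ℝ) ≤ a t * 2 ^ n) → (∀ f, c0 * n ≤ ((E f).card : ℝ)) →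
    (∀ f, (E f).card ≤ n) → 2 ^ 10 * ⌊aa r0⌋₊ < m →
    ∃ (ω : List Bool → Opt s) (κ : ℕ → List Bool → Bool) (ψ : List Bool → Fin m → ZMod 2),
      FibLe T (Ph B I ω κ) (aa r0) ∧
      (∀ y e, y ++ [e] ∈ T → Ph B I ω κ (y ++ [e]) ≠ Ph B I ω κ y → ψ (y ++ [e]) = ψ y) ∧
      (∀ y e, y ++ [e] ∈ T → Ph B I ω κ (y ++ [e]) = Ph B I ω κ y →
        ∃ c, ψ (y ++ [e]) = ψ y + Pi.single c 1) ∧
      (∀ u ∈ T, ∀ v ∈ T, Ph B I ω κ u = Ph B I ω κ v → ψ u = ψ v → u = v) ∧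
      ∀ t f u, (rc (K t) (Ph B I ω κ) tr (E f) u : ℝ) ≤
        (1 + η) * Real.exp ((1 / 2) ^ r0) * a t * 2 ^ r0 * (E f).card

/-- [EmT] (MEDIUM, copy of `Fw/I_Emb.lean`) the typed lossless core in a product of two cubes: `Rl` =
the real coordinates. (h1 : StCoT) (h3 : EdgeP) (h4 : EdgeB) (h5 : Supp)
Proof. As in `pr_Emb`, with the identification `e` of `(Fin B × Fin (7 * s)) ⊕ Fin I` with
`Fin (n - r0)` chosen after `s, B, I` and before `T`; `Rl` = the image of `Fin B × Fin (7 * s)`,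
`7 s B` elements. `E f ⊆ Rl` corresponds to a set `E' f` of pairs `(b, j)`, `b < B`, `j < 7 s`, with
the same number of elements. For `x ∈ E f` with the pair `y`: `Φ v = flp x u` means that the bits
`P B ω v (b, j) = 1` and the halving bits of `v` are those of `u` with the bit `y` flipped, i.e.
`Ph B I ω κ v = tr y u'` for the point `u'` of the target of `Ph` which corresponds to `u` (`u'.1` =
the bits of `u` as elements of `ZMod 2`, `0` outside of `b < B`, `j < 7 s`; `u'.2 c` = the bit of `u`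
for `c - 1`, if `1 ≤ c ≤ I`; `false` else; `Supp`). -/
def StEmT : Prop := ∀ (r0 k k3 : ℕ) (τ η c0 am : ℝ), 45 ≤ r0 → 0 < τ → 0 < η → 0 < c0 →
  0 < am → ∃ n0 : ℕ, ∀ n : ℕ, n0 ≤ n → r0 ≤ n ∧ ∃ Rl : Finset (Fin (n - r0)),
  n ≤ 2 * Rl.card ∧
  ∀ (T : Finset (List Bool)) (K : Fin k → Finset (List Bool)) (a : Fin k → ℝ)
    (E : Fin k3 → Finset (Fin (n - r0))) (m : ℕ), Bd.PrefClosed T →
    (T.card : ℝ) ≤ (1 - τ) * 2 ^ n → (∀ t, K t ⊆ T) → (∀ t, am ≤ a t) → (∀ t, a t ≤ 1) →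
    (∀ t, ((K t).card : ℝ) ≤ a t * 2 ^ n) → (∀ f, E f ⊆ Rl) →
    (∀ f, c0 * n ≤ ((E f).card : ℝ)) → 2 ^ 10 * ⌊aa r0⌋₊ < m →
    ∃ (Φ : List Bool → Fin (n - r0) → Bool) (ψ : List Bool → Fin m → Bool),
      Emb T Φ ψ ∧ Fib T Φ ⌊aa r0⌋₊ ∧
      ∀ t f (u : Fin (n - r0) → Bool),
        ((∑ x ∈ E f, ((K t).filter fun v => Φ v = flp x u).card : ℕ) : ℝ) ≤
          (1 + η) * Real.exp ((1 / 2) ^ r0) * a t * 2 ^ r0 * (E f).card

end Pool.Agent.Work.MP_bf01b2_co.Sh
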