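import Pool.Agent.Work.MP_bf01b2_co.Sh.StmtsP
import Pool.Agent.Work.MP_bf01b2_co.Sh.StmtsT

/-!
# MP_bf01b2_co, shallow trees: the core with vectors over `ZMod 2` and direction classes
-/

set_option autoImplicit false

namespace Pool.Agent.Work.MP_bf01b2_co.Sh

open Classical

/-- [CoZ] (MEDIUM) the typed core, in the form in which it is used. (h : StEmT)
Proof. `m1 = 2 ^ 10 * ⌊aa 45⌋₊ + 1`. Given `k, W, τ`: use `StEmT` with `r0 = 45`, `Option W ≃ Fin (card W + 1)`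
types (`none` = `H` itself), the classes `Fin k3 ≃ {s : Vc k // s ≠ 0}`, `τ = 1/2`, `η = 1/100`,
`c0 = 1 / (8 * 2 ^ k)`, `am = τ / 2 ^ 45`; `n = R + 45`, `R0` = its `n0 + 100 * 2 ^ k` (so `R ≥ R0` gives
`n ≥ n0`, `n - 45 = R`). Let `N1 = (Rl.card - 1) / 2 ^ k` (natural division); `n ≤ 2 Rl.card`, so
`N1 ≥ n / (4 * 2 ^ k) ≥ c0 n`, `N1 > 0`, and `(2 ^ k - 1) N1 < Rl.card`. Choose pairwise disjoint subsets
`E s ⊆ Rl` (`s ≠ 0`) with `N1` elements (e.g. enumerate `Rl` by `Rl.equivFin`, and let the elements with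
the numbers `f N1, .., f N1 + N1 - 1` be the class number `f`); `sy i = s` if `i ∈ E s`, `0` if `i` is in no
class: so `sy i = 0` for some `i`. `a t = max (|K t| / 2 ^ R) τ / 2 ^ 45` is in `[am, 1]` (`|K t| ≤ |H| ≤ 2 ^ R`), and
`|K t| ≤ a t * 2 ^ n`; `|H| ≤ 2 ^ R ≤ (1/2) 2 ^ n`. Identify `Bool` with `ZMod 2` (`b ↦ if b then 1 else 0`):
`Φ' v i`, `lm v i`; `flp x u` becomes `u + Pi.single x 1`. `Emb.adj` (`Bx A1 A1`) becomes `Ad`: `A1 x y` with the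
coordinate `i` gives `y' = x' + Pi.single i 1`. The constant:
`(1 + 1/100) * exp ((1/2) ^ 45) * a t * 2 ^ 45 ≤ 21/20 * max (..) τ` (`exp z ≤ 1 + 2 z` for `0 ≤ z ≤ 1`). The
double sum in `StEmT` is over `x ∈ E f`, which is `univ.filter (sy i = s)` (so it is `ct1`). -/
def StCoZ : Prop := ∃ m1 : ℕ, ∀ (k : ℕ) (W : Type) [Fintype W] (τ : ℝ), 1 ≤ k → 0 < τ → τ ≤ 1 →
  ∃ R0 : ℕ, ∀ R : ℕ, R0 ≤ R → ∀ (H : Finset (List Bool)) (K : W → Finset (List Bool)),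
  Bd.PrefClosed H → (H.card : ℝ) ≤ 2 ^ R → (∀ w, K w ⊆ H) →
  ∃ (Φ : List Bool → Vc R) (lm : List Bool → Vc m1) (sy : Fin R → Vc k) (N1 : ℕ), 0 < N1 ∧
    (∀ s : Vc k, s ≠ 0 → (Finset.univ.filter fun i => sy i = s).card = N1) ∧
    (∃ i, sy i = 0) ∧
    (∀ y e, y ++ [e] ∈ H → Ad (Φ y, lm y) (Φ (y ++ [e]), lm (y ++ [e]))) ∧
    (∀ u ∈ H, ∀ v ∈ H, Φ u = Φ v → lm u = lm v → u = v) ∧
    (∀ w s x, s ≠ 0 → (ct1 sy Φ (K w) s x : ℝ) ≤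
      21 / 20 * max (((K w).card : ℝ) / 2 ^ R) τ * N1) ∧
    ∀ s x, s ≠ 0 → (ct1 sy Φ H s x : ℝ) ≤ 21 / 20 * max ((H.card : ℝ) / 2 ^ R) τ * N1

end Pool.Agent.Work.MP_bf01b2_co.Sh
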