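import Pool.Agent.Work.MP_bf01b2_co.Sh.StmtsM
import Pool.Agent.Work.MP_bf01b2_co.Sh.StmtsZ

/-!
# MP_bf01b2_co, theorem SHALLOW: gluing of the core, the bridge and the tiles, statements

Every item `X` is a statement `StX`, file `Sh/Q_X.lean`, theorem `pr_X`.
-/

set_option autoImplicit false

namespace Pool.Agent.Work.MP_bf01b2_co.Sh

open Pool.Agent.Work.MP_bf01b2_co.Bd

open Classical

/-- The label of the core in `Vc M`: the coordinates `≥ m1` are zero. -/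
def pd {m1 : ℕ} (M : ℕ) (x : Vc m1) : Vc M := fun i => if h : i.1 < m1 then x ⟨i.1, h⟩ else 0

/-- [PtC] (EASY) parity in the core. Proof. Induction on `v` from the right: `v ++ [e] ∈ H` implies
`v ∈ H`, and a step of `Ad` changes `par` of exactly one component by `1`
(`par (x + Pi.single i 1) = par x + 1`: `Finset.sum_add_distrib`, `Finset.sum_pi_single'`). -/
def StPtC : Prop := ∀ (R m : ℕ) (H : Finset (List Bool)) (Φ : List Bool → Vc R)
  (lm : List Bool → Vc m), Bd.PrefClosed H →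
  (∀ y e, y ++ [e] ∈ H → Ad (Φ y, lm y) (Φ (y ++ [e]), lm (y ++ [e]))) →
  ∀ v ∈ H, par (Φ v) + par (lm v) = par (Φ []) + par (lm []) + (v.length : ZMod 2)

/-- [Pd] (EASY) the padded labels; `M = m1 + 2 + 100`, `fd a` = the coordinate `m1 + a`. Proof. All
statements coordinate by coordinate. (1) `Finset.sum` over `Fin M`: the coordinates `≥ m1` give `0`
(`Fin.sum_univ_add` after a cast, or `Finset.sum_bij_ne_zero` / `Finset.sum_nbij'`). (2) `i ↦` the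
same number. (3), (4): the coordinate `m1` or `m1 + 1` of `pd M x + Pi.single (fd a) 1` is `1` exactly
for `m1 + a`. (5) the coordinate `fd a`. -/
def StPd : Prop := ∀ m1 M : ℕ, m1 + 2 + 100 = M → ∃ fd : Bool → Fin M,
  (∀ x : Vc m1, par (pd M x) = par x) ∧
  (∀ (x : Vc m1) (i : Fin m1), ∃ j : Fin M, pd M (x + Pi.single i 1) = pd M x + Pi.single j 1) ∧
  (∀ x : Vc m1, Bad m1 (pd M x) ∧ ∀ a, Bad m1 (pd M x + Pi.single (fd a) 1)) ∧
  (∀ (x x' : Vc m1) (a a' : Bool), pd M x + Pi.single (fd a) 1 = pd M x' + Pi.single (fd a') 1 →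
    a = a' ∧ x = x') ∧
  (∀ x x' : Vc m1, pd M x = pd M x' → x = x') ∧
  ∀ (x x' : Vc m1) (a : Bool), pd M x ≠ pd M x' + Pi.single (fd a) 1

/-- [Glu] (MEDIUM) the gluing: core, bridge, tiles give an embedding of `T`. (h1 : StTile)
(h2 : StBrg) (h3 : StMap) (h4 : StShp) (h5 : StCrp) (h6 : StPtC) (h7 : StPd)
Proof. Let `H = cor S T`, `W = Wt S`, `K w = Kw S T w ⊆ H`, `t w = w.2.1.1` (prefix closed by `StShp`),
`dw w = w.2.2 + c0`, `c0 = par (Φ []) + par (lm [])`, `J = 100`. Every `s` is a value of `sy` (`N1 > 0`, and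
`0` by hypothesis). `StTile` (for `k`) gives `Sg`, `Cx`, `F`. `StBrg` (for `k + 1`) with
`X = Ky W M 100 b`, `wt x = x.1`, `CL = 2 ^ (2 * M + 2)`; the number of keys with `x.1 = w` is
`b w * (2 ^ M * 100)` (`Fintype.card` of `(Vc M × Fin 100) × Fin (b w)`); it gives `p`, `ξ`. `fd` from `StPd`.
`StMap` with `ψ v = pd M (lm v)`, `f = fd`, `bad = Bad m1`, and
`G w v u = (p w v + (F (ξ w v) (par (p w v)) (l v w) u).1, (F (ξ w v) (par (p w v)) (l v w) u).2)`,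
`l v w = pd M (lm v) + Pi.single (fd w.1.1) 1`. The parity condition of `StTile`: for `v ∈ K w`,
`par (l v w) = par (lm v) + 1`, `par (p w v) = par (Φ v) + 1`, so
`par (l v w) = dw w + par (p w v)` by `StPtC` and `(v.length : ZMod 2) = w.2.2` (`z + z = 0` in `ZMod 2`);
and `(ξ w v).1 = w`. The last hypotheses of `StMap`: start `F .. [] = (0, l)`; steps: `Ad` of the
offsets gives `Ust` of the points; not bad, or the offset is in `Cx (ξ w v)` and `StBrg` says that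
`p w v + c` is not a heavy column; injectivity: equal points give `ξ w v = ξ w' v'` and
`p w v = p w' v'` by `StTile`, so `w = w'`, `v = v'` by `StBrg`, the initial labels are equal and
`u = u'`. -/
def StGlu : Prop := ∀ (S R M m1 k N1 : ℕ) (T : Finset (List Bool)) (Φ : List Bool → Vc R)
  (lm : List Bool → Vc m1) (b : Wt S → ℕ) (sy : Fin R → Vc (k + 1)) (lam : Wt S → ℝ) (ρ : ℝ),
  Bd.PrefClosed T → m1 + 2 + 100 = M → 0 < N1 →
  (∀ s : Vc (k + 1), s ≠ 0 → (Finset.univ.filter fun i => sy i = s).card = N1) →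
  (∃ i, sy i = 0) →
  (∀ y e, y ++ [e] ∈ cor S T → Ad (Φ y, lm y) (Φ (y ++ [e]), lm (y ++ [e]))) →
  (∀ u ∈ cor S T, ∀ v ∈ cor S T, Φ u = Φ v → lm u = lm v → u = v) →
  (∀ w, 0 < lam w) → 0 ≤ ρ →
  (∀ w s x, s ≠ 0 → (ct1 sy Φ (Kw S T w) s x : ℝ) ≤ lam w * N1) →
  (∀ s x, s ≠ 0 → (ct1 sy Φ (cor S T) s x : ℝ) ≤ ρ * N1) →
  Fits (k + 1) M 100 b (fun w : Wt S => w.2.1.1)
    (fun w => w.2.2 + (par (Φ []) + par (lm []))) →
  (∀ w, lam w * 2 ^ (k + 1) + 1 + ((b w * (2 ^ M * 100) : ℕ) : ℝ) * 2 ^ (2 * M + 2) * ρ ≤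
    ((b w * (2 ^ M * 100) : ℕ) : ℝ)) →
  ∃ c : List Bool → Vc R × Vc M,
    (∀ u ∈ T, ∀ v ∈ T, c u = c v → u = v) ∧ ∀ x e, x ++ [e] ∈ T → Ust (c x) (c (x ++ [e]))

/-- [Pre] (MEDIUM) the theorem for prefix closed sets: `theorem pr_Pre (h1 : StGlu) (h2 : StCoZ)
(h3 : StNms) (h4 : StItm) (h5 : StCnw) (h6 : StPrt) (h7 : StCrp) (h8 : StCb2) : StPre`.
Proof. `m1` from `StCoZ`, `M = m1 + 2 + 100`, `ε = 1 / 2 ^ (3 * M + 14)`. Given `S`: `W = Wt S`,
`t w = w.2.1.1`; `k, τ` from `StNms` (`102 ≤ M`); `R0` from `StCoZ` for `k + 1, W, τ`;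
`n0 = M + R0 + 2 * M + 15`. Given `n ≥ n0` and `T` (if `T` is empty: any `c`, e.g. constant); `R = n + 1 - M`, so `R + M = n + 1`,
`R ≥ R0`, `R ≥ 2 * M + 15`. `H = cor S T`, `|H| ≤ |hv S T| + 1 ≤ 2 ^ n / 2 ^ (3 * M + 14) + 1`, so
`y = |H| / 2 ^ R` satisfies `y * 2 ^ (2 * M + 14) ≤ 1 / 2 + 1 / 2` (`2 ^ n = 2 ^ R * 2 ^ (M - 1)`,
`2 ^ (2 * M + 15) ≤ 2 ^ R`). `StCoZ` with `K w = Kw S T w ⊆ H` gives `Φ, lm, sy, N1`; `dw w = w.2.2 + c0`,
`c0 = par (Φ []) + par (lm [])`. `x w = |K w| / 2 ^ R`, `∑ x w ≤ 4 y` by `StItm`. For `c : ZMod 2` the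
condition `(u.length : ZMod 2) = dw w + c` is `w.2.2 + u.length = c0 + c` (in `ZMod 2`), so by `StCnw`
(`L = 0`, `d = c0 + c`) and `StPrt` `∑ |K w| Nw ≤ (2 |T| + 1) / 3 ≤ (2 * 2 ^ n + 1) / 3`, and
`∑ x w Nw ≤ 2 / 3 * 2 ^ (M - 1) + 1 / (3 * 2 ^ R) ≤ 67 / 100 * 2 ^ (M - 1)`. `StNms` gives `b`, and `StGlu` with
`lam w = 21 / 20 * max (x w) τ`, `ρ = 21 / 20 * max y τ` gives `c`; compose with the map of `StCb2`
(`R + M = n + 1`). -/
def StPreQ : Prop := StPre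

end Pool.Agent.Work.MP_bf01b2_co.Sh
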