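import Pool.Agent.Work.MP_bf01b2_co.Sh.StmtsG

/-!
# MP_bf01b2_co, theorem SHALLOW, tree side, item Cnw: the vertices deep inside the pieces are counted
once
-/

set_option autoImplicit false

namespace Pool.Agent.Work.MP_bf01b2_co.Sh

open Pool.Agent.Work.MP_bf01b2_co.Bd

open Classical

theorem pr_Cnw (hSub : StSub) (hUnq : StUnq) : StCnw := by
  intro S T hT L d
  have h1 : ∑ w : Wt S, (Kw S T w).card *
      (w.2.1.1.filter fun u => L ≤ u.length ∧ w.2.2 + (u.length : ZMod 2) = d).card =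
      ((Finset.univ : Finset (Wt S)).sigma fun w => (Kw S T w) ×ˢ
        (w.2.1.1.filter fun u => L ≤ u.length ∧ w.2.2 + (u.length : ZMod 2) = d)).card := by
    rw [Finset.card_sigma]
    refine Finset.sum_congr rfl fun w _ => ?_
    rw [Finset.card_product]
  rw [h1]
  refine Finset.card_le_card_of_injOn (fun x => x.2.1 ++ [x.1.1.1, x.1.1.2] ++ x.2.2) ?_ ?_
  · rintro ⟨w, v, u⟩ hx
    rw [Finset.mem_coe, Finset.mem_sigma, Finset.mem_product, Finset.mem_filter] at hx
    obtain ⟨-, hv, hu, hL, hd⟩ := hx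
    have hv' := hv
    simp only at hv' hu hd ⊢
    unfold Kw at hv'
    rw [Finset.mem_filter] at hv'
    obtain ⟨-, -, -, -, hsub, hlen⟩ := hv'
    rw [Finset.mem_coe, Finset.mem_filter]
    constructor
    · rw [← (hSub T).1, hsub]
      exact hu
    · rw [← hd, ← hlen, List.length_append, List.length_append]
      push_cast
      have h2 : ((2 : ℕ) : ZMod 2) = 0 := by decide
      have h3 : (([w.1.1, w.1.2] : List Bool).length : ZMod 2) = 0 := h2
      rw [h3, add_zero]
  · rintro ⟨w, v, u⟩ hx ⟨w', v', u'⟩ hx' he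
    rw [Finset.mem_coe, Finset.mem_sigma, Finset.mem_product] at hx hx'
    obtain ⟨hw, hv, hu⟩ := (hUnq S T hT).2.1 w w' v v' u u' hx.2.1 hx'.2.1 he
    subst hw hv hu
    rfl

end Pool.Agent.Work.MP_bf01b2_co.Sh
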