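import Pool.Agent.Work.MP_bf01b2_co.Sh.StmtsG

/-!
# Item Crp: the core is prefix closed
-/

set_option autoImplicit false

namespace Pool.Agent.Work.MP_bf01b2_co.Sh

open Pool.Agent.Work.MP_bf01b2_co.Bd

open Classical

namespace IGCrp

theorem mem_cor (S : ℕ) (T : Finset (List Bool)) (v : List Bool) :
    v ∈ cor S T ↔ v ∈ T ∧ (v = [] ∨ S ≤ (sub T v).card) := by
  unfold cor
  rw [Finset.mem_filter]

end IGCrp

theorem pr_Crp (hSub : StSub) : StCrp := by
  intro S T hT
  obtain ⟨-, -, h3, -, -⟩ := hSub T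
  refine ⟨?_, ?_, ?_, ?_, ?_⟩
  · intro v hv t
    rw [IGCrp.mem_cor] at hv ⊢
    refine ⟨hT v hv.1 t, ?_⟩
    rcases hv.2 with h | h
    · left
      rw [h, List.take_nil]
    · right
      have h4 := h3 (v.take t) (v.drop t)
      rw [List.take_append_drop] at h4
      exact h.trans h4
  · intro v hv
    exact ((IGCrp.mem_cor S T v).mp hv).1
  · rintro ⟨v, hv⟩
    rw [IGCrp.mem_cor]
    refine ⟨?_, Or.inl rfl⟩
    have h := hT v hv 0
    rwa [List.take_zero] at h
  · have h : cor S T ⊆ insert [] (hv S T) := by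
      intro v hv
      rw [IGCrp.mem_cor] at hv
      rw [Finset.mem_insert]
      rcases hv.2 with h | h
      · exact Or.inl h
      · right
        unfold Sh.hv
        rw [Finset.mem_filter]
        exact ⟨hv.1, h⟩
    exact (Finset.card_le_card h).trans (Finset.card_insert_le _ _)
  · intro x hx hn
    by_contra h
    push Not at h
    exact hn ((IGCrp.mem_cor S T x).mpr ⟨hx, Or.inr h⟩)

end Pool.Agent.Work.MP_bf01b2_co.Sh
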