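import Pool.Agent.Work.MP_bf01b2_co.Sh.StmtsG

/-!
# Item Dsc: descendants in terms of the distance
-/

set_option autoImplicit false

namespace Pool.Agent.Work.MP_bf01b2_co.Sh

namespace IGDsc

theorem dist_le {V : Type} (G : SimpleGraph V) (s : V → List Bool) (hG : G.Connected)
    (hpre : ∀ (v : V) (k : ℕ), ∃ u, s u = (s v).take k)
    (hadj : ∀ u v e, s u = s v ++ [e] → G.Adj v u) (hinj : Function.Injective s)
    (w : List Bool) : ∀ u v, s u = s v ++ w → G.dist v u ≤ w.length := by
  induction w using List.reverseRecOn with
  | nil =>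
    intro u v h
    rw [List.append_nil] at h
    rw [hinj h, SimpleGraph.dist_self]
    exact Nat.zero_le _
  | append_singleton w' e ih =>
    intro u v h
    obtain ⟨u', hu'⟩ := hpre u ((s v).length + w'.length)
    have h2 : s u' = s v ++ w' := by
      rw [hu', h, ← List.append_assoc, ← List.length_append, List.take_left]
    have h3 : s u = s u' ++ [e] := by
      rw [h, h2, List.append_assoc]
    have h4 := ih u' v h2
    have h5 : G.dist v u ≤ G.dist v u' + G.dist u' u := hG.dist_triangle
    have h6 : G.dist u' u = 1 := SimpleGraph.dist_eq_one_iff_adj.2 (hadj u u' e h3)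
    rw [List.length_append, List.length_singleton]
    omega

end IGDsc

theorem pr_Dsc : StDsc := by
  intro V _ _ G _ r s hT hpre hadj hlen hinj u v w h
  have hG : G.Connected := hT.1
  have h1 := IGDsc.dist_le G s hG hpre hadj hinj w u v h
  have h2 : G.dist r u ≤ G.dist r v + G.dist v u := hG.dist_triangle
  have h3 := hlen u
  have h4 := hlen v
  rw [h, List.length_append] at h3
  omega

end Pool.Agent.Work.MP_bf01b2_co.Sh
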