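import Pool.Agent.Work.MP_bf01b2_co.Sh.StmtsG

/-!
# MP_bf01b2_co, theorem SHALLOW, tree side, item Hei: trees of height at most `n + C`
-/

set_option autoImplicit false

namespace Pool.Agent.Work.MP_bf01b2_co.Sh

open Pool.Agent.Work.MP_bf01b2_co.Bd

open Classical

namespace IGHei

/-- a heavy vertex is not deep -/
theorem deep (hShp : StShp) (hSub : StSub) (T : Finset (List Bool)) (n C k : ℕ)
    (hT : ∀ x ∈ T, x.length ≤ n + C) (x : List Bool) (hx : x ∈ hv (2 ^ (C + k + 1)) T) :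
    x.length + k < n := by
  by_contra hcon
  unfold hv at hx
  rw [Finset.mem_filter] at hx
  have h1 : sub T x ⊆ strs (C + k) := by
    intro u hu
    rw [hShp.2.2.1]
    have h2 := hT _ (((hSub T).1 x u).1 hu)
    rw [List.length_append] at h2
    omega
  have h3 := Finset.card_le_card h1
  have h4 := hShp.2.2.2 (C + k)
  omega

/-- the number of heavy vertices -/
theorem card_hv (hShp : StShp) (hSub : StSub) (T : Finset (List Bool)) (n C k : ℕ) (hk : k ≤ n)
    (hT : ∀ x ∈ T, x.length ≤ n + C) (ε : ℝ) (hε : (1 / 2 : ℝ) ^ k < ε) :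
    ((hv (2 ^ (C + k + 1)) T).card : ℝ) ≤ ε * 2 ^ n := by
  have hε0 : 0 < ε := lt_trans (by positivity) hε
  by_cases hn : n = k
  · have h1 : hv (2 ^ (C + k + 1)) T = ∅ := by
      rw [Finset.eq_empty_iff_forall_notMem]
      intro x hx
      have h2 := deep hShp hSub T n C k hT x hx
      omega
    rw [h1, Finset.card_empty, Nat.cast_zero]
    positivity
  · have h1 : hv (2 ^ (C + k + 1)) T ⊆ strs (n - k - 1) := by
      intro x hx
      rw [hShp.2.2.1]
      have h2 := deep hShp hSub T n C k hT x hx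
      omega
    have h2 := Finset.card_le_card h1
    have h3 := hShp.2.2.2 (n - k - 1)
    have h4 : n - k - 1 + 1 = n - k := by omega
    rw [h4] at h3
    have h5 : ((hv (2 ^ (C + k + 1)) T).card : ℝ) ≤ (2 : ℝ) ^ (n - k) := by
      exact_mod_cast (h2.trans h3.le)
    refine h5.trans ?_
    have h6 : (2 : ℝ) ^ (n - k) = (1 / 2 : ℝ) ^ k * 2 ^ n := by
      have h7 : (2 : ℝ) ^ n = 2 ^ (n - k) * 2 ^ k := by
        rw [← pow_add, Nat.sub_add_cancel hk]
      rw [h7, div_pow, one_pow]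
      field_simp
    rw [h6]
    exact mul_le_mul_of_nonneg_right hε.le (by positivity)

end IGHei

theorem pr_Hei (hPre : StPre) (hTrR : StTrR) (hShp : StShp) (hSub : StSub) : StHei := by
  obtain ⟨ε, hε, H⟩ := hPre
  intro C
  obtain ⟨k, hk⟩ := exists_pow_lt_of_lt_one hε (show (1 / 2 : ℝ) < 1 by norm_num)
  obtain ⟨n0, hn0⟩ := H (2 ^ (C + k + 1))
  refine ⟨max n0 k, ?_⟩
  intro n hn V _ _ G _ hG hdeg hcard r hr hdist
  obtain ⟨s, hs, hpre, hadj, -, -, hlen⟩ := hTrR V G hG hdeg r hr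
  have hT : ∀ v, s v ∈ Finset.univ.image s := fun v =>
    Finset.mem_image.mpr ⟨v, Finset.mem_univ _, rfl⟩
  have hPC : Bd.PrefClosed (Finset.univ.image s) := by
    intro v hv k
    obtain ⟨a, -, rfl⟩ := Finset.mem_image.mp hv
    obtain ⟨u, hu⟩ := hpre a k
    exact Finset.mem_image.mpr ⟨u, Finset.mem_univ _, hu⟩
  have hTl : ∀ x ∈ Finset.univ.image s, x.length ≤ n + C := by
    intro x hx
    obtain ⟨a, -, rfl⟩ := Finset.mem_image.mp hx
    rw [hlen]
    exact hdist a
  obtain ⟨c, hc1, hc2⟩ := hn0 n ((le_max_left _ _).trans hn) (Finset.univ.image s) hPC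
    (Finset.card_image_le.trans hcard)
    (IGHei.card_hv hShp hSub _ n C k ((le_max_right _ _).trans hn) hTl ε hk)
  have hinj : Function.Injective fun v => c (s v) := by
    intro u v huv
    exact hs (hc1 _ (hT u) _ (hT v) huv)
  refine ⟨⟨fun v => c (s v), ?_⟩, hinj⟩
  intro a b hab
  rw [SimpleGraph.fromRel_adj]
  refine ⟨fun h => hab.ne (hinj h), ?_⟩
  rcases hadj a b hab with ⟨e, he⟩ | ⟨e, he⟩
  · left
    have h6 := hc2 (s a) e (he ▸ hT b)
    rw [← he] at h6
    exact h6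
  · right
    have h6 := hc2 (s b) e (he ▸ hT a)
    rw [← he] at h6
    exact h6

end Pool.Agent.Work.MP_bf01b2_co.Sh
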