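import Pool.Agent.Work.MP_bf01b2_co.Sh.StmtsG

/-!
# MP_bf01b2_co, theorem SHALLOW, item Hgt: the longest core prefix
-/

set_option autoImplicit false

namespace Pool.Agent.Work.MP_bf01b2_co.Sh

open Pool.Agent.Work.MP_bf01b2_co.Bd

open Classical

namespace IGHgt

theorem take_one (v w : List Bool) (a : Bool) : (v ++ a :: w).take (v.length + 1) = v ++ [a] := by
  have h1 : v ++ a :: w = (v ++ [a]) ++ w := by simp
  have h2 : v.length + 1 = (v ++ [a]).length := by simp
  rw [h1, h2]
  exact List.take_left

theorem take_next (x : List Bool) (t : ℕ) (ht : t < x.length) :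
    x.take (t + 1) = x.take t ++ [x.getD t false] := by
  have h1 : x.getD t false = x[t] := by
    rw [List.getD_eq_getElem _ _ ht]
  rw [h1]
  exact (List.take_concat_get' x t ht).symm

end IGHgt

open IGHgt in
theorem pr_Hgt (hCrp : StCrp) : StHgt := by
  intro S T hT
  obtain ⟨hpc, -, hnil, -, -⟩ := hCrp S T hT
  constructor
  · intro v w a hv hva
    unfold ht
    rw [Nat.findGreatest_eq_iff]
    refine ⟨by simp, fun _ => ?_, fun n hn _ hcon => ?_⟩
    · show (v ++ a :: w).take v.length ∈ cor S T
      rw [List.take_left]
      exact hv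
    · have h1 := hpc _ hcon (v.length + 1)
      rw [List.take_take, min_eq_left (by omega : v.length + 1 ≤ n), take_one] at h1
      exact hva h1
  · intro x hx hxc
    have h0 : x.take 0 ∈ cor S T := by
      rw [List.take_zero]
      exact hnil ⟨x, hx⟩
    have h1 : x.take (ht S T x) ∈ cor S T :=
      Nat.findGreatest_spec (P := fun t => x.take t ∈ cor S T) (Nat.zero_le x.length) h0
    have h2 : ht S T x ≤ x.length := Nat.findGreatest_le (P := fun t => x.take t ∈ cor S T) x.length
    have h3 : ht S T x < x.length := by
      rcases lt_or_eq_of_le h2 with h | h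
      · exact h
      · rw [h, List.take_length] at h1
        exact absurd h1 hxc
    have h4 : x.take (ht S T x + 1) ∉ cor S T :=
      Nat.findGreatest_is_greatest (P := fun t => x.take t ∈ cor S T) (n := x.length) (Nat.lt_succ_self _) h3
    refine ⟨h3, h1, ?_, ?_⟩
    · rw [← take_next x _ h3]
      exact h4
    · rw [← take_next x _ h3]
      exact hT x hx _

end Pool.Agent.Work.MP_bf01b2_co.Sh
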