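import Pool.Agent.Work.MP_bf01b2_co.Sh.StmtsG

/-!
# MP_bf01b2_co, theorem SHALLOW, item Hvy: heavy strings are heavy vertices
-/

set_option autoImplicit false

namespace Pool.Agent.Work.MP_bf01b2_co.Sh

open Pool.Agent.Work.MP_bf01b2_co.Bd

open Classical

theorem pr_Hvy (hSub : StSub) (hDsc : StDsc) : StHvy := by
  intro V _ _ G _ r s hT hinj htake hadj hlen S
  refine (Finset.card_le_card (t := Finset.image s (Finset.univ.filter fun v : V =>
    S ≤ (Finset.univ.filter fun u : V => G.dist r u = G.dist r v + G.dist v u).card)) ?_).trans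
    Finset.card_image_le
  intro x hx
  unfold hv at hx
  obtain ⟨hxT, hxS⟩ := Finset.mem_filter.1 hx
  obtain ⟨v, -, rfl⟩ := Finset.mem_image.1 hxT
  refine Finset.mem_image.2 ⟨v, Finset.mem_filter.2 ⟨Finset.mem_univ _, hxS.trans ?_⟩, rfl⟩
  refine (Finset.card_le_card (t := Finset.image (fun u => (s u).drop (s v).length)
    (Finset.univ.filter fun u : V => G.dist r u = G.dist r v + G.dist v u)) ?_).trans
    Finset.card_image_le
  intro w hw
  have h1 := ((hSub (Finset.univ.image s)).1 (s v) w).1 hw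
  obtain ⟨u, -, hu⟩ := Finset.mem_image.1 h1
  refine Finset.mem_image.2 ⟨u, Finset.mem_filter.2 ⟨Finset.mem_univ _,
    hDsc V G r s hT htake hadj hlen hinj u v w hu⟩, ?_⟩
  show (s u).drop (s v).length = w
  rw [hu, List.drop_left]

end Pool.Agent.Work.MP_bf01b2_co.Sh
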