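import Pool.Agent.Work.MP_bf01b2_co.Sh.StmtsG

/-!
# MP_bf01b2_co, theorem SHALLOW, item Itm: the number of items
-/

set_option autoImplicit false

namespace Pool.Agent.Work.MP_bf01b2_co.Sh

open Pool.Agent.Work.MP_bf01b2_co.Bd

open Classical

namespace IGItm

theorem one (S : ℕ) (T : Finset (List Bool)) (p : Bool × Bool) :
    ∑ q : {A : Finset (List Bool) // A ∈ shp S} × ZMod 2, (Kw S T (p, q)).card ≤
      (cor S T).card := by
  rw [← Finset.card_biUnion]
  · apply Finset.card_le_card
    intro v hv
    obtain ⟨q, -, hq⟩ := Finset.mem_biUnion.1 hv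
    exact (Finset.mem_filter.1 hq).1
  · intro q _ q' _ hne
    rw [Function.onFun, Finset.disjoint_left]
    intro v hv hv'
    apply hne
    have h1 := (Finset.mem_filter.1 hv).2.2.2.2
    have h2 := (Finset.mem_filter.1 hv').2.2.2.2
    exact Prod.ext (Subtype.ext (h1.1.symm.trans h2.1)) (h1.2.symm.trans h2.2)

end IGItm

theorem pr_Itm : StItm := by
  intro S T
  rw [Fintype.sum_prod_type]
  calc ∑ p : Bool × Bool, ∑ q : {A : Finset (List Bool) // A ∈ shp S} × ZMod 2,
        (Kw S T (p, q)).card ≤ ∑ _p : Bool × Bool, (cor S T).card :=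
          Finset.sum_le_sum fun p _ => IGItm.one S T p
    _ = 4 * (cor S T).card := by
          rw [Finset.sum_const, Finset.card_univ, smul_eq_mul]
          rfl

end Pool.Agent.Work.MP_bf01b2_co.Sh
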