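import Pool.Agent.Work.MP_bf01b2_co.Sh.StmtsG

/-!
# MP_bf01b2_co, theorem SHALLOW, item Shl: the first final statement
-/

set_option autoImplicit false

namespace Pool.Agent.Work.MP_bf01b2_co.Sh

open Pool.Agent.Work.MP_bf01b2_co.Bd

open Classical

theorem pr_Shl (hPre : StPre) (hTrR : StTrR) (hHvy : StHvy) : StShl := by
  obtain ⟨ε, hε, h⟩ := hPre
  refine ⟨ε, hε, ?_⟩
  intro S
  obtain ⟨n0, hn0⟩ := h S
  refine ⟨n0, ?_⟩
  intro n hn V _ _ G _ hG hdeg hcard r hr hheavy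
  obtain ⟨s, hs, hpre, hadj, hadj2, _, hlen⟩ := hTrR V G hG hdeg r hr
  have hT : ∀ v, s v ∈ Finset.univ.image s := fun v =>
    Finset.mem_image.mpr ⟨v, Finset.mem_univ _, rfl⟩
  have hPC : Bd.PrefClosed (Finset.univ.image s) := by
    intro v hv k
    obtain ⟨a, -, rfl⟩ := Finset.mem_image.mp hv
    obtain ⟨u, hu⟩ := hpre a k
    exact Finset.mem_image.mpr ⟨u, Finset.mem_univ _, hu⟩
  have hTc : (Finset.univ.image s).card ≤ 2 ^ n := Finset.card_image_le.trans hcard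
  have hH := hHvy V G r s hG hs hpre hadj2 hlen S
  have hH2 : ((hv S (Finset.univ.image s)).card : ℝ) ≤ ε * 2 ^ n := by
    refine le_trans ?_ hheavy
    have hH3 := hH
    norm_cast
  obtain ⟨c, hc1, hc2⟩ := hn0 n hn (Finset.univ.image s) hPC hTc hH2
  have hinj : Function.Injective fun v => c (s v) := by
    intro u v huv
    exact hs (hc1 _ (hT u) _ (hT v) huv)
  refine ⟨⟨fun v => c (s v), ?_⟩, hinj⟩
  intro a b hab
  rw [SimpleGraph.fromRel_adj]
  refine ⟨fun h => hab.ne (hinj h), ?_⟩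
  rcases hadj a b hab with ⟨e, he⟩ | ⟨e, he⟩
  · left
    have h6 := hc2 (s a) e (he ▸ hT b)
    rw [← he] at h6
    exact h6
  · right
    have h6 := hc2 (s b) e (he ▸ hT a)
    rw [← he] at h6
    exact h6

end Pool.Agent.Work.MP_bf01b2_co.Sh
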