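import Pool.Agent.Work.MP_bf01b2_co.Sh.StmtsG

/-!
# MP_bf01b2_co, theorem SHALLOW, item G.Unq: uniqueness of the decomposition
-/

set_option autoImplicit false

namespace Pool.Agent.Work.MP_bf01b2_co.Sh

open Pool.Agent.Work.MP_bf01b2_co.Bd

namespace IGUnq

theorem kw {S : ℕ} {T : Finset (List Bool)} {w : Wt S} {v : List Bool} (h : v ∈ Kw S T w) :
    v ∈ cor S T ∧ v ++ [w.1.1] ∉ cor S T ∧ sub T (v ++ [w.1.1, w.1.2]) = w.2.1.1 ∧
      (v.length : ZMod 2) = w.2.2 := by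
  classical
  unfold Kw at h
  rw [Finset.mem_filter] at h
  exact ⟨h.1, h.2.2.1, h.2.2.2.2.1, h.2.2.2.2.2⟩

theorem app (v u : List Bool) (a e : Bool) : v ++ [a, e] ++ u = v ++ a :: (e :: u) := by
  rw [List.append_assoc]
  rfl

end IGUnq

/-- Item G.Unq. -/
theorem pr_Unq (hCrp : StCrp) (hHgt : StHgt) : StUnq := by
  intro S T hT
  have hH := (hHgt S T hT).1
  refine ⟨?_, ?_, ?_, ?_⟩
  · intro v v' a a' _ _ _ _ h
    obtain ⟨h1, h2⟩ := List.append_inj' h rfl
    exact ⟨h1, List.singleton_injective h2⟩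
  · intro w w' v v' u u' hv hv' h
    obtain ⟨c1, c2, c3, c4⟩ := IGUnq.kw hv
    obtain ⟨d1, d2, d3, d4⟩ := IGUnq.kw hv'
    have e1 := hH v (w.1.2 :: u) w.1.1 c1 c2
    have e2 := hH v' (w'.1.2 :: u') w'.1.1 d1 d2
    rw [← IGUnq.app] at e1 e2
    rw [h, e2] at e1
    rw [IGUnq.app, IGUnq.app] at h
    obtain ⟨h1, h2⟩ := List.append_inj h e1.symm
    have h3 := List.cons.inj h2
    have h4 := List.cons.inj h3.2
    subst h1
    refine ⟨?_, rfl, h4.2⟩
    refine Prod.ext (Prod.ext h3.1 h4.1) (Prod.ext (Subtype.ext ?_) ?_)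
    · rw [← c3, ← d3, h3.1, h4.1]
    · rw [← c4, ← d4]
  · intro w v v' u a hv hv' ha h
    obtain ⟨c1, c2, c3, c4⟩ := IGUnq.kw hv
    have e1 := hH v (w.1.2 :: u) w.1.1 c1 c2
    have e2 := hH v' [] a hv' ha
    rw [← IGUnq.app] at e1
    rw [h] at e1
    have h5 : v'.length = v.length := by rw [← e1, ← e2]
    have h6 := congrArg List.length h
    rw [IGUnq.app, List.length_append, List.length_append, List.length_cons, List.length_cons,
      List.length_cons, List.length_nil] at h6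
    omega
  · intro w v u hv hmem
    obtain ⟨c1, c2, c3, c4⟩ := IGUnq.kw hv
    have h1 := (hCrp S T hT).1 _ hmem (v.length + 1)
    rw [IGUnq.app] at h1
    have h2 : (v ++ w.1.1 :: (w.1.2 :: u)).take (v.length + 1) = v ++ [w.1.1] := by
      rw [List.take_length_add_append]
      rfl
    rw [h2] at h1
    exact c2 h1

end Pool.Agent.Work.MP_bf01b2_co.Sh
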