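import Pool.Agent.Work.MP_bf01b2_co.Sh.StmtsP

/-!
# Item Brg: base points for all items
-/

set_option autoImplicit false

namespace Pool.Agent.Work.MP_bf01b2_co.Sh

open Classical

namespace IPBrg

lemma vadd_self {n : ℕ} (x : Vc n) : x + x = 0 := by
  funext i
  exact CharTwo.add_self_eq_zero (x i)

lemma syn_add {R k : ℕ} (sy : Fin R → Vc k) (x y : Vc R) :
    syn sy (x + y) = syn sy x + syn sy y := by
  funext c
  simp only [syn, Pi.add_apply, add_mul, Finset.sum_add_distrib]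

lemma syn_one {R k : ℕ} (sy : Fin R → Vc k) (i : Fin R) : syn sy (Pi.single i 1) = sy i := by
  funext c
  simp only [syn]
  rw [Finset.sum_eq_single i]
  · rw [Pi.single_eq_same, one_mul]
  · intro j _ hj
    rw [Pi.single_eq_of_ne hj, zero_mul]
  · intro h
    exact absurd (Finset.mem_univ i) h

/-- the relation of the bridge -/
def rel {X : Type} {R k : ℕ} (sy : Fin R → Vc k) (Φ : List Bool → Vc R) (H : Finset (List Bool))
    (B : Finset X) (Sg : X → Vc k) (Cx : X → Finset (Vc R)) (v : List Bool) (p : Vc R) : Prop :=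
  ∃ i, sy i ≠ 0 ∧ p = Φ v + Pi.single i 1 ∧ ∃ x ∈ B, syn sy p = Sg x ∧
    ∀ c ∈ Cx x, ∀ h ∈ H, Φ h ≠ p + c

lemma low {X : Type} {R k N1 CL : ℕ} (sy : Fin R → Vc k) (Φ : List Bool → Vc R)
    (H : Finset (List Bool)) (B : Finset X) (Sg : X → Vc k) (Cx : X → Finset (Vc R)) (ρ : ℝ)
    (hN1 : ∀ s : Vc k, s ≠ 0 → (Finset.univ.filter fun i => sy i = s).card = N1)
    (hSg : Function.Injective Sg) (hρ : 0 ≤ ρ)
    (hH : ∀ s x, s ≠ 0 → (ct1 sy Φ H s x : ℝ) ≤ ρ * N1) (hC : ∀ x, (Cx x).card ≤ CL)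
    (v : List Bool) :
    ((B.card : ℝ) - 1 - B.card * CL * ρ) * N1 ≤
      ((Finset.univ.filter fun p => rel sy Φ H B Sg Cx v p).card : ℝ) := by
  set σ := syn sy (Φ v) with hσ
  set B' := B.filter fun x => Sg x + σ ≠ 0 with hB'
  have hBc : B.card ≤ B'.card + 1 := by
    have h1 : (B.filter fun x => ¬ (Sg x + σ ≠ 0)).card ≤ 1 := by
      rw [Finset.card_le_one]
      intro x hx y hy
      have e1 := (Finset.mem_filter.1 hx).2
      have e2 := (Finset.mem_filter.1 hy).2
      push Not at e1 e2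
      exact hSg (add_right_cancel (e1.trans e2.symm))
    have h2 := Finset.card_filter_add_card_filter_not (s := B) (fun x => Sg x + σ ≠ 0)
    rw [← hB'] at h2
    omega
  set I0 := B'.biUnion fun x => Finset.univ.filter fun i => sy i = Sg x + σ with hI0
  have hI0c : I0.card = B'.card * N1 := by
    rw [hI0, Finset.card_biUnion]
    · rw [Finset.sum_congr rfl fun x hx => hN1 _ (Finset.mem_filter.1 hx).2, Finset.sum_const,
        smul_eq_mul]
    · intro x _ y _ hxy
      change Disjoint _ _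
      rw [Finset.disjoint_left]
      intro i hi hi'
      have e1 := (Finset.mem_filter.1 hi).2
      have e2 := (Finset.mem_filter.1 hi').2
      exact hxy (hSg (add_right_cancel (e1.symm.trans e2)))
  set I1 := B'.biUnion fun x => (Cx x).biUnion fun c => Finset.univ.filter fun i =>
    sy i = Sg x + σ ∧ ∃ h ∈ H, Φ h = (Φ v + c) + Pi.single i 1 with hI1
  have hI1c : (I1.card : ℝ) ≤ B.card * CL * ρ * N1 := by
    have h1 : I1.card ≤ ∑ x ∈ B', ∑ c ∈ Cx x, ct1 sy Φ H (Sg x + σ) (Φ v + c) := by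
      refine le_trans Finset.card_biUnion_le (Finset.sum_le_sum fun x _ => ?_)
      refine le_trans Finset.card_biUnion_le (Finset.sum_le_sum fun c _ => ?_)
      rw [ct1]
      have h2 : (Finset.univ.filter fun i => sy i = Sg x + σ ∧
          ∃ h ∈ H, Φ h = (Φ v + c) + Pi.single i 1).card =
          ∑ i ∈ Finset.univ.filter (fun i => sy i = Sg x + σ ∧
            ∃ h ∈ H, Φ h = (Φ v + c) + Pi.single i 1), 1 := by simp
      rw [h2]
      refine le_trans (Finset.sum_le_sum (g := fun i =>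
        (H.filter fun v' => Φ v' = (Φ v + c) + Pi.single i 1).card) ?_)
        (Finset.sum_le_sum_of_subset ?_)
      · intro i hi
        obtain ⟨_, _, h, hh, hΦ⟩ := Finset.mem_filter.1 hi
        exact Finset.card_pos.2 ⟨h, Finset.mem_filter.2 ⟨hh, hΦ⟩⟩
      · intro i hi
        obtain ⟨_, hi1, _⟩ := Finset.mem_filter.1 hi
        exact Finset.mem_filter.2 ⟨Finset.mem_univ _, hi1⟩
    have h3 : ((∑ x ∈ B', ∑ c ∈ Cx x, ct1 sy Φ H (Sg x + σ) (Φ v + c) : ℕ) : ℝ) ≤
        ∑ _x ∈ B', (CL : ℝ) * (ρ * N1) := by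
      rw [Nat.cast_sum]
      refine Finset.sum_le_sum fun x hx => ?_
      rw [Nat.cast_sum]
      calc ∑ c ∈ Cx x, (ct1 sy Φ H (Sg x + σ) (Φ v + c) : ℝ)
          ≤ ∑ _c ∈ Cx x, ρ * N1 :=
            Finset.sum_le_sum fun c _ => hH _ _ (Finset.mem_filter.1 hx).2
        _ = ((Cx x).card : ℝ) * (ρ * N1) := by rw [Finset.sum_const, nsmul_eq_mul]
        _ ≤ (CL : ℝ) * (ρ * N1) := by
            refine mul_le_mul_of_nonneg_right ?_ (by positivity)
            exact_mod_cast hC x
    calc (I1.card : ℝ) ≤ ((∑ x ∈ B', ∑ c ∈ Cx x, ct1 sy Φ H (Sg x + σ) (Φ v + c) : ℕ) : ℝ) := by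
          exact_mod_cast h1
      _ ≤ ∑ _x ∈ B', (CL : ℝ) * (ρ * N1) := h3
      _ = (B'.card : ℝ) * ((CL : ℝ) * (ρ * N1)) := by rw [Finset.sum_const, nsmul_eq_mul]
      _ ≤ (B.card : ℝ) * ((CL : ℝ) * (ρ * N1)) := by
          refine mul_le_mul_of_nonneg_right ?_ (by positivity)
          exact_mod_cast Finset.card_le_card (Finset.filter_subset _ _)
      _ = B.card * CL * ρ * N1 := by ring
  have hmap : (I0 \ I1).card ≤ (Finset.univ.filter fun p => rel sy Φ H B Sg Cx v p).card := by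
    refine Finset.card_le_card_of_injOn (fun i => Φ v + Pi.single i 1) ?_ ?_
    · intro i hi
      have hi' := Finset.mem_sdiff.1 (Finset.mem_coe.1 hi)
      obtain ⟨x, hx, hxi⟩ := Finset.mem_biUnion.1 hi'.1
      have hxs := (Finset.mem_filter.1 hxi).2
      have hxB := Finset.mem_filter.1 hx
      refine Finset.mem_coe.2 (Finset.mem_filter.2 ⟨Finset.mem_univ _, i, ?_, rfl, x, hxB.1, ?_, ?_⟩)
      · rw [hxs]
        exact hxB.2
      · rw [syn_add, syn_one, hxs, ← hσ, add_comm (Sg x) σ, ← add_assoc, vadd_self, zero_add]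
      · intro c hc h hh hΦ
        refine hi'.2 (Finset.mem_biUnion.2 ⟨x, hx, Finset.mem_biUnion.2 ⟨c, hc,
          Finset.mem_filter.2 ⟨Finset.mem_univ _, hxs, h, hh, ?_⟩⟩⟩)
        rw [hΦ]
        exact add_right_comm _ _ _
    · intro i _ j _ hij
      have h1 : (Pi.single i 1 : Vc R) = Pi.single j 1 := add_left_cancel hij
      by_contra hne
      have h2 := congrFun h1 i
      rw [Pi.single_eq_same, Pi.single_eq_of_ne hne] at h2
      exact one_ne_zero h2
  have hsd : I0.card ≤ (I0 \ I1).card + I1.card := by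
    have := Finset.card_le_card_sdiff_add_card (s := I0) (t := I1)
    omega
  have e1 : (I0.card : ℝ) ≤ ((Finset.univ.filter fun p => rel sy Φ H B Sg Cx v p).card : ℝ) +
      I1.card := by
    have := le_trans hsd (Nat.add_le_add_right hmap I1.card)
    exact_mod_cast this
  have e2 : (I0.card : ℝ) = (B'.card : ℝ) * N1 := by exact_mod_cast hI0c
  have e3 : (B.card : ℝ) - 1 ≤ B'.card := by
    have : (B.card : ℝ) ≤ B'.card + 1 := by exact_mod_cast hBc
    linarith
  have e4 : ((B.card : ℝ) - 1) * N1 ≤ (B'.card : ℝ) * N1 :=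
    mul_le_mul_of_nonneg_right e3 (Nat.cast_nonneg _)
  have e5 : ((B.card : ℝ) - 1 - B.card * CL * ρ) * N1 =
      ((B.card : ℝ) - 1) * N1 - B.card * CL * ρ * N1 := by ring
  rw [e5]
  linarith

lemma up {X : Type} {R k N1 : ℕ} (sy : Fin R → Vc k) (Φ : List Bool → Vc R)
    (H K : Finset (List Bool)) (B : Finset X) (Sg : X → Vc k) (Cx : X → Finset (Vc R)) (lam : ℝ)
    (hlam : 0 ≤ lam)
    (hK : ∀ s x, s ≠ 0 → (ct1 sy Φ K s x : ℝ) ≤ lam * N1) (p : Vc R) :
    ((K.filter fun v => rel sy Φ H B Sg Cx v p).card : ℝ) ≤ lam * 2 ^ k * N1 := by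
  have h1 : (K.filter fun v => rel sy Φ H B Sg Cx v p).card ≤
      ∑ i ∈ Finset.univ.filter (fun i => sy i ≠ 0),
        (K.filter fun v => Φ v = p + Pi.single i 1).card := by
    refine le_trans (Finset.card_le_card ?_) Finset.card_biUnion_le
    intro v hv
    obtain ⟨hvK, i, hi, hp, _⟩ := Finset.mem_filter.1 hv
    refine Finset.mem_biUnion.2 ⟨i, Finset.mem_filter.2 ⟨Finset.mem_univ _, hi⟩,
      Finset.mem_filter.2 ⟨hvK, ?_⟩⟩
    rw [hp, add_assoc, vadd_self, add_zero]
  have h2 : ∑ i ∈ Finset.univ.filter (fun i => sy i ≠ 0),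
        (K.filter fun v => Φ v = p + Pi.single i 1).card =
      ∑ s ∈ Finset.univ.filter (fun s : Vc k => s ≠ 0), ct1 sy Φ K s p := by
    rw [← Finset.sum_fiberwise_of_maps_to (g := sy) (t := Finset.univ.filter fun s : Vc k => s ≠ 0)
      (fun i hi => Finset.mem_filter.2 ⟨Finset.mem_univ _, (Finset.mem_filter.1 hi).2⟩)]
    refine Finset.sum_congr rfl fun s hs => ?_
    have hs0 := (Finset.mem_filter.1 hs).2
    rw [ct1]
    refine Finset.sum_congr ?_ fun _ _ => rfl
    ext i
    simp only [Finset.mem_filter, Finset.mem_univ, true_and]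
    constructor
    · rintro ⟨_, h⟩
      exact h
    · intro h
      exact ⟨by rw [h]; exact hs0, h⟩
  calc ((K.filter fun v => rel sy Φ H B Sg Cx v p).card : ℝ)
      ≤ ((∑ s ∈ Finset.univ.filter (fun s : Vc k => s ≠ 0), ct1 sy Φ K s p : ℕ) : ℝ) := by
        rw [← h2]
        exact_mod_cast h1
    _ ≤ ∑ _s ∈ Finset.univ.filter (fun s : Vc k => s ≠ 0), lam * N1 := by
        rw [Nat.cast_sum]
        exact Finset.sum_le_sum fun s hs => hK s p (Finset.mem_filter.1 hs).2
    _ = ((Finset.univ.filter (fun s : Vc k => s ≠ 0)).card : ℝ) * (lam * N1) := by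
        rw [Finset.sum_const, nsmul_eq_mul]
    _ ≤ (2 ^ k : ℝ) * (lam * N1) := by
        refine mul_le_mul_of_nonneg_right ?_ (by positivity)
        have h3 : (Finset.univ.filter (fun s : Vc k => s ≠ 0)).card ≤ 2 ^ k := by
          refine le_trans (Finset.card_filter_le _ _) (le_of_eq ?_)
          rw [Finset.card_univ, Fintype.card_fun, ZMod.card, Fintype.card_fin]
        exact_mod_cast h3
    _ = lam * 2 ^ k * N1 := by ring

end IPBrg

open IPBrg in
theorem pr_Brg (h : StHal) : StBrg := by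
  intro W X _ _ R k N1 CL sy Φ H K wt Sg Cx lam ρ hN hN1 hSg hlam hρ hK hH hC hnum
  have hex : ∀ w, ∃ p : List Bool → Vc R,
      (∀ v ∈ K w, rel sy Φ H (Finset.univ.filter fun x => wt x = w) Sg Cx v (p v)) ∧
      ∀ v ∈ K w, ∀ v' ∈ K w, p v = p v' → v = v' := by
    intro w
    have hN' : (0 : ℝ) < N1 := by exact_mod_cast hN
    refine h (List Bool) (Vc R) (K w)
      (fun v p => rel sy Φ H (Finset.univ.filter fun x => wt x = w) Sg Cx v p)
      (lam w * 2 ^ k * N1) (by have := hlam w; positivity) ?_ ?_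
    · intro v _
      refine le_trans ?_ (low (CL := CL) sy Φ H (Finset.univ.filter fun x => wt x = w) Sg Cx ρ
        hN1 hSg hρ hH hC v)
      refine mul_le_mul_of_nonneg_right ?_ hN'.le
      have := hnum w
      linarith
    · intro p
      exact up sy Φ H (K w) (Finset.univ.filter fun x => wt x = w) Sg Cx (lam w) (hlam w).le
        (hK w) p
  choose p hp1 hp2 using hex
  have hex2 : ∀ w v, ∃ x : X, v ∈ K w → wt x = w ∧ syn sy (p w v) = Sg x ∧
      ∀ c ∈ Cx x, ∀ h ∈ H, Φ h ≠ p w v + c := by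
    intro w v
    by_cases hv : v ∈ K w
    · obtain ⟨i, _, _, x, hx, hx1, hx2⟩ := hp1 w v hv
      exact ⟨x, fun _ => ⟨(Finset.mem_filter.1 hx).2, hx1, hx2⟩⟩
    · by_cases hX : Nonempty X
      · exact ⟨Classical.choice hX, fun hv' => absurd hv' hv⟩
      · exfalso
        rw [not_nonempty_iff] at hX
        have := hnum w
        have h0 : (Finset.univ.filter fun x : X => wt x = w).card = 0 := by
          rw [Finset.card_eq_zero, Finset.filter_eq_empty_iff]
          intro x
          exact (hX.false x).elim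
        rw [h0] at this
        have h1 := hlam w
        have h2 : 0 < lam w * 2 ^ k := by positivity
        simp only [Nat.cast_zero, zero_mul, add_zero] at this
        linarith
  choose ξ hξ using hex2
  refine ⟨p, ξ, fun w v hv => ?_⟩
  obtain ⟨e1, e2, e3⟩ := hξ w v hv
  refine ⟨e1, e2, ?_, e3, ?_⟩
  · obtain ⟨i, _, hi, _⟩ := hp1 w v hv
    exact ⟨i, hi⟩
  · intro w' v' hv' hpp
    obtain ⟨f1, f2, f3⟩ := hξ w' v' hv'
    have hx : ξ w v = ξ w' v' := hSg (by rw [← e2, ← f2, hpp])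
    have hw : w = w' := by rw [← e1, ← f1, hx]
    subst hw
    exact ⟨rfl, hp2 w v hv v' hv' hpp⟩

end Pool.Agent.Work.MP_bf01b2_co.Sh
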