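import Pool.Agent.Work.MP_bf01b2_co.Sh.StmtsP

set_option autoImplicit false

/-! # Item Clr of part P: the syndromes of all tiles -/

namespace Pool.Agent.Work.MP_bf01b2_co.Sh

open Classical

namespace IPClr

/-- the private addresses are few -/
theorem card_Ya (h3 : StYc) (M : ℕ) : (Ya M).card ≤ 2 ^ (2 * M + 1) :=
  (Finset.card_filter_le _ _).trans (h3.2 (2 * M))

/-- in `ZMod 2` -/
theorem sub_eq_add_zmod2 (a b : ZMod 2) : a - b = b + a := by
  revert a b; decide

/-- an embedding of a finite set of small cardinality into a finite set -/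
theorem exists_emb {α β : Type} (s : Finset α) (A : Finset β) (h : s.card ≤ A.card) :
    ∃ f : {x // x ∈ s} → β, Function.Injective f ∧ ∀ x, f x ∈ A := by
  have h' : Fintype.card {x // x ∈ s} ≤ Fintype.card {x // x ∈ A} := by
    simpa using h
  obtain ⟨g⟩ := Function.Embedding.nonempty_of_card_le h'
  exact ⟨fun x => (g x).1, fun x y hxy => g.injective (Subtype.ext hxy), fun x => (g x).2⟩

end IPClr

open IPClr in
theorem pr_Clr (h2 : StPri) (h3 : StYc) (h4 : StCls) : StClr := by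
  intro W _ k M m1 J b t dw hM hJ hF
  -- the private syndromes
  have hcP : Fintype.card (Ky W M J b × {y // y ∈ Ya M}) ≤ 2 ^ k := by
    rw [Fintype.card_prod, Fintype.card_coe]
    have h0 := hF 0
    have h1 : 2 * (Fintype.card (Ky W M J b) * 2 ^ (2 * M + 1)) ≤ 2 ^ (k + 1) :=
      le_trans (Nat.le_add_left _ _) h0
    have h5 : Fintype.card (Ky W M J b) * (Ya M).card ≤
        Fintype.card (Ky W M J b) * 2 ^ (2 * M + 1) := Nat.mul_le_mul_left _ (card_Ya h3 M)
    have h6 : 2 ^ (k + 1) = 2 * 2 ^ k := by ring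
    omega
  obtain ⟨S0, hS0⟩ := h2 k (Ky W M J b × {y // y ∈ Ya M}) hcP
  -- the free syndromes
  let B : Finset (Vc (k + 1)) := (Finset.univ :
    Finset ((Ky W M J b × {y // y ∈ Ya M}) × ZMod 2)).image fun p => S0 p.1 + Pi.single 0 p.2
  let A : Finset (Vc (k + 1)) := Bᶜ
  have hBc : B.card ≤ 2 * (Fintype.card (Ky W M J b) * 2 ^ (2 * M + 1)) := by
    refine (Finset.card_image_le).trans ?_
    rw [Finset.card_univ, Fintype.card_prod, Fintype.card_prod, Fintype.card_coe, ZMod.card]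
    have h5 : Fintype.card (Ky W M J b) * (Ya M).card ≤
        Fintype.card (Ky W M J b) * 2 ^ (2 * M + 1) := Nat.mul_le_mul_left _ (card_Ya h3 M)
    omega
  have hAc : 2 ^ (k + 1) - 2 * (Fintype.card (Ky W M J b) * 2 ^ (2 * M + 1)) ≤ A.card := by
    have : A.card = 2 ^ (k + 1) - B.card := by
      show (Bᶜ : Finset (Vc (k + 1))).card = _
      rw [Finset.card_compl]
      simp [ZMod.card]
    omega
  have hcl : ∀ (c : ZMod 2) (μ : Vc M),
      (Finset.univ.filter fun x : Nd W M J b t => InC m1 J dw c μ x).card ≤ A.card := by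
    intro c μ
    refine (h4 W M m1 J b t dw c μ hM hJ).trans ?_
    have h0 := hF c
    omega
  have hf : ∀ (c : ZMod 2) (μ : Vc M), ∃ f : {x : Nd W M J b t // x ∈
      (Finset.univ.filter fun x : Nd W M J b t => InC m1 J dw c μ x)} → Vc (k + 1),
      Function.Injective f ∧ ∀ x, f x ∈ A := fun c μ => exists_emb _ _ (hcl c μ)
  choose f hfi hfA using hf
  -- the class of a node
  let cc : ∀ x : Nd W M J b t, ZMod 2 := fun x => (x.2.2.1.length : ZMod 2) - dw x.1.1
  let mm : ∀ x : Nd W M J b t, Vc M := fun x => mu m1 J x.1.2.1.1 x.1.2.1.2.1 x.2.2.1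
  have hmem : ∀ x : Nd W M J b t, x ∈
      (Finset.univ.filter fun z : Nd W M J b t => InC m1 J dw (cc x) (mm x) z) := by
    intro x
    rw [Finset.mem_filter]
    refine ⟨Finset.mem_univ _, ?_, rfl⟩
    show (x.2.2.1.length : ZMod 2) = dw x.1.1 + ((x.2.2.1.length : ZMod 2) - dw x.1.1)
    ring
  let F : Nd W M J b t → Vc (k + 1) := fun x => f (cc x) (mm x) ⟨x, hmem x⟩
  have hFA : ∀ x, F x ∈ A := fun x => hfA _ _ _
  have hFi : ∀ x y : Nd W M J b t, F x = F y → mm x = mm y → cc x = cc y → x = y := by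
    intro x y hxy hm hc
    have key : ∀ (c : ZMod 2) (μ : Vc M) (hx : x ∈
        (Finset.univ.filter fun z : Nd W M J b t => InC m1 J dw c μ z)),
        c = cc x → μ = mm x → F x = f c μ ⟨x, hx⟩ := by
      intro c μ hx h1 h2
      subst h1; subst h2; rfl
    have hx' : x ∈ (Finset.univ.filter fun z : Nd W M J b t => InC m1 J dw (cc y) (mm y) z) := by
      rw [← hc, ← hm]; exact hmem x
    have h1 := key (cc y) (mm y) hx' hc.symm hm.symm
    have h2 : f (cc y) (mm y) ⟨x, hx'⟩ = f (cc y) (mm y) ⟨y, hmem y⟩ := by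
      rw [← h1]; exact hxy
    have h3 := hfi _ _ h2
    exact congrArg Subtype.val h3
  refine ⟨fun x y => if hy : y ∈ Ya M then S0 (x, ⟨y, hy⟩) else 0,
    fun x π u => if hu : u ∈ t x.1 then F ⟨x, π, ⟨u, hu⟩⟩ else 0, ?_, ?_, ?_⟩
  · intro x x' y y' α α' hy hy' h
    simp only [hy, hy', dif_pos] at h
    obtain ⟨h1, h2⟩ := hS0 _ _ _ _ h
    rw [Prod.mk.injEq, Subtype.mk.injEq] at h1
    exact ⟨h1.1, h1.2, h2⟩
  · intro x π x' y' α' u hu hy' h
    simp only [hu, hy', dif_pos] at h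
    have hA := hFA ⟨x, π, ⟨u, hu⟩⟩
    rw [h] at hA
    have : S0 (x', ⟨y', hy'⟩) + Pi.single 0 α' ∈ B := by
      refine Finset.mem_image.2 ⟨((x', ⟨y', hy'⟩), α'), Finset.mem_univ _, rfl⟩
    exact (Finset.mem_compl.1 hA) this
  · intro x π x' π' u hu u' hu' h hmu hdw
    simp only [hu, hu', dif_pos] at h
    have hcc : cc ⟨x, π, ⟨u, hu⟩⟩ = cc ⟨x', π', ⟨u', hu'⟩⟩ := by
      show (u.length : ZMod 2) - dw x.1 = (u'.length : ZMod 2) - dw x'.1
      rw [sub_eq_add_zmod2, sub_eq_add_zmod2, hdw]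
    have h5 := hFi _ _ h hmu hcc
    have hx : x = x' := congrArg Sigma.fst h5
    subst hx
    have h6 := eq_of_heq (Sigma.mk.inj h5).2
    rw [Prod.mk.injEq, Subtype.mk.injEq] at h6
    exact ⟨rfl, h6.1, h6.2⟩

end Pool.Agent.Work.MP_bf01b2_co.Sh
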