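import Pool.Agent.Work.MP_bf01b2_co.Sh.StmtsP

/-!
# Item Cls : the size of a class of nodes
-/

set_option autoImplicit false

namespace Pool.Agent.Work.MP_bf01b2_co.Sh

open Classical

namespace IPCls

/-- type, number of the copy, parity, address of a node -/
def fz {W : Type} {M J : ℕ} {b : W → ℕ} {t : W → Finset (List Bool)} (x : Nd W M J b t) :
    Σ w : W, Fin (b w) × ZMod 2 × List Bool := ⟨x.1.1, x.1.2.2, x.2.1, x.2.2.1⟩

theorem fz_inj {W : Type} {M J : ℕ} {b : W → ℕ} {t : W → Finset (List Bool)}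
    (x y : Nd W M J b t) (h : fz x = fz y) (h2 : x.1.2.1 = y.1.2.1) : x = y := by
  obtain ⟨⟨w, gs, i⟩, α, u, hu⟩ := x
  obtain ⟨⟨w', gs', i'⟩, α', u', hu'⟩ := y
  simp only [fz] at h h2
  obtain ⟨h3, h4⟩ := Sigma.mk.inj h
  subst h3
  have h5 := eq_of_heq h4
  simp only [Prod.mk.injEq] at h5
  obtain ⟨h6, h7, h8⟩ := h5
  subst h6 h7 h8 h2
  rfl

end IPCls

open IPCls

theorem pr_Cls (h : StLaw) : StCls := by
  intro W _ M m1 J b t dw c μ hM hJ
  set T : Finset (Σ w : W, Fin (b w) × ZMod 2 × List Bool) :=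
    Finset.univ.sigma fun w => (Finset.univ : Finset (Fin (b w))) ×ˢ
      ((Finset.univ : Finset (ZMod 2)) ×ˢ
        ((t w).filter fun u => (u.length : ZMod 2) = dw w + c)) with hT
  have hmaps : ∀ x ∈ Finset.univ.filter fun x : Nd W M J b t => InC m1 J dw c μ x, fz x ∈ T := by
    intro x hx
    rw [Finset.mem_filter] at hx
    rw [hT, Finset.mem_sigma, Finset.mem_product, Finset.mem_product, Finset.mem_filter]
    exact ⟨Finset.mem_univ _, Finset.mem_univ _, Finset.mem_univ _, x.2.2.2, hx.2.1⟩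
  have hfib : ∀ B ∈ T, (Finset.filter (fun x => fz x = B)
      (Finset.univ.filter fun x : Nd W M J b t => InC m1 J dw c μ x)).card ≤ J + 1 := by
    intro B _
    refine le_trans (Finset.card_le_card_of_injOn (fun x => x.1.2.1) ?_ ?_)
      (h M m1 J B.2.2.2 μ hM hJ).2
    · intro x hx
      simp only [Finset.coe_filter, Finset.mem_univ, true_and, Set.mem_ofPred_eq,
        Finset.mem_filter] at hx ⊢
      obtain ⟨⟨-, h1⟩, h2⟩ := hx
      rw [← h2]
      exact h1
    · intro x hx y hy hxy
      simp only [Finset.coe_filter, Finset.mem_univ, true_and, Set.mem_ofPred_eq,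
        Finset.mem_filter] at hx hy
      exact fz_inj x y (hx.2.trans hy.2.symm) hxy
  refine (Finset.card_le_mul_card_image_of_maps_to hmaps (J + 1) hfib).trans (le_of_eq ?_)
  rw [hT, Finset.card_sigma, Finset.mul_sum]
  refine Finset.sum_congr rfl fun w _ => ?_
  rw [Finset.card_product, Finset.card_product, Finset.card_univ, Finset.card_univ,
    Fintype.card_fin, ZMod.card]
  have h3 : Nw t dw w c = ((t w).filter fun u => (u.length : ZMod 2) = dw w + c).card := rfl
  rw [h3]
  ring

end Pool.Agent.Work.MP_bf01b2_co.Sh
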