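import Pool.Agent.Work.MP_bf01b2_co.Sh.StmtsP

/-!
# MP_bf01b2_co, shallow trees, part P, item Nms: the choice of the numbers
-/

set_option autoImplicit false

namespace Pool.Agent.Work.MP_bf01b2_co.Sh

open Classical

namespace IPNms

/-- the ceiling -/
theorem ceil_facts (P Q m : ℝ) (hP : 1 ≤ P) (hQ : 0 ≤ Q) (hm : 0 ≤ m) :
    ∃ b : ℕ, 21 / 20 * m * Q + 1 ≤ 998 / 1000 * (b * (P * 100)) ∧
      (b : ℝ) ≤ 1053 / 100000 * m * (Q / P) + 2 := by
  have hP0 : 0 < P := by linarith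
  have hz0 : 0 ≤ (21 / 20 * m * Q + 1) / (998 / 1000 * (P * 100)) := by positivity
  refine ⟨⌈(21 / 20 * m * Q + 1) / (998 / 1000 * (P * 100))⌉₊, ?_, ?_⟩
  · have h := Nat.le_ceil ((21 / 20 * m * Q + 1) / (998 / 1000 * (P * 100)))
    rw [div_le_iff₀ (by positivity)] at h
    linarith
  · have h := Nat.ceil_lt_add_one hz0
    have h2 : (21 / 20 * m * Q + 1) / (998 / 1000 * (P * 100)) ≤
        1053 / 100000 * m * (Q / P) + 1 := by
      rw [div_le_iff₀ (by positivity)]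
      have h3 : (1053 / 100000 * m * (Q / P) + 1) * (998 / 1000 * (P * 100)) =
          1053 / 1000 * (998 / 1000) * m * Q + 998 / 10 * P := by
        field_simp
        ring
      rw [h3]
      have h4 : 0 ≤ m * Q := by positivity
      nlinarith
    linarith

/-- the final inequality -/
theorem fin (P Q τ Nt om y SN SX SXN : ℝ) (hP : 1 ≤ P) (hNt : 0 ≤ Nt) (hom : 0 ≤ om)
    (hτ : 0 ≤ τ)
    (hQ : P ^ 4 * 2 ^ 30 * ((1 + Nt) * (1 + om)) ≤ Q) (hτN : τ * (Nt + om) * (P ^ 2 * 2 ^ 14) ≤ 1)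
    (hyP : y * (P ^ 2 * 2 ^ 14) ≤ 1) (hSX : SX ≤ 4 * y) (hSN : SN ≤ Nt)
    (hSXN : SXN ≤ 67 / 200 * P) :
    202 * (1053 / 100000 * (SXN + τ * SN) * (Q / P) + 2 * SN) +
      400 * P ^ 3 * (1053 / 100000 * (SX + τ * om) * (Q / P) + 2 * om) ≤ Q := by
  have hP0 : 0 < P := by linarith
  have hQ0 : 0 ≤ Q := le_trans (by positivity) hQ
  have hQP : 0 ≤ Q / P := by positivity
  have hP2 : 1 ≤ P ^ 2 := one_le_pow₀ hP
  have e0 : Q / P ≤ Q := div_le_self hQ0 hP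
  -- first sum
  have hτN1 : τ * Nt * 2 ^ 14 ≤ 1 := by
    have h1 : τ * Nt * 2 ^ 14 ≤ τ * (Nt + om) * (P ^ 2 * 2 ^ 14) := by
      have h2 : τ * Nt ≤ τ * (Nt + om) := by
        apply mul_le_mul_of_nonneg_left _ hτ; linarith
      calc τ * Nt * 2 ^ 14 ≤ τ * (Nt + om) * 2 ^ 14 := by
            apply mul_le_mul_of_nonneg_right h2; norm_num
        _ ≤ τ * (Nt + om) * (P ^ 2 * 2 ^ 14) := by
            apply mul_le_mul_of_nonneg_left _ (by positivity)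
            nlinarith
    linarith
  have hQ1 : 2 ^ 30 * Nt ≤ Q := by
    refine le_trans ?_ hQ
    have h1 : (1 : ℝ) ≤ P ^ 4 := one_le_pow₀ hP
    have h2 : Nt ≤ (1 + Nt) * (1 + om) := by nlinarith [mul_nonneg hNt hom]
    calc 2 ^ 30 * Nt ≤ 2 ^ 30 * ((1 + Nt) * (1 + om)) := by
          apply mul_le_mul_of_nonneg_left h2; norm_num
      _ ≤ P ^ 4 * 2 ^ 30 * ((1 + Nt) * (1 + om)) := by
          apply mul_le_mul_of_nonneg_right _ (by positivity)
          nlinarith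
  have hQ2 : 2 ^ 30 * (P ^ 3 * om) ≤ Q := by
    refine le_trans ?_ hQ
    have h1 : P ^ 3 ≤ P ^ 4 := pow_le_pow_right₀ hP (by norm_num)
    have h2 : om ≤ (1 + Nt) * (1 + om) := by nlinarith [mul_nonneg hNt hom]
    calc 2 ^ 30 * (P ^ 3 * om) ≤ 2 ^ 30 * (P ^ 4 * ((1 + Nt) * (1 + om))) := by
          apply mul_le_mul_of_nonneg_left _ (by norm_num)
          exact mul_le_mul h1 h2 hom (by positivity)
      _ = P ^ 4 * 2 ^ 30 * ((1 + Nt) * (1 + om)) := by ring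
  have s1 : 202 * (1053 / 100000 * (SXN + τ * SN) * (Q / P) + 2 * SN) ≤
      72 / 100 * Q := by
    have h1 : (SXN + τ * SN) * (Q / P) ≤ 67 / 200 * Q + τ * Nt * Q := by
      calc (SXN + τ * SN) * (Q / P) ≤ (67 / 200 * P + τ * Nt) * (Q / P) := by
            apply mul_le_mul_of_nonneg_right _ hQP
            have : τ * SN ≤ τ * Nt := mul_le_mul_of_nonneg_left hSN hτ
            linarith
        _ = 67 / 200 * Q + τ * Nt * (Q / P) := by
            field_simp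
        _ ≤ 67 / 200 * Q + τ * Nt * Q := by
            have : τ * Nt * (Q / P) ≤ τ * Nt * Q :=
              mul_le_mul_of_nonneg_left e0 (by positivity)
            linarith
    have h2 : τ * Nt * Q * 2 ^ 14 ≤ Q := by nlinarith
    nlinarith
  have s2 : 400 * P ^ 3 * (1053 / 100000 * (SX + τ * om) * (Q / P) + 2 * om) ≤ 1 / 10 * Q := by
    have h1 : 400 * P ^ 3 * (1053 / 100000 * (SX + τ * om) * (Q / P) + 2 * om) =
        4212 / 1000 * ((SX + τ * om) * P ^ 2) * Q + 800 * (P ^ 3 * om) := by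
      field_simp
      ring
    have h2 : (SX + τ * om) * P ^ 2 * 2 ^ 14 ≤ 5 := by
      have h3 : SX * (P ^ 2 * 2 ^ 14) ≤ 4 * (y * (P ^ 2 * 2 ^ 14)) := by
        calc SX * (P ^ 2 * 2 ^ 14) ≤ 4 * y * (P ^ 2 * 2 ^ 14) := by
              apply mul_le_mul_of_nonneg_right hSX (by positivity)
          _ = _ := by ring
      have h4 : τ * om * (P ^ 2 * 2 ^ 14) ≤ τ * (Nt + om) * (P ^ 2 * 2 ^ 14) := by
        apply mul_le_mul_of_nonneg_right _ (by positivity)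
        apply mul_le_mul_of_nonneg_left _ hτ
        linarith
      nlinarith
    have h5 : (SX + τ * om) * P ^ 2 * Q * 2 ^ 14 ≤ 5 * Q := by nlinarith
    rw [h1]
    nlinarith
  linarith

end IPNms

open IPNms in
theorem pr_Nms : StNms := by
  intro M W _ t hM
  obtain ⟨Nt, hNt⟩ : ∃ Nt : ℕ, Nt = ∑ w, (t w).card := ⟨_, rfl⟩
  obtain ⟨om, hom⟩ : ∃ om : ℕ, om = Fintype.card W := ⟨_, rfl⟩
  obtain ⟨P, hPd⟩ : ∃ P : ℝ, P = 2 ^ M := ⟨_, rfl⟩
  have hP : 1 ≤ P := by rw [hPd]; exact one_le_pow₀ (by norm_num)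
  have hP0 : 0 < P := by linarith
  obtain ⟨k, hk⟩ : ∃ k : ℕ, k = 2 ^ (4 * M + 30) * ((1 + Nt) * (1 + om)) := ⟨_, rfl⟩
  obtain ⟨τ, hτd⟩ : ∃ τ : ℝ, τ = 1 / ((1 + (Nt : ℝ) + om) * (P ^ 2 * 2 ^ 14)) := ⟨_, rfl⟩
  have hden : 1 ≤ (1 + (Nt : ℝ) + om) * (P ^ 2 * 2 ^ 14) := by
    have h1 : (1 : ℝ) ≤ 1 + Nt + om := by
      have : (0 : ℝ) ≤ Nt := Nat.cast_nonneg _
      have : (0 : ℝ) ≤ om := Nat.cast_nonneg _
      linarith
    have h2 : (1 : ℝ) ≤ P ^ 2 := one_le_pow₀ hP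
    nlinarith
  have hτ0 : 0 < τ := by rw [hτd]; positivity
  have hτ1 : τ ≤ 1 := by
    rw [hτd, div_le_one (by linarith)]
    exact hden
  have hτe : τ * ((1 + (Nt : ℝ) + om) * (P ^ 2 * 2 ^ 14)) = 1 := by
    rw [hτd]
    field_simp
  have hNt0 : (0 : ℝ) ≤ Nt := Nat.cast_nonneg _
  have hom0 : (0 : ℝ) ≤ om := Nat.cast_nonneg _
  refine ⟨k, τ, hτ0, hτ1, ?_⟩
  intro dw x y hx hy hyM hxy hxN
  have hp2 : (2 : ℝ) ^ (2 * M + 14) = P ^ 2 * 2 ^ 14 := by
    rw [hPd, pow_add, mul_comm 2 M, pow_mul]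
  have hp3 : (2 : ℝ) ^ (2 * M + 2) = P ^ 2 * 4 := by
    rw [hPd, pow_add, mul_comm 2 M, pow_mul]
    norm_num
  have hp4 : (2 : ℝ) ^ (M - 1) = P / 2 := by
    rw [hPd]
    obtain ⟨m, rfl⟩ : ∃ m, M = m + 1 := ⟨M - 1, by omega⟩
    rw [Nat.add_sub_cancel, pow_succ]
    ring
  rw [hp2] at hyM
  obtain ⟨Q, hQd⟩ : ∃ Q : ℝ, Q = 2 ^ (k + 1) := ⟨_, rfl⟩
  have hQ : P ^ 4 * 2 ^ 30 * ((1 + (Nt : ℝ)) * (1 + om)) ≤ Q := by
    have h1 : k < 2 ^ (k + 1) := lt_trans (Nat.lt_succ_self k) (Nat.lt_two_pow_self)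
    have h2 : (k : ℝ) ≤ 2 ^ (k + 1) := by exact_mod_cast h1.le
    rw [hQd]
    refine le_trans (le_of_eq ?_) h2
    rw [hk, hPd]
    push_cast
    rw [pow_add, mul_comm 4 M, pow_mul]
  have hQ0 : 0 ≤ Q := le_trans (by positivity) hQ
  have hτNo : τ * ((Nt : ℝ) + om) * (P ^ 2 * 2 ^ 14) ≤ 1 := by
    rw [← hτe, mul_assoc]
    apply mul_le_mul_of_nonneg_left _ hτ0.le
    apply mul_le_mul_of_nonneg_right _ (by positivity)
    linarith
  have hτP : τ * (P ^ 2 * 2 ^ 14) ≤ 1 := by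
    rw [← hτe]
    apply mul_le_mul_of_nonneg_left _ hτ0.le
    have h1 : (1 : ℝ) ≤ 1 + Nt + om := by linarith
    have h2 : 0 < P ^ 2 * (2 : ℝ) ^ 14 := by positivity
    nlinarith
  have hm : ∀ w, 0 ≤ max (x w) τ := fun w => le_max_of_le_right hτ0.le
  choose b hb1 hb2 using fun w => ceil_facts P Q (max (x w) τ) hP hQ0 (hm w)
  refine ⟨b, ?_, ?_⟩
  · intro c
    have hcard : Fintype.card (Ky W M 100 b) = ∑ w, 2 ^ M * 100 * b w := by
      rw [Fintype.card_sigma]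
      refine Finset.sum_congr rfl fun w _ => ?_
      rw [Fintype.card_prod, Fintype.card_prod, Fintype.card_fin, Fintype.card_fin]
      congr 2
      simp [Vc]
    have hb3 : ∀ w, (b w : ℝ) ≤ 1053 / 100000 * (x w + τ) * (Q / P) + 2 := by
      intro w
      refine (hb2 w).trans ?_
      have h1 : max (x w) τ ≤ x w + τ := max_le (by linarith) (by linarith [hx w])
      have h2 : 0 ≤ Q / P := by positivity
      have h3 : max (x w) τ * (Q / P) ≤ (x w + τ) * (Q / P) := mul_le_mul_of_nonneg_right h1 h2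
      linarith
    have hN : ∑ w, (Nw t dw w c : ℝ) ≤ Nt := by
      rw [hNt]
      push_cast
      refine Finset.sum_le_sum fun w _ => ?_
      exact_mod_cast Finset.card_filter_le _ _
    have hxN2 : ∑ w, x w * Nw t dw w c ≤ 67 / 200 * P := by
      have := hxN c
      rw [hp4] at this
      linarith
    have hfin := fin P Q τ Nt om y (∑ w, (Nw t dw w c : ℝ)) (∑ w, x w)
      (∑ w, x w * Nw t dw w c) hP hNt0 hom0 hτ0.le hQ hτNo hyM hxy hN hxN2
    have s1 : ∑ w, (2 * (b w : ℝ) * 101 * Nw t dw w c) ≤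
        202 * (1053 / 100000 * (∑ w, x w * Nw t dw w c + τ * ∑ w, (Nw t dw w c : ℝ)) * (Q / P)
          + 2 * ∑ w, (Nw t dw w c : ℝ)) := by
      have e1 : 202 * (1053 / 100000 * (∑ w, x w * Nw t dw w c + τ * ∑ w, (Nw t dw w c : ℝ)) *
          (Q / P) + 2 * ∑ w, (Nw t dw w c : ℝ)) =
          ∑ w, 202 * (1053 / 100000 * (x w + τ) * (Q / P) + 2) * (Nw t dw w c : ℝ) := by
        rw [Finset.mul_sum, ← Finset.sum_add_distrib, Finset.mul_sum, Finset.sum_mul,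
          Finset.mul_sum, ← Finset.sum_add_distrib, Finset.mul_sum]
        refine Finset.sum_congr rfl fun w _ => ?_
        ring
      rw [e1]
      refine Finset.sum_le_sum fun w _ => ?_
      have h1 : (0 : ℝ) ≤ Nw t dw w c := Nat.cast_nonneg _
      have h2 := mul_le_mul_of_nonneg_right (hb3 w) h1
      nlinarith
    have s2 : 2 * ((∑ w, P * 100 * (b w : ℝ)) * (P ^ 2 * 2)) ≤
        400 * P ^ 3 * (1053 / 100000 * (∑ w, x w + τ * om) * (Q / P) + 2 * om) := by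
      have e1 : (1053 / 100000 * (∑ w, x w + τ * om) * (Q / P) + 2 * om) =
          ∑ w, (1053 / 100000 * (x w + τ) * (Q / P) + 2) := by
        rw [Finset.sum_add_distrib, ← Finset.sum_mul, ← Finset.mul_sum, Finset.sum_add_distrib,
          Finset.sum_const, Finset.sum_const, Finset.card_univ, ← hom, nsmul_eq_mul, nsmul_eq_mul]
        ring
      rw [e1, ← Finset.mul_sum]
      have h1 : ∑ w, (b w : ℝ) ≤ ∑ w, (1053 / 100000 * (x w + τ) * (Q / P) + 2) :=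
        Finset.sum_le_sum fun w _ => hb3 w
      have h2 : 0 ≤ 400 * P ^ 3 := by positivity
      calc 2 * ((P * 100 * ∑ w, (b w : ℝ)) * (P ^ 2 * 2)) = 400 * P ^ 3 * ∑ w, (b w : ℝ) := by
            ring
        _ ≤ _ := mul_le_mul_of_nonneg_left h1 h2
    have key : (∑ w, (2 * (b w : ℝ) * 101 * Nw t dw w c)) +
        2 * ((∑ w, P * 100 * (b w : ℝ)) * (P ^ 2 * 2)) ≤ Q := (add_le_add s1 s2).trans hfin
    rw [hcard]
    have h9 : ((∑ w, 2 * b w * (100 + 1) * Nw t dw w c +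
        2 * ((∑ w, 2 ^ M * 100 * b w) * 2 ^ (2 * M + 1)) : ℕ) : ℝ) ≤ ((2 ^ (k + 1) : ℕ) : ℝ) := by
      push_cast
      rw [← hQd]
      refine le_trans (le_of_eq ?_) key
      rw [hPd, pow_add, mul_comm 2 M, pow_mul, pow_one]
    exact_mod_cast h9
  · intro w
    rw [hp3, ← hQd]
    push_cast
    rw [← hPd]
    have h1 := hb1 w
    have h2 : (P ^ 2 * 2 ^ 14) * max y τ ≤ 1 := by
      rcases max_cases y τ with ⟨h, -⟩ | ⟨h, -⟩ <;> rw [h] <;> linarith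
    have hB : 0 ≤ (b w : ℝ) * (P * 100) := by positivity
    have h3 : (b w : ℝ) * (P * 100) * (P ^ 2 * 4) * (21 / 20 * max y τ) ≤
        2 / 1000 * ((b w : ℝ) * (P * 100)) := by
      have h4 : (P ^ 2 * 4) * (21 / 20 * max y τ) ≤ 2 / 1000 := by nlinarith
      calc (b w : ℝ) * (P * 100) * (P ^ 2 * 4) * (21 / 20 * max y τ) =
            (b w : ℝ) * (P * 100) * ((P ^ 2 * 4) * (21 / 20 * max y τ)) := by ring
        _ ≤ (b w : ℝ) * (P * 100) * (2 / 1000) := mul_le_mul_of_nonneg_left h4 hB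
        _ = _ := by ring
    linarith

end Pool.Agent.Work.MP_bf01b2_co.Sh
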