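import Pool.Agent.Work.MP_bf01b2_co.Sh.StmtsP

/-!
# Item Tile: all tiles
-/

set_option autoImplicit false

namespace Pool.Agent.Work.MP_bf01b2_co.Sh

open Classical

open Pool.Agent.Work.MP_bf01b2_co.Bd (PrefClosed)

namespace IPTile

lemma syn_add {R k : ℕ} (sy : Fin R → Vc k) (x y : Vc R) :
    syn sy (x + y) = syn sy x + syn sy y := by
  funext c
  simp only [syn, Pi.add_apply, add_mul, Finset.sum_add_distrib]

lemma syn_single {R k : ℕ} (sy : Fin R → Vc (k + 1)) (a : Fin R) (ha : sy a = Pi.single 0 1)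
    (α : ZMod 2) : syn sy (Pi.single a α) = Pi.single 0 α := by
  funext c
  simp only [syn]
  rw [Finset.sum_eq_single a]
  · rw [Pi.single_eq_same, ha]
    by_cases hc : c = 0
    · subst hc
      simp
    · rw [Pi.single_eq_of_ne hc, Pi.single_eq_of_ne hc, mul_zero]
  · intro i _ hi
    rw [Pi.single_eq_of_ne hi, zero_mul]
  · intro h
    exact absurd (Finset.mem_univ a) h

lemma vadd_self {n : ℕ} (x : Vc n) : x + x = 0 := by
  funext i
  exact CharTwo.add_self_eq_zero (x i)

lemma par_add {n : ℕ} (x y : Vc n) : par (x + y) = par x + par y := by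
  simp only [par, Pi.add_apply, Finset.sum_add_distrib]

lemma ev_len (u : List Bool) : (ev u).length = 2 * (u.length / 2) := by
  simp only [ev, List.length_take]
  omega

lemma ev_mem (h5 : StYc) {M m1 : ℕ} {g : Vc M} {u : List Bool} (hu : ¬ Tl m1 g u) :
    ev u ∈ Ya M := by
  have h1 : u.length ≤ 2 * M + 1 := by
    by_contra h
    push Not at h
    exact hu ⟨by omega, fun h' => by omega⟩
  rw [Ya, Finset.mem_filter, h5.1, ev_len]
  constructor <;> omega

end IPTile

open IPTile in
theorem pr_Tile (h1 : StAdj) (h2 : StPty) (h3 : StLoc) (h4 : StLaw) (h5 : StYc)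
    (h6 : StClr) (h7 : StCp) (h8 : StCt) : StTile := by
  intro W _ R k M m1 J b t dw sy hM hJ ht hF hsy
  obtain ⟨a, ha⟩ := hsy (Pi.single 0 1)
  obtain ⟨S, C, hS, hCS, hC⟩ := h6 W k M m1 J b t dw hM (by omega) hF
  choose cp hcp0 hcps hcpS using fun x : Ky W M J b => h7 R (k + 1) sy (S x) hsy
  choose ct hct1 hct2 hct3 hctS using fun (x : Ky W M J b) (π : ZMod 2) =>
    h8 R k M m1 sy a x.2.1.1 (dw x.1 + π) (S x) (C x π) (cp x) hsy ha (hcpS x)
  have hTD : ∀ (x : Ky W M J b) (π : ZMod 2),
      TD m1 a x.2.1.1 (dw x.1 + π) (t x.1) (cp x) (ct x π) := fun x π =>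
    ⟨hcp0 x, fun y e e' hy _ => hcps x y e e' hy, fun y e hy _ hb => hct1 x π y e hy hb,
      fun y e e' hy _ hb => hct2 x π y e e' hy hb, fun y e hy _ => hct3 x π y e hy⟩
  have hnil : ([] : List Bool) ∈ Ya M := by
    rw [Ya, Finset.mem_filter, h5.1]
    simp
  -- syndromes of the points
  have hsyT : ∀ (x : Ky W M J b) (π : ZMod 2) (l : Vc M) (p : Vc R) (u : List Bool),
      syn sy p = S x [] → ¬ Tl m1 x.2.1.1 u →
      syn sy (p + (pos m1 J a x.2.1.1 x.2.1.2.1 (cp x) (ct x π) l u).1) =
        S x (ev u) + Pi.single 0 (alp x.2.1.1 l u) := by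
    intro x π l p u hp hu
    rw [pos, if_neg hu, syn_add, syn_add, syn_single sy a ha, hp, hcpS x (ev u) (by rw [ev_len]; omega)]
    rw [← add_assoc, ← add_assoc, vadd_self, zero_add]
  have hsyC : ∀ (x : Ky W M J b) (π : ZMod 2) (l : Vc M) (p : Vc R) (u : List Bool),
      syn sy p = S x [] → Tl m1 x.2.1.1 u →
      syn sy (p + (pos m1 J a x.2.1.1 x.2.1.2.1 (cp x) (ct x π) l u).1) = C x π u := by
    intro x π l p u hp hu
    rw [pos, if_pos hu, syn_add, hp, hctS x π u hu, ← add_assoc, vadd_self, zero_add]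
  refine ⟨fun x => S x [], fun x => ((Ya M) ×ˢ (Finset.univ : Finset (ZMod 2))).image
    (fun q => cp x q.1 + Pi.single a q.2),
    fun x π l u => pos m1 J a x.2.1.1 x.2.1.2.1 (cp x) (ct x π) l u, ?_, ?_, ?_, ?_⟩
  · intro x x' hx
    exact (hS x x' [] [] 0 0 hnil hnil (by
      have hx' : S x [] = S x' [] := hx
      rw [hx'])).1
  · intro x
    refine le_trans Finset.card_image_le ?_
    rw [Finset.card_product]
    have e1 : (Ya M).card ≤ 2 ^ (2 * M + 1) :=
      le_trans (Finset.card_le_card (Finset.filter_subset _ _)) (h5.2 (2 * M))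
    have e2 : (Finset.univ : Finset (ZMod 2)).card = 2 := by
      rw [Finset.card_univ, ZMod.card]
    rw [e2]
    calc (Ya M).card * 2 ≤ 2 ^ (2 * M + 1) * 2 := Nat.mul_le_mul_right 2 e1
      _ = 2 ^ (2 * M + 2) := by ring
  · intro x π l hl
    refine ⟨(h2 R M m1 J a _ x.2.1.2.1 _ (t x.1) _ _ l hM (by omega) (ht x.1) (hTD x π) hl).1,
      fun u e hu => h1 R M m1 J a _ x.2.1.2.1 _ (t x.1) _ _ l hM (by omega) (hTD x π) hl u e hu, ?_⟩
    intro u hu
    by_cases hT : Tl m1 x.2.1.1 u
    · left
      intro hb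
      simp only [pos, if_pos hT] at hb
      exact (h4 M m1 J u _ hM (by omega)).1 hb x.2.1.1 x.2.1.2.1 rfl
    · right
      simp only [pos, if_neg hT]
      exact Finset.mem_image.2 ⟨(ev u, alp x.2.1.1 l u),
        Finset.mem_product.2 ⟨ev_mem h5 hT, Finset.mem_univ _⟩, rfl⟩
  · intro x x' π π' l l' p p' u hu u' hu' hl hl' hp hp' hπ hπ' hpt hlab
    have hsyn := congrArg (syn sy) hpt
    by_cases hT : Tl m1 x.2.1.1 u
    · by_cases hT' : Tl m1 x'.2.1.1 u'
      · have e1 : C x π u = C x' π' u' := by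
          rw [← hsyC x π l p u hp hT, ← hsyC x' π' l' p' u' hp' hT']
          exact hsyn
        have q1 := (h2 R M m1 J a _ x.2.1.2.1 _ (t x.1) _ _ l hM (by omega) (ht x.1)
          (hTD x π) hl).2 u hu
        have q2 := (h2 R M m1 J a _ x'.2.1.2.1 _ (t x'.1) _ _ l' hM (by omega) (ht x'.1)
          (hTD x' π') hl').2 u' hu'
        have q3 := congrArg par hpt
        rw [par_add, par_add, hπ, hπ'] at q3
        have q4 := congrArg par hlab
        have e2 : mu m1 J x.2.1.1 x.2.1.2.1 u = mu m1 J x'.2.1.1 x'.2.1.2.1 u' := by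
          have := hlab
          simp only [pos, if_pos hT, if_pos hT'] at this
          exact this
        have e3 : dw x.1 + (u.length : ZMod 2) = dw x'.1 + (u'.length : ZMod 2) := by
          rw [hl] at q1
          rw [hl'] at q2
          have r1 : dw x.1 + (u.length : ZMod 2) =
              π + (par (pos m1 J a x.2.1.1 x.2.1.2.1 (cp x) (ct x π) l u).1 +
                par (pos m1 J a x.2.1.1 x.2.1.2.1 (cp x) (ct x π) l u).2) := by
            rw [q1]
            have : π + π = 0 := CharTwo.add_self_eq_zero π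
            linear_combination (-1 : ZMod 2) * this
          have r2 : dw x'.1 + (u'.length : ZMod 2) =
              π' + (par (pos m1 J a x'.2.1.1 x'.2.1.2.1 (cp x') (ct x' π') l' u').1 +
                par (pos m1 J a x'.2.1.1 x'.2.1.2.1 (cp x') (ct x' π') l' u').2) := by
            rw [q2]
            have : π' + π' = 0 := CharTwo.add_self_eq_zero π'
            linear_combination (-1 : ZMod 2) * this
          rw [r1, r2, ← add_assoc, ← add_assoc]
          exact congrArg₂ (· + ·) q3 q4
        obtain ⟨f1, f2, f3⟩ := hC x π x' π' u hu u' hu' e1 e2 e3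
        subst f1
        subst f2
        subst f3
        refine ⟨rfl, ?_, fun _ => rfl⟩
        simp only [pos, if_pos hT] at hpt
        exact add_right_cancel hpt
      · exfalso
        refine hCS x π x' (ev u') (alp x'.2.1.1 l' u') u hu (ev_mem h5 hT') ?_
        rw [← hsyC x π l p u hp hT, ← hsyT x' π' l' p' u' hp' hT']
        exact hsyn
    · by_cases hT' : Tl m1 x'.2.1.1 u'
      · exfalso
        refine hCS x' π' x (ev u) (alp x.2.1.1 l u) u' hu' (ev_mem h5 hT) ?_
        rw [← hsyT x π l p u hp hT, ← hsyC x' π' l' p' u' hp' hT']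
        exact hsyn.symm
      · have e1 : S x (ev u) + Pi.single 0 (alp x.2.1.1 l u) =
            S x' (ev u') + Pi.single 0 (alp x'.2.1.1 l' u') := by
          rw [← hsyT x π l p u hp hT, ← hsyT x' π' l' p' u' hp' hT']
          exact hsyn
        obtain ⟨f1, f2, f3⟩ := hS x x' _ _ _ _ (ev_mem h5 hT) (ev_mem h5 hT') e1
        subst f1
        have e2 : p = p' := by
          have := hpt
          simp only [pos, if_neg hT, if_neg hT'] at this
          rw [f2, f3] at this
          exact add_right_cancel this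
        refine ⟨rfl, e2, fun hll => ?_⟩
        subst hll
        refine h3 M m1 J x.2.1.1 x.2.1.2.1 l u u' hM hJ hT hT' f2 f3 ?_
        have := hlab
        simp only [pos, if_neg hT, if_neg hT'] at this
        exact this

end Pool.Agent.Work.MP_bf01b2_co.Sh
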