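import Pool.Agent.Work.MP_bf01b2_co.Sh.StmtsQ

/-!
# MP_bf01b2_co, theorem SHALLOW, item Glu: gluing of the core, the bridge and the tiles
-/

set_option autoImplicit false

namespace Pool.Agent.Work.MP_bf01b2_co.Sh

open Pool.Agent.Work.MP_bf01b2_co.Bd

open Classical

namespace IQGlu

theorem par_add {n : ℕ} (x y : Vc n) : par (x + y) = par x + par y := by
  unfold par
  rw [← Finset.sum_add_distrib]
  rfl

theorem par_single {n : ℕ} (i : Fin n) : par (Pi.single i 1 : Vc n) = 1 := by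
  unfold par
  rw [Finset.sum_pi_single']
  simp

theorem card_fib {W : Type} [Fintype W] {β : W → Type} [∀ w, Fintype (β w)] (w : W) :
    (Finset.univ.filter fun x : Σ w, β w => x.1 = w).card = Fintype.card (β w) := by
  have h : (Finset.univ.filter fun x : Σ w, β w => x.1 = w) =
      (Finset.univ : Finset (β w)).map ⟨Sigma.mk w, sigma_mk_injective⟩ := by
    ext ⟨a, c⟩
    simp only [Finset.mem_filter, Finset.mem_univ, true_and, Finset.mem_map,
      Function.Embedding.coeFn_mk]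
    constructor
    · intro h
      subst h
      exact ⟨c, rfl⟩
    · rintro ⟨c', hc'⟩
      exact (congrArg Sigma.fst hc').symm
  rw [h, Finset.card_map, Finset.card_univ]

theorem card_key {W : Type} [Fintype W] (M J : ℕ) (b : W → ℕ) (w : W) :
    (Finset.univ.filter fun x : Ky W M J b => x.1 = w).card = b w * (2 ^ M * J) := by
  rw [card_fib (β := fun w => (Vc M × Fin J) × Fin (b w)) w]
  rw [Fintype.card_prod, Fintype.card_prod, Fintype.card_fun, Fintype.card_fin, Fintype.card_fin,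
    Fintype.card_fin, ZMod.card]
  ring

end IQGlu

open IQGlu in
theorem pr_Glu (h1 : StTile) (h2 : StBrg) (h3 : StMap) (h4 : StShp) (h5 : StCrp) (h6 : StPtC)
    (h7 : StPd) : StGlu := by
  intro S R M m1 k N1 T Φ lm b sy lam ρ hT hM hN hcls hzero hstep hinj hlam hρ hct hctH hfits hnum
  have two : (2 : ZMod 2) = 0 := rfl
  have hsy : ∀ s : Vc (k + 1), ∃ i, sy i = s := by
    intro s
    by_cases hs : s = 0
    · rw [hs]; exact hzero
    · have h := hcls s hs
      have h' : (Finset.univ.filter fun i => sy i = s).Nonempty := by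
        rw [← Finset.card_pos, h]; exact hN
      obtain ⟨i, hi⟩ := h'
      exact ⟨i, (Finset.mem_filter.1 hi).2⟩
  obtain ⟨Sg, Cx, F, hSg, hCx, hF1, hF2⟩ := h1 (Wt S) R k M m1 100 b
    (fun w : Wt S => w.2.1.1) (fun w => w.2.2 + (par (Φ []) + par (lm []))) sy hM (by norm_num)
    (fun w => (h4.2.1 S w.2.1.1 w.2.1.2).2.1) hfits hsy
  obtain ⟨p, ξ, hp⟩ := h2 (Wt S) (Ky (Wt S) M 100 b) R (k + 1) N1 (2 ^ (2 * M + 2)) sy Φ (cor S T)
    (Kw S T) (fun x => x.1) Sg Cx lam ρ hN hcls hSg hlam hρ hct hctH hCx (by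
      intro w
      rw [card_key]
      have h := hnum w
      push_cast at h ⊢
      exact h)
  obtain ⟨fd, q1, q2, q3, q4, q5, q6⟩ := h7 m1 M hM
  have hcor := h5 S T hT
  have hpar : ∀ w, ∀ v ∈ Kw S T w, par (pd M (lm v) + Pi.single (fd w.1.1) 1) =
      ((ξ w v).1.2.2 + (par (Φ []) + par (lm []))) + par (p w v) := by
    intro w v hv
    obtain ⟨e1, -, ⟨i, e3⟩, -, -⟩ := hp w v hv
    have e1' : (ξ w v).1 = w := e1
    have hv' := Finset.mem_filter.1 hv
    have hlen : (v.length : ZMod 2) = w.2.2 := hv'.2.2.2.2.2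
    have e4 := h6 R m1 (cor S T) Φ lm hcor.1 hstep v hv'.1
    rw [e1', e3, par_add, par_add, par_single, par_single, q1]
    rw [hlen] at e4
    linear_combination e4 - par (Φ v) * two
  refine h3 S R M T Φ (fun v => pd M (lm v)) fd (Bad m1)
    (fun w v u => (p w v + (F (ξ w v) (par (p w v)) (pd M (lm v) + Pi.single (fd w.1.1) 1) u).1,
      (F (ξ w v) (par (p w v)) (pd M (lm v) + Pi.single (fd w.1.1) 1) u).2))
    hT ?_ ?_ ?_ ?_ ?_ ?_ ?_ ?_ ?_
  · intro y e hy
    rcases hstep y e hy with ⟨i, hi⟩ | ⟨i, hi⟩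
    · left
      have h' := congrArg Prod.fst hi
      have h := congrArg Prod.snd hi
      refine ⟨i, h', ?_⟩
      change pd M (lm (y ++ [e])) = pd M (lm y)
      exact congrArg (pd M) h
    · right
      obtain ⟨j, hj⟩ := q2 (lm y) i
      have h' := congrArg Prod.fst hi
      have h := congrArg Prod.snd hi
      refine ⟨j, h', ?_⟩
      change pd M (lm (y ++ [e])) = pd M (lm y) + Pi.single j 1
      rw [← hj]
      exact congrArg (pd M) h
  · intro u hu v hv e1 e2
    exact hinj u hu v hv e1 (q5 _ _ e2)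
  · intro v _
    exact q3 (lm v)
  · intro v _ v' _ a a' e
    obtain ⟨e1, e2⟩ := q4 _ _ _ _ e
    exact ⟨e1, congrArg (pd M) e2⟩
  · intro v _ v' _ a
    exact q6 _ _ a
  · intro w v hv
    obtain ⟨e1, e2, ⟨i, e3⟩, e4, e5⟩ := hp w v hv
    have hF := (hF1 (ξ w v) (par (p w v)) (pd M (lm v) + Pi.single (fd w.1.1) 1) (hpar w v hv)).1
    refine ⟨congrArg Prod.snd hF, i, ?_⟩
    change p w v + (F (ξ w v) (par (p w v)) (pd M (lm v) + Pi.single (fd w.1.1) 1) []).1 = _
    rw [hF, add_zero]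
    exact e3
  · intro w v hv u e hu
    obtain ⟨e1, e2, ⟨i, e3⟩, e4, e5⟩ := hp w v hv
    have e1' : (ξ w v).1 = w := e1
    have hF := (hF1 (ξ w v) (par (p w v)) (pd M (lm v) + Pi.single (fd w.1.1) 1)
      (hpar w v hv)).2.1 u e (by rw [e1']; exact hu)
    rcases hF with ⟨j, hj⟩ | ⟨j, hj⟩
    · left
      have h := congrArg Prod.fst hj
      have h' := congrArg Prod.snd hj
      refine ⟨j, ?_, h'⟩
      change p w v + (F _ _ _ (u ++ [e])).1 = p w v + (F _ _ _ u).1 + Pi.single j 1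
      rw [add_assoc]
      exact congrArg (fun z => p w v + z) h
    · right
      have h := congrArg Prod.fst hj
      have h' := congrArg Prod.snd hj
      refine ⟨j, ?_, h'⟩
      exact congrArg (fun z => p w v + z) h
  · intro w v hv u hu
    obtain ⟨e1, e2, ⟨i, e3⟩, e4, e5⟩ := hp w v hv
    have e1' : (ξ w v).1 = w := e1
    have hF := (hF1 (ξ w v) (par (p w v)) (pd M (lm v) + Pi.single (fd w.1.1) 1)
      (hpar w v hv)).2.2 u (by rw [e1']; exact hu)
    rcases hF with h | h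
    · left
      exact h
    · right
      intro v' hv' hne
      exact e4 _ h v' hv' hne.symm
  · intro w w' v hv v' hv' u hu u' hu' hG
    obtain ⟨e1, e2, ⟨i, e3⟩, e4, e5⟩ := hp w v hv
    obtain ⟨e1', e2', ⟨i', e3'⟩, e4', e5'⟩ := hp w' v' hv'
    have f1 : (ξ w v).1 = w := e1
    have f1' : (ξ w' v').1 = w' := e1'
    have k1 := congrArg Prod.fst hG
    have k2 := congrArg Prod.snd hG
    obtain ⟨g1, g2, g3⟩ := hF2 (ξ w v) (ξ w' v') (par (p w v)) (par (p w' v'))
      (pd M (lm v) + Pi.single (fd w.1.1) 1) (pd M (lm v') + Pi.single (fd w'.1.1) 1)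
      (p w v) (p w' v') u (by rw [f1]; exact hu) u' (by rw [f1']; exact hu')
      (hpar w v hv) (hpar w' v' hv') e2 e2' rfl rfl k1 k2
    obtain ⟨g4, g5⟩ := e5 w' v' hv' g2
    subst g4
    subst g5
    exact ⟨rfl, rfl, g3 rfl⟩

end Pool.Agent.Work.MP_bf01b2_co.Sh
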