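import Pool.Agent.Work.MP_bf01b2_co.Sh.StmtsQ

/-!
# MP_bf01b2_co, theorem SHALLOW, item PreQ: the theorem for prefix closed sets
-/

set_option autoImplicit false

namespace Pool.Agent.Work.MP_bf01b2_co.Sh

open Pool.Agent.Work.MP_bf01b2_co.Bd

open Classical

namespace IQPreQ

/-- the class condition in `ZMod 2` -/
theorem cls (a b c d : ZMod 2) : (a = b + d + c) ↔ (0 ≤ (0 : ℕ) ∧ b + a = d + c) := by
  have h : ∀ a b c d : ZMod 2, (a = b + d + c) ↔ (b + a = d + c) := by decide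
  simp [h a b c d]

end IQPreQ

theorem pr_Pre (h1 : StGlu) (h2 : StCoZ) (h3 : StNms) (h4 : StItm) (h5 : StCnw) (h6 : StPrt)
    (h7 : StCrp) (h8 : StCb2) : StPre := by
  obtain ⟨m1, hm1⟩ := h2
  obtain ⟨M, hM⟩ : ∃ M : ℕ, m1 + 2 + 100 = M := ⟨_, rfl⟩
  refine ⟨1 / 2 ^ (3 * M + 14), by positivity, ?_⟩
  intro S
  obtain ⟨k, τ, hτ0, hτ1, hnum⟩ := h3 M (Wt S) (fun w => w.2.1.1) (by omega)
  obtain ⟨R0, hR0⟩ := hm1 (k + 1) (Wt S) τ (by omega) hτ0 hτ1
  refine ⟨M + R0 + 2 * M + 15, ?_⟩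
  intro n hn T hT hTc hhv
  obtain ⟨R, hR⟩ : ∃ R : ℕ, R = n + 1 - M := ⟨_, rfl⟩
  have hRM : n + 1 = R + M := by omega
  have hRM' : n = R + (M - 1) := by omega
  have hRR : R0 ≤ R := by omega
  have hR15 : 2 * M + 15 ≤ R := by omega
  obtain ⟨hc1, hc2, hc3, hc4, -⟩ := h7 S T hT
  set H := cor S T with hH
  have hpR : (0 : ℝ) < 2 ^ R := by positivity
  have hpn : (2 : ℝ) ^ n = 2 ^ R * 2 ^ (M - 1) := by
    rw [← pow_add]; congr 1
  set y : ℝ := (H.card : ℝ) / 2 ^ R with hy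
  have hy0 : 0 ≤ y := div_nonneg (Nat.cast_nonneg _) hpR.le
  have hHc : (H.card : ℝ) ≤ 2 ^ R / 2 ^ (2 * M + 15) + 1 := by
    have e1 : (H.card : ℝ) ≤ ((hv S T).card : ℝ) + 1 := by exact_mod_cast hc4
    have e2 : (1 : ℝ) / 2 ^ (3 * M + 14) * 2 ^ n = 2 ^ R / 2 ^ (2 * M + 15) := by
      have e3 : 3 * M + 14 = (2 * M + 15) + (M - 1) := by omega
      rw [hpn, e3, pow_add]
      field_simp
    linarith
  have hyM : y * 2 ^ (2 * M + 14) ≤ 1 := by
    rw [hy, div_mul_eq_mul_div, div_le_one hpR]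
    have e1 : (2 : ℝ) ^ (2 * M + 15) ≤ 2 ^ R := pow_le_pow_right₀ (by norm_num) hR15
    have e2 : (2 : ℝ) ^ (2 * M + 15) = 2 * 2 ^ (2 * M + 14) := by
      rw [pow_succ]; ring
    have e3 : (0 : ℝ) < 2 ^ (2 * M + 14) := by positivity
    calc (H.card : ℝ) * 2 ^ (2 * M + 14) ≤ (2 ^ R / 2 ^ (2 * M + 15) + 1) * 2 ^ (2 * M + 14) :=
          mul_le_mul_of_nonneg_right hHc e3.le
      _ = 2 ^ R / 2 + 2 ^ (2 * M + 14) := by
          rw [e2]; field_simp
      _ ≤ 2 ^ R := by linarith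
  have hHR : (H.card : ℝ) ≤ 2 ^ R := by
    have e3 : (1 : ℝ) ≤ 2 ^ (2 * M + 14) := one_le_pow₀ (by norm_num)
    have e4 : y ≤ 1 := by nlinarith
    rwa [hy, div_le_one hpR] at e4
  have hKH : ∀ w, Kw S T w ⊆ H := fun w => Finset.filter_subset _ _
  obtain ⟨Φ, lm, sy, N1, hN1, hsy, hsy0, hstep, hinj, hct, hctH⟩ :=
    hR0 R hRR H (Kw S T) hc1 hHR hKH
  set c0 : ZMod 2 := par (Φ []) + par (lm []) with hc0
  have hx0 : ∀ w : Wt S, 0 ≤ ((Kw S T w).card : ℝ) / 2 ^ R := fun w =>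
    div_nonneg (Nat.cast_nonneg _) hpR.le
  obtain ⟨b, hb1, hb2⟩ := hnum (fun w => w.2.2 + c0) (fun w => ((Kw S T w).card : ℝ) / 2 ^ R) y
    hx0 hy0 hyM (by
      have e1 := h4 S T
      have e2 : ((∑ w : Wt S, (Kw S T w).card : ℕ) : ℝ) ≤ ((4 * (cor S T).card : ℕ) : ℝ) := by
        exact_mod_cast e1
      push_cast at e2
      rw [← Finset.sum_div, hy, ← mul_div_assoc]
      exact div_le_div_of_nonneg_right e2 hpR.le) (by
      intro c
      have e1 := h5 S T hT 0 (c0 + c)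
      have e2 := h6 T hT (c0 + c)
      have e3 : ∀ w : Wt S, Nw (fun w : Wt S => w.2.1.1) (fun w => w.2.2 + c0) w c =
          (w.2.1.1.filter fun u => 0 ≤ u.length ∧ w.2.2 + (u.length : ZMod 2) = c0 + c).card := by
        intro w
        unfold Nw
        congr 1
        apply Finset.filter_congr
        intro u _
        have := IQPreQ.cls (u.length : ZMod 2) w.2.2 c c0
        constructor
        · intro h
          exact ⟨Nat.zero_le _, (this.1 h).2⟩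
        · rintro ⟨-, h⟩
          exact this.2 ⟨le_rfl, h⟩
      have e4 : (∑ w : Wt S, (Kw S T w).card *
          Nw (fun w : Wt S => w.2.1.1) (fun w => w.2.2 + c0) w c : ℕ) ≤
          (T.filter fun x => (x.length : ZMod 2) = c0 + c).card := by
        refine le_trans (le_of_eq ?_) e1
        apply Finset.sum_congr rfl
        intro w _
        rw [e3 w]
      have e5 : 3 * (∑ w : Wt S, (Kw S T w).card *
          Nw (fun w : Wt S => w.2.1.1) (fun w => w.2.2 + c0) w c : ℕ) ≤ 2 * 2 ^ n + 1 := by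
        omega
      have e6 : 3 * ∑ w : Wt S, ((Kw S T w).card : ℝ) *
          (Nw (fun w : Wt S => w.2.1.1) (fun w => w.2.2 + c0) w c : ℝ) ≤ 2 * 2 ^ n + 1 := by
        exact_mod_cast e5
      have e7 : ∑ w : Wt S, ((Kw S T w).card : ℝ) / 2 ^ R *
          (Nw (fun w : Wt S => w.2.1.1) (fun w => w.2.2 + c0) w c : ℝ) =
          (∑ w : Wt S, ((Kw S T w).card : ℝ) *
          (Nw (fun w : Wt S => w.2.1.1) (fun w => w.2.2 + c0) w c : ℝ)) / 2 ^ R := by
        rw [Finset.sum_div]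
        apply Finset.sum_congr rfl
        intro w _
        ring
      rw [e7, div_le_iff₀ hpR]
      rw [hpn] at e6
      have e8 : (1 : ℝ) ≤ 2 ^ R := one_le_pow₀ (by norm_num)
      have e9 : (100 : ℝ) ≤ 2 ^ (M - 1) := by
        calc (100 : ℝ) ≤ 2 ^ 7 := by norm_num
          _ ≤ 2 ^ (M - 1) := pow_le_pow_right₀ (by norm_num) (by omega)
      nlinarith)
  obtain ⟨c, hcinj, hcst⟩ := h1 S R M m1 k N1 T Φ lm b sy
    (fun w => 21 / 20 * max (((Kw S T w).card : ℝ) / 2 ^ R) τ) (21 / 20 * max y τ) hT hM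
    hN1 hsy hsy0 hstep hinj
    (fun w => mul_pos (by norm_num) (lt_max_of_lt_right hτ0))
    (mul_nonneg (by norm_num) (lt_max_of_lt_right hτ0).le) hct hctH hb1 hb2
  obtain ⟨q, hq1, hq2⟩ := h8 R M (n + 1) hRM
  refine ⟨fun v => q (c v), ?_, ?_⟩
  · intro u hu v hv huv
    exact hcinj u hu v hv (hq1 huv)
  · intro v e hve
    exact hq2 _ _ (hcst v e hve)

end Pool.Agent.Work.MP_bf01b2_co.Sh
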