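import Pool.Agent.Work.MP_bf01b2_co.Sh.StmtsT

/-!
# MP_bf01b2_co, theorem SHALLOW, item AC: the local lemma with dependence counted by coins
-/

set_option autoImplicit false

namespace Pool.Agent.Work.MP_bf01b2_co.Sh

open Pool.Agent.Work.MP_bf01b2_co.Bd

open Pool.Agent.Work.MP_bf01b2_co.Fw

open Classical

namespace ITAC

theorem one_sub_exp {y : ℝ} (h0 : 0 ≤ y) (h1 : y ≤ 1 / 2) : Real.exp (-(2 * y)) ≤ 1 - y := by
  rw [Real.exp_neg, inv_le_comm₀ (Real.exp_pos _) (by linarith)]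
  have h2 : 2 * y + 1 ≤ Real.exp (2 * y) := Real.add_one_le_exp _
  refine le_trans ?_ h2
  rw [inv_eq_one_div, div_le_iff₀ (by linarith)]
  nlinarith

theorem fin (h : StAL) (I J : Type) [Fintype I] [DecidableEq I] [Fintype J]
    (A : J → Finset (I → Bool)) (S : J → Finset I) (x : J → ℝ) (μ : ℝ)
    (hS : ∀ j, ∀ w w' : I → Bool, (∀ i ∈ S j, w i = w' i) → w ∈ A j → w' ∈ A j)
    (hx0 : ∀ j, 0 ≤ x j) (hx1 : ∀ j, x j ≤ 1 / 2)
    (hμ : ∀ i, ∀ s : Finset J, ∑ j ∈ s.filter (fun j => i ∈ S j), x j ≤ μ)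
    (hp : ∀ j, ((A j).card : ℝ) ≤ x j * Real.exp (-(2 * (S j).card * μ)) * 2 ^ Fintype.card I) :
    ∃ w : I → Bool, ∀ j, w ∉ A j := by
  refine h I J A S x hS hx0 (fun j => by have := hx1 j; linarith) ?_
  intro j
  refine (hp j).trans ?_
  apply mul_le_mul_of_nonneg_right _ (by positivity)
  apply mul_le_mul_of_nonneg_left _ (hx0 j)
  set F := Finset.univ.filter (fun j' => j' ≠ j ∧ ¬ Disjoint (S j) (S j')) with hF
  have h1 : Real.exp (∑ j' ∈ F, -(2 * x j')) ≤ ∏ j' ∈ F, (1 - x j') := by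
    rw [Real.exp_sum]
    apply Finset.prod_le_prod
    · intro j' _; positivity
    · intro j' _
      exact one_sub_exp (hx0 j') (hx1 j')
  refine le_trans ?_ h1
  apply Real.exp_le_exp.mpr
  have h2 : ∑ j' ∈ F, x j' ≤ ∑ i ∈ S j, ∑ j' ∈ Finset.univ.filter (fun j' => i ∈ S j'), x j' := by
    have h3 : F ⊆ (S j).biUnion fun i => Finset.univ.filter fun j' => i ∈ S j' := by
      intro j' hj'
      obtain ⟨-, -, h4⟩ := Finset.mem_filter.mp hj'
      rw [Finset.not_disjoint_iff] at h4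
      obtain ⟨i, hi, hi'⟩ := h4
      exact Finset.mem_biUnion.mpr ⟨i, hi, Finset.mem_filter.mpr ⟨Finset.mem_univ _, hi'⟩⟩
    refine (Finset.sum_le_sum_of_subset_of_nonneg h3 fun j' _ _ => hx0 j').trans ?_
    have h5 : ∀ s : Finset I, ∑ j' ∈ s.biUnion (fun i => Finset.univ.filter fun j' => i ∈ S j'), x j'
        ≤ ∑ i ∈ s, ∑ j' ∈ Finset.univ.filter (fun j' => i ∈ S j'), x j' := by
      intro s
      induction s using Finset.induction_on with
      | empty => simp
      | insert i s hi ih =>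
        rw [Finset.biUnion_insert, Finset.sum_insert hi]
        have h6 := Finset.sum_union_inter (s₁ := Finset.univ.filter fun j' => i ∈ S j')
          (s₂ := s.biUnion fun i => Finset.univ.filter fun j' => i ∈ S j') (f := x)
        have h7 : 0 ≤ ∑ j' ∈ (Finset.univ.filter fun j' => i ∈ S j') ∩
            (s.biUnion fun i => Finset.univ.filter fun j' => i ∈ S j'), x j' :=
          Finset.sum_nonneg fun j' _ => hx0 j'
        linarith
    exact h5 (S j)
  have h3 : ∑ i ∈ S j, ∑ j' ∈ Finset.univ.filter (fun j' => i ∈ S j'), x j' ≤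
      (S j).card * μ := by
    rw [← nsmul_eq_mul, ← Finset.sum_const]
    exact Finset.sum_le_sum fun i _ => hμ i Finset.univ
  rw [Finset.sum_neg_distrib, ← Finset.mul_sum]
  linarith

end ITAC

open ITAC in
theorem pr_AC (h : StAL) : StAC := by
  intro I J _ _ A S x μ hS hx0 hx1 hμ hp
  by_contra hcon
  push Not at hcon
  choose jj hjj using hcon
  set s : Finset J := Finset.univ.image jj with hs
  obtain ⟨w, hw⟩ := fin h I {j // j ∈ s} (fun j => A j.1) (fun j => S j.1) (fun j => x j.1) μ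
    (fun j => hS j.1) (fun j => hx0 j.1) (fun j => hx1 j.1) (by
      intro i s'
      refine le_trans (le_of_eq ?_) (hμ i (s'.image Subtype.val))
      rw [Finset.filter_image, Finset.sum_image]
      intro a _ b _ hab
      exact Subtype.ext hab) (fun j => hp j.1)
  exact hw ⟨jj w, Finset.mem_image_of_mem _ (Finset.mem_univ w)⟩ (hjj w)

end Pool.Agent.Work.MP_bf01b2_co.Sh
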