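import Pool.Agent.Work.MP_bf01b2_co.Sh.StmtsT
import Pool.Agent.Work.MP_bf01b2_co.Bd.Halve

/-!
# MP_bf01b2_co, theorem SHALLOW, item AH: a halving step with weights
-/

set_option autoImplicit false

namespace Pool.Agent.Work.MP_bf01b2_co.Sh

open Pool.Agent.Work.MP_bf01b2_co.Bd

open Pool.Agent.Work.MP_bf01b2_co.Fw

open Classical

theorem pr_AH (h : StAC) : StAH := by
  intro V P J T p e c W t g x m μ hc hW hg ht hx0 hx1 hμ0 hsum hgrp hm hcoin hprob
  let I := {i // i ∈ T.image p}
  let ext : (I → Bool) → P → Bool := fun w i => if h : i ∈ T.image p then w ⟨i, h⟩ else false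
  let A : J × Bool → Finset (I → Bool) := fun j => Finset.univ.filter fun w =>
    W j.1 / 2 + t j.1 < ∑ v ∈ T.filter (fun v => xor (ext w (p v)) (e v) = j.2), c j.1 v
  let S : J × Bool → Finset I := fun j => Finset.univ.filter fun i =>
    ∃ v ∈ T, p v = i.1 ∧ c j.1 v ≠ 0
  have hext : ∀ (w : I → Bool) (v : V) (hv : v ∈ T),
      ext w (p v) = w ⟨p v, Finset.mem_image_of_mem p hv⟩ := by
    intro w v hv
    simp only [ext]
    rw [dif_pos (Finset.mem_image_of_mem p hv)]
  have hSm : ∀ j, ((S j).card : ℝ) ≤ m j.1 := by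
    intro j
    refine le_trans ?_ (hm j.1)
    have h1 : (S j).card ≤ (T.filter fun v => c j.1 v ≠ 0).card := by
      calc (S j).card = ((S j).image Subtype.val).card :=
            (Finset.card_image_of_injective _ Subtype.val_injective).symm
        _ ≤ ((T.filter fun v => c j.1 v ≠ 0).image p).card := by
            apply Finset.card_le_card
            intro i hi
            obtain ⟨i', hi', rfl⟩ := Finset.mem_image.mp hi
            obtain ⟨v, hv, h2, h3⟩ := (Finset.mem_filter.mp hi').2
            exact Finset.mem_image.mpr ⟨v, Finset.mem_filter.mpr ⟨hv, h3⟩, h2⟩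
        _ ≤ _ := Finset.card_image_le
    exact_mod_cast h1
  obtain ⟨w, hw⟩ := h I (J × Bool) A S (fun j => x j.1) μ (by
    -- determined by `S`
    intro j w w' hww hw
    simp only [A, Finset.mem_filter, Finset.mem_univ, true_and] at hw ⊢
    refine lt_of_lt_of_le hw (le_of_eq ?_)
    rw [Finset.sum_filter, Finset.sum_filter]
    apply Finset.sum_congr rfl
    intro v hv
    by_cases h0 : c j.1 v = 0
    · rw [h0]
      simp
    · have h1 : ext w (p v) = ext w' (p v) := by
        rw [hext w v hv, hext w' v hv]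
        exact hww _ (Finset.mem_filter.mpr ⟨Finset.mem_univ _, v, hv, rfl, h0⟩)
      rw [h1]) (fun j => hx0 j.1) (fun j => hx1 j.1) (by
    -- coins
    intro i s
    refine le_trans ?_ (hcoin i.1 (s.image Prod.fst))
    have h1 : ∀ b : Bool, ∑ j ∈ (s.filter fun j => i ∈ S j).filter (fun j => j.2 = b), x j.1 ≤
        ∑ j ∈ (s.image Prod.fst).filter (fun j => ∃ v ∈ T, p v = i.1 ∧ c j v ≠ 0), x j := by
      intro b
      have h2 : ∑ j ∈ (s.filter fun j => i ∈ S j).filter (fun j => j.2 = b), x j.1 =
          ∑ j ∈ ((s.filter fun j => i ∈ S j).filter (fun j => j.2 = b)).image Prod.fst, x j := by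
        rw [Finset.sum_image]
        rintro ⟨j, b1⟩ hj ⟨j', b2⟩ hj' hjj
        have e1 : b1 = b := (Finset.mem_filter.mp hj).2
        have e2 : b2 = b := (Finset.mem_filter.mp hj').2
        have e3 : j = j' := hjj
        rw [e1, e2, e3]
      rw [h2]
      apply Finset.sum_le_sum_of_subset_of_nonneg
      · intro j hj
        obtain ⟨j', hj', rfl⟩ := Finset.mem_image.mp hj
        obtain ⟨h3, -⟩ := Finset.mem_filter.mp hj'
        obtain ⟨h4, h5⟩ := Finset.mem_filter.mp h3
        obtain ⟨-, h6⟩ := Finset.mem_filter.mp h5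
        exact Finset.mem_filter.mpr ⟨Finset.mem_image_of_mem _ h4, h6⟩
      · intro j _ _
        exact hx0 j
    have h2 : ∑ j ∈ s.filter (fun j => i ∈ S j), x j.1 =
        ∑ j ∈ (s.filter fun j => i ∈ S j).filter (fun j => j.2 = true), x j.1 +
        ∑ j ∈ (s.filter fun j => i ∈ S j).filter (fun j => j.2 = false), x j.1 := by
      rw [← Finset.sum_filter_add_sum_filter_not (s.filter fun j => i ∈ S j)
        (fun j => j.2 = true)]
      congr 1
      apply Finset.sum_congr _ (fun _ _ => rfl)
      apply Finset.filter_congr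
      intro j _
      cases j.2 <;> simp
    rw [h2]
    have h3 := h1 true
    have h4 := h1 false
    linarith) (by
    -- probability
    intro j
    let C : I → ℝ := fun i => ∑ v ∈ T.filter (fun v => p v = i.1),
      c j.1 v * sg (xor (e v) j.2)
    have hc1 : ∀ i : I, |C i| ≤ ∑ v ∈ T.filter (fun v => p v = i.1), c j.1 v := by
      intro i
      refine (Finset.abs_sum_le_sum_abs _ _).trans ?_
      apply Finset.sum_le_sum
      intro v _
      rw [abs_mul, sg_sq, mul_one, abs_of_nonneg (hc j.1 v)]
    have hsumI : ∀ f : V → ℝ, ∑ v ∈ T, f v =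
        ∑ i : I, ∑ v ∈ T.filter (fun v => p v = i.1), f v := by
      intro f
      rw [← Finset.sum_fiberwise_of_maps_to (s := T) (t := T.image p) (g := p)
        (fun v hv => Finset.mem_image_of_mem p hv)]
      rw [← Finset.sum_coe_sort]
    have hc2 : ∑ i, C i ^ 2 ≤ g j.1 * W j.1 := by
      calc ∑ i, C i ^ 2 ≤ ∑ i : I, g j.1 *
            ∑ v ∈ T.filter (fun v => p v = i.1), c j.1 v := by
            apply Finset.sum_le_sum
            intro i _
            rw [← sq_abs, sq]
            apply mul_le_mul _ (hc1 i) (abs_nonneg _) (hg j.1).le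
            exact (hc1 i).trans (hgrp j.1 i.1)
        _ = g j.1 * ∑ v ∈ T, c j.1 v := by rw [← Finset.mul_sum, hsumI]
        _ ≤ g j.1 * W j.1 := mul_le_mul_of_nonneg_left (hsum j.1) (hg j.1).le
    have hcount : ∀ w : I → Bool,
        ∑ v ∈ T.filter (fun v => xor (ext w (p v)) (e v) = j.2), c j.1 v =
          (∑ v ∈ T, c j.1 v) / 2 + 1 / 2 * ∑ i, sg (w i) * C i := by
      intro w
      rw [Finset.sum_filter]
      have h1 : ∀ v ∈ T, (if xor (ext w (p v)) (e v) = j.2 then c j.1 v else 0) =
          c j.1 v / 2 + 1 / 2 * (sg (ext w (p v)) * (c j.1 v * sg (xor (e v) j.2))) := by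
        intro v _
        have h2 := sg_ind (ext w (p v)) (e v) j.2
        have h3 : (if xor (ext w (p v)) (e v) = j.2 then c j.1 v else 0) =
            c j.1 v * (if xor (ext w (p v)) (e v) = j.2 then (1 : ℝ) else 0) := by
          split_ifs <;> simp
        rw [h3, h2]
        ring
      rw [Finset.sum_congr rfl h1, Finset.sum_add_distrib, ← Finset.sum_div, ← Finset.mul_sum]
      congr 2
      rw [hsumI]
      apply Finset.sum_congr rfl
      intro i _
      simp only [C]
      rw [Finset.mul_sum]
      apply Finset.sum_congr rfl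
      intro v hv
      have h3 := (Finset.mem_filter.mp hv).2
      have h4 : ext w (p v) = w i := by
        rw [hext w v (Finset.mem_filter.mp hv).1]
        congr 1
        exact Subtype.ext h3
      rw [h4]
    have hA := hoeff_count C (g j.1 * W j.1) (2 * t j.1) (mul_pos (hg j.1) (hW j.1))
      (by have := ht j.1; linarith) hc2 (A j) (by
      intro w hw
      have h1 := (Finset.mem_filter.mp hw).2
      rw [hcount w] at h1
      have h2 := hsum j.1
      linarith)
    have h6 : -((2 * t j.1) ^ 2 / (2 * (g j.1 * W j.1))) =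
        -(2 * t j.1 ^ 2 / (g j.1 * W j.1)) := by
      have h7 : g j.1 * W j.1 ≠ 0 := (mul_pos (hg j.1) (hW j.1)).ne'
      field_simp
    rw [h6] at hA
    have hpow : (0 : ℝ) < 2 ^ Fintype.card I := by positivity
    have h8 := hprob j.1
    have h9 : Real.exp (-(2 * m j.1 * μ)) ≤ Real.exp (-(2 * (S j).card * μ)) := by
      apply Real.exp_le_exp.mpr
      have h10 : 2 * ((S j).card : ℝ) * μ ≤ 2 * m j.1 * μ := by
        apply mul_le_mul_of_nonneg_right _ hμ0
        have := hSm j
        linarith
      linarith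
    calc ((A j).card : ℝ) ≤ 2 ^ Fintype.card I *
          Real.exp (-(2 * t j.1 ^ 2 / (g j.1 * W j.1))) := hA
      _ ≤ 2 ^ Fintype.card I * (x j.1 * Real.exp (-(2 * (S j).card * μ))) := by
          apply mul_le_mul_of_nonneg_left _ hpow.le
          exact h8.trans (mul_le_mul_of_nonneg_left h9 (hx0 j.1))
      _ = x j.1 * Real.exp (-(2 * (S j).card * μ)) * 2 ^ Fintype.card I := by ring)
  refine ⟨ext w, fun j β => ?_⟩
  have := hw (j, β)
  simp only [A, Finset.mem_filter, Finset.mem_univ, true_and, not_lt] at this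
  exact this

end Pool.Agent.Work.MP_bf01b2_co.Sh
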