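import Pool.Agent.Work.MP_bf01b2_co.Sh.StmtsT
import Pool.Agent.Work.MP_bf01b2_co.Bd.LLL

/-!
# MP_bf01b2_co, theorem SHALLOW, item AL: the asymmetric local lemma (counting form)
-/

set_option autoImplicit false

namespace Pool.Agent.Work.MP_bf01b2_co.Sh

open Pool.Agent.Work.MP_bf01b2_co.Bd

open Pool.Agent.Work.MP_bf01b2_co.Fw

open Classical

namespace ITAL

variable {I J : Type} [Fintype I] [DecidableEq I] [Fintype J] [DecidableEq J]

theorem av_sub (A : J → Finset (I → Bool)) {U V : Finset J} (h : V ⊆ U) :
    avoid A U ⊆ avoid A V := by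
  intro w hw
  simp only [avoid, Finset.mem_filter, Finset.mem_univ, true_and] at hw ⊢
  exact fun j hj => hw j (h hj)

theorem av_insert (A : J → Finset (I → Bool)) (U : Finset J) (t : J) :
    ((avoid A (insert t U)).card : ℝ) = (avoid A U).card - (A t ∩ avoid A U).card := by
  have h1 : avoid A (insert t U) = avoid A U \ (A t ∩ avoid A U) := by
    ext w
    simp only [avoid, Finset.mem_filter, Finset.mem_univ, true_and, Finset.mem_sdiff,
      Finset.mem_inter, Finset.mem_insert, not_and]
    constructor
    · intro h
      exact ⟨fun j hj => h j (Or.inr hj), fun h2 => absurd h2 (h t (Or.inl rfl))⟩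
    · rintro ⟨h2, h3⟩ j (rfl | hj)
      · exact fun h4 => h3 h4 h2
      · exact h2 j hj
  have h2 : (A t ∩ avoid A U) ⊆ avoid A U := Finset.inter_subset_right
  rw [h1, Finset.card_sdiff_of_subset h2, Nat.cast_sub (Finset.card_le_card h2)]

theorem key (A : J → Finset (I → Bool)) (S : J → Finset I)
    (x : J → ℝ)
    (hS : ∀ j, ∀ w w' : I → Bool, (∀ i ∈ S j, w i = w' i) → w ∈ A j → w' ∈ A j)
    (hx0 : ∀ j, 0 ≤ x j) (hx1 : ∀ j, x j < 1)
    (hp : ∀ j, ((A j).card : ℝ) ≤ x j *
      (∏ j' ∈ Finset.univ.filter (fun j' => j' ≠ j ∧ ¬ Disjoint (S j) (S j')), (1 - x j')) *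
        2 ^ Fintype.card I) :
    ∀ n : ℕ, ∀ U : Finset J, U.card ≤ n → ∀ j, j ∉ U →
      ((A j ∩ avoid A U).card : ℝ) ≤ x j * (avoid A U).card := by
  intro n
  induction n using Nat.strong_induction_on with
  | _ n ih =>
    intro U hU j hj
    set U2 := U.filter fun t => Disjoint (S j) (S t) with hU2
    set U1 := U.filter fun t => ¬ Disjoint (S j) (S t) with hU1
    have hcard : U2.card + U1.card = U.card :=
      Finset.card_filter_add_card_filter_not _
    have hunion : U2 ∪ U1 = U := Finset.filter_union_filter_not_eq _ _
    -- independence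
    have h1 := lll_indep (S j) (A j) (avoid A U2) (hS j) (by
      intro w w' hww hw
      simp only [avoid, Finset.mem_filter, Finset.mem_univ, true_and] at hw ⊢
      intro t ht hcon
      refine hw t ht (hS t w' w ?_ hcon)
      intro i hi
      have hd := (Finset.mem_filter.mp ht).2
      exact (hww i (fun h => (Finset.disjoint_left.mp hd) h hi)).symm)
    have hN : (Fintype.card (I → Bool) : ℝ) = 2 ^ Fintype.card I := by
      rw [Fintype.card_fun, Fintype.card_bool]; push_cast; rfl
    have hNpos : (0 : ℝ) < 2 ^ Fintype.card I := by positivity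
    set π : ℝ := ∏ j' ∈ Finset.univ.filter (fun j' => j' ≠ j ∧ ¬ Disjoint (S j) (S j')),
      (1 - x j') with hπ
    have h2 : ((A j ∩ avoid A U2).card : ℝ) ≤ x j * π * (avoid A U2).card := by
      have h3 : ((A j ∩ avoid A U2).card : ℝ) * 2 ^ Fintype.card I ≤
          (A j).card * (avoid A U2).card := by
        rw [← hN]
        exact_mod_cast h1
      have h4 : ((A j).card : ℝ) * (avoid A U2).card ≤
          (x j * π * 2 ^ Fintype.card I) * (avoid A U2).card :=
        mul_le_mul_of_nonneg_right (hp j) (Nat.cast_nonneg _)
      have h5 : ((A j ∩ avoid A U2).card : ℝ) * 2 ^ Fintype.card I ≤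
          (x j * π * (avoid A U2).card) * 2 ^ Fintype.card I := by
        calc _ ≤ _ := h3
          _ ≤ _ := h4
          _ = _ := by ring
      exact le_of_mul_le_mul_right h5 hNpos
    -- lower bound, adding the elements of `U1`
    have h6 : ∀ V : Finset J, V ⊆ U1 →
        (∏ t ∈ V, (1 - x t)) * ((avoid A U2).card : ℝ) ≤ (avoid A (U2 ∪ V)).card := by
      intro V
      induction V using Finset.induction_on with
      | empty => intro _; simp
      | insert t V htV ihV =>
        intro hV
        have htU1 : t ∈ U1 := hV (Finset.mem_insert_self t V)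
        have hVU1 : V ⊆ U1 := (Finset.subset_insert t V).trans hV
        have h7 := ihV hVU1
        have htU2 : t ∉ U2 := by
          intro hcon
          exact (Finset.mem_filter.mp htU1).2 (Finset.mem_filter.mp hcon).2
        have ht : t ∉ U2 ∪ V := by
          rw [Finset.mem_union, not_or]
          exact ⟨htU2, htV⟩
        have hVc : (insert t V).card ≤ U1.card := Finset.card_le_card hV
        rw [Finset.card_insert_of_notMem htV] at hVc
        have hlt : (U2 ∪ V).card < n := by
          have := Finset.card_union_le U2 V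
          omega
        have h8 := ih (U2 ∪ V).card hlt (U2 ∪ V) le_rfl t ht
        rw [Finset.union_insert, av_insert, Finset.prod_insert htV]
        have h9 : (1 - x t) * ((avoid A (U2 ∪ V)).card : ℝ) ≤
            (avoid A (U2 ∪ V)).card - (A t ∩ avoid A (U2 ∪ V)).card := by linarith
        refine le_trans ?_ h9
        rw [mul_assoc]
        exact mul_le_mul_of_nonneg_left h7 (by have := hx1 t; linarith)
    have h10 := h6 U1 le_rfl
    rw [hunion] at h10
    have h11 : π ≤ ∏ t ∈ U1, (1 - x t) := by
      rw [hπ]
      apply Finset.prod_le_prod_of_subset_of_le_one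
      · intro t ht
        obtain ⟨ht1, ht2⟩ := Finset.mem_filter.mp ht
        refine Finset.mem_filter.mpr ⟨Finset.mem_univ _, ?_, ht2⟩
        rintro rfl
        exact hj ht1
      · intro t _
        have := hx1 t
        linarith
      · intro t _ _
        have := hx0 t
        linarith
    have h12 : (0 : ℝ) ≤ (avoid A U2).card := Nat.cast_nonneg _
    have h13 : ((A j ∩ avoid A U).card : ℝ) ≤ (A j ∩ avoid A U2).card := by
      exact_mod_cast Finset.card_le_card
        (Finset.inter_subset_inter_left (av_sub A (Finset.filter_subset _ _)))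
    calc ((A j ∩ avoid A U).card : ℝ) ≤ (A j ∩ avoid A U2).card := h13
      _ ≤ x j * π * (avoid A U2).card := h2
      _ = x j * (π * (avoid A U2).card) := by ring
      _ ≤ x j * (avoid A U).card := by
          apply mul_le_mul_of_nonneg_left _ (hx0 j)
          exact (mul_le_mul_of_nonneg_right h11 h12).trans h10

end ITAL

open ITAL in
theorem pr_AL : StAL := by
  intro I J _ _ _ _ A S x hS hx0 hx1 hp
  have hpos : ∀ U : Finset J, 0 < ((avoid A U).card : ℝ) := by
    intro U
    induction U using Finset.induction_on with
    | empty =>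
      have : avoid A (∅ : Finset J) = Finset.univ := by
        ext w; simp [avoid]
      rw [this, Finset.card_univ, Fintype.card_fun, Fintype.card_bool]
      positivity
    | insert j U hj ih =>
      have h1 := key A S x hS hx0 hx1 hp U.card U le_rfl j hj
      rw [av_insert]
      have h2 := hx1 j
      nlinarith
  obtain ⟨w, hw⟩ := Finset.card_pos.mp (by exact_mod_cast hpos Finset.univ)
  refine ⟨w, fun j => ?_⟩
  simp only [avoid, Finset.mem_filter, Finset.mem_univ, true_and, forall_const] at hw
  exact hw j

end Pool.Agent.Work.MP_bf01b2_co.Sh
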