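import Pool.Agent.Work.MP_bf01b2_co.Sh.StmtsT
import Pool.Agent.Work.MP_bf01b2_co.Bd.HA

/-!
# MP_bf01b2_co, theorem SHALLOW, item CH: the halving step with weights at the cut levels
-/

set_option autoImplicit false

namespace Pool.Agent.Work.MP_bf01b2_co.Sh

open Pool.Agent.Work.MP_bf01b2_co.Bd

open Pool.Agent.Work.MP_bf01b2_co.Fw

open Classical

theorem pr_CH (h : StAH) : StCH := by
  intro J T p _ D c W t g x m μ hgap hc hW hg ht hx0 hx1 hμ0 hsum hgrp hm hcoin hprob
  -- lengths
  have hlen : ∀ v : List Bool, ∀ l, lastLev p v.length = some l → v.length ≤ l + D := by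
    intro v l hl
    obtain ⟨h1, h2, h3⟩ := ha_last_some p _ _ hl
    obtain ⟨l', h4, h5, h6⟩ := hgap (l + 1)
    by_contra hcon
    exact h3 l' (by omega) (by omega) h6
  have hlen0 : ∀ v : List Bool, lastLev p v.length = none → v.length ≤ 0 + D := by
    intro v hl
    obtain ⟨l', h4, h5, h6⟩ := hgap 0
    by_contra hcon
    exact ha_last_none p _ hl l' (by omega) h6
  let T' := T.filter fun v => lastLev p v.length ≠ none
  let lv : List Bool → ℕ := fun v => (lastLev p v.length).getD 0
  have hlv : ∀ v ∈ T', v ∈ T ∧ lastLev p v.length = some (lv v) ∧ lv v < v.length ∧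
      (v.take (lv v)).length = lv v ∧ v.length ≤ lv v + D := by
    intro v hv
    obtain ⟨h1, h2⟩ := Finset.mem_filter.mp hv
    obtain ⟨l, hl⟩ := Option.ne_none_iff_exists'.mp h2
    have h3 : lv v = l := by simp only [lv, hl, Option.getD_some]
    have h4 := ha_last_some p _ _ hl
    refine ⟨h1, by rw [h3]; exact hl, by rw [h3]; exact h4.1, ?_, by rw [h3]; exact hlen v l hl⟩
    rw [h3, List.length_take]
    have := h4.1
    omega
  have hbel : ∀ v ∈ T', Bel D (v.take (lv v)) v := by
    intro v hv
    obtain ⟨a1, a2, a3, a4, a5⟩ := hlv v hv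
    exact ⟨by rw [a4], by rw [a4]; exact a5⟩
  have hTT : T' ⊆ T := Finset.filter_subset _ _
  obtain ⟨w, hw⟩ := h (List Bool) (List Bool) J T' (fun v => v.take (lv v))
    (fun v => v.getD (lv v) false) c W t g x m μ hc hW hg ht hx0 hx1 hμ0 (by
      intro j
      exact (Finset.sum_le_sum_of_subset_of_nonneg hTT fun v _ _ => hc j v).trans (hsum j)) (by
      intro j q
      refine le_trans ?_ (hgrp j q)
      apply Finset.sum_le_sum_of_subset_of_nonneg
      · intro v hv
        simp only [Finset.mem_filter] at hv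
        obtain ⟨h1, h2⟩ := hv
        refine Finset.mem_filter.mpr ⟨hTT h1, ?_⟩
        rw [← h2]
        exact hbel v h1
      · intro v _ _
        exact hc j v) (by
      intro j
      refine le_trans ?_ (hm j)
      exact_mod_cast Finset.card_le_card (Finset.filter_subset_filter _ hTT)) (by
      intro q s
      refine le_trans ?_ (hcoin q s)
      apply mul_le_mul_of_nonneg_left _ (by norm_num)
      apply Finset.sum_le_sum_of_subset_of_nonneg
      · intro j hj
        simp only [Finset.mem_filter] at hj
        obtain ⟨h1, v, h2, h3, h4⟩ := hj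
        refine Finset.mem_filter.mpr ⟨h1, v, hTT h2, ?_, h4⟩
        rw [← h3]
        exact hbel v h2
      · intro j _ _
        exact hx0 j) hprob
  refine ⟨w, fun j β => ?_⟩
  have h1 := hw j β
  have h2 := hgrp j []
  have hsub : T.filter (fun v => bit p w v = β) ⊆
      (T'.filter fun v => xor (w (v.take (lv v))) (v.getD (lv v) false) = β) ∪
        (T.filter fun v => Bel D [] v) := by
    intro v hv
    obtain ⟨h3, h4⟩ := Finset.mem_filter.mp hv
    by_cases h5 : lastLev p v.length = none
    · refine Finset.mem_union_right _ (Finset.mem_filter.mpr ⟨h3, by simp, ?_⟩)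
      have := hlen0 v h5
      simpa using this
    · have h6 : v ∈ T' := Finset.mem_filter.mpr ⟨h3, h5⟩
      refine Finset.mem_union_left _ (Finset.mem_filter.mpr ⟨h6, ?_⟩)
      rw [← h4]
      unfold bit
      rw [(hlv v h6).2.1]
  have h3 : ∑ v ∈ T.filter (fun v => bit p w v = β), c j v ≤
      ∑ v ∈ T'.filter (fun v => xor (w (v.take (lv v))) (v.getD (lv v) false) = β), c j v +
        ∑ v ∈ T.filter (fun v => Bel D [] v), c j v := by
    refine (Finset.sum_le_sum_of_subset_of_nonneg hsub fun v _ _ => hc j v).trans ?_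
    rw [← Finset.sum_union_inter]
    have h4 : 0 ≤ ∑ v ∈ (T'.filter fun v => xor (w (v.take (lv v))) (v.getD (lv v) false) = β) ∩
        (T.filter fun v => Bel D [] v), c j v := Finset.sum_nonneg fun v _ => hc j v
    linarith
  linarith

end Pool.Agent.Work.MP_bf01b2_co.Sh
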