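import Pool.Agent.Work.MP_bf01b2_co.Sh.StmtsT

/-!
# Item CoT : the typed core
-/

set_option autoImplicit false

namespace Pool.Agent.Work.MP_bf01b2_co.Sh

open Pool.Agent.Work.MP_bf01b2_co.Bd

open Pool.Agent.Work.MP_bf01b2_co.Fw

open Classical

namespace ITCoT

/-- The numerical bound of the load of `T`. -/
theorem bound_T (τ q K t W X : ℝ) (hτ : 0 < τ) (hτ1 : τ ≤ 1) (hq0 : 0 < q) (hq : q ≤ τ / 8)
    (hK : 0 < K) (ht : t ≤ (1 - τ) * (K * W)) (ht0 : 0 ≤ t) (hW : 0 ≤ W) (hX : X ≤ τ / 2 * W) :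
    (1 + q) ^ 3 * t / K + X ≤ W := by
  have h3 : (1 + q) ^ 3 ≤ 1 + τ / 2 := by
    have hq8 : q ≤ 1 / 8 := by linarith
    nlinarith [mul_pos hq0 hq0, mul_nonneg hq0.le (sub_nonneg.2 hq8),
      mul_nonneg (mul_pos hq0 hq0).le (sub_nonneg.2 hq8)]
  have h4 : t / K ≤ (1 - τ) * W := by
    rw [div_le_iff₀ hK]
    calc t ≤ (1 - τ) * (K * W) := ht
      _ = (1 - τ) * W * K := by ring
  have h5 : (1 + q) ^ 3 * t / K ≤ (1 + τ / 2) * ((1 - τ) * W) := by
    rw [mul_div_assoc]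
    exact mul_le_mul h3 h4 (by positivity) (by linarith)
  have h6 : 0 ≤ τ ^ 2 * W := by positivity
  nlinarith

/-- The numerical bound of the load of a type. -/
theorem bound_K (η q K t a W X : ℝ) (hη : 0 < η) (hη1 : η ≤ 1) (hq0 : 0 < q) (hq : q ≤ η / 56)
    (hK : 0 < K) (ht : t ≤ a * (K * W)) (ht0 : 0 ≤ t) (hW : 0 ≤ W) (ha : 0 < a)
    (hX : X ≤ η / 8 * (a * W)) :
    (1 + q) ^ 3 * t / K + X ≤ (1 + η / 4) * a * W := by
  have h3 : (1 + q) ^ 3 ≤ 1 + η / 8 := by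
    have hq8 : q ≤ 1 / 56 := by linarith
    nlinarith [mul_pos hq0 hq0, mul_nonneg hq0.le (sub_nonneg.2 hq8),
      mul_nonneg (mul_pos hq0 hq0).le (sub_nonneg.2 hq8)]
  have h4 : t / K ≤ a * W := by
    rw [div_le_iff₀ hK]
    calc t ≤ a * (K * W) := ht
      _ = a * W * K := by ring
  have h5 : (1 + q) ^ 3 * t / K ≤ (1 + η / 8) * (a * W) := by
    rw [mul_div_assoc]
    exact mul_le_mul h3 h4 (by positivity) (by linarith)
  nlinarith

/-- The last term of the load. -/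
theorem bound_X (τ η am q b n W X : ℝ) (hτ : 0 < τ) (hη : 0 < η) (ham : 0 < am) (hq : 0 < q)
    (hb : 0 ≤ b) (hn : 0 ≤ n) (hX : X = 93 / q * (b + 1) * (3 * n + 10))
    (hA : 150 / q * (2 / τ + 8 / (η * am)) * (b + 1) * (2 * n + 10) ≤ W) :
    X ≤ τ / 2 * W ∧ X ≤ η / 8 * (am * W) := by
  have h1 : X ≤ 150 / q * (b + 1) * (2 * n + 10) := by
    rw [hX]
    have h2 : 93 * (3 * n + 10) ≤ 150 * (2 * n + 10) := by linarith
    have h3 : 0 ≤ 1 / q * (b + 1) := by positivity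
    calc 93 / q * (b + 1) * (3 * n + 10) = 1 / q * (b + 1) * (93 * (3 * n + 10)) := by ring
      _ ≤ 1 / q * (b + 1) * (150 * (2 * n + 10)) := mul_le_mul_of_nonneg_left h2 h3
      _ = 150 / q * (b + 1) * (2 * n + 10) := by ring
  set Y : ℝ := 150 / q * (b + 1) * (2 * n + 10) with hY
  have hY0 : 0 ≤ Y := by rw [hY]; positivity
  have hA' : Y * (2 / τ) + Y * (8 / (η * am)) ≤ W := by
    calc Y * (2 / τ) + Y * (8 / (η * am))
        = 150 / q * (2 / τ + 8 / (η * am)) * (b + 1) * (2 * n + 10) := by rw [hY]; ring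
      _ ≤ W := hA
  have h4 : 0 ≤ Y * (2 / τ) := by positivity
  have h5 : 0 ≤ Y * (8 / (η * am)) := by positivity
  constructor
  · have h6 : Y * (2 / τ) ≤ W := by linarith
    have h7 := mul_le_mul_of_nonneg_left h6 (show 0 ≤ τ / 2 by positivity)
    have h8 : τ / 2 * (Y * (2 / τ)) = Y := by field_simp
    linarith
  · have h6 : Y * (8 / (η * am)) ≤ W := by linarith
    have h7 := mul_le_mul_of_nonneg_left h6 (show 0 ≤ η / 8 * am by positivity)
    have h8 : η / 8 * am * (Y * (8 / (η * am))) = Y := by field_simp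
    calc X ≤ Y := h1
      _ ≤ η / 8 * am * W := by linarith
      _ = η / 8 * (am * W) := by ring

/-- The constant at the end. -/
theorem bound_E (η R e a p c : ℝ) (hη : 0 < η) (hη1 : η ≤ 1) (hR : 0 < R) (hR2 : 16 / η ≤ R)
    (he : 0 ≤ e) (ha : 0 ≤ a) (hp : 0 ≤ p) (hc : 0 ≤ c) :
    (1 + 4 / R) * e * ((1 + η / 4) * a) * p * c ≤ (1 + η) * e * a * p * c := by
  have h1 : 4 / R ≤ η / 4 := by
    rw [div_le_iff₀ hη] at hR2
    rw [div_le_iff₀ hR]
    linarith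
  have h2 : (1 + 4 / R) * (1 + η / 4) ≤ 1 + η := by nlinarith
  have h3 : 0 ≤ e * a * p * c := by positivity
  calc (1 + 4 / R) * e * ((1 + η / 4) * a) * p * c
      = (1 + 4 / R) * (1 + η / 4) * (e * a * p * c) := by ring
    _ ≤ (1 + η) * (e * a * p * c) := mul_le_mul_of_nonneg_right h2 h3
    _ = (1 + η) * e * a * p * c := by ring

end ITCoT

theorem ITCoT.main (h1 : StPaL) (h2 : StLdK) (h3 : NearP) (h4 : StTI) (h5 : StRI) (h6 : StNT)
    (h7 : StNN) (h8 : LocP) (h9 : Finish) (h10 : EdgeP) (h11 : EdgeB)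
    (r0 k k3 : ℕ) (τ η c0 am : ℝ) (hr0 : 45 ≤ r0) (hτ : 0 < τ) (hτ1 : τ ≤ 1) (hη : 0 < η)
    (hη1 : η ≤ 1) (hc0 : 0 < c0) (ham : 0 < am) (ham1 : am ≤ 1) :
    ∃ n0 : ℕ, ∀ n : ℕ, n0 ≤ n → r0 ≤ n ∧ ∃ s B I : ℕ, 0 < s ∧ 0 < B ∧
    7 * s * B + I = n - r0 ∧ n ≤ 2 * (7 * s * B) ∧
    ∀ (T : Finset (List Bool)) (K : Fin k → Finset (List Bool)) (a : Fin k → ℝ)
      (E : Fin k3 → Finset (ℕ × ℕ)) (m : ℕ), Bd.PrefClosed T →
      (T.card : ℝ) ≤ (1 - τ) * 2 ^ n → (∀ t, K t ⊆ T) → (∀ t, am ≤ a t) → (∀ t, a t ≤ 1) →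
      (∀ t, ((K t).card : ℝ) ≤ a t * 2 ^ n) → (∀ f, c0 * n ≤ ((E f).card : ℝ)) →
      (∀ f, (E f).card ≤ n) → 2 ^ 10 * ⌊aa r0⌋₊ < m →
      ∃ (ω : List Bool → Opt s) (κ : ℕ → List Bool → Bool) (ψ : List Bool → Fin m → ZMod 2),
        FibLe T (Ph B I ω κ) (aa r0) ∧
        (∀ y e, y ++ [e] ∈ T → Ph B I ω κ (y ++ [e]) ≠ Ph B I ω κ y → ψ (y ++ [e]) = ψ y) ∧
        (∀ y e, y ++ [e] ∈ T → Ph B I ω κ (y ++ [e]) = Ph B I ω κ y →
          ∃ c, ψ (y ++ [e]) = ψ y + Pi.single c 1) ∧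
        (∀ u ∈ T, ∀ v ∈ T, Ph B I ω κ u = Ph B I ω κ v → ψ u = ψ v → u = v) ∧
        ∀ t f u, (rc (K t) (Ph B I ω κ) tr (E f) u : ℝ) ≤
          (1 + η) * Real.exp ((1 / 2) ^ r0) * a t * 2 ^ r0 * (E f).card := by
  obtain ⟨r2', hr2', hnum⟩ := h6 (k + 1) am ham
  obtain ⟨x, hx⟩ := exists_nat_ge (16 / η)
  obtain ⟨r2, hr2⟩ : ∃ r2 : ℕ, r2 = max (max r2' r0) x := ⟨_, rfl⟩
  have hr2a : r2' ≤ r2 := by rw [hr2]; exact (le_max_left _ _).trans (le_max_left _ _)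
  have hr2b : r0 ≤ r2 := by rw [hr2]; exact (le_max_right _ _).trans (le_max_left _ _)
  have hr2c : 16 / η ≤ (r2 : ℝ) := by
    refine hx.trans ?_
    rw [hr2]
    exact_mod_cast le_max_right _ _
  obtain ⟨q, hq⟩ : ∃ q : ℝ, q = min (τ / 8) (η / 56) := ⟨_, rfl⟩
  have hq0 : 0 < q := by
    rw [hq]
    exact lt_min (by positivity) (by positivity)
  have hqτ : q ≤ τ / 8 := by rw [hq]; exact min_le_left _ _
  have hqη : q ≤ η / 56 := by rw [hq]; exact min_le_right _ _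
  have hq1 : q ≤ 1 := by linarith
  obtain ⟨n1, hn1⟩ := h1 q (150 / q * (2 / τ + 8 / (η * am))) r2 hq0
  obtain ⟨n2, hn2⟩ := h7 (2 ^ (20 * r2 ^ 2 + 2 * r2 + 7))
    (((k * k3 + 1 : ℕ) : ℝ) * 2 ^ (20 * r2 ^ 2 + r2 + 6)) (am * c0) (by positivity)
    (by positivity) (by positivity)
  refine ⟨n1 + n2 + k + 1, ?_⟩
  intro n hn
  obtain ⟨s, B, hs, hB, a1, a2, a3, a4, a5⟩ := hn1 n (by omega)
  have hkn : k + 1 ≤ 2 ^ n := by
    have : n < 2 ^ n := Nat.lt_two_pow_self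
    omega
  have hn2' := hn2 n (by omega)
  have hnpos : 1 ≤ n := by omega
  refine ⟨by omega, s, B, n - 7 * s * B - r0, hs, by omega, by omega, ?_, ?_⟩
  · have e1 : n - 7 * s * B ≤ 20 * (n - 7 * s * B) ^ 2 := by nlinarith
    have e2 : (B - 2) * (5 * s) ≤ B * (5 * s) := Nat.mul_le_mul_right _ (Nat.sub_le _ _)
    have e3 : B * (5 * s) ≤ 7 * s * B := by nlinarith
    omega
  intro T K a E m hT hcard hKT ham' ha1 hKcard hE1 hE2 hm
  set r1 := n - 7 * s * B with hr1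
  set I := r1 - r0 with hI
  have hpow : (2 : ℝ) ^ n = 2 ^ (7 * s * B) * 2 ^ r1 := by
    rw [← pow_add]
    congr 1
    omega
  have hbig : 10 ≤ (B - 2) * (5 * s) := by
    have h9 : 2 * 5 ≤ (B - 2) * (5 * s) := Nat.mul_le_mul (by omega) (by omega)
    omega
  have hbig2 : 20 * (r1 - r0) ^ 2 ≤ (B - 2) * (5 * s) := by
    refine le_trans ?_ a5
    exact Nat.mul_le_mul_left _ (Nat.pow_le_pow_left (Nat.sub_le _ _) 2)
  -- the types
  let K' : Fin (k + 1) → Finset (List Bool) := Fin.cons T K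
  let a' : Fin (k + 1) → ℝ := Fin.cons 1 (fun t => (1 + η / 4) * a t)
  have hK'0 : K' 0 = T := rfl
  have hK's : ∀ t : Fin k, K' t.succ = K t := fun t => rfl
  have ha'0 : a' 0 = 1 := rfl
  have ha's : ∀ t : Fin k, a' t.succ = (1 + η / 4) * a t := fun t => rfl
  have hapos : ∀ t, 0 < a t := fun t => lt_of_lt_of_le ham (ham' t)
  have haa' : ∀ t, a t ≤ (1 + η / 4) * a t := fun t => by
    have := hapos t
    nlinarith
  have ha2 : ∀ t, (1 + η / 4) * a t ≤ 2 := fun t => by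
    have := hapos t
    have := ha1 t
    nlinarith
  have hK'T : ∀ t, K' t ⊆ T := by
    intro t
    refine Fin.cases ?_ (fun t => ?_) t
    · rw [hK'0]
    · rw [hK's]
      exact hKT t
  obtain ⟨ω, hω⟩ := h2 q hq0 hq1 s B n (k + 1) T K' hs (by omega) hT hK'T (by omega) hkn a2 a3
  obtain ⟨x1, x2⟩ := ITCoT.bound_X τ η am q B n (2 ^ r1) _ hτ hη ham hq0 (Nat.cast_nonneg B)
    (Nat.cast_nonneg n) rfl a4
  have hfib : ∀ t, FibLe (K' t) (Bd.P B ω) (a' t * 2 ^ r1) := by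
    intro t y
    refine (hω t y).trans ?_
    revert y
    refine Fin.cases ?_ (fun t => ?_) t
    · intro y
      rw [ha'0, hK'0, one_mul]
      refine ITCoT.bound_T τ q (2 ^ (7 * s * B)) T.card (2 ^ r1) _ hτ hτ1 hq0 hqτ
        (by positivity) ?_ (Nat.cast_nonneg _) (by positivity) x1
      rw [← hpow]
      exact hcard
    · intro y
      rw [ha's, hK's]
      refine ITCoT.bound_K η q (2 ^ (7 * s * B)) (K t).card (a t) (2 ^ r1) _ hη hη1 hq0 hqη
        (by positivity) ?_ (Nat.cast_nonneg _) (by positivity) (hapos t) ?_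
      · rw [← hpow]
        exact hKcard t
      · refine x2.trans ?_
        refine mul_le_mul_of_nonneg_left ?_ (by positivity)
        exact mul_le_mul_of_nonneg_right (ham' t) (by positivity)
  obtain ⟨κ0, hκ0⟩ := h4 s B r0 r1 r2 (k + 1) T ω K' a' hr2b (by omega) (by omega)
    (h3 s B _ hs (by omega) hbig2 ω T) hK'T
    (by
      intro t
      refine Fin.cases ?_ (fun t => ?_) t
      · rw [ha'0]
        exact one_pos
      · rw [ha's]
        exact lt_of_lt_of_le (hapos t) (haa' t))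
    (by
      intro t
      refine Fin.cases ?_ (fun t => ?_) t
      · rw [ha'0]
        norm_num
      · rw [ha's]
        exact ha2 t)
    (by
      intro t r hr
      refine Fin.cases ?_ (fun t => ?_) t
      · rw [ha'0]
        exact hnum r (hr2a.trans hr) 1 ham1
      · rw [ha's]
        exact hnum r (hr2a.trans hr) _ ((ham' t).trans (haa' t))) hfib
  have hT0 : FibLe T (Ps B (r2 - r0) I ω κ0) (aa r2) := by
    have := hκ0 0
    rw [ha'0, hK'0, one_mul] at this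
    exact this
  have hKs : ∀ t, FibLe (K t) (Ps B (r2 - r0) I ω κ0) ((1 + η / 4) * a t * aa r2) := by
    intro t
    have := hκ0 t.succ
    rw [ha's, hK's] at this
    exact this
  have hn0 : (0 : ℝ) < n := by exact_mod_cast hnpos
  obtain ⟨κ, hκ, hrc⟩ := h5 s B r0 r2 I k k3 T ω κ0 K E (fun t => (1 + η / 4) * a t) am
    (c0 * n) n hr0 hr2b (by omega) (h3 s B _ hs (by omega) hbig2 ω T) hKT ham
    (by positivity) (fun t => (ham' t).trans (haa' t)) ha2 hE1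
    (fun f => by exact_mod_cast hE2 f) (by exact_mod_cast hnpos)
    (by
      calc _ ≤ am * c0 * n := hn2'
        _ = am * (c0 * n) := by ring) hT0 hKs
  have hloc := h8 s B I hs (by omega) T ω κ hT (h3 s B 10 hs (by omega) hbig ω T)
  obtain ⟨ψ, hψ1, hψ2, hψ3⟩ := h9 _ T (Ph B I ω κ) ⌊aa r0⌋₊ m hT (by
    intro y e hy _
    have hP : Bd.P B ω (y ++ [e]) = Bd.P B ω y := by
      funext c
      obtain ⟨b1, b2⟩ := h10 s B hs ω y e
      rw [b1 c, b2 (by omega)]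
      simp
    unfold Ph
    rw [hP]
    congr 1
    funext c
    by_cases hc : 1 ≤ c ∧ c ≤ I
    · rw [if_pos hc, if_pos hc]
      apply (h11 (fun t => col t = c) (κ c) y e).1
      unfold col
      rw [if_neg (by omega)]
      omega
    · rw [if_neg hc, if_neg hc]) (by
    intro x
    exact_mod_cast Nat.le_floor (hκ x)) hloc hm
  refine ⟨ω, κ, ψ, hκ, hψ1, hψ2, hψ3, ?_⟩
  intro t f u
  refine (hrc t f u).trans ?_
  exact ITCoT.bound_E η r2 (Real.exp ((1 / 2) ^ r0)) (a t) (2 ^ r0) (E f).card hη hη1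
    (by
      have : 0 < r2 := by omega
      exact_mod_cast this) hr2c (Real.exp_pos _).le (hapos t).le (by positivity)
    (Nat.cast_nonneg _)

theorem pr_CoT (h1 : StPaL) (h2 : StLdK) (h3 : NearP) (h4 : StTI) (h5 : StRI) (h6 : StNT)
    (h7 : StNN) (h8 : LocP) (h9 : Finish) (h10 : EdgeP) (h11 : EdgeB) : StCoT := by
  intro r0 k k3 τ η c0 am hr0 hτ hη hc0 ham
  obtain ⟨n0, hn0⟩ := ITCoT.main h1 h2 h3 h4 h5 h6 h7 h8 h9 h10 h11 r0 k k3 (min τ 1) (min η 1)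
    c0 (min am 1) hr0 (lt_min hτ one_pos) (min_le_right _ _) (lt_min hη one_pos)
    (min_le_right _ _) hc0 (lt_min ham one_pos) (min_le_right _ _)
  refine ⟨n0, fun n hn => ?_⟩
  obtain ⟨b1, s, B, I, b2, b3, b4, b5, b6⟩ := hn0 n hn
  refine ⟨b1, s, B, I, b2, b3, b4, b5, ?_⟩
  intro T K a E m hT hcard hKT ham' ha1 hKcard hE1 hE2 hm
  obtain ⟨ω, κ, ψ, c1, c2, c3, c4, c5⟩ := b6 T K a E m hT
    (hcard.trans (mul_le_mul_of_nonneg_right (by linarith [min_le_left τ 1]) (by positivity)))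
    hKT (fun t => (min_le_left am 1).trans (ham' t)) ha1 hKcard hE1 hE2 hm
  refine ⟨ω, κ, ψ, c1, c2, c3, c4, ?_⟩
  intro t f u
  refine (c5 t f u).trans ?_
  have ha0 : 0 ≤ a t := ham.le.trans (ham' t)
  have h12 : 1 + min η 1 ≤ 1 + η := by linarith [min_le_left η 1]
  have h13 : 0 ≤ Real.exp ((1 / 2) ^ r0) * a t * 2 ^ r0 * ((E f).card : ℝ) := by positivity
  calc (1 + min η 1) * Real.exp ((1 / 2) ^ r0) * a t * 2 ^ r0 * ((E f).card : ℝ)
      = (1 + min η 1) * (Real.exp ((1 / 2) ^ r0) * a t * 2 ^ r0 * ((E f).card : ℝ)) := by ring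
    _ ≤ (1 + η) * (Real.exp ((1 / 2) ^ r0) * a t * 2 ^ r0 * ((E f).card : ℝ)) :=
        mul_le_mul_of_nonneg_right h12 h13
    _ = _ := by ring

end Pool.Agent.Work.MP_bf01b2_co.Sh
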