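import Pool.Agent.Work.MP_bf01b2_co.Sh.StmtsT
import Pool.Agent.Work.MP_bf01b2_co.Bd.IZ

/-!
# MP_bf01b2_co, theorem SHALLOW, item InK: independence
-/

set_option autoImplicit false

namespace Pool.Agent.Work.MP_bf01b2_co.Sh

open Pool.Agent.Work.MP_bf01b2_co.Bd

open Pool.Agent.Work.MP_bf01b2_co.Fw

open Classical

theorem pr_InK (h : Local) : StInK := by
  intro s B T K o0 x w z z' hs hB hT hw hz hz' hmod hle hne ω ω' hω
  unfold XK
  congr 1
  apply Finset.filter_congr
  intro β hβ
  have hβN := (Finset.mem_filter.1 hβ).1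
  have hβ' := (Finset.mem_filter.1 hβN).2
  obtain ⟨hβ1, hβ2, hβ3, hβ4⟩ := hβ'
  rw [h s B hs (ex T o0 ω) (ex T o0 ω') (β ++ w)]
  intro k hk
  have hy : (β ++ w).take (k * (5 * s)) ∈ T := hT _ hβ4 _
  unfold ex
  rw [dif_pos hy, dif_pos hy]
  apply hω
  intro hR
  obtain ⟨_, hR2, _, hR4⟩ := (Finset.mem_filter.1 hR).2
  dsimp only at hR2 hR4
  have hlen : ((β ++ w).take (k * (5 * s))).length = k * (5 * s) := by
    rw [List.length_take, min_eq_left hk.le]
  rw [hlen] at hR2
  have h5 : 0 < 5 * s := by omega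
  have ez : z.length = z.length / (5 * s) * (5 * s) := by
    have := Nat.div_add_mod' z.length (5 * s)
    omega
  have ez' : z'.length = z'.length / (5 * s) * (5 * s) := by
    have := Nat.div_add_mod' z'.length (5 * s)
    omega
  have hk1 : k ≤ z'.length / (5 * s) + B := by
    refine iz_arith s (z'.length / (5 * s)) k B β.length w.length hs hβ1 hβ2 hw ?_
    rw [List.length_append] at hk
    exact hk
  have hk2 : z.length / (5 * s) ≤ k := by
    rw [ez] at hR2
    exact Nat.le_of_mul_le_mul_right hR2 h5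
  have hk3 : z.length / (5 * s) = z'.length / (5 * s) :=
    iz_mod _ _ B hmod (Nat.div_le_div_right hle) (by omega)
  have hzz : z.length = z'.length := by rw [ez, ez', hk3]
  apply hne
  have hzβ : z'.length ≤ β.length := by
    have h6 := congrArg List.length hβ3
    rw [List.length_take] at h6
    omega
  rw [List.take_take, min_eq_left hR2, hzz, List.take_append_of_le_length hzβ, hβ3] at hR4
  exact hR4

end Pool.Agent.Work.MP_bf01b2_co.Sh
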