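import Pool.Agent.Work.MP_bf01b2_co.Sh.StmtsT
import Pool.Agent.Work.MP_bf01b2_co.Bd.LD
import Pool.Agent.Work.MP_bf01b2_co.Fw.I_LdL

/-!
# MP_bf01b2_co, theorem SHALLOW, item LdK: the typed lossless load
-/

set_option autoImplicit false

namespace Pool.Agent.Work.MP_bf01b2_co.Sh

open Pool.Agent.Work.MP_bf01b2_co.Bd

open Pool.Agent.Work.MP_bf01b2_co.Fw

open Classical

namespace ITLdK

theorem mem_NK {s B : ℕ} {T K : Finset (List Bool)} {w z β : List Bool} (h : β ∈ NK s B T K w z) :
    β ∈ Nz s B T w z ∧ β ++ w ∈ K := by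
  unfold NK at h
  exact Finset.mem_filter.mp h

theorem sumN {s B : ℕ} (hs : 0 < s) (T K : Finset (List Bool)) :
    ∑ w ∈ ld_W, ∑ ρ ∈ Finset.range (B + 1),
      ∑ z ∈ T.filter (fun z => z.length % (5 * s) = 0 ∧ z.length / (5 * s) % (B + 1) = ρ),
        (NK s B T K w z).card ≤ K.card := by
  have h1 : ∀ w ρ, ∑ z ∈ T.filter (fun z => z.length % (5 * s) = 0 ∧
      z.length / (5 * s) % (B + 1) = ρ), (NK s B T K w z).card =
      ((T.filter (fun z => z.length % (5 * s) = 0 ∧
        z.length / (5 * s) % (B + 1) = ρ)).sigma fun z => NK s B T K w z).card := by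
    intro w ρ
    rw [Finset.card_sigma]
  simp_rw [h1]
  have h2 : ∀ w, ∑ ρ ∈ Finset.range (B + 1), ((T.filter (fun z => z.length % (5 * s) = 0 ∧
        z.length / (5 * s) % (B + 1) = ρ)).sigma fun z => NK s B T K w z).card =
      ((Finset.range (B + 1)).sigma fun ρ => ((T.filter (fun z => z.length % (5 * s) = 0 ∧
        z.length / (5 * s) % (B + 1) = ρ)).sigma fun z => NK s B T K w z)).card := by
    intro w
    rw [Finset.card_sigma]
  simp_rw [h2]
  rw [← Finset.card_sigma]
  refine Finset.card_le_card_of_injOn (fun p => p.2.2.2 ++ p.1) ?_ ?_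
  · intro p hp
    simp only [Finset.coe_sigma, Set.mem_sigma_iff, Finset.mem_coe] at hp
    exact (mem_NK hp.2.2.2).2
  · rintro ⟨w, ρ, z, β⟩ hp ⟨w', ρ', z', β'⟩ hp' h
    simp only [Finset.coe_sigma, Set.mem_sigma_iff, Finset.mem_coe, Finset.mem_sigma,
      Finset.mem_filter] at hp hp'
    simp only at h
    have hw := ld_W_len w hp.1
    have hw' := ld_W_len w' hp'.1
    have hβ : β.length % 5 = 0 := by
      have h3 := (mem_NK hp.2.2.2).1
      unfold Nz at h3
      exact (Finset.mem_filter.mp h3).2.1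
    have hβ' : β'.length % 5 = 0 := by
      have h3 := (mem_NK hp'.2.2.2).1
      unfold Nz at h3
      exact (Finset.mem_filter.mp h3).2.1
    have hlen := congrArg List.length h
    rw [List.length_append, List.length_append] at hlen
    obtain ⟨e0, e00⟩ := List.append_inj h (by omega)
    subst e0
    subst e00
    have e1 := ld_z hs hp.2.2.1.2.1 (mem_NK hp.2.2.2).1
    have e2 := ld_z hs hp'.2.2.1.2.1 (mem_NK hp'.2.2.2).1
    have e3 : z = z' := e1.trans e2.symm
    subst e3
    have e4 : ρ = ρ' := hp.2.2.1.2.2.symm.trans hp'.2.2.1.2.2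
    subst e4
    rfl

theorem deep {s B : ℕ} (hs : 0 < s) {T K : Finset (List Bool)} (hT : PrefClosed T) (hK : K ⊆ T)
    (o0 : Opt s) (η : {y // y ∈ T} → Opt s) (x : ℕ × ℕ → ZMod 2) :
    (K.filter fun v => Bd.P B (ex T o0 η) v = x ∧ B * (5 * s) ≤ v.length).card ≤
      ∑ w ∈ ld_W, ∑ ρ ∈ Finset.range (B + 1),
        ∑ z ∈ T.filter (fun z => z.length % (5 * s) = 0 ∧ z.length / (5 * s) % (B + 1) = ρ),
          XK B T K o0 x w z η := by
  have h1 : (K.filter fun v => Bd.P B (ex T o0 η) v = x ∧ B * (5 * s) ≤ v.length) ⊆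
      ld_W.biUnion fun w => (Finset.range (B + 1)).biUnion fun ρ =>
        (T.filter (fun z => z.length % (5 * s) = 0 ∧
          z.length / (5 * s) % (B + 1) = ρ)).biUnion fun z =>
          ((NK s B T K w z).filter fun β => Bd.P B (ex T o0 η) (β ++ w) = x).image
            fun β => β ++ w := by
    intro v hv
    rw [Finset.mem_filter] at hv
    obtain ⟨hvK, hvx, hvl⟩ := hv
    have hvT := hK hvK
    set w := v.drop (5 * (v.length / 5)) with hw
    set β := v.take (5 * (v.length / 5)) with hβ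
    have hβw : β ++ w = v := List.take_append_drop _ _
    have hβl : β.length = 5 * (v.length / 5) := by
      rw [hβ, List.length_take]
      omega
    have hwl : w.length ≤ 4 := by
      rw [hw, List.length_drop]
      omega
    have hdiv : β.length / (5 * s) = v.length / (5 * s) := by
      rw [hβl, Nat.mul_div_mul_left _ _ (by norm_num), Nat.div_div_eq_div_mul]
    have hB : B ≤ v.length / (5 * s) := by
      rw [Nat.le_div_iff_mul_le (by omega)]
      exact hvl
    set k := v.length / (5 * s) - B with hk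
    have hkle : k * (5 * s) ≤ β.length := by
      have h2 : k * (5 * s) ≤ (β.length / (5 * s)) * (5 * s) :=
        Nat.mul_le_mul_right _ (by rw [hdiv]; omega)
      exact h2.trans (Nat.div_mul_le_self _ _)
    set z := v.take (k * (5 * s)) with hz
    have hzl : z.length = k * (5 * s) := by
      rw [hz, List.length_take]
      have : β.length ≤ v.length := by rw [hβl]; omega
      omega
    have hzβ : β.take z.length = z := by
      rw [hzl, hβ, List.take_take, hz]
      congr 1
      rw [← hβl]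
      omega
    have hzdiv : z.length / (5 * s) = k := by
      rw [hzl, Nat.mul_div_cancel _ (by omega)]
    rw [Finset.mem_biUnion]
    refine ⟨w, ld_W_mem w hwl, ?_⟩
    rw [Finset.mem_biUnion]
    refine ⟨z.length / (5 * s) % (B + 1), Finset.mem_range.mpr (Nat.mod_lt _ (by omega)), ?_⟩
    rw [Finset.mem_biUnion]
    refine ⟨z, ?_, ?_⟩
    · rw [Finset.mem_filter]
      refine ⟨hT v hvT _, ?_, rfl⟩
      rw [hzl]
      exact Nat.mul_mod_left _ _
    · rw [Finset.mem_image]
      refine ⟨β, ?_, hβw⟩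
      rw [Finset.mem_filter]
      refine ⟨?_, by rw [hβw]; exact hvx⟩
      unfold NK
      rw [Finset.mem_filter]
      refine ⟨?_, by rw [hβw]; exact hvK⟩
      unfold Nz
      rw [Finset.mem_filter]
      refine ⟨hT v hvT _, ?_, ?_, hzβ, by rw [hβw]; exact hvT⟩
      · rw [hβl]
        exact Nat.mul_mod_right _ _
      · rw [hzdiv, hdiv]
        omega
  refine (Finset.card_le_card h1).trans ?_
  refine Finset.card_biUnion_le.trans (Finset.sum_le_sum fun w _ => ?_)
  refine Finset.card_biUnion_le.trans (Finset.sum_le_sum fun ρ _ => ?_)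
  refine Finset.card_biUnion_le.trans (Finset.sum_le_sum fun z _ => ?_)
  exact Finset.card_image_le

end ITLdK

open ITLdK in
/-- the typed lossless load -/
theorem pr_LdK (h1 : StSuK) (h2 : Near) : StLdK := by
  intro q hq hq1 s B n k T K hs hB hT hK hsn hk hZ1 hZ2
  obtain ⟨o0⟩ := ld_opt s
  obtain ⟨η, hη⟩ := h1 q hq hq1 s B n k T K o0 hs hB hT hsn hk hZ1
  refine ⟨ex T o0 η, fun i x => ?_⟩
  have hn0 : (0 : ℝ) ≤ n := Nat.cast_nonneg n
  have hB0 : (0 : ℝ) ≤ B := Nat.cast_nonneg B
  have hd : 0 ≤ 2 / q * (3 * (n : ℝ) + 10) :=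
    mul_nonneg (div_nonneg zero_le_two hq.le) (by linarith)
  have hD : (0 : ℝ) < 2 ^ (7 * s * B) := pow_pos zero_lt_two _
  have hsplit : ((K i).filter fun v => Bd.P B (ex T o0 η) v = x).card ≤
      ((K i).filter fun v => Bd.P B (ex T o0 η) v = x ∧ v.length < B * (5 * s)).card +
      ((K i).filter fun v => Bd.P B (ex T o0 η) v = x ∧ B * (5 * s) ≤ v.length).card := by
    refine (Finset.card_le_card ?_).trans (Finset.card_union_le _ _)
    intro v hv
    rw [Finset.mem_filter] at hv
    rw [Finset.mem_union, Finset.mem_filter, Finset.mem_filter]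
    rcases Nat.lt_or_ge v.length (B * (5 * s)) with h | h
    · exact Or.inl ⟨hv.1, hv.2, h⟩
    · exact Or.inr ⟨hv.1, hv.2, h⟩
  have hsh := ld_shallow h2 hs (by omega : 0 < B) (K i) (ex T o0 η) x
  have hdp := deep hs hT (hK i) o0 η x (B := B)
  have hZpos : 0 < (Z s : ℝ) ^ B := by
    have h5 : 0 < (1 + q) * (Z s : ℝ) ^ B := lt_of_lt_of_le hD hZ2
    exact pos_of_mul_pos_right h5 (by linarith)
  have hθ : (1 / (Z s : ℝ)) ^ B ≤ (1 + q) / 2 ^ (7 * s * B) := by
    rw [one_div, inv_pow, inv_eq_one_div, div_le_div_iff₀ hZpos hD]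
    linarith
  have hsum : ((∑ w ∈ ld_W, ∑ ρ ∈ Finset.range (B + 1),
        ∑ z ∈ T.filter (fun z => z.length % (5 * s) = 0 ∧ z.length / (5 * s) % (B + 1) = ρ),
          XK B T (K i) o0 x w z η : ℕ) : ℝ) ≤
      (1 + q) ^ 2 * (K i).card * (1 / (Z s : ℝ)) ^ B +
        31 * (((B : ℝ) + 1) * (2 / q * (3 * n + 10))) :=
    ILdL.sumW ld_W ld_W_card (fun w ρ => T.filter
        (fun z => z.length % (5 * s) = 0 ∧ z.length / (5 * s) % (B + 1) = ρ))
      (fun w z => XK B T (K i) o0 x w z η) (fun w z => (NK s B T (K i) w z).card) hq (K i).card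
      (pow_nonneg (div_nonneg zero_le_one (Nat.cast_nonneg _)) _)
      hd (sumN (B := B) hs T (K i))
      (fun w hw ρ hρ => hη i x w (ld_W_len w hw) ρ (Finset.mem_range.mp hρ))
  refine ILdL.arith q (K i).card ((1 / (Z s : ℝ)) ^ B) (2 ^ (7 * s * B)) (B + 1) (3 * n + 10) _
    hq hq1 (Nat.cast_nonneg _) hD hθ (by linarith only [hB0]) (by linarith only [hn0]) ?_
  have h12 : (((K i).filter fun v => Bd.P B (ex T o0 η) v = x).card : ℝ) ≤
      (((K i).filter fun v => Bd.P B (ex T o0 η) v = x ∧ v.length < B * (5 * s)).card : ℝ) +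
      (((K i).filter fun v => Bd.P B (ex T o0 η) v = x ∧ B * (5 * s) ≤ v.length).card : ℝ) := by
    exact_mod_cast hsplit
  have h13 : (((K i).filter fun v => Bd.P B (ex T o0 η) v = x ∧
      v.length < B * (5 * s)).card : ℝ) ≤ 31 := by exact_mod_cast hsh
  have h14 : (((K i).filter fun v => Bd.P B (ex T o0 η) v = x ∧
      B * (5 * s) ≤ v.length).card : ℝ) ≤
      (1 + q) ^ 2 * (K i).card * (1 / (Z s : ℝ)) ^ B +
        31 * (((B : ℝ) + 1) * (2 / q * (3 * n + 10))) := by
    refine le_trans ?_ hsum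
    exact_mod_cast hdp
  linarith only [h12, h13, h14]

end Pool.Agent.Work.MP_bf01b2_co.Sh
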