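import Pool.Agent.Work.MP_bf01b2_co.Sh.StmtsT

/-!
# Item NN : the logarithm against `n`
-/

set_option autoImplicit false

namespace Pool.Agent.Work.MP_bf01b2_co.Sh

open Pool.Agent.Work.MP_bf01b2_co.Bd

open Pool.Agent.Work.MP_bf01b2_co.Fw

theorem pr_NN : StNN := by
  intro A1 A2 c h1 h2 hc
  have hlo := Real.isLittleO_log_id_atTop.bound (show (0 : ℝ) < c / (4 * A1) by positivity)
  rw [Filter.eventually_atTop] at hlo
  obtain ⟨x0, hx0⟩ := hlo
  obtain ⟨n1, hn1⟩ := exists_nat_ge (max x0 (2 * (A1 * (Real.log A2 + 2)) / c))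
  refine ⟨n1 + 1, fun n hn => ?_⟩
  have hn' : (n1 : ℝ) + 1 ≤ n := by exact_mod_cast hn
  have hn1' : (0 : ℝ) ≤ n1 := Nat.cast_nonneg n1
  have hn0 : (0 : ℝ) < n := by linarith
  have hx : x0 ≤ n := by
    have := (le_max_left x0 (2 * (A1 * (Real.log A2 + 2)) / c)).trans hn1
    linarith
  have hC : 2 * (A1 * (Real.log A2 + 2)) / c ≤ n := by
    have := (le_max_right x0 (2 * (A1 * (Real.log A2 + 2)) / c)).trans hn1
    linarith
  have hC2 : 2 * (A1 * (Real.log A2 + 2)) ≤ n * c := (div_le_iff₀ hc).1 hC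
  have hb := hx0 n hx
  rw [Real.norm_eq_abs, Real.norm_eq_abs, id, abs_of_pos hn0] at hb
  have hlog : Real.log n ≤ c / (4 * A1) * n := (le_abs_self _).trans hb
  have hlog2 : 4 * A1 * Real.log n ≤ c * n := by
    have h3 := mul_le_mul_of_nonneg_left hlog (show (0 : ℝ) ≤ 4 * A1 by positivity)
    have h4 : 4 * A1 * (c / (4 * A1) * n) = c * n := by
      field_simp
    rw [h4] at h3
    exact h3
  rw [Real.log_mul h2.ne' (pow_ne_zero 2 hn0.ne'), Real.log_pow]
  push_cast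
  nlinarith

end Pool.Agent.Work.MP_bf01b2_co.Sh
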