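import Pool.Agent.Work.MP_bf01b2_co.Sh.StmtsT

/-!
# MP_bf01b2_co, part T, item NT: the numerical condition holds for large scales
-/

set_option autoImplicit false

namespace Pool.Agent.Work.MP_bf01b2_co.Sh

open Pool.Agent.Work.MP_bf01b2_co.Bd

open Pool.Agent.Work.MP_bf01b2_co.Fw

open Classical

namespace ITNT

theorem large (C am : ℝ) (hC : 0 < C) (ham : 0 < am) :
    ∃ r2 : ℕ, ∀ r : ℕ, r2 ≤ r → C * (r : ℝ) ^ 6 ≤ am * 2 ^ r := by
  have h1 := tendsto_pow_const_div_const_pow_of_one_lt 6 (show (1 : ℝ) < 2 by norm_num)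
  have h2 := h1.eventually (Iio_mem_nhds (show (0 : ℝ) < am / C by positivity))
  obtain ⟨r2, h3⟩ := Filter.eventually_atTop.1 h2
  refine ⟨r2, fun r hr => ?_⟩
  have h4 : (r : ℝ) ^ 6 / 2 ^ r < am / C := h3 r hr
  rw [div_lt_div_iff₀ (by positivity) hC] at h4
  linarith

theorem main (k r : ℕ) (am a : ℝ) (ham : 0 < am) (ha : am ≤ a) (hr : 46 ≤ r)
    (hbig : (31 * (30 + (k : ℝ))) * (r : ℝ) ^ 6 ≤ am * 2 ^ r) : NumF k r a := by
  have ha0 : 0 < a := ham.trans_le ha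
  have hr' : (46 : ℝ) ≤ r := by exact_mod_cast hr
  have hr0 : (0 : ℝ) < r := by linarith
  have hr1 : (0 : ℝ) < (r : ℝ) - 1 := by linarith
  have hk : (0 : ℝ) ≤ k := Nat.cast_nonneg k
  have hcast : ((r - 1 : ℕ) : ℝ) = (r : ℝ) - 1 := by
    rw [Nat.cast_sub (by omega)]; norm_num
  have hpow : (2 : ℝ) ^ r = 2 * 2 ^ (r - 1) := by
    rw [← pow_succ']; congr 1; omega
  set P : ℝ := 2 ^ r with hP
  have hPpos : 0 < P := by positivity
  have hdiff : aa (r - 1) - aa r / 2 = 2 * P / (r * (r - 1)) := by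
    unfold aa
    rw [hcast]
    have : (2 : ℝ) ^ (r - 1) = P / 2 := by rw [hpow]; ring
    rw [this, ← hP]
    field_simp
    ring
  have hd2 : 2 * P / (r : ℝ) ^ 2 ≤ aa (r - 1) - aa r / 2 := by
    rw [hdiff]
    apply div_le_div_of_nonneg_left (by positivity) (by positivity)
    nlinarith
  have hbig' : (31 * (30 + (k : ℝ))) * (r : ℝ) ^ 6 ≤ a * P :=
    hbig.trans (mul_le_mul_of_nonneg_right ha hPpos.le)
  have hr4 : (1 : ℝ) ≤ (r : ℝ) ^ 4 := one_le_pow₀ (by linarith)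
  have h1 : 31 * (30 + (k : ℝ)) * (r : ℝ) ^ 4 ≤ a * (P / (r : ℝ) ^ 2) := by
    rw [← mul_div_assoc, le_div_iff₀ (by positivity)]
    calc 31 * (30 + (k : ℝ)) * (r : ℝ) ^ 4 * (r : ℝ) ^ 2 = 31 * (30 + (k : ℝ)) * (r : ℝ) ^ 6 := by
          ring
      _ ≤ a * P := hbig'
  have h31 : 31 ≤ a * (P / (r : ℝ) ^ 2) := by
    refine le_trans ?_ h1
    nlinarith
  have hD : 2 * (a * (P / (r : ℝ) ^ 2)) ≤ a * (aa (r - 1) - aa r / 2) := by
    have h2 := mul_le_mul_of_nonneg_left hd2 ha0.le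
    calc 2 * (a * (P / (r : ℝ) ^ 2)) = a * (2 * P / (r : ℝ) ^ 2) := by ring
      _ ≤ _ := h2
  refine ⟨by linarith, ?_⟩
  have hD2 : a * (P / (r : ℝ) ^ 2) ≤ a * (aa (r - 1) - aa r / 2) - 31 := by linarith
  have hsq : (a * (P / (r : ℝ) ^ 2)) ^ 2 ≤ (a * (aa (r - 1) - aa r / 2) - 31) ^ 2 :=
    pow_le_pow_left₀ (by positivity) hD2 2
  have haa : aa r ≤ P * 2 := by
    unfold aa
    rw [← hP]
    apply mul_le_mul_of_nonneg_left _ hPpos.le
    have : 4 / (r : ℝ) ≤ 1 := by rw [div_le_one hr0]; linarith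
    linarith
  have haa0 : 0 < aa r := by
    unfold aa
    positivity
  rw [le_div_iff₀ (by positivity)]
  have h5 : 20 * (r : ℝ) ^ 2 + r + k + 8 ≤ (30 + (k : ℝ)) * (r : ℝ) ^ 2 := by
    have h6 : (1 : ℝ) ≤ (r : ℝ) ^ 2 := one_le_pow₀ (by linarith)
    have h7 : (k : ℝ) ≤ k * (r : ℝ) ^ 2 := le_mul_of_one_le_right hk h6
    nlinarith
  calc (20 * (r : ℝ) ^ 2 + r + k + 8) * (31 * (a * aa r))
      ≤ ((30 + (k : ℝ)) * (r : ℝ) ^ 2) * (31 * (a * (P * 2))) := by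
        apply mul_le_mul h5 _ (by positivity) (by positivity)
        have := mul_le_mul_of_nonneg_left haa ha0.le
        linarith
    _ ≤ 2 * (a * (P / (r : ℝ) ^ 2)) ^ 2 := by
        have h6 : 2 * (a * (P / (r : ℝ) ^ 2)) ^ 2 = 2 * a * P * (a * P / (r : ℝ) ^ 4) := by
          field_simp
        rw [h6]
        have h7 : 31 * (30 + (k : ℝ)) * (r : ℝ) ^ 2 ≤ a * P / (r : ℝ) ^ 4 := by
          rw [le_div_iff₀ (by positivity)]
          calc 31 * (30 + (k : ℝ)) * (r : ℝ) ^ 2 * (r : ℝ) ^ 4 =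
                31 * (30 + (k : ℝ)) * (r : ℝ) ^ 6 := by ring
            _ ≤ a * P := hbig'
        have h8 := mul_le_mul_of_nonneg_left h7 (show 0 ≤ 2 * a * P by positivity)
        calc ((30 + (k : ℝ)) * (r : ℝ) ^ 2) * (31 * (a * (P * 2))) =
              2 * a * P * (31 * (30 + (k : ℝ)) * (r : ℝ) ^ 2) := by ring
          _ ≤ _ := h8
    _ ≤ 2 * (a * (aa (r - 1) - aa r / 2) - 31) ^ 2 := by linarith

end ITNT

theorem pr_NT : StNT := by
  intro k am ham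
  obtain ⟨r2, h⟩ := ITNT.large (31 * (30 + (k : ℝ))) am (by positivity) ham
  refine ⟨max 46 r2, le_max_left _ _, fun r hr a ha => ?_⟩
  exact ITNT.main k r am a ham ha ((le_max_left _ _).trans hr) (h r ((le_max_right _ _).trans hr))

end Pool.Agent.Work.MP_bf01b2_co.Sh
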