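import Pool.Agent.Work.MP_bf01b2_co.Sh.StmtsT
import Pool.Agent.Work.MP_bf01b2_co.Bd.HA

/-!
# MP_bf01b2_co, theorem SHALLOW, item RC: combinatorics of the weights `cw`
-/

set_option autoImplicit false

namespace Pool.Agent.Work.MP_bf01b2_co.Sh

open Pool.Agent.Work.MP_bf01b2_co.Bd

open Pool.Agent.Work.MP_bf01b2_co.Fw

open Classical

namespace ITRC

variable {X Y : Type}

theorem sum_eq (S K : Finset (List Bool)) (φ : List Bool → X) (M : Y → X → X) (Ys : Finset Y)
    (u : X) : ∑ v ∈ S, cw K φ M Ys u v =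
      ((∑ y ∈ Ys, ((S.filter fun v => v ∈ K).filter fun v => φ v = M y u).card : ℕ) : ℝ) := by
  have h1 : ∀ v ∈ S, cw K φ M Ys u v =
      ∑ y ∈ Ys, (if v ∈ K ∧ φ v = M y u then (1 : ℝ) else 0) := by
    intro v _
    unfold cw
    by_cases h : v ∈ K
    · rw [if_pos h]
      simp only [h, true_and]
      rw [Finset.sum_boole]
    · rw [if_neg h]
      simp [h]
  rw [Finset.sum_congr rfl h1, Finset.sum_comm, Nat.cast_sum]
  apply Finset.sum_congr rfl
  intro y _
  rw [Finset.sum_boole, Finset.filter_filter]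

theorem rc_eq (T K : Finset (List Bool)) (φ : List Bool → X) (M : Y → X → X) (Ys : Finset Y)
    (u : X) (hK : K ⊆ T) : ∑ v ∈ T, cw K φ M Ys u v = rc K φ M Ys u := by
  rw [sum_eq]
  unfold rc
  have h1 : (T.filter fun v => v ∈ K) = K := by
    ext v
    rw [Finset.mem_filter]
    exact ⟨fun h => h.2, fun h => ⟨hK h, h⟩⟩
  rw [h1]

theorem cw_nonneg (K : Finset (List Bool)) (φ : List Bool → X) (M : Y → X → X) (Ys : Finset Y)
    (u : X) (v : List Bool) : 0 ≤ cw K φ M Ys u v := by
  unfold cw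
  split_ifs
  · exact Nat.cast_nonneg _
  · exact le_rfl

theorem cw_le (K : Finset (List Bool)) (φ : List Bool → X) (M : Y → X → X) (Ys : Finset Y)
    (u : X) (v : List Bool) (h : Set.InjOn (fun y => M y u) Ys) : cw K φ M Ys u v ≤ 1 := by
  unfold cw
  split_ifs
  · have h1 : (Ys.filter fun y => φ v = M y u).card ≤ 1 := by
      rw [Finset.card_le_one]
      intro a ha b hb
      obtain ⟨ha1, ha2⟩ := Finset.mem_filter.mp ha
      obtain ⟨hb1, hb2⟩ := Finset.mem_filter.mp hb
      exact h (Finset.mem_coe.mpr ha1) (Finset.mem_coe.mpr hb1) (ha2.symm.trans hb2)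
    exact_mod_cast h1
  · exact zero_le_one

theorem cw_ne (K : Finset (List Bool)) (φ : List Bool → X) (M : Y → X → X) (Ys : Finset Y)
    (u : X) (v : List Bool) (h : cw K φ M Ys u v ≠ 0) :
    v ∈ K ∧ (∃ y ∈ Ys, φ v = M y u) ∧ 1 ≤ cw K φ M Ys u v := by
  unfold cw at h ⊢
  by_cases hv : v ∈ K
  · rw [if_pos hv] at h ⊢
    have h1 : (Ys.filter fun y => φ v = M y u).card ≠ 0 := by
      intro h2
      apply h
      rw [h2, Nat.cast_zero]
    obtain ⟨y, hy⟩ := Finset.card_pos.mp (Nat.pos_of_ne_zero h1)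
    obtain ⟨hy1, hy2⟩ := Finset.mem_filter.mp hy
    refine ⟨hv, ⟨y, hy1, hy2⟩, ?_⟩
    exact_mod_cast Nat.one_le_iff_ne_zero.mpr h1
  · rw [if_neg hv] at h
    exact absurd rfl h

theorem bel_card (T : Finset (List Bool)) (D : ℕ) (q : List Bool) :
    (T.filter fun v => Bel D q v).card ≤ 2 ^ (D + 1) := by
  apply ha_ext _ q D
  intro v hv
  exact (Finset.mem_filter.mp hv).2

end ITRC

open ITRC in
theorem pr_RC : StRC := by
  intro X Y T φ M
  refine ⟨fun K Ys u hK => rc_eq T K φ M Ys u hK, ?_, ?_⟩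
  · intro K Ys u b hK
    rw [sum_eq]
    unfold rc
    congr 1
    apply Finset.sum_congr rfl
    intro y _
    apply le_antisymm
    · apply Finset.card_le_card
      intro v hv
      simp only [Finset.mem_filter, Prod.mk.injEq] at hv ⊢
      exact ⟨hv.1.2, hv.2, hv.1.1.2⟩
    · apply Finset.card_le_card
      intro v hv
      simp only [Finset.mem_filter, Prod.mk.injEq] at hv ⊢
      exact ⟨⟨⟨hK hv.1, hv.2.2⟩, hv.1⟩, hv.2.1⟩
  · intro hM
    refine ⟨fun K Ys u v h => ⟨cw_nonneg K φ M Ys u v, cw_le K φ M Ys u v h⟩, ?_, ?_, ?_⟩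
    · intro K Ys u hK
      rw [← rc_eq T K φ M Ys u hK]
      have h1 : ((T.filter fun v => cw K φ M Ys u v ≠ 0).card : ℝ) =
          ∑ v ∈ T.filter (fun v => cw K φ M Ys u v ≠ 0), (1 : ℝ) := by
        rw [Finset.sum_const, nsmul_eq_mul, mul_one]
      rw [h1]
      refine (Finset.sum_le_sum fun v hv => (cw_ne K φ M Ys u v
        (Finset.mem_filter.mp hv).2).2.2).trans ?_
      exact Finset.sum_le_sum_of_subset_of_nonneg (Finset.filter_subset _ _)
        fun v _ _ => cw_nonneg K φ M Ys u v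
    · intro K Ys u D q h
      refine (Finset.sum_le_sum fun v _ => cw_le K φ M Ys u v h).trans ?_
      rw [Finset.sum_const, nsmul_eq_mul, mul_one]
      exact_mod_cast bel_card T D q
    · intro k k3 D K E Nm q s hNm
      set F := s.filter fun j => ∃ v ∈ T, Bel D q v ∧
          cw (K j.1) φ M (E j.2.1) j.2.2 v ≠ 0 with hF
      have h1 : ∀ j ∈ F, ∃ a : List Bool × Y, a.1 ∈ T.filter (fun v => Bel D q v) ∧
          a.2 ∈ E j.2.1 ∧ φ a.1 = M a.2 j.2.2 := by
        intro j hj
        obtain ⟨-, v, hv, hv2, hv3⟩ := Finset.mem_filter.mp hj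
        obtain ⟨-, ⟨y, hy, hy2⟩, -⟩ := cw_ne _ _ _ _ _ _ hv3
        exact ⟨(v, y), Finset.mem_filter.mpr ⟨hv, hv2⟩, hy, hy2⟩
      rcases F.eq_empty_or_nonempty with h0 | ⟨j0, hj0⟩
      · rw [h0, Finset.card_empty, Nat.cast_zero]
        rcases Nat.eq_zero_or_pos k3 with hk | hk
        · rw [hk]
          simp
        · have h6 : 0 ≤ Nm := le_trans (Nat.cast_nonneg _) (hNm ⟨0, hk⟩)
          positivity
      have : Nonempty Y := ⟨(h1 j0 hj0).choose.2⟩
      choose! f hf1 hf2 hf3 using h1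
      have h2 : F.card ≤ ((Finset.univ : Finset (Fin k)) ×ˢ
          ((Finset.univ : Finset (Fin k3)).sigma fun g =>
            (T.filter (fun v => Bel D q v)) ×ˢ E g)).card := by
        apply Finset.card_le_card_of_injOn (fun j => (j.1, ⟨j.2.1, (f j).1, (f j).2⟩))
        · intro j hj
          simp only [Finset.coe_product, Set.mem_prod, Finset.mem_coe, Finset.mem_univ, true_and,
            Finset.mem_sigma, Finset.mem_product]
          exact ⟨hf1 j hj, hf2 j hj⟩
        · rintro ⟨t, g, u⟩ hj ⟨t', g', u'⟩ hj' hjj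
          simp only [Prod.mk.injEq, Sigma.mk.injEq] at hjj
          obtain ⟨e1, e2, e3⟩ := hjj
          subst e1 e2
          have e4 := eq_of_heq e3
          rw [Prod.mk.injEq] at e4
          have e5 := hf3 _ hj
          have e6 := hf3 _ hj'
          simp only at e5 e6
          rw [e4.1, e4.2] at e5
          have e7 := hM _ (e5.symm.trans e6)
          rw [e7]
      have h3 : (F.card : ℝ) ≤ (k : ℝ) * ∑ g : Fin k3,
          ((T.filter (fun v => Bel D q v)).card * (E g).card : ℝ) := by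
        have h4 := h2
        rw [Finset.card_product, Finset.card_sigma, Finset.card_univ, Fintype.card_fin] at h4
        simp only [Finset.card_product] at h4
        exact_mod_cast h4
      refine h3.trans ?_
      have h5 : ∑ g : Fin k3, ((T.filter (fun v => Bel D q v)).card * (E g).card : ℝ) ≤
          ∑ _g : Fin k3, (2 ^ (D + 1) * Nm : ℝ) := by
        apply Finset.sum_le_sum
        intro g _
        have h6 : ((T.filter (fun v => Bel D q v)).card : ℝ) ≤ 2 ^ (D + 1) := by
          exact_mod_cast bel_card T D q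
        exact mul_le_mul h6 (hNm g) (Nat.cast_nonneg _) (by positivity)
      rw [Finset.sum_const, Finset.card_univ, Fintype.card_fin, nsmul_eq_mul] at h5
      calc (k : ℝ) * ∑ g : Fin k3, ((T.filter (fun v => Bel D q v)).card * (E g).card : ℝ)
          ≤ k * (k3 * (2 ^ (D + 1) * Nm)) := mul_le_mul_of_nonneg_left h5 (Nat.cast_nonneg _)
        _ = k * k3 * Nm * 2 ^ (D + 1) := by ring

end Pool.Agent.Work.MP_bf01b2_co.Sh
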