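import Pool.Agent.Work.MP_bf01b2_co.Sh.StmtsT

/-!
# MP_bf01b2_co, theorem SHALLOW, part T, item RI: phase B, all steps
-/

set_option autoImplicit false

namespace Pool.Agent.Work.MP_bf01b2_co.Sh

open Pool.Agent.Work.MP_bf01b2_co.Bd

open Pool.Agent.Work.MP_bf01b2_co.Fw

open Classical

namespace ITRI

theorem fib_mono {X Y : Type} (T : Finset (List Bool)) (φ : List Bool → X) (ψ : List Bool → Y)
    (a b : ℝ) (hab : a ≤ b) (h : ∀ y : Y, ∃ x : X, ∀ v, ψ v = y → φ v = x) (hf : FibLe T φ a) :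
    FibLe T ψ b := by
  intro y
  obtain ⟨x, hx⟩ := h y
  refine le_trans ?_ ((hf x).trans hab)
  apply Nat.cast_le.mpr
  apply Finset.card_le_card
  intro v hv
  rw [Finset.mem_filter] at hv ⊢
  exact ⟨hv.1, hx v hv.2⟩

theorem memf {α : Type} (p : α → Prop) (inst : DecidablePred p) (s : Finset α) (a : α) :
    a ∈ @Finset.filter α p inst s ↔ a ∈ s ∧ p a := Finset.mem_filter

/-- The constant of phase B. -/
noncomputable def ww (a : ℝ) (r r2 : ℕ) : ℝ :=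
  a * 2 ^ r * (1 + 4 / (r2 : ℝ)) * Real.exp ((1 / 2) ^ r)

theorem tr_inj (y : ℕ × ℕ) : Function.Injective (tr y) := by
  intro u v h
  unfold tr at h
  obtain ⟨h1, h2⟩ := Prod.mk.inj h
  exact Prod.ext (add_right_cancel h1) h2

theorem tr_injOn (E : Finset (ℕ × ℕ)) (u : (ℕ × ℕ → ZMod 2) × (ℕ → Bool)) :
    Set.InjOn (fun y => tr y u) E := by
  intro y _ z _ h
  simp only [tr] at h
  obtain ⟨h1, -⟩ := Prod.mk.inj h
  have h2 := add_left_cancel h1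
  have h3 := congrFun h2 y
  rw [Pi.single_eq_same] at h3
  by_contra hne
  rw [Pi.single_eq_of_ne hne] at h3
  exact one_ne_zero h3

theorem upd {s : ℕ} (B c I : ℕ) (ω : List Bool → Opt s) (κ : ℕ → List Bool → Bool)
    (κ0 : List Bool → Bool) (hc1 : 1 ≤ c) (hcI : c ≤ I) (v : List Bool) (x : ℕ × ℕ → ZMod 2)
    (g : ℕ → Bool) (hv : Ps B (c - 1) I ω (Function.update κ c κ0) v = (x, g)) :
    (Ps B c I ω κ v, bit (fun t => col t = c) κ0 v) =
      ((x, fun c' => if c < c' ∧ c' ≤ I then g c' else false), g c) := by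
  obtain ⟨h3, h4⟩ := Prod.mk.inj hv
  refine Prod.ext (Prod.ext h3 ?_) ?_
  · funext c'
    have h5 : (if c - 1 < c' ∧ c' ≤ I then
        bit (fun t => col t = c') (Function.update κ c κ0 c') v else false) = g c' :=
      congrFun h4 c'
    simp only [Ps]
    by_cases h6 : c < c' ∧ c' ≤ I
    · rw [if_pos h6, if_pos h6, ← h5]
      rw [if_pos ⟨by omega, h6.2⟩, Function.update_of_ne (by omega)]
    · rw [if_neg h6, if_neg h6]
  · have h5 : (if c - 1 < c ∧ c ≤ I then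
        bit (fun t => col t = c) (Function.update κ c κ0 c) v else false) = g c :=
      congrFun h4 c
    rw [if_pos ⟨by omega, hcI⟩, Function.update_self] at h5
    exact h5

theorem rc_upd {s : ℕ} (B c I : ℕ) (ω : List Bool → Opt s) (κ : ℕ → List Bool → Bool)
    (κ0 : List Bool → Bool) (hc1 : 1 ≤ c) (hcI : c ≤ I) (K : Finset (List Bool))
    (E : Finset (ℕ × ℕ)) (u : (ℕ × ℕ → ZMod 2) × (ℕ → Bool)) :
    rc K (Ps B (c - 1) I ω (Function.update κ c κ0)) tr E u ≤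
      rc K (fun v => (Ps B c I ω κ v, bit (fun t => col t = c) κ0 v))
        (fun y (w : ((ℕ × ℕ → ZMod 2) × (ℕ → Bool)) × Bool) => (tr y w.1, w.2)) E
        ((u.1, fun c' => if c < c' ∧ c' ≤ I then u.2 c' else false), u.2 c) := by
  unfold rc
  apply Finset.sum_le_sum
  intro y _
  apply Finset.card_le_card
  intro v hv
  have hv' := (memf _ _ _ _).mp hv
  exact (memf _ _ _ _).mpr ⟨hv'.1,
    upd B c I ω κ κ0 hc1 hcI v (u.1 + Pi.single y 1) u.2 hv'.2⟩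

theorem ww_le (a : ℝ) (r r2 : ℕ) (ha0 : 0 < a) (ha : a ≤ 2) (hr : 46 ≤ r) (hr2 : r ≤ r2) :
    0 < ww a r r2 ∧ ww a r r2 ≤ 2 ^ (r + 2) := by
  have hr2' : (46 : ℝ) ≤ r2 := by exact_mod_cast hr.trans hr2
  have h0 : (0 : ℝ) < r2 := by linarith
  have h1 : 1 + 4 / (r2 : ℝ) ≤ 11 / 10 := by
    have : 4 / (r2 : ℝ) ≤ 1 / 10 := by
      rw [div_le_iff₀ h0]
      linarith
    linarith
  have h1' : (0 : ℝ) < 1 + 4 / (r2 : ℝ) := by positivity
  have h2 : Real.exp ((1 / 2) ^ r) ≤ 17 / 10 := by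
    have h3 : ((1 / 2 : ℝ)) ^ r ≤ 1 / 2 := by
      calc ((1 / 2 : ℝ)) ^ r ≤ (1 / 2) ^ 1 :=
            pow_le_pow_of_le_one (by norm_num) (by norm_num) (by omega)
        _ = 1 / 2 := pow_one _
    have h4 : Real.exp (1 / 2) ≤ 17 / 10 := by
      have h5 : Real.exp (1 / 2) * Real.exp (1 / 2) = Real.exp 1 := by
        rw [← Real.exp_add]; norm_num
      have h6 := Real.exp_one_lt_d9
      have h7 := Real.exp_pos (1 / 2)
      by_contra hneg
      push Not at hneg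
      nlinarith
    exact (Real.exp_le_exp.mpr h3).trans h4
  have h3 : (0 : ℝ) < 2 ^ r := by positivity
  have h4 := Real.exp_pos ((1 / 2 : ℝ) ^ r)
  constructor
  · unfold ww
    positivity
  · unfold ww
    calc a * 2 ^ r * (1 + 4 / (r2 : ℝ)) * Real.exp ((1 / 2) ^ r)
        ≤ 2 * 2 ^ r * (11 / 10) * (17 / 10) := by
          apply mul_le_mul _ h2 h4.le (by positivity)
          apply mul_le_mul _ h1 h1'.le (by positivity)
          exact mul_le_mul_of_nonneg_right ha h3.le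
      _ ≤ 2 ^ (r + 2) := by
          rw [pow_add]
          nlinarith

/-- The change of the constant in one step. -/
theorem ww_step (a : ℝ) (r r2 : ℕ) (ha : 0 < a) (hr : 46 ≤ r) (hr2 : r ≤ r2) :
    ww a r r2 / 2 * (1 + (1 / 2) ^ r) ≤ ww a (r - 1) r2 := by
  have hr2' : (46 : ℝ) ≤ r2 := by exact_mod_cast hr.trans hr2
  have h0 : (0 : ℝ) < r2 := by linarith
  have h1 : ∃ q, r = q + 1 := ⟨r - 1, by omega⟩
  obtain ⟨q, rfl⟩ := h1
  rw [Nat.add_sub_cancel]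
  unfold ww
  have h2 : 1 + (1 / 2 : ℝ) ^ (q + 1) ≤ Real.exp ((1 / 2) ^ (q + 1)) := by
    have := Real.add_one_le_exp ((1 / 2 : ℝ) ^ (q + 1))
    linarith
  have h3 : Real.exp ((1 / 2) ^ q) =
      Real.exp ((1 / 2) ^ (q + 1)) * Real.exp ((1 / 2) ^ (q + 1)) := by
    rw [← Real.exp_add]
    congr 1
    rw [pow_succ]
    ring
  rw [h3]
  have h4 := Real.exp_pos ((1 / 2 : ℝ) ^ (q + 1))
  calc a * 2 ^ (q + 1) * (1 + 4 / (r2 : ℝ)) * Real.exp ((1 / 2) ^ (q + 1)) / 2 *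
        (1 + (1 / 2) ^ (q + 1))
      = a * 2 ^ q * (1 + 4 / (r2 : ℝ)) * Real.exp ((1 / 2) ^ (q + 1)) *
        (1 + (1 / 2) ^ (q + 1)) := by rw [pow_succ 2 q]; ring
    _ ≤ a * 2 ^ q * (1 + 4 / (r2 : ℝ)) * Real.exp ((1 / 2) ^ (q + 1)) *
        Real.exp ((1 / 2) ^ (q + 1)) := by
        apply mul_le_mul_of_nonneg_left h2
        positivity
    _ = _ := by ring

/-- The numerical condition of a step. -/
theorem num (r r2 D k k3 : ℕ) (a am N Nm e : ℝ) (hr : 46 ≤ r) (hr2 : r ≤ r2)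
    (hD : D ≤ 20 * r2 ^ 2) (ham : 0 < am) (hN : 0 < N) (ha : am ≤ a) (hNe : N ≤ e)
    (hNm : 1 ≤ Nm)
    (hnum : 2 ^ (20 * r2 ^ 2 + 2 * r2 + 7) *
      (Real.log (((k * k3 + 1 : ℕ) : ℝ) * 2 ^ (20 * r2 ^ 2 + r2 + 6) * Nm ^ 2) + 2) ≤ am * N) :
    2 ^ (20 * r ^ 2 + 7) *
      (Real.log (((k * k3 + 1 : ℕ) : ℝ) * 2 ^ (D + r + 6) * Nm ^ 2) + 2) ≤
        ((1 / 2 : ℝ) ^ r) ^ 2 * (ww a r r2 * e) := by
  have hr2' : (46 : ℝ) ≤ r2 := by exact_mod_cast hr.trans hr2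
  have h0 : (0 : ℝ) < r2 := by linarith
  have hk : (1 : ℝ) ≤ ((k * k3 + 1 : ℕ) : ℝ) := by exact_mod_cast Nat.le_add_left 1 _
  have hNm2 : 1 ≤ Nm ^ 2 := one_le_pow₀ hNm
  have hA1 : (1 : ℝ) ≤ ((k * k3 + 1 : ℕ) : ℝ) * 2 ^ (D + r + 6) * Nm ^ 2 := by
    have h1 : (1 : ℝ) ≤ 2 ^ (D + r + 6) := one_le_pow₀ (by norm_num)
    have h2 : (1 : ℝ) ≤ ((k * k3 + 1 : ℕ) : ℝ) * 2 ^ (D + r + 6) := by nlinarith
    nlinarith
  have hA2 : ((k * k3 + 1 : ℕ) : ℝ) * 2 ^ (D + r + 6) * Nm ^ 2 ≤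
      ((k * k3 + 1 : ℕ) : ℝ) * 2 ^ (20 * r2 ^ 2 + r2 + 6) * Nm ^ 2 := by
    apply mul_le_mul_of_nonneg_right _ (by positivity)
    apply mul_le_mul_of_nonneg_left _ (by positivity)
    exact pow_le_pow_right₀ (by norm_num) (by omega)
  have hL1 : Real.log (((k * k3 + 1 : ℕ) : ℝ) * 2 ^ (D + r + 6) * Nm ^ 2) ≤
      Real.log (((k * k3 + 1 : ℕ) : ℝ) * 2 ^ (20 * r2 ^ 2 + r2 + 6) * Nm ^ 2) :=
    Real.log_le_log (by linarith) hA2
  have hL0 : 0 ≤ Real.log (((k * k3 + 1 : ℕ) : ℝ) * 2 ^ (D + r + 6) * Nm ^ 2) :=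
    Real.log_nonneg hA1
  set L1 := Real.log (((k * k3 + 1 : ℕ) : ℝ) * 2 ^ (D + r + 6) * Nm ^ 2)
  set L2 := Real.log (((k * k3 + 1 : ℕ) : ℝ) * 2 ^ (20 * r2 ^ 2 + r2 + 6) * Nm ^ 2)
  have hrr : r ^ 2 ≤ r2 ^ 2 := Nat.pow_le_pow_left hr2 2
  have h1 : (2 : ℝ) ^ r * (2 ^ (20 * r ^ 2 + 7) * (L1 + 2)) ≤ am * N := by
    refine le_trans ?_ hnum
    rw [← mul_assoc, ← pow_add]
    apply mul_le_mul _ (by linarith) (by linarith) (by positivity)
    exact pow_le_pow_right₀ (by norm_num) (by omega)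
  have h2 : am * N ≤ a * e := mul_le_mul ha hNe hN.le (by linarith)
  have hae : 0 < a * e := lt_of_lt_of_le (mul_pos ham hN) h2
  have h3 : a * e ≤ (2 : ℝ) ^ r * (((1 / 2 : ℝ) ^ r) ^ 2 * (ww a r r2 * e)) := by
    unfold ww
    have h4 : (2 : ℝ) ^ r * (((1 / 2 : ℝ) ^ r) ^ 2 *
        (a * 2 ^ r * (1 + 4 / (r2 : ℝ)) * Real.exp ((1 / 2) ^ r) * e)) =
        a * e * ((1 + 4 / (r2 : ℝ)) * Real.exp ((1 / 2) ^ r)) *
          ((2 : ℝ) ^ r * (1 / 2) ^ r) ^ 2 := by ring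
    rw [h4]
    have h5 : (2 : ℝ) ^ r * (1 / 2) ^ r = 1 := by
      rw [← mul_pow]; norm_num
    rw [h5, one_pow, mul_one]
    have h6 : (1 : ℝ) ≤ 1 + 4 / (r2 : ℝ) := by
      have : 0 ≤ 4 / (r2 : ℝ) := by positivity
      linarith
    have h7 : (1 : ℝ) ≤ Real.exp ((1 / 2) ^ r) := Real.one_le_exp (by positivity)
    have h8 : (1 : ℝ) ≤ (1 + 4 / (r2 : ℝ)) * Real.exp ((1 / 2) ^ r) := by nlinarith
    nlinarith
  have h9 : (0 : ℝ) < 2 ^ r := by positivity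
  have h10 := h1.trans (h2.trans h3)
  exact le_of_mul_le_mul_left h10 h9

theorem ind (h1 : StRS) (h2 : RulThm) (h3 : StNP) (s B r0 r2 I k k3 : ℕ)
    (T : Finset (List Bool)) (ω : List Bool → Opt s)
    (κ : ℕ → List Bool → Bool) (K : Fin k → Finset (List Bool))
    (E : Fin k3 → Finset (ℕ × ℕ)) (a : Fin k → ℝ) (am N Nm : ℝ) (h45 : 45 ≤ r0) (h02 : r0 ≤ r2)
    (hI : r2 - r0 ≤ I) (hnear : NearD T (Bd.P B ω) (20 * I ^ 2)) (hKT : ∀ t, K t ⊆ T)
    (ham : 0 < am) (hN : 0 < N) (ha : ∀ t, am ≤ a t) (ha2 : ∀ t, a t ≤ 2)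
    (hE1 : ∀ f, N ≤ ((E f).card : ℝ)) (hE2 : ∀ f, ((E f).card : ℝ) ≤ Nm) (hNm : 1 ≤ Nm)
    (hnum : 2 ^ (20 * r2 ^ 2 + 2 * r2 + 7) *
      (Real.log (((k * k3 + 1 : ℕ) : ℝ) * 2 ^ (20 * r2 ^ 2 + r2 + 6) * Nm ^ 2) + 2) ≤ am * N)
    (hT : FibLe T (Ps B (r2 - r0) I ω κ) (aa r2))
    (hK : ∀ t, FibLe (K t) (Ps B (r2 - r0) I ω κ) (a t * aa r2)) :
    ∀ d : ℕ, d ≤ r2 - r0 → ∃ κ' : ℕ → List Bool → Bool,
      FibLe T (Ps B (r2 - r0 - d) I ω κ') (aa (r2 - d)) ∧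
      ∀ t f u, (rc (K t) (Ps B (r2 - r0 - d) I ω κ') tr (E f) u : ℝ) ≤
        ww (a t) (r2 - d) r2 * (E f).card := by
  intro d
  induction d with
  | zero =>
    intro _
    refine ⟨κ, ?_, fun t f u => ?_⟩
    · rw [Nat.sub_zero, Nat.sub_zero]
      exact hT
    · rw [Nat.sub_zero, Nat.sub_zero]
      unfold rc
      push_cast
      refine (Finset.sum_le_sum fun y _ => hK t (tr y u)).trans ?_
      calc ∑ y ∈ E f, a t * aa r2
          = a t * aa r2 * (E f).card := by rw [Finset.sum_const, nsmul_eq_mul]; ring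
        _ ≤ ww (a t) r2 r2 * (E f).card := by
            apply mul_le_mul_of_nonneg_right _ (by positivity)
            unfold ww aa
            have h4 : (1 : ℝ) ≤ Real.exp ((1 / 2) ^ r2) := Real.one_le_exp (by positivity)
            have h5 : (0 : ℝ) ≤ a t * 2 ^ r2 * (1 + 4 / (r2 : ℝ)) := by
              have := ham.trans_le (ha t)
              positivity
            nlinarith
  | succ d ih =>
    intro hd
    obtain ⟨κ', hκ1, hκ2⟩ := ih (by omega)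
    set c := r2 - r0 - d with hc
    set r := r2 - d with hr
    have hc1 : 1 ≤ c := by omega
    have hcI : c ≤ I := by omega
    have hcd : r2 - r0 - (d + 1) = c - 1 := by omega
    have hrd : r2 - (d + 1) = r - 1 := by omega
    have hr46 : 46 ≤ r := by omega
    have hcr : c ≤ r := by omega
    have hrr2 : r ≤ r2 := by omega
    have hc2 : c ^ 2 ≤ r ^ 2 := Nat.pow_le_pow_left hcr 2
    have hr22 : r ^ 2 ≤ r2 ^ 2 := Nat.pow_le_pow_left hrr2 2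
    have ha0 : ∀ t, 0 < a t := fun t => ham.trans_le (ha t)
    obtain ⟨κ0, h4, h5⟩ := h1 ((ℕ × ℕ → ZMod 2) × (ℕ → Bool)) (ℕ × ℕ) T (Ps B c I ω κ')
      (fun t => col t = c) (20 * c ^ 2) r k k3 tr K E (fun t => ww (a t) r r2) ((1 / 2) ^ r) Nm
      hr46 (by omega) (h2 c hc1) (by
        intro u hu v hv huv t ht1 ht2 ht3 ht4 ht5
        have hc3 : c ^ 2 ≤ I ^ 2 := Nat.pow_le_pow_left hcI 2
        exact hnear u hu v hv (Prod.mk.inj huv).1 t ht1 ht2 ht3 (by omega) (by omega))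
      hκ1 tr_inj (fun f u => tr_injOn (E f) u) hKT (by positivity)
      (pow_le_one₀ (by norm_num) (by norm_num)) hNm (h3 r hr46)
      (fun t => (ww_le (a t) r r2 (ha0 t) (ha2 t) hr46 hrr2).2) hE2
      (fun t f => num r r2 (20 * c ^ 2) k k3 (a t) am N Nm ((E f).card : ℝ) hr46 hrr2
        (by omega) ham hN (ha t) (hE1 f) hNm hnum) hκ2
    refine ⟨Function.update κ' c κ0, ?_, fun t f u => ?_⟩
    · rw [hcd, hrd]
      refine fib_mono T _ _ _ _ le_rfl ?_ h4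
      rintro ⟨x, g⟩
      exact ⟨((x, fun c' => if c < c' ∧ c' ≤ I then g c' else false), g c),
        fun v hv => upd B c I ω κ' κ0 hc1 hcI v x g hv⟩
    · rw [hcd, hrd]
      have h6 := rc_upd B c I ω κ' κ0 hc1 hcI (K t) (E f) u
      have h7 : (rc (K t) (Ps B (c - 1) I ω (Function.update κ' c κ0)) tr (E f) u : ℝ) ≤
          (rc (K t) (fun v => (Ps B c I ω κ' v, bit (fun t => col t = c) κ0 v))
            (fun y (w : ((ℕ × ℕ → ZMod 2) × (ℕ → Bool)) × Bool) => (tr y w.1, w.2)) (E f)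
            ((u.1, fun c' => if c < c' ∧ c' ≤ I then u.2 c' else false), u.2 c) : ℝ) := by
        exact_mod_cast h6
      refine h7.trans ((h5 t f _).trans ?_)
      apply mul_le_mul_of_nonneg_right _ (by positivity)
      exact ww_step (a t) r r2 (ha0 t) hr46 hrr2

end ITRI

open ITRI in
theorem pr_RI (h1 : StRS) (h2 : RulThm) (h3 : StNP) : StRI := by
  intro s B r0 r2 I k k3 T ω κ K E a am N Nm h45 h02 hI hnear hKT ham hN ha ha2 hE1 hE2 hNm hnum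
    hT hK
  obtain ⟨κ', h4, h5⟩ := ind h1 h2 h3 s B r0 r2 I k k3 T ω κ K E a am N Nm h45 h02 hI hnear hKT
    ham hN ha ha2 hE1 hE2 hNm hnum hT hK (r2 - r0) le_rfl
  have h6 : r2 - r0 - (r2 - r0) = 0 := by omega
  have h7 : r2 - (r2 - r0) = r0 := by omega
  rw [h6, h7] at h4 h5
  have h8 : (Ps B 0 I ω κ' : List Bool → _) = Ph B I ω κ' := by
    funext v
    unfold Ps Ph
    refine Prod.ext rfl ?_
    funext c
    show (if 0 < c ∧ c ≤ I then bit (fun t => col t = c) (κ' c) v else false) =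
      (if 1 ≤ c ∧ c ≤ I then bit (fun t => col t = c) (κ' c) v else false)
    by_cases h9 : 1 ≤ c ∧ c ≤ I
    · rw [if_pos h9, if_pos ⟨by omega, h9.2⟩]
    · rw [if_neg h9, if_neg (by omega)]
  rw [h8] at h4 h5
  refine ⟨κ', h4, fun t f u => (h5 t f u).trans (le_of_eq ?_)⟩
  unfold ww
  ring

end Pool.Agent.Work.MP_bf01b2_co.Sh
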