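import Pool.Agent.Work.MP_bf01b2_co.Sh.StmtsT
import Pool.Agent.Work.MP_bf01b2_co.Bd.HA

/-!
# MP_bf01b2_co, theorem SHALLOW, item RS: one step of phase B
-/

set_option autoImplicit false

namespace Pool.Agent.Work.MP_bf01b2_co.Sh

open Pool.Agent.Work.MP_bf01b2_co.Bd

open Pool.Agent.Work.MP_bf01b2_co.Fw

open Classical

namespace ITRS

theorem bel_len {D : ℕ} {q v : List Bool} (h : Bel D q v) : q.length ≤ v.length := by
  have h1 := congrArg List.length h.1
  rw [List.length_take] at h1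
  omega

/-- group bound for fibres -/
theorem grp {X : Type} (T : Finset (List Bool)) (φ : List Bool → X) (D : ℕ)
    (hnear : NearD T φ D) (q : List Bool) (x : X) :
    (T.filter fun v => Bel D q v ∧ φ v = x).card ≤ 31 := by
  apply ha_same
  intro u hu v hv
  obtain ⟨hu1, hu2, hu4⟩ := Finset.mem_filter.mp hu
  obtain ⟨hv1, hv2, hv4⟩ := Finset.mem_filter.mp hv
  exact hnear u hu1 v hv1 (hu4.trans hv4.symm) q.length (bel_len hu2) (bel_len hv2)
    (hu2.1.trans hv2.1.symm) hu2.2 hv2.2

/-- number of fibres which are touched by a coin -/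
theorem touch {X : Type} (T : Finset (List Bool)) (φ : List Bool → X) (D : ℕ)
    (q : List Bool) (s : Finset X) :
    (s.filter fun x => ∃ v ∈ T, Bel D q v ∧ φ v = x).card ≤ 2 ^ (D + 1) := by
  have h1 : (s.filter fun x => ∃ v ∈ T, Bel D q v ∧ φ v = x) ⊆
      (T.filter fun v => Bel D q v).image φ := by
    intro x hx
    obtain ⟨-, v, hv, hv2, hv3⟩ := Finset.mem_filter.mp hx
    exact Finset.mem_image.mpr ⟨v, Finset.mem_filter.mpr ⟨hv, hv2⟩, hv3⟩
  refine (Finset.card_le_card h1).trans (Finset.card_image_le.trans ?_)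
  apply ha_ext _ q D
  intro v hv
  exact (Finset.mem_filter.mp hv).2

end ITRS

open ITRS in
theorem pr_RS (h1 : StCH) (h2 : StRC) (h3 : StRN) (h4 : HalfNum) : StRS := by
  intro X Y T φ p _ D r k k3 M K E w δ Nm hr hD hgap hnear hfib hM hE hK hδ hδ1 hNm hpr hw hEN
    hnum hrc
  obtain ⟨hn1, -⟩ := h4 r hr
  obtain ⟨c1, c2, c3⟩ := h2 X Y T φ M
  obtain ⟨c4, c5, c6, c7⟩ := c3 hM
  have hr0 : (0 : ℝ) < r := by
    have : (46 : ℝ) ≤ r := by exact_mod_cast hr
    linarith
  have haa0 : 0 < aa r := by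
    unfold aa
    positivity
  set κ : ℕ := k * k3 + 1 with hκ
  set x1 : ℝ := 3 * pr r with hx1
  set x2 : ℝ := 1 / ((κ : ℝ) * 2 ^ (D + r + 6) * Nm ^ 2) with hx2
  set μ : ℝ := 2 * (2 ^ (D + 1) * x1 + κ * Nm * 2 ^ (D + 1) * x2) with hμ
  obtain ⟨n1, n2, n3, n4, n5, n6, n7⟩ := h3 r D κ δ Nm hr hD (by omega) hNm hδ hδ1 hpr x1 x2 μ
    hx1 hx2 hμ
  -- sizes of the kind two
  have hLpos : 0 < Real.log ((κ : ℝ) * 2 ^ (D + r + 6) * Nm ^ 2) + 2 := by
    have h5 : 0 ≤ Real.log ((κ : ℝ) * 2 ^ (D + r + 6) * Nm ^ 2) := by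
      apply Real.log_nonneg
      have h6 : (1 : ℝ) ≤ κ := by
        rw [hκ]; push_cast
        have : (0 : ℝ) ≤ (k : ℝ) * k3 := by positivity
        linarith
      have h7 : (1 : ℝ) ≤ 2 ^ (D + r + 6) := one_le_pow₀ (by norm_num)
      have h8 : (1 : ℝ) ≤ Nm ^ 2 := one_le_pow₀ hNm
      exact one_le_mul_of_one_le_of_one_le (one_le_mul_of_one_le_of_one_le h6 h7) h8
    linarith
  have hWt : ∀ (t : Fin k) (f : Fin k3), w t * (E f).card ≤ 2 ^ (r + 2) * Nm := by
    intro t f
    have h5 : 0 ≤ ((E f).card : ℝ) := Nat.cast_nonneg _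
    have h6 : w t * ((E f).card : ℝ) ≤ 2 ^ (r + 2) * (E f).card :=
      mul_le_mul_of_nonneg_right (hw t) h5
    have h7 : (2 : ℝ) ^ (r + 2) * (E f).card ≤ 2 ^ (r + 2) * Nm :=
      mul_le_mul_of_nonneg_left (hEN f) (by positivity)
    linarith
  have hW2 : ∀ (t : Fin k) (f : Fin k3), 0 < w t * (E f).card ∧
      2 ^ (D + 1) ≤ δ * (w t * (E f).card) / 4 ∧
      Real.exp (-(2 * (δ * (w t * (E f).card) / 2 - 2 ^ (D + 1)) ^ 2 /
        (2 ^ (D + 1) * (w t * (E f).card)))) ≤
          x2 * Real.exp (-(2 * (w t * (E f).card) * μ)) :=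
    fun t f => n7 (w t * (E f).card) (hnum t f) (hWt t f)
  have ht2 : ∀ (t : Fin k) (f : Fin k3), 0 ≤ δ * (w t * (E f).card) / 2 - 2 ^ (D + 1) := by
    intro t f
    obtain ⟨a1, a2, -⟩ := hW2 t f
    have h5 : (0 : ℝ) < 2 ^ (D + 1) := by positivity
    linarith
  let c : X ⊕ (Fin k × Fin k3 × X) → List Bool → ℝ :=
    Sum.elim (fun x v => if φ v = x then 1 else 0)
      (fun j => cw (K j.1) φ M (E j.2.1) j.2.2)
  let W : X ⊕ (Fin k × Fin k3 × X) → ℝ :=
    Sum.elim (fun _ => aa r) (fun j => w j.1 * (E j.2.1).card)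
  let tt : X ⊕ (Fin k × Fin k3 × X) → ℝ :=
    Sum.elim (fun _ => aa (r - 1) - aa r / 2 - 31)
      (fun j => δ * (w j.1 * (E j.2.1).card) / 2 - 2 ^ (D + 1))
  let g : X ⊕ (Fin k × Fin k3 × X) → ℝ := Sum.elim (fun _ => 31) (fun _ => 2 ^ (D + 1))
  let x : X ⊕ (Fin k × Fin k3 × X) → ℝ := Sum.elim (fun _ => x1) (fun _ => x2)
  have hfibc : ∀ (x0 : X) (S : Finset (List Bool)),
      ∑ v ∈ S, (if φ v = x0 then (1 : ℝ) else 0) = ((S.filter fun v => φ v = x0).card : ℝ) := by
    intro x0 S
    rw [Finset.sum_boole]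
  obtain ⟨κ', hκ'⟩ := h1 (X ⊕ (Fin k × Fin k3 × X)) T p D c W tt g x W μ hgap
    (by
      rintro (x0 | ⟨t, f, u⟩) v
      · simp only [c, Sum.elim_inl]
        split_ifs <;> norm_num
      · exact (c4 (K t) (E f) u v (hE f u)).1)
    (by
      rintro (x0 | ⟨t, f, u⟩)
      · exact haa0
      · exact (hW2 t f).1)
    (by
      rintro (x0 | ⟨t, f, u⟩)
      · simp only [g, Sum.elim_inl]; norm_num
      · simp only [g, Sum.elim_inr]; positivity)
    (by
      rintro (x0 | ⟨t, f, u⟩)
      · simp only [tt, Sum.elim_inl]; linarith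
      · exact ht2 t f)
    (by
      rintro (x0 | ⟨t, f, u⟩)
      · exact n1
      · exact n3)
    (by
      rintro (x0 | ⟨t, f, u⟩)
      · exact n2
      · exact n4)
    n5
    (by
      rintro (x0 | ⟨t, f, u⟩)
      · simp only [c, W, Sum.elim_inl]
        rw [hfibc]
        exact hfib x0
      · simp only [c, W, Sum.elim_inr]
        rw [c1 (K t) (E f) u (hK t)]
        exact hrc t f u)
    (by
      rintro (x0 | ⟨t, f, u⟩) q
      · simp only [c, g, Sum.elim_inl]
        rw [hfibc, Finset.filter_filter]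
        have h5 := grp T φ D hnear q x0
        exact_mod_cast h5
      · simp only [c, g, Sum.elim_inr]
        exact c6 (K t) (E f) u D q (hE f u))
    (by
      rintro (x0 | ⟨t, f, u⟩)
      · simp only [c, W, Sum.elim_inl]
        have h5 : (T.filter fun v => (if φ v = x0 then (1 : ℝ) else 0) ≠ 0) =
            T.filter fun v => φ v = x0 := by
          apply Finset.filter_congr
          intro v _
          by_cases h : φ v = x0
          · simp [h]
          · simp [h]
        rw [h5]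
        exact hfib x0
      · simp only [c, W, Sum.elim_inr]
        exact (c5 (K t) (E f) u (hK t)).trans (hrc t f u))
    (by
      intro q s
      have e1 : ∑ j ∈ s.filter (fun j => ∃ v ∈ T, Bel D q v ∧ c j v ≠ 0), x j ≤
          2 ^ (D + 1) * x1 + κ * Nm * 2 ^ (D + 1) * x2 := by
        set S := s.filter (fun j => ∃ v ∈ T, Bel D q v ∧ c j v ≠ 0) with hS
        have e2 : ∑ j ∈ S, x j = ∑ j ∈ S.toLeft, x1 + ∑ j ∈ S.toRight, x2 := by
          rw [← Finset.toLeft_disjSum_toRight (u := S), Finset.sum_disjSum]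
          simp only [Finset.toLeft_disjSum_toRight]
          rfl
        have e3 : S.toLeft.card ≤ 2 ^ (D + 1) := by
          refine le_trans (Finset.card_le_card ?_) (touch T φ D q S.toLeft)
          intro y hy
          refine Finset.mem_filter.mpr ⟨hy, ?_⟩
          have h5 := Finset.mem_toLeft.mp hy
          obtain ⟨-, v, hv, hv2, hv3⟩ := Finset.mem_filter.mp h5
          refine ⟨v, hv, hv2, ?_⟩
          by_contra hcon
          apply hv3
          simp only [c, Sum.elim_inl]
          rw [if_neg hcon]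
        have e4 : (S.toRight.card : ℝ) ≤ k * k3 * Nm * 2 ^ (D + 1) := by
          refine le_trans ?_ (c7 k k3 D K E Nm q S.toRight hEN)
          have h6 : S.toRight.card ≤ (S.toRight.filter fun j => ∃ v ∈ T, Bel D q v ∧
              cw (K j.1) φ M (E j.2.1) j.2.2 v ≠ 0).card := by
            apply Finset.card_le_card
            intro y hy
            refine Finset.mem_filter.mpr ⟨hy, ?_⟩
            have h5 := Finset.mem_toRight.mp hy
            exact (Finset.mem_filter.mp h5).2
          exact_mod_cast h6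
        rw [e2, Finset.sum_const, Finset.sum_const, nsmul_eq_mul, nsmul_eq_mul]
        have e5 : (S.toLeft.card : ℝ) ≤ 2 ^ (D + 1) := by exact_mod_cast e3
        have e6 : (S.toRight.card : ℝ) ≤ κ * Nm * 2 ^ (D + 1) := by
          refine e4.trans ?_
          rw [hκ]
          push_cast
          have h7 : (0 : ℝ) < Nm * 2 ^ (D + 1) := by positivity
          nlinarith
        exact add_le_add (mul_le_mul_of_nonneg_right e5 n1) (mul_le_mul_of_nonneg_right e6 n3)
      rw [hμ]
      exact mul_le_mul_of_nonneg_left e1 (by norm_num))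
    (by
      rintro (x0 | ⟨t, f, u⟩)
      · exact n6
      · exact (hW2 t f).2.2)
  refine ⟨κ', ?_, ?_⟩
  · rintro ⟨x0, β⟩
    have h5 := hκ' (Sum.inl x0) β
    simp only [c, W, tt, g, Sum.elim_inl] at h5
    rw [hfibc, Finset.filter_filter] at h5
    have h6 : (T.filter fun v => (φ v, bit p κ' v) = (x0, β)) =
        T.filter fun v => bit p κ' v = β ∧ φ v = x0 := by
      apply Finset.filter_congr
      intro v _
      rw [Prod.mk.injEq]
      tauto
    have h7 : ((T.filter fun v => (φ v, bit p κ' v) = (x0, β)).card : ℝ) ≤ aa (r - 1) := by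
      rw [h6]
      linarith
    refine le_trans (Nat.cast_le.mpr (Finset.card_le_card ?_)) h7
    intro v hv
    simp only [Finset.mem_filter] at hv ⊢
    exact hv
  · intro t f u
    have h5 := hκ' (Sum.inr (t, f, u.1)) u.2
    simp only [c, W, tt, g, Sum.elim_inr] at h5
    rw [c2 (K t) (E f) u (bit p κ') (hK t)] at h5
    refine h5.trans (le_of_eq ?_)
    ring

end Pool.Agent.Work.MP_bf01b2_co.Sh
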