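import Pool.Agent.Work.MP_bf01b2_co.Sh.StmtsT
import Pool.Agent.Work.MP_bf01b2_co.Bd.HA

/-!
# MP_bf01b2_co, theorem SHALLOW, item TF: one halving step for the typed fibres
-/

set_option autoImplicit false

namespace Pool.Agent.Work.MP_bf01b2_co.Sh

open Pool.Agent.Work.MP_bf01b2_co.Bd

open Pool.Agent.Work.MP_bf01b2_co.Fw

namespace ITTF

theorem aa_le (r : ℕ) (hr : 46 ≤ r) : aa r ≤ 2 ^ (r + 1) := by
  unfold aa
  rw [pow_succ]
  apply mul_le_mul_of_nonneg_left _ (by positivity)
  have h1 : (46 : ℝ) ≤ r := by exact_mod_cast hr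
  have h0 : (0 : ℝ) < r := by linarith
  have : 4 / (r : ℝ) ≤ 1 := by rw [div_le_one h0]; linarith
  linarith

theorem aa_pos (r : ℕ) (hr : 46 ≤ r) : 0 < aa r := by
  unfold aa
  have h1 : (46 : ℝ) ≤ r := by exact_mod_cast hr
  have h0 : (0 : ℝ) < r := by linarith
  positivity

theorem bel_card (T : Finset (List Bool)) (D : ℕ) (q : List Bool)
    [DecidablePred fun v => Bel D q v] : (T.filter fun v => Bel D q v).card ≤ 2 ^ (D + 1) := by
  apply ha_ext _ q D
  intro v hv
  exact (Finset.mem_filter.mp hv).2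

theorem xbound (k D r : ℕ) (hD : D ≤ 20 * r ^ 2) :
    Real.exp (-((k : ℝ) + (20 * (r : ℝ) ^ 2 + r + 6))) ≤
      1 / (((k : ℝ) + 1) * 2 ^ (D + r + 6)) := by
  have h1 : ((k : ℝ) + 1) ≤ Real.exp k := Real.add_one_le_exp _
  have h4 : (2 : ℝ) ≤ Real.exp 1 := by
    have := Real.add_one_le_exp (1 : ℝ)
    linarith
  have h2 : (2 : ℝ) ^ (D + r + 6) ≤ Real.exp (20 * (r : ℝ) ^ 2 + r + 6) := by
    calc (2 : ℝ) ^ (D + r + 6) ≤ (Real.exp 1) ^ (D + r + 6) :=
          pow_le_pow_left₀ (by norm_num) h4 _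
      _ = Real.exp ((D + r + 6 : ℕ) : ℝ) := by
          rw [← Real.exp_nat_mul, mul_one]
      _ ≤ _ := by
          apply Real.exp_le_exp.mpr
          have : (D : ℝ) ≤ 20 * (r : ℝ) ^ 2 := by exact_mod_cast hD
          push_cast
          linarith
  rw [Real.exp_neg, ← one_div, Real.exp_add]
  apply one_div_le_one_div_of_le (by positivity)
  exact mul_le_mul h1 h2 (by positivity) (Real.exp_pos _).le

end ITTF

open ITTF in
theorem pr_TF (h : StCH) : StTF := by
  intro X T φ p _ D r k K a hr hD hgap hnear hKT ha0 ha2 hnum hfib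
  classical
  have haa0 := aa_pos r hr
  have haa2 := aa_le r hr
  have hcnt : ∀ (F : Finset (List Bool)) (j : Fin k × X),
      (∑ v ∈ F, if v ∈ K j.1 ∧ φ v = j.2 then (1 : ℝ) else 0) =
        ((F.filter fun v => v ∈ K j.1 ∧ φ v = j.2).card : ℝ) := by
    intro F j
    rw [Finset.sum_boole]
  have hne : ∀ (F : Finset (List Bool)) (j : Fin k × X),
      (F.filter fun v => (if v ∈ K j.1 ∧ φ v = j.2 then (1 : ℝ) else 0) ≠ 0) =
        F.filter fun v => v ∈ K j.1 ∧ φ v = j.2 := by
    intro F j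
    apply Finset.filter_congr
    intro v _
    by_cases hv : v ∈ K j.1 ∧ φ v = j.2
    · simp [hv]
    · simp [hv]
  have hTK : ∀ j : Fin k × X, ((T.filter fun v => v ∈ K j.1 ∧ φ v = j.2).card : ℝ) ≤
      a j.1 * aa r := by
    intro j
    refine le_trans ?_ (hfib j.1 j.2)
    have h1 : (T.filter fun v => v ∈ K j.1 ∧ φ v = j.2).card ≤
        ((K j.1).filter fun v => φ v = j.2).card := by
      apply Finset.card_le_card
      intro v hv
      obtain ⟨-, h2, h3⟩ := Finset.mem_filter.mp hv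
      exact Finset.mem_filter.mpr ⟨h2, h3⟩
    have h2 : ((T.filter fun v => v ∈ K j.1 ∧ φ v = j.2).card : ℝ) ≤
        (((K j.1).filter fun v => φ v = j.2).card : ℝ) := by exact_mod_cast h1
    convert h2
  have hW0 : ∀ j : Fin k × X, 0 < a j.1 * aa r := fun j => mul_pos (ha0 _) haa0
  obtain ⟨κ, hκ⟩ := h (Fin k × X) T p D
    (fun j v => if v ∈ K j.1 ∧ φ v = j.2 then (1 : ℝ) else 0) (fun j => a j.1 * aa r)
    (fun j => a j.1 * (aa (r - 1) - aa r / 2) - 31) (fun _ => 31)
    (fun _ => 1 / (((k : ℝ) + 1) * 2 ^ (D + r + 6))) (fun j => a j.1 * aa r) (1 / 2 ^ (r + 4))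
    hgap (fun j v => by
      show (0 : ℝ) ≤ if v ∈ K j.1 ∧ φ v = j.2 then (1 : ℝ) else 0
      split_ifs <;> norm_num) hW0
    (fun _ => by norm_num) (fun j => by have := (hnum j.1).1; linarith)
    (fun _ => by positivity) (fun _ => by
      show 1 / (((k : ℝ) + 1) * 2 ^ (D + r + 6)) ≤ 1 / 2
      apply one_div_le_one_div_of_le (by norm_num)
      have h1 : (1 : ℝ) ≤ (k : ℝ) + 1 := by
        have : (0 : ℝ) ≤ k := Nat.cast_nonneg k
        linarith
      have h2 : (2 : ℝ) ≤ 2 ^ (D + r + 6) := by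
        calc (2 : ℝ) = 2 ^ 1 := by norm_num
          _ ≤ 2 ^ (D + r + 6) := pow_le_pow_right₀ (by norm_num) (by omega)
      nlinarith) (by positivity)
    (fun j => by
      show (∑ v ∈ T, if v ∈ K j.1 ∧ φ v = j.2 then (1 : ℝ) else 0) ≤ a j.1 * aa r
      rw [hcnt]
      exact hTK j)
    (fun j q => by
      show (∑ v ∈ T.filter (fun v => Bel D q v), if v ∈ K j.1 ∧ φ v = j.2 then (1 : ℝ) else 0) ≤ 31
      rw [hcnt]
      have h1 : ((T.filter (fun v => Bel D q v)).filter fun v => v ∈ K j.1 ∧ φ v = j.2).card ≤ 31 := by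
        apply ha_same
        intro u hu v hv
        obtain ⟨hu1, -, hu3⟩ := Finset.mem_filter.mp hu
        obtain ⟨hu1, hu2, hu4⟩ := Finset.mem_filter.mp hu1
        obtain ⟨hv1, -, hv3⟩ := Finset.mem_filter.mp hv
        obtain ⟨hv1, hv2, hv4⟩ := Finset.mem_filter.mp hv1
        have hul : q.length ≤ u.length := by
          have := congrArg List.length hu2
          rw [List.length_take] at this
          omega
        have hvl : q.length ≤ v.length := by
          have := congrArg List.length hv2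
          rw [List.length_take] at this
          omega
        exact hnear u hu1 v hv1 (hu3.trans hv3.symm) q.length hul hvl (hu2.trans hv2.symm) hu4 hv4
      exact_mod_cast h1)
    (fun j => by
      show ((T.filter fun v => (if v ∈ K j.1 ∧ φ v = j.2 then (1 : ℝ) else 0) ≠ 0).card : ℝ) ≤
        a j.1 * aa r
      have h1 : ((T.filter fun v => (if v ∈ K j.1 ∧ φ v = j.2 then (1 : ℝ) else 0) ≠ 0).card : ℝ) =
          ((T.filter fun v => v ∈ K j.1 ∧ φ v = j.2).card : ℝ) := by
        rw [hne T j]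
      exact h1.le.trans (hTK j))
    (fun q s => by
      rw [Finset.sum_const, nsmul_eq_mul]
      have h1 : (s.filter (fun j : Fin k × X => ∃ v ∈ T, Bel D q v ∧
          (if v ∈ K j.1 ∧ φ v = j.2 then (1 : ℝ) else 0) ≠ 0)).card ≤ k * 2 ^ (D + 1) := by
        have h2 : (s.filter (fun j : Fin k × X => ∃ v ∈ T, Bel D q v ∧
            (if v ∈ K j.1 ∧ φ v = j.2 then (1 : ℝ) else 0) ≠ 0)) ⊆
            ((Finset.univ : Finset (Fin k)) ×ˢ (T.filter fun v => Bel D q v)).image
              (fun z => (z.1, φ z.2)) := by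
          intro j hj
          obtain ⟨-, v, hv, hb, hc⟩ := Finset.mem_filter.mp hj
          have hc' : v ∈ K j.1 ∧ φ v = j.2 := by
            by_contra hcon
            exact hc (if_neg hcon)
          refine Finset.mem_image.mpr ⟨(j.1, v), Finset.mem_product.mpr
            ⟨Finset.mem_univ _, Finset.mem_filter.mpr ⟨hv, hb⟩⟩, ?_⟩
          exact Prod.ext rfl hc'.2
        refine (Finset.card_le_card h2).trans (Finset.card_image_le.trans ?_)
        rw [Finset.card_product, Finset.card_univ, Fintype.card_fin]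
        exact Nat.mul_le_mul_left _ (bel_card T D q)
      have h3 : ((s.filter (fun j : Fin k × X => ∃ v ∈ T, Bel D q v ∧
          (if v ∈ K j.1 ∧ φ v = j.2 then (1 : ℝ) else 0) ≠ 0)).card : ℝ) ≤
            (k : ℝ) * 2 ^ (D + 1) := by exact_mod_cast h1
      have h4 : (0 : ℝ) ≤ k := Nat.cast_nonneg k
      have h5 : 2 * (((k : ℝ) * 2 ^ (D + 1)) * (1 / (((k : ℝ) + 1) * 2 ^ (D + r + 6)))) ≤
          1 / 2 ^ (r + 4) := by
        have e : (2 : ℝ) ^ (D + r + 6) = 2 ^ (D + 1) * (2 * 2 ^ (r + 4)) := by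
          ring
        rw [e]
        have p1 : (0 : ℝ) < 2 ^ (D + 1) := by positivity
        have p2 : (0 : ℝ) < 2 ^ (r + 4) := by positivity
        have p3 : (0 : ℝ) < (k : ℝ) + 1 := by linarith
        have e2 : 2 * (((k : ℝ) * 2 ^ (D + 1)) *
            (1 / (((k : ℝ) + 1) * (2 ^ (D + 1) * (2 * 2 ^ (r + 4)))))) =
            ((k : ℝ) / (k + 1)) * (1 / 2 ^ (r + 4)) := by
          generalize (2 : ℝ) ^ (D + 1) = A at p1
          generalize (2 : ℝ) ^ (r + 4) = B at p2
          have q1 := p1.ne'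
          have q2 := p2.ne'
          have q3 := p3.ne'
          field_simp
        rw [e2]
        have p4 : (k : ℝ) / (k + 1) ≤ 1 := by
          rw [div_le_one p3]
          linarith
        have p5 : (0 : ℝ) ≤ 1 / 2 ^ (r + 4) := by positivity
        nlinarith
      refine le_trans ?_ h5
      apply mul_le_mul_of_nonneg_left _ (by norm_num)
      apply mul_le_mul_of_nonneg_right _ (by positivity)
      convert h3)
    (fun j => by
      show Real.exp (-(2 * (a j.1 * (aa (r - 1) - aa r / 2) - 31) ^ 2 / (31 * (a j.1 * aa r)))) ≤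
        1 / (((k : ℝ) + 1) * 2 ^ (D + r + 6)) * Real.exp (-(2 * (a j.1 * aa r) * (1 / 2 ^ (r + 4))))
      have h1 := (hnum j.1).2
      have h2 := xbound k D r hD
      have h3 : 2 * (a j.1 * aa r) * (1 / 2 ^ (r + 4)) ≤ 1 / 2 := by
        have q1 : a j.1 * aa r ≤ 2 * 2 ^ (r + 1) :=
          mul_le_mul (ha2 _) haa2 haa0.le (by norm_num)
        have q2 : (0 : ℝ) < 2 ^ (r + 4) := by positivity
        rw [mul_one_div, div_le_iff₀ q2]
        have q3 : (2 : ℝ) ^ (r + 4) = 8 * 2 ^ (r + 1) := by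
          rw [show r + 4 = (r + 1) + 3 by omega, pow_add]
          norm_num
          ring
        rw [q3]
        linarith
      calc Real.exp (-(2 * (a j.1 * (aa (r - 1) - aa r / 2) - 31) ^ 2 / (31 * (a j.1 * aa r))))
          ≤ Real.exp (-((k : ℝ) + (20 * (r : ℝ) ^ 2 + r + 6)) +
              -(2 * (a j.1 * aa r) * (1 / 2 ^ (r + 4)))) := by
            apply Real.exp_le_exp.mpr
            linarith
        _ = Real.exp (-((k : ℝ) + (20 * (r : ℝ) ^ 2 + r + 6))) *
              Real.exp (-(2 * (a j.1 * aa r) * (1 / 2 ^ (r + 4)))) := Real.exp_add _ _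
        _ ≤ _ := mul_le_mul_of_nonneg_right h2 (Real.exp_pos _).le)
  refine ⟨κ, fun t => ?_⟩
  rintro ⟨x, β⟩
  have h1 := hκ (t, x) β
  have h2 : (∑ v ∈ T.filter (fun v => bit p κ v = β),
      if v ∈ K t ∧ φ v = x then (1 : ℝ) else 0) ≤ a t * aa r / 2 +
        (a t * (aa (r - 1) - aa r / 2) - 31) + 31 := h1
  have h3 := hcnt (T.filter (fun v => bit p κ v = β)) (t, x)
  simp only at h3
  rw [h3] at h2
  have h4 : ((K t).filter fun v => (φ v, bit p κ v) = (x, β)).card ≤
      ((T.filter (fun v => bit p κ v = β)).filter fun v => v ∈ K t ∧ φ v = x).card := by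
    apply Finset.card_le_card
    intro v hv
    obtain ⟨h5, h6⟩ := Finset.mem_filter.mp hv
    rw [Prod.mk.injEq] at h6
    exact Finset.mem_filter.mpr ⟨Finset.mem_filter.mpr ⟨hKT t h5, h6.2⟩, h5, h6.1⟩
  have h5 : (((K t).filter fun v => (φ v, bit p κ v) = (x, β)).card : ℝ) ≤
      (((T.filter (fun v => bit p κ v = β)).filter fun v => v ∈ K t ∧ φ v = x).card : ℝ) := by
    exact_mod_cast h4
  have h6 : (((K t).filter fun v => (φ v, bit p κ v) = (x, β)).card : ℝ) ≤ a t * aa (r - 1) := by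
    linarith
  convert h6

end Pool.Agent.Work.MP_bf01b2_co.Sh
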