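import Pool.Agent.Work.MP_bf01b2_co.Sh.StmtsT

/-!
# MP_bf01b2_co, theorem SHALLOW, part T, item TI: phase A, the halving steps with typed fibres
-/

set_option autoImplicit false

namespace Pool.Agent.Work.MP_bf01b2_co.Sh

open Pool.Agent.Work.MP_bf01b2_co.Bd

open Pool.Agent.Work.MP_bf01b2_co.Fw

namespace ITTI

theorem fib_mono {X Y : Type} (T : Finset (List Bool)) (φ : List Bool → X) (ψ : List Bool → Y)
    (a b : ℝ) (hab : a ≤ b) (h : ∀ y : Y, ∃ x : X, ∀ v, ψ v = y → φ v = x) (hf : FibLe T φ a) :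
    FibLe T ψ b := by
  classical
  intro y
  obtain ⟨x, hx⟩ := h y
  refine le_trans ?_ ((hf x).trans hab)
  apply Nat.cast_le.mpr
  apply Finset.card_le_card
  intro v hv
  rw [Finset.mem_filter] at hv ⊢
  exact ⟨hv.1, hx v hv.2⟩

theorem ind (h1 : StTF) (h2 : RulThm) (s B r0 r1 r2 k : ℕ) (T : Finset (List Bool))
    (ω : List Bool → Opt s) (K : Fin k → Finset (List Bool)) (a : Fin k → ℝ) (h02 : r0 ≤ r2)
    (h21 : r2 ≤ r1) (h46 : 46 ≤ r2) (hnear : NearD T (Bd.P B ω) (20 * (r1 - r0) ^ 2))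
    (hKT : ∀ t, K t ⊆ T) (ha0 : ∀ t, 0 < a t) (ha2 : ∀ t, a t ≤ 2)
    (hN : ∀ t r, r2 ≤ r → NumF k r (a t)) (hfib : ∀ t, FibLe (K t) (Bd.P B ω) (a t * 2 ^ r1)) :
    ∀ d : ℕ, d ≤ r1 - r2 → ∃ κ : ℕ → List Bool → Bool, ∀ t,
      FibLe (K t) (Ps B (r1 - r0 - d) (r1 - r0) ω κ) (a t * aa (r1 - d)) := by
  intro d
  induction d with
  | zero =>
    intro _
    refine ⟨fun _ _ => false, fun t => ?_⟩
    refine fib_mono (K t) (Bd.P B ω) _ (a t * 2 ^ r1) _ ?_ ?_ (hfib t)
    · rw [Nat.sub_zero]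
      apply mul_le_mul_of_nonneg_left _ (ha0 t).le
      unfold aa
      have h3 : (0 : ℝ) ≤ 4 / (r1 : ℝ) := by positivity
      have h4 : (0 : ℝ) < 2 ^ r1 := by positivity
      nlinarith
    · rintro ⟨x, g⟩
      exact ⟨x, fun v hv => (Prod.mk.inj hv).1⟩
  | succ d ih =>
    intro hd
    obtain ⟨κ, hκ⟩ := ih (by omega)
    set I := r1 - r0 with hI
    set c := I - d with hc
    have hc1 : 1 ≤ c := by omega
    have hcI : c ≤ I := by omega
    have hcd : I - (d + 1) = c - 1 := by omega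
    obtain ⟨κ', hκ'⟩ := h1 _ T (Ps B c I ω κ) (fun t => col t = c) (20 * c ^ 2) (r1 - d) k K a
      (by omega) (by
        have : c ^ 2 ≤ (r1 - d) ^ 2 := Nat.pow_le_pow_left (by omega) 2
        omega) (h2 c hc1) (by
        intro u hu v hv huv t ht1 ht2 ht3 ht4 ht5
        have hc2 : c ^ 2 ≤ I ^ 2 := Nat.pow_le_pow_left hcI 2
        exact hnear u hu v hv (Prod.mk.inj huv).1 t ht1 ht2 ht3 (by omega) (by omega))
      hKT ha0 ha2 (fun t => hN t _ (by omega)) hκ
    refine ⟨Function.update κ c κ', fun t => ?_⟩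
    rw [hcd]
    refine fib_mono (K t) _ _ _ _ ?_ ?_ (hκ' t)
    · have : r1 - d - 1 = r1 - (d + 1) := by omega
      rw [this]
    · rintro ⟨x, g⟩
      refine ⟨((x, fun c' => if c < c' ∧ c' ≤ I then g c' else false), g c), ?_⟩
      intro v hv
      obtain ⟨h3, h4⟩ := Prod.mk.inj hv
      refine Prod.ext (Prod.ext h3 ?_) ?_
      · funext c'
        have h5 : (if c - 1 < c' ∧ c' ≤ I then
            bit (fun t => col t = c') (Function.update κ c κ' c') v else false) = g c' :=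
          congrFun h4 c'
        simp only [Ps]
        by_cases h6 : c < c' ∧ c' ≤ I
        · rw [if_pos h6, if_pos h6, ← h5]
          rw [if_pos ⟨by omega, h6.2⟩, Function.update_of_ne (by omega)]
        · rw [if_neg h6, if_neg h6]
      · have h5 : (if c - 1 < c ∧ c ≤ I then
            bit (fun t => col t = c) (Function.update κ c κ' c) v else false) = g c :=
          congrFun h4 c
        rw [if_pos ⟨by omega, hcI⟩, Function.update_self] at h5
        exact h5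

end ITTI

open ITTI in
theorem pr_TI (h1 : StTF) (h2 : RulThm) : StTI := by
  intro s B r0 r1 r2 k T ω K a h02 h21 h46 hnear hKT ha0 ha2 hN hfib
  obtain ⟨κ, hκ⟩ := ind h1 h2 s B r0 r1 r2 k T ω K a h02 h21 h46 hnear hKT ha0 ha2 hN hfib
    (r1 - r2) le_rfl
  refine ⟨κ, fun t => ?_⟩
  have h3 : r1 - r0 - (r1 - r2) = r2 - r0 := by omega
  have h4 : r1 - (r1 - r2) = r2 := by omega
  have h5 := hκ t
  rw [h3, h4] at h5
  exact h5

end Pool.Agent.Work.MP_bf01b2_co.Sh
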