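import Pool.Agent.Work.MP_bf01b2_co.Fw.All
import Pool.Agent.Work.MP_bf01b2_co.Sh.T_AL
import Pool.Agent.Work.MP_bf01b2_co.Sh.T_AC
import Pool.Agent.Work.MP_bf01b2_co.Sh.T_AH
import Pool.Agent.Work.MP_bf01b2_co.Sh.T_CH
import Pool.Agent.Work.MP_bf01b2_co.Sh.T_TF
import Pool.Agent.Work.MP_bf01b2_co.Sh.T_NT
import Pool.Agent.Work.MP_bf01b2_co.Sh.T_TI
import Pool.Agent.Work.MP_bf01b2_co.Sh.T_NP
import Pool.Agent.Work.MP_bf01b2_co.Sh.T_RN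
import Pool.Agent.Work.MP_bf01b2_co.Sh.T_RC
import Pool.Agent.Work.MP_bf01b2_co.Sh.T_RS
import Pool.Agent.Work.MP_bf01b2_co.Sh.T_RI
import Pool.Agent.Work.MP_bf01b2_co.Sh.T_MoK
import Pool.Agent.Work.MP_bf01b2_co.Sh.T_InK
import Pool.Agent.Work.MP_bf01b2_co.Sh.T_SuK
import Pool.Agent.Work.MP_bf01b2_co.Sh.T_LdK
import Pool.Agent.Work.MP_bf01b2_co.Sh.T_NN
import Pool.Agent.Work.MP_bf01b2_co.Sh.T_CoT
import Pool.Agent.Work.MP_bf01b2_co.Sh.T_EmT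
import Pool.Agent.Work.MP_bf01b2_co.Sh.P_Adj
import Pool.Agent.Work.MP_bf01b2_co.Sh.P_Pty
import Pool.Agent.Work.MP_bf01b2_co.Sh.P_Loc
import Pool.Agent.Work.MP_bf01b2_co.Sh.P_Law
import Pool.Agent.Work.MP_bf01b2_co.Sh.P_Pri
import Pool.Agent.Work.MP_bf01b2_co.Sh.P_Yc
import Pool.Agent.Work.MP_bf01b2_co.Sh.P_Cls
import Pool.Agent.Work.MP_bf01b2_co.Sh.P_Clr
import Pool.Agent.Work.MP_bf01b2_co.Sh.P_Cp
import Pool.Agent.Work.MP_bf01b2_co.Sh.P_Ct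
import Pool.Agent.Work.MP_bf01b2_co.Sh.P_Tile
import Pool.Agent.Work.MP_bf01b2_co.Sh.P_Hal
import Pool.Agent.Work.MP_bf01b2_co.Sh.P_Brg
import Pool.Agent.Work.MP_bf01b2_co.Sh.P_Nms
import Pool.Agent.Work.MP_bf01b2_co.Sh.P_CoZ
import Pool.Agent.Work.MP_bf01b2_co.Sh.G_Sub
import Pool.Agent.Work.MP_bf01b2_co.Sh.G_Crp
import Pool.Agent.Work.MP_bf01b2_co.Sh.G_Shp
import Pool.Agent.Work.MP_bf01b2_co.Sh.G_Hgt
import Pool.Agent.Work.MP_bf01b2_co.Sh.G_Dcm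
import Pool.Agent.Work.MP_bf01b2_co.Sh.G_Unq
import Pool.Agent.Work.MP_bf01b2_co.Sh.G_Itm
import Pool.Agent.Work.MP_bf01b2_co.Sh.G_Cnw
import Pool.Agent.Work.MP_bf01b2_co.Sh.G_Prt
import Pool.Agent.Work.MP_bf01b2_co.Sh.G_TrR
import Pool.Agent.Work.MP_bf01b2_co.Sh.G_Dsc
import Pool.Agent.Work.MP_bf01b2_co.Sh.G_Hvy
import Pool.Agent.Work.MP_bf01b2_co.Sh.G_Shl
import Pool.Agent.Work.MP_bf01b2_co.Sh.G_Hei
import Pool.Agent.Work.MP_bf01b2_co.Sh.M_Map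
import Pool.Agent.Work.MP_bf01b2_co.Sh.M_Cb2
import Pool.Agent.Work.MP_bf01b2_co.Sh.Q_PtC
import Pool.Agent.Work.MP_bf01b2_co.Sh.Q_Pd
import Pool.Agent.Work.MP_bf01b2_co.Sh.Q_Glu
import Pool.Agent.Work.MP_bf01b2_co.Sh.Q_PreQ

/-!
# MP_bf01b2_co, theorem SHALLOW: all items together
-/

set_option autoImplicit false

namespace Pool.Agent.Work.MP_bf01b2_co.Sh

open Pool.Agent.Work.MP_bf01b2_co Pool.Agent.Work.MP_bf01b2_co.Bd
  Pool.Agent.Work.MP_bf01b2_co.Fw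

/-- The typed lossless core. -/
theorem emT : StEmT :=
  have hqs := qSet lbInj lbBasic
  have hsu := supp lbBasic
  have hne := near (blkInj lbInj lbBasic) hqs decomp lbBasic
  have hpr := probS (uni lbInj lbBasic) cardOpt decomp hne prodCount
  have hld := pr_LdK (pr_SuK peel (pr_MoK hpr) (pr_InK localP) hsu) hne
  have hch := pr_CH (pr_AH (pr_AC pr_AL))
  have hti := pr_TI (pr_TF hch) rulThm
  have hri := pr_RI (pr_RS hch pr_RC pr_RN halfNum) rulThm pr_NP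
  pr_EmT (pr_CoT (pr_PaL zLow) hld (nearP hne) hti hri pr_NT pr_NN
    (locP (blkLoc lbInj lbBasic) hqs decomp edgeP edgeB lbBasic) finish edgeP edgeB)
    edgeP edgeB hsu

/-- The tiles. -/
theorem tile : StTile :=
  pr_Tile pr_Adj (pr_Pty pr_Adj) pr_Loc pr_Law pr_Yc (pr_Clr pr_Pri pr_Yc (pr_Cls pr_Law)) pr_Cp
    pr_Ct

/-- The theorem for prefix closed sets. -/
theorem pre : StPre :=
  have hcrp := pr_Crp pr_Sub
  have hhgt := pr_Hgt hcrp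
  have hunq := pr_Unq hcrp hhgt
  have hdcm := pr_Dcm pr_Sub hcrp pr_Shp hhgt
  have hmap := pr_Map pr_Sub hcrp hhgt hdcm hunq
  have hglu := pr_Glu tile (pr_Brg pr_Hal) hmap pr_Shp hcrp pr_PtC pr_Pd
  pr_Pre hglu (pr_CoZ emT) pr_Nms pr_Itm (pr_Cnw pr_Sub hunq) pr_Prt hcrp pr_Cb2

/-- The first final statement. -/
theorem shl : StShl := pr_Shl pre pr_TrR (pr_Hvy pr_Sub pr_Dsc)

/-- The second final statement. -/
theorem hei : StHei := pr_Hei pre pr_TrR pr_Shp pr_Sub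

end Pool.Agent.Work.MP_bf01b2_co.Sh
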