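import Pool.Agent.Work.MP_bf01b2_co.Sh.StmtsT
import Pool.Agent.Work.MP_bf01b2_co.Fw.I_Emb

/-!
# MP_bf01b2_co, theorem SHALLOW, part T, item EmT: the typed lossless core in a product of two cubes
-/

set_option autoImplicit false

namespace Pool.Agent.Work.MP_bf01b2_co.Sh

open Pool.Agent.Work.MP_bf01b2_co.Bd

open Pool.Agent.Work.MP_bf01b2_co.Fw

open Classical

namespace ITEmT

/-- a bit as an element of `ZMod 2` -/
def zb (β : Bool) : ZMod 2 := if β then 1 else 0

theorem zb_of : ∀ (z : ZMod 2) (β : Bool), decide (z = 1) = β → z = zb β := by decide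

theorem zb_not : ∀ β : Bool, zb (!β) = zb β + 1 := by decide

theorem card_filter_le {V : Type} (K : Finset V) (p q : V → Prop) (dp : DecidablePred p)
    (dq : DecidablePred q) (h : ∀ v ∈ K, p v → q v) :
    (@Finset.filter _ p dp K).card ≤ (@Finset.filter _ q dq K).card := by
  apply Finset.card_le_card
  intro v hv
  rw [Finset.mem_filter] at hv ⊢
  exact ⟨hv.1, h v hv.1 hv.2⟩

/-- the pair of a real coordinate -/
def gp {B s I R : ℕ} (e : (Fin B × Fin (7 * s)) ⊕ Fin I ≃ Fin R) (x : Fin R) : ℕ × ℕ :=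
  Sum.elim (fun p => ((p.1 : ℕ), (p.2 : ℕ))) (fun _ => (0, 0)) (e.symm x)

/-- the point of the target of `Ph` -/
noncomputable def up {B s I R : ℕ} (e : (Fin B × Fin (7 * s)) ⊕ Fin I ≃ Fin R)
    (u : Fin R → Bool) : (ℕ × ℕ → ZMod 2) × (ℕ → Bool) :=
  (fun c => if h : c.1 < B ∧ c.2 < 7 * s then zb (u (e (Sum.inl (⟨c.1, h.1⟩, ⟨c.2, h.2⟩)))) else 0,
    fun c => if h : 1 ≤ c ∧ c ≤ I then u (e (Sum.inr ⟨c - 1, by omega⟩)) else false)

theorem key (h5 : Supp) {s B I R : ℕ} (hs : 0 < s) (hB : 0 < B) (ω : List Bool → Opt s)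
    (κ : ℕ → List Bool → Bool) (e : (Fin B × Fin (7 * s)) ⊕ Fin I ≃ Fin R)
    (u : Fin R → Bool) (p : Fin B × Fin (7 * s)) (v : List Bool)
    (hv : (fun i => IEmb.Q0 B I ω κ v (e.symm i)) = flp (e (Sum.inl p)) u) :
    Ph B I ω κ v = tr (gp e (e (Sum.inl p))) (up e u) := by
  have hg : gp e (e (Sum.inl p)) = ((p.1 : ℕ), (p.2 : ℕ)) := by
    unfold gp
    rw [Equiv.symm_apply_apply]
    rfl
  rw [hg]
  have hv' : ∀ z, IEmb.Q0 B I ω κ v z = flp (e (Sum.inl p)) u (e z) := by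
    intro z
    have h6 := congrFun hv (e z)
    simp only [Equiv.symm_apply_apply] at h6
    exact h6
  refine Prod.ext ?_ ?_
  · funext c
    obtain ⟨b, j⟩ := c
    show Bd.P B ω v (b, j) = (up e u).1 (b, j) + (Pi.single ((p.1 : ℕ), (p.2 : ℕ)) 1 : ℕ × ℕ → ZMod 2)
      (b, j)
    by_cases hbj : b < B ∧ j < 7 * s
    · have h6 := hv' (Sum.inl (⟨b, hbj.1⟩, ⟨j, hbj.2⟩))
      have h7 : decide (Bd.P B ω v (b, j) = 1) =
          flp (e (Sum.inl p)) u (e (Sum.inl (⟨b, hbj.1⟩, ⟨j, hbj.2⟩))) := h6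
      have h8 := zb_of _ _ h7
      have h9 : (up e u).1 (b, j) = zb (u (e (Sum.inl (⟨b, hbj.1⟩, ⟨j, hbj.2⟩)))) := dif_pos hbj
      rw [h8, h9]
      unfold flp
      by_cases hx : ((⟨b, hbj.1⟩, ⟨j, hbj.2⟩) : Fin B × Fin (7 * s)) = p
      · rw [if_pos (by rw [hx]), zb_not, ← hx]
        show _ = _ + (Pi.single (b, j) 1 : ℕ × ℕ → ZMod 2) (b, j)
        rw [Pi.single_eq_same]
      · rw [if_neg (fun h => hx (Sum.inl.inj (e.injective h))), Pi.single_eq_of_ne, add_zero]
        intro h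
        apply hx
        rw [Prod.mk.injEq] at h
        refine Prod.ext ?_ ?_
        · exact Fin.ext h.1
        · exact Fin.ext h.2
    · have h6 : B ≤ b ∨ 7 * s ≤ j := by
        by_contra hcon
        push Not at hcon
        exact hbj ⟨hcon.1, hcon.2⟩
      have h9 : (up e u).1 (b, j) = 0 := dif_neg hbj
      rw [h5 s B hs hB ω v b j h6, h9, Pi.single_eq_of_ne, add_zero]
      intro h
      rw [Prod.mk.injEq] at h
      exact hbj ⟨by rw [h.1]; exact p.1.2, by rw [h.2]; exact p.2.2⟩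
  · funext c
    show (Ph B I ω κ v).2 c = (up e u).2 c
    by_cases hc : 1 ≤ c ∧ c ≤ I
    · have h6 := hv' (Sum.inr ⟨c - 1, by omega⟩)
      have h7 : (Ph B I ω κ v).2 (c - 1 + 1) =
          flp (e (Sum.inl p)) u (e (Sum.inr ⟨c - 1, by omega⟩)) := h6
      rw [Nat.sub_add_cancel hc.1] at h7
      have h9 : (up e u).2 c = u (e (Sum.inr ⟨c - 1, by omega⟩)) := dif_pos hc
      rw [h7, h9]
      unfold flp
      rw [if_neg]
      intro h
      exact Sum.inr_ne_inl (e.injective h)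
    · have h9 : (up e u).2 c = false := dif_neg hc
      rw [h9]
      show (if 1 ≤ c ∧ c ≤ I then _ else false) = false
      rw [if_neg hc]

end ITEmT

open ITEmT IEmb in
theorem pr_EmT (h1 : StCoT) (h3 : EdgeP) (h4 : EdgeB) (h5 : Supp) : StEmT := by
  intro r0 k k3 τ η c0 am hr0 hτ hη hc0 ham
  obtain ⟨n0, hcore⟩ := h1 r0 k k3 τ η c0 am hr0 hτ hη hc0 ham
  refine ⟨n0, fun n hn => ?_⟩
  obtain ⟨hrn, s, B, I, hs, hB, hsize, hsize2, hcore⟩ := hcore n hn
  refine ⟨hrn, ?_⟩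
  have hcard : Fintype.card ((Fin B × Fin (7 * s)) ⊕ Fin I) = n - r0 := by
    rw [Fintype.card_sum, Fintype.card_prod, Fintype.card_fin, Fintype.card_fin, Fintype.card_fin,
      ← hsize]
    ring
  let e : (Fin B × Fin (7 * s)) ⊕ Fin I ≃ Fin (n - r0) := Fintype.equivFinOfCardEq hcard
  have hinjl : Function.Injective (fun p : Fin B × Fin (7 * s) => e (Sum.inl p)) :=
    fun p q h => Sum.inl.inj (e.injective h)
  refine ⟨Finset.univ.image (fun p : Fin B × Fin (7 * s) => e (Sum.inl p)), ?_, ?_⟩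
  · rw [Finset.card_image_of_injective _ hinjl, Finset.card_univ, Fintype.card_prod,
      Fintype.card_fin, Fintype.card_fin]
    calc n ≤ 2 * (7 * s * B) := hsize2
      _ = 2 * (B * (7 * s)) := by ring
  intro T K a E m hT hTc hKT ham' ha1 hKc hE hEc hm
  have hgl : ∀ p : Fin B × Fin (7 * s), gp e (e (Sum.inl p)) = ((p.1 : ℕ), (p.2 : ℕ)) := by
    intro p
    unfold gp
    rw [Equiv.symm_apply_apply]
    rfl
  have hginj : ∀ f, Set.InjOn (gp e) (E f : Set (Fin (n - r0))) := by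
    intro f x hx y hy hxy
    obtain ⟨p, -, hp⟩ := Finset.mem_image.mp (hE f hx)
    obtain ⟨q, -, hq⟩ := Finset.mem_image.mp (hE f hy)
    rw [← hp, ← hq] at hxy ⊢
    rw [hgl, hgl, Prod.mk.injEq] at hxy
    have h6 : p = q := Prod.ext (Fin.ext hxy.1) (Fin.ext hxy.2)
    rw [h6]
  have hE'c : ∀ f, ((E f).image (gp e)).card = (E f).card := fun f =>
    Finset.card_image_of_injOn (hginj f)
  obtain ⟨ω, κ, ψ, hfib, hψ1, hψ2, hψ3, hrc⟩ := hcore T K a (fun f => (E f).image (gp e)) m hT hTc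
    hKT ham' ha1 hKc (fun f => by rw [hE'c]; exact hEc f)
    (fun f => by
      rw [hE'c]
      refine (Finset.card_le_univ _).trans ?_
      rw [Fintype.card_fin]
      exact Nat.sub_le _ _) hm
  have hΦinj : ∀ u v : List Bool, (fun i => Q0 B I ω κ u (e.symm i)) =
      (fun i => Q0 B I ω κ v (e.symm i)) → Ph B I ω κ u = Ph B I ω κ v := by
    intro u v huv
    refine Q0_inj h5 I hs hB ω κ u v ?_
    funext k
    have h6 := congrFun huv (e k)
    simp only [Equiv.symm_apply_apply] at h6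
    exact h6
  refine ⟨fun v i => Q0 B I ω κ v (e.symm i), fun v c => decide (ψ v c = 1), ⟨?_, ?_⟩, ?_, ?_⟩
  · intro y b hyb
    by_cases hPh : Ph B I ω κ (y ++ [b]) = Ph B I ω κ y
    · right
      refine ⟨?_, ?_⟩
      · dsimp only
        rw [Q0_congr B I ω κ _ _ hPh]
      · obtain ⟨c, hc⟩ := hψ2 y b hyb hPh
        refine ⟨c, fun x => ?_⟩
        dsimp only
        rw [hc, Pi.add_apply, Pi.single_apply]
        by_cases hx : x = c
        · rw [if_pos hx]
          exact ⟨fun _ => hx, fun _ => (zmod_ne _).symm⟩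
        · rw [if_neg hx, add_zero]
          exact ⟨fun h => absurd rfl h, fun h => absurd h hx⟩
    · left
      refine ⟨?_, ?_⟩
      · obtain ⟨k, hk⟩ := Q0_edge h3 h4 h5 I hs hB ω κ y b hPh
        refine ⟨e k, fun j => ?_⟩
        dsimp only
        rw [ne_comm, hk (e.symm j)]
        exact Equiv.symm_apply_eq e
      · dsimp only
        rw [hψ1 y b hyb hPh]
  · intro u hu v hv huv hψ
    refine hψ3 u hu v hv (hΦinj u v huv) ?_
    funext c
    exact zmod_inj _ _ (congrFun hψ c)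
  · exact fib_of T _ _ _ hΦinj hfib
  · intro t f u
    have h6 := hrc t f (up e u)
    rw [hE'c f] at h6
    refine le_trans ?_ h6
    have h7 : ∑ x ∈ E f, ((K t).filter fun v =>
        (fun i => Q0 B I ω κ v (e.symm i)) = flp x u).card ≤
        rc (K t) (Ph B I ω κ) tr ((E f).image (gp e)) (up e u) := by
      unfold rc
      rw [Finset.sum_image (hginj f)]
      refine Finset.sum_le_sum fun x hx => card_filter_le _ _ _ _ _ ?_
      intro v _ hv
      obtain ⟨p, -, hp⟩ := Finset.mem_image.mp (hE f hx)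
      rw [← hp] at hv ⊢
      exact key h5 hs hB ω κ e u p v hv
    exact_mod_cast h7

end Pool.Agent.Work.MP_bf01b2_co.Sh
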