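import Pool.Agent.Work.MP_bf01b2_co.Sh.StmtsT

/-!
# MP_bf01b2_co, theorem SHALLOW, part T, item RN: the numerical conditions of the step of phase B
-/

set_option autoImplicit false

namespace Pool.Agent.Work.MP_bf01b2_co.Sh

open Pool.Agent.Work.MP_bf01b2_co.Bd

open Pool.Agent.Work.MP_bf01b2_co.Fw

open Classical

namespace ITRN

theorem aa_le (r : ℕ) (hr : 46 ≤ r) : 0 < aa r ∧ aa r ≤ 2 * 2 ^ r := by
  have hr' : (46 : ℝ) ≤ r := by exact_mod_cast hr
  have hr0 : (0 : ℝ) < r := by linarith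
  have hP : (0 : ℝ) < 2 ^ r := by positivity
  constructor
  · unfold aa
    positivity
  · unfold aa
    have : 4 / (r : ℝ) ≤ 1 := by rw [div_le_one hr0]; linarith
    nlinarith

/-- The whole computation, with `d = 2 ^ D`, `Q = 2 ^ (20 r ^ 2)`, `R = 2 ^ r`, `P = pr r`. -/
theorem core (d Q R P A κ Nm δ ar : ℝ) (hd : 1 ≤ d) (hdQ : d ≤ Q) (hR : 1 ≤ R) (hRQ : R ≤ Q)
    (hP : 0 < P) (hκ : 1 ≤ κ) (hNm : 1 ≤ Nm) (hδ : 0 < δ) (hδ1 : δ ≤ 1)
    (hA : A = κ * (64 * d * R) * Nm ^ 2)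
    (hPδ : 2048 * Q ^ 2 * P ≤ δ ^ 2) (har0 : 0 < ar) (har : ar ≤ 2 * R) (x1 x2 μ : ℝ)
    (hx1 : x1 = 3 * P) (hx2 : x2 = 1 / A)
    (hμ : μ = 2 * (2 * d * x1 + κ * Nm * (2 * d) * x2)) :
    0 ≤ x1 ∧ x1 ≤ 1 / 2 ∧ 0 ≤ x2 ∧ x2 ≤ 1 / 2 ∧ 0 ≤ μ ∧
    P ≤ x1 * Real.exp (-(2 * ar * μ)) ∧
    ∀ W : ℝ, 128 * Q * (Real.log A + 2) ≤ δ ^ 2 * W →
      W ≤ 4 * R * Nm →
        0 < W ∧ 2 * d ≤ δ * W / 4 ∧
        Real.exp (-(2 * (δ * W / 2 - 2 * d) ^ 2 / (2 * d * W))) ≤
          x2 * Real.exp (-(2 * W * μ)) := by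
  have hd0 : 0 < d := by linarith
  have hQ0 : 0 < Q := by linarith
  have hQ1 : 1 ≤ Q := by linarith
  have hR0 : 0 < R := by linarith
  have hκ0 : 0 < κ := by linarith
  have hNm0 : 0 < Nm := by linarith
  have hA64 : 64 ≤ A := by
    rw [hA]
    have h1 : 1 ≤ d * R := by nlinarith
    have h2 : 1 ≤ Nm ^ 2 := by nlinarith
    have h3 : 1 ≤ κ * (d * R) := by nlinarith
    have h4 : 1 ≤ κ * (d * R) * Nm ^ 2 := by nlinarith
    nlinarith
  have hA0 : 0 < A := by linarith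
  have hL0 : 0 ≤ Real.log A := Real.log_nonneg (by linarith)
  have hx1' : 0 < x1 := by rw [hx1]; linarith
  have hx2' : 0 < x2 := by rw [hx2]; positivity
  have hδ2 : δ ^ 2 ≤ 1 := by nlinarith
  have hQQ : 1 ≤ Q ^ 2 := by nlinarith
  have hPs : 2048 * Q ^ 2 * P ≤ 1 := hPδ.trans hδ2
  have hP1 : 2048 * P ≤ 1 := by nlinarith [mul_pos hP (by linarith : 0 < Q ^ 2)]
  -- the second term of `μ`
  have hμ2 : μ = 12 * d * P + 1 / (16 * R * Nm) := by
    rw [hμ, hx1, hx2, hA]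
    field_simp
    ring
  have hμ0 : 0 ≤ μ := by
    rw [hμ2]
    positivity
  have hx2l : x2 ≤ 1 / 2 := by
    rw [hx2]
    apply one_div_le_one_div_of_le (by norm_num)
    linarith
  refine ⟨hx1'.le, by rw [hx1]; linarith, hx2'.le, hx2l, hμ0, ?_, ?_⟩
  · -- kind one
    have h1 : 2 * ar * μ ≤ 1 / 2 := by
      have h2 : 2 * ar * μ ≤ 2 * (2 * R) * μ := by
        have := mul_le_mul_of_nonneg_right har hμ0
        linarith
      have h3 : 2 * (2 * R) * μ = 48 * (d * R * P) + 1 / (4 * Nm) := by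
        rw [hμ2]
        field_simp
        ring
      have h4 : 1 / (4 * Nm) ≤ 1 / 4 := by
        apply one_div_le_one_div_of_le (by norm_num)
        linarith
      have h5 : d * R * P ≤ Q ^ 2 * P := by
        apply mul_le_mul_of_nonneg_right _ hP.le
        rw [sq]
        exact mul_le_mul hdQ hRQ hR0.le hQ0.le
      rw [h3] at h2
      linarith
    have h6 : Real.exp (-(1 / 2 : ℝ)) ≤ Real.exp (-(2 * ar * μ)) := Real.exp_le_exp.mpr (by linarith)
    have h7 : (1 / 3 : ℝ) ≤ Real.exp (-(1 / 2 : ℝ)) := by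
      have h8 := Real.add_one_le_exp (-(1 / 2 : ℝ))
      linarith
    rw [hx1]
    nlinarith
  · intro W hW1 hW2
    have hδ2' : 0 < δ ^ 2 := by positivity
    have h1 : 256 * Q ≤ δ ^ 2 * W := by
      refine le_trans ?_ hW1
      nlinarith
    have hW0 : 0 < W := by
      by_contra hneg
      push Not at hneg
      nlinarith
    have h2 : δ ^ 2 * W ≤ δ * W := by
      have : δ ^ 2 ≤ δ := by nlinarith
      exact mul_le_mul_of_nonneg_right this hW0.le
    have h3 : 2 * d ≤ δ * W / 4 := by linarith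
    refine ⟨hW0, h3, ?_⟩
    have hx2e : x2 = Real.exp (-Real.log A) := by
      rw [hx2, Real.exp_neg, Real.exp_log hA0, one_div]
    rw [hx2e, ← Real.exp_add]
    apply Real.exp_le_exp.mpr
    set T : ℝ := δ ^ 2 * W / (64 * d) with hT
    have hT1 : 2 * (Real.log A + 2) ≤ T := by
      rw [hT, le_div_iff₀ (by positivity)]
      calc 2 * (Real.log A + 2) * (64 * d) = 128 * d * (Real.log A + 2) := by ring
        _ ≤ 128 * Q * (Real.log A + 2) := by
            apply mul_le_mul_of_nonneg_right _ (by linarith)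
            linarith
        _ ≤ δ ^ 2 * W := hW1
    -- left exponent
    have h4 : 4 * T ≤ 2 * (δ * W / 2 - 2 * d) ^ 2 / (2 * d * W) := by
      rw [hT, le_div_iff₀ (by positivity)]
      have h5 : 4 * (δ ^ 2 * W / (64 * d)) * (2 * d * W) = 2 * (δ * W / 4) ^ 2 := by
        field_simp
        ring
      rw [h5]
      have h6 : δ * W / 4 ≤ δ * W / 2 - 2 * d := by linarith
      have h7 : 0 ≤ δ * W / 4 := by positivity
      have h8 := pow_le_pow_left₀ h7 h6 2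
      linarith
    -- right exponent
    have h9 : 2 * W * μ ≤ T + 1 / 2 := by
      have h10 : 2 * W * μ = 24 * d * W * P + W / (8 * R * Nm) := by
        rw [hμ2]
        field_simp
        ring
      have h11 : W / (8 * R * Nm) ≤ 1 / 2 := by
        rw [div_le_iff₀ (by positivity)]
        linarith
      have h12 : 24 * d * W * P ≤ T := by
        rw [hT, le_div_iff₀ (by positivity)]
        calc 24 * d * W * P * (64 * d) = 1536 * (d * d) * P * W := by ring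
          _ ≤ 2048 * Q ^ 2 * P * W := by
              apply mul_le_mul_of_nonneg_right _ hW0.le
              apply mul_le_mul_of_nonneg_right _ hP.le
              have h13 : d * d ≤ Q ^ 2 := by
                rw [sq]
                exact mul_le_mul hdQ hdQ hd0.le hQ0.le
              linarith [mul_nonneg hd0.le hd0.le]
          _ ≤ δ ^ 2 * W := mul_le_mul_of_nonneg_right hPδ hW0.le
      rw [h10]
      linarith
    linarith

end ITRN

theorem pr_RN : StRN := by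
  intro r D κ δ Nm hr hD hκ hNm hδ hδ1 hP x1 x2 μ hx1 hx2 hμ
  obtain ⟨ha0, ha1⟩ := ITRN.aa_le r hr
  have h2 : ∀ m n : ℕ, m ≤ n → (2 : ℝ) ^ m ≤ 2 ^ n := fun m n h =>
    pow_le_pow_right₀ (by norm_num) h
  have hpos : 0 < pr r := Real.exp_pos _
  have e1 : (2 : ℝ) ^ (D + r + 6) = 64 * 2 ^ D * 2 ^ r := by
    rw [pow_add, pow_add]; norm_num; ring
  have e2 : (2 : ℝ) ^ (D + 1) = 2 * 2 ^ D := by rw [pow_succ]; ring
  have e3 : (2 : ℝ) ^ (40 * r ^ 2 + 11) = 2048 * (2 ^ (20 * r ^ 2)) ^ 2 := by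
    rw [← pow_mul, pow_add]
    have : 20 * r ^ 2 * 2 = 40 * r ^ 2 := by ring
    rw [this]
    norm_num
    ring
  have e4 : (2 : ℝ) ^ (20 * r ^ 2 + 7) = 128 * 2 ^ (20 * r ^ 2) := by
    rw [pow_add]; norm_num; ring
  have e5 : (2 : ℝ) ^ (r + 2) = 4 * 2 ^ r := by rw [pow_add]; norm_num; ring
  have hrr : r ≤ 20 * r ^ 2 := by nlinarith
  have hκ' : (1 : ℝ) ≤ κ := by exact_mod_cast hκ
  have hmain := ITRN.core (2 ^ D) (2 ^ (20 * r ^ 2)) (2 ^ r) (pr r)
    ((κ : ℝ) * (64 * 2 ^ D * 2 ^ r) * Nm ^ 2) κ Nm δ (aa r)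
    (one_le_pow₀ (by norm_num)) (h2 _ _ hD) (one_le_pow₀ (by norm_num)) (h2 _ _ hrr) hpos hκ' hNm
    hδ hδ1 rfl (by rw [← e3]; exact hP) ha0 ha1 x1 x2 μ hx1 (by rw [hx2, e1])
    (by rw [hμ, e2])
  rw [e1, e2, e4, e5]
  exact hmain

end Pool.Agent.Work.MP_bf01b2_co.Sh
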