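import Pool.Agent.Work.MP_bf01b2_co.Fw.All
import Pool.Agent.Work.MP_bf01b2_co.Sh.T_AL
import Pool.Agent.Work.MP_bf01b2_co.Sh.T_AC
import Pool.Agent.Work.MP_bf01b2_co.Sh.T_AH
import Pool.Agent.Work.MP_bf01b2_co.Sh.T_CH
import Pool.Agent.Work.MP_bf01b2_co.Sh.T_TF
import Pool.Agent.Work.MP_bf01b2_co.Sh.T_NT
import Pool.Agent.Work.MP_bf01b2_co.Sh.T_TI
import Pool.Agent.Work.MP_bf01b2_co.Sh.T_NP
import Pool.Agent.Work.MP_bf01b2_co.Sh.T_RN
import Pool.Agent.Work.MP_bf01b2_co.Sh.T_RC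
import Pool.Agent.Work.MP_bf01b2_co.Sh.T_RS
import Pool.Agent.Work.MP_bf01b2_co.Sh.T_RI
import Pool.Agent.Work.MP_bf01b2_co.Sh.T_MoK
import Pool.Agent.Work.MP_bf01b2_co.Sh.T_InK
import Pool.Agent.Work.MP_bf01b2_co.Sh.T_SuK
import Pool.Agent.Work.MP_bf01b2_co.Sh.T_LdK
import Pool.Agent.Work.MP_bf01b2_co.Sh.T_NN
import Pool.Agent.Work.MP_bf01b2_co.Sh.T_CoT
import Pool.Agent.Work.MP_bf01b2_co.Sh.T_EmT

/-!
# MP_bf01b2_co, theorem SHALLOW, part T: all items together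
-/

set_option autoImplicit false

namespace Pool.Agent.Work.MP_bf01b2_co.Sh

open Pool.Agent.Work.MP_bf01b2_co Pool.Agent.Work.MP_bf01b2_co.Bd
  Pool.Agent.Work.MP_bf01b2_co.Fw

/-- The typed lossless core. -/
theorem emT : StEmT :=
  have hqs := qSet lbInj lbBasic
  have hsu := supp lbBasic
  have hne := near (blkInj lbInj lbBasic) hqs decomp lbBasic
  have hpr := probS (uni lbInj lbBasic) cardOpt decomp hne prodCount
  have hld := pr_LdK (pr_SuK peel (pr_MoK hpr) (pr_InK localP) hsu) hne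
  have hch := pr_CH (pr_AH (pr_AC pr_AL))
  have hti := pr_TI (pr_TF hch) rulThm
  have hri := pr_RI (pr_RS hch pr_RC pr_RN halfNum) rulThm pr_NP
  have hco := pr_CoT (pr_PaL zLow) hld (nearP hne) hti hri pr_NT pr_NN
    (locP (blkLoc lbInj lbBasic) hqs decomp edgeP edgeB lbBasic) finish edgeP edgeB
  pr_EmT hco edgeP edgeB hsu

end Pool.Agent.Work.MP_bf01b2_co.Sh
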