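import Pool.Agent.Work.MP_bf01b2_co.Sh.StmtsP2

/-!
# MP_bf01b2_co, THEOREM LARGE, part P2, item Nms2: the numbers for two sides

The two shapes `t w false`, `t w true` of a type are put in one shape: the first gets the two letters
`false, false` in front, the second the one letter `true`.
-/

set_option autoImplicit false

namespace Pool.Agent.Work.MP_bf01b2_co.Sh

open Classical

namespace IPNms2

/-- the encoding of the two shapes in one -/
noncomputable def enc {W : Type} (t : W → Bool → Finset (List Bool)) (w : W) :
    Finset (List Bool) :=
  (t w false).image (fun u => false :: false :: u) ∪ (t w true).image (fun u => true :: u)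

theorem nw_enc {W : Type} (t : W → Bool → Finset (List Bool)) (dw : W → ZMod 2) (w : W)
    (c : ZMod 2) : Nw (enc t) dw w c = Nw2 t dw w c := by
  unfold Nw Nw2 enc
  rw [Finset.filter_union, Finset.card_union_of_disjoint]
  · rw [Finset.filter_image, Finset.filter_image, Finset.card_image_of_injective,
      Finset.card_image_of_injective]
    · congr 1
      · congr 1
        apply Finset.filter_congr
        intro u _
        have h2 : (2 : ZMod 2) = 0 := rfl
        have : (((false :: false :: u).length : ℕ) : ZMod 2) = (u.length : ZMod 2) := by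
          simp only [List.length_cons, Nat.cast_add, Nat.cast_one, add_assoc]
          rw [one_add_one_eq_two, h2, add_zero]
        rw [this]
      · congr 1
        apply Finset.filter_congr
        intro u _
        simp only [List.length_cons, Nat.cast_add, Nat.cast_one]
    · intro a b hab
      simpa using hab
    · intro a b hab
      simpa using hab
  · rw [Finset.disjoint_left]
    intro u hu hv
    rw [Finset.mem_filter, Finset.mem_image] at hu hv
    obtain ⟨⟨a, _, rfl⟩, _⟩ := hu
    obtain ⟨⟨b, _, hb⟩, _⟩ := hv
    simp at hb

theorem fits_enc {W : Type} [Fintype W] (k M J : ℕ) (b : W → ℕ)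
    (t : W → Bool → Finset (List Bool)) (dw : W → ZMod 2) (h : Fits k M J b (enc t) dw) :
    Fits2 k M J b t dw := by
  intro c
  have := h c
  simp only [nw_enc] at this
  exact this

end IPNms2

open IPNms2 in
theorem pr_Nms2 (h : StNms) : StNms2 := by
  intro M W _ t hM
  obtain ⟨k, τ, h0, h1, hk⟩ := h M W (enc t) hM
  refine ⟨k, τ, h0, h1, ?_⟩
  intro dw x y hx hy hy2 hxy hc
  obtain ⟨b, hb, hb2⟩ := hk dw x y hx hy hy2 hxy (by
    intro c
    simp only [nw_enc]
    exact hc c)
  exact ⟨b, fits_enc _ _ _ _ _ _ hb, hb2⟩

end Pool.Agent.Work.MP_bf01b2_co.Sh
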