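import Pool.Agent.Work.MP_bf01b2_co.Sh.StmtsD
import Pool.Agent.Work.MP_bf01b2_co.Sh.P2_Nms2

/-!
# MP_bf01b2_co, THEOREM D, item Nms2D: the numbers for two sides
-/

set_option autoImplicit false

namespace Pool.Agent.Work.MP_bf01b2_co.Sh

open Classical

theorem pr_Nms2D (h : StNmsD) : StNms2D := by
  intro δ M J W _ t hδ hδ1 hM hJ
  obtain ⟨k, τ, h0, h1, hk⟩ := h δ M J W (IPNms2.enc t) hδ hδ1 hM hJ
  refine ⟨k, τ, h0, h1, ?_⟩
  intro dw x y hx hy hy2 hxy hc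
  obtain ⟨b, hb, hb2⟩ := hk dw x y hx hy hy2 hxy (by
    intro c
    simp only [IPNms2.nw_enc]
    exact hc c)
  exact ⟨b, IPNms2.fits_enc _ _ _ _ _ _ hb, hb2⟩

end Pool.Agent.Work.MP_bf01b2_co.Sh
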