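import Pool.Agent.Work.MP_bf01b2_co.Stmts
import Pool.Agent.Work.MP_bf01b2_co.Bd.Defs

/-!
# MP_bf01b2_co, theorem SHALLOW: definitions of the tree side

A tree is a prefix closed finite set `T` of bit strings. `sub T v` is the subtree below `v`. The
core consists of the root and of the vertices with at least `S` descendants. An item is a triple
`(v, a, e)`, `v` in the core, `v ++ [a]` in `T` but not in the core, `v ++ [a, e]` in `T`; its type
records `(a, e)`, the shape of the subtree below `v ++ [a, e]` and the parity of `v.length`.
-/

set_option autoImplicit false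

namespace Pool.Agent.Work.MP_bf01b2_co.Sh

open Pool.Agent.Work.MP_bf01b2_co.Bd

open Classical

/-- The subtree of `T` below `v`, as a set of strings: `u ∈ sub T v` iff `v ++ u ∈ T`. -/
def sub (T : Finset (List Bool)) (v : List Bool) : Finset (List Bool) :=
  (T.filter fun x => x.take v.length = v).image fun x => x.drop v.length

/-- The vertices with at least `S` descendants (a vertex is a descendant of itself). -/
def hv (S : ℕ) (T : Finset (List Bool)) : Finset (List Bool) :=
  T.filter fun v => S ≤ (sub T v).card

/-- The core: the root and the vertices with at least `S` descendants. -/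
def cor (S : ℕ) (T : Finset (List Bool)) : Finset (List Bool) :=
  T.filter fun v => v = [] ∨ S ≤ (sub T v).card

/-- The strings of length at most `L`. -/
def strs (L : ℕ) : Finset (List Bool) :=
  (Finset.range (L + 1)).biUnion fun l => Finset.univ.image (List.ofFn : (Fin l → Bool) → List Bool)

/-- The shapes: nonempty prefix closed sets with less than `S` elements. -/
noncomputable def shp (S : ℕ) : Finset (Finset (List Bool)) :=
  (strs S).powerset.filter fun A => A.Nonempty ∧ Bd.PrefClosed A ∧ A.card < S

/-- The types: `(a, e)`, shape, parity. -/
abbrev Wt (S : ℕ) : Type := (Bool × Bool) × ({A : Finset (List Bool) // A ∈ shp S} × ZMod 2)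

/-- The core vertices `v` with an item `(v, a, e)` of the type `w`. -/
noncomputable def Kw (S : ℕ) (T : Finset (List Bool)) (w : Wt S) : Finset (List Bool) :=
  (cor S T).filter fun v => v ++ [w.1.1] ∈ T ∧ v ++ [w.1.1] ∉ cor S T ∧
    v ++ [w.1.1, w.1.2] ∈ T ∧ sub T (v ++ [w.1.1, w.1.2]) = w.2.1.1 ∧
    (v.length : ZMod 2) = w.2.2

/-- The length of the longest prefix of `x` in the core. -/
noncomputable def ht (S : ℕ) (T : Finset (List Bool)) (x : List Bool) : ℕ :=
  Nat.findGreatest (fun t => x.take t ∈ cor S T) x.length

end Pool.Agent.Work.MP_bf01b2_co.Sh
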