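import Mathlib

/-!
# MP_bf01b2_co, shallow trees: the tiles.  Definitions

The cube is `Vc R × Vc M` (columns and labels), vectors over `ZMod 2`. The labels have the coordinates
`0, .., m1 - 1` (labels of the core), `m1`, `m1 + 1` (the first step out of the core) and
`m1 + 2, .., m1 + 1 + J` (redirection); `M = m1 + 2 + J`. A label is bad if it can be the label of a
vertex of the core or of a child of it.

A piece is a prefix closed set `t` of bit strings (addresses). Its levels `0, .., 2 M` are the
transport: on the level `2 i` the bit `i` of the label is processed, on the level `2 i + 1` there is a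
real step. The child `u ++ [e]` has the target bit `g i + e`: exactly one of two siblings has to flip
the bit, the other one makes a real step in the direction `a`. The final label does not depend on
the initial label.
-/

set_option autoImplicit false

namespace Pool.Agent.Work.MP_bf01b2_co.Sh

open Classical

/-- vectors over `ZMod 2` -/
abbrev Vc (n : ℕ) : Type := Fin n → ZMod 2

/-- the unit vector number `i` -/
def un (n i : ℕ) : Vc n := fun j => if j.1 = i then 1 else 0

/-- parity -/
def par {n : ℕ} (x : Vc n) : ZMod 2 := ∑ i, x i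

/-- the syndrome of `x`, if the coordinate `i` has the syndrome `sy i` -/
def syn {R k : ℕ} (sy : Fin R → Vc k) (x : Vc R) : Vc k := fun c => ∑ i, x i * sy i c

/-- adjacency in the cube `Vc R × Vc M` -/
def Ad {R M : ℕ} (x y : Vc R × Vc M) : Prop :=
  (∃ i : Fin R, y = (x.1 + Pi.single i 1, x.2)) ∨ (∃ i : Fin M, y = (x.1, x.2 + Pi.single i 1))

/-- the letter number `i` of `u` (zero after the end) -/
def lt (u : List Bool) (i : ℕ) : ZMod 2 := if u.getD i false then 1 else 0

/-- the targets -/
def tg {M : ℕ} (g : Vc M) (u : List Bool) : Vc M := fun i => g i + lt u (2 * i.1)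

/-- bad labels -/
def Bad {M : ℕ} (m1 : ℕ) (μ : Vc M) : Prop :=
  (∀ j : Fin M, m1 + 2 ≤ j.1 → μ j = 0) ∧ ¬ (∀ j : Fin M, m1 ≤ j.1 → j.1 < m1 + 2 → μ j = 1)

/-- the final label of the address `u` (for the lengths `> 2 M`): a bad target is redirected -/
noncomputable def mu {M : ℕ} (m1 J : ℕ) (g : Vc M) (s : ℕ) (u : List Bool) : Vc M :=
  if Bad m1 (tg g u) then
    tg g u + un M (m1 + 2 + (s + if u.getD (2 * M) false then 1 else 0) % J)
  else tg g u

/-- the address `u` is not in the transport part -/
def Tl {M : ℕ} (m1 : ℕ) (g : Vc M) (u : List Bool) : Prop :=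
  2 * M < u.length ∧ (u.length = 2 * M + 1 → ¬ Bad m1 (tg g u))

/-- the label in the transport part: the bits `< (|u| + 1) / 2` are targets -/
def lab {M : ℕ} (g l : Vc M) (u : List Bool) : Vc M :=
  fun i => if i.1 < (u.length + 1) / 2 then tg g u i else l i

/-- the number of real steps in the direction `a` -/
def alp {M : ℕ} (g l : Vc M) (u : List Bool) : ZMod 2 :=
  ∑ i : Fin M, if i.1 < (u.length + 1) / 2 then 1 + l i + tg g u i else 0

/-- the prefix of even length -/
def ev (u : List Bool) : List Bool := u.take (2 * (u.length / 2))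

/-- The position of the address `u` relative to the base point. `cp` gives the private columns of
the transport, `ct` the columns of the other vertices. -/
noncomputable def pos {R M : ℕ} (m1 J : ℕ) (a : Fin R) (g : Vc M) (s : ℕ)
    (cp ct : List Bool → Vc R) (l : Vc M) (u : List Bool) : Vc R × Vc M :=
  if Tl m1 g u then (ct u, mu m1 J g s u)
  else (cp (ev u) + Pi.single a (alp g l u), if u.length ≤ 2 * M then lab g l u else mu m1 J g s u)

/-- `n = 2 M` prefix of `u` and the state of the direction `a` after the transport, if `par l = κ` -/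
def al0 {M : ℕ} (g : Vc M) (κ : ZMod 2) (u : List Bool) : ZMod 2 := (M : ZMod 2) + κ + par (tg g u)

/-- The columns `cp`, `ct` are good for the piece `t` and initial labels of parity `κ`. -/
structure TD {R M : ℕ} (m1 : ℕ) (a : Fin R) (g : Vc M) (κ : ZMod 2) (t : Finset (List Bool))
    (cp ct : List Bool → Vc R) : Prop where
  cp0 : cp [] = 0
  cps : ∀ (y : List Bool) (e e' : Bool), y.length % 2 = 0 → y.length + 2 ≤ 2 * M →
    ∃ i, cp (y ++ [e, e']) = cp y + Pi.single i 1
  ct1 : ∀ (y : List Bool) (e : Bool), y.length = 2 * M → y ++ [e] ∈ t → ¬ Bad m1 (tg g y) →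
    ∃ i, ct (y ++ [e]) = cp y + Pi.single a (al0 g κ y) + Pi.single i 1
  ct2 : ∀ (y : List Bool) (e e' : Bool), y.length = 2 * M → y ++ [e, e'] ∈ t → Bad m1 (tg g y) →
    ∃ i, ct (y ++ [e, e']) = cp y + Pi.single a (al0 g κ y) + Pi.single i 1
  ct3 : ∀ (y : List Bool) (e : Bool), Tl m1 g y → y ++ [e] ∈ t →
    ∃ i, ct (y ++ [e]) = ct y + Pi.single i 1

/-- the strings of length at most `L` -/
noncomputable def shs (L : ℕ) : Finset (List Bool) :=
  (Finset.range (L + 1)).biUnion fun n =>
    (Finset.univ : Finset (Fin n → Bool)).image fun f => List.ofFn f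

/-- the addresses of the private columns -/
noncomputable def Ya (M : ℕ) : Finset (List Bool) :=
  (shs (2 * M)).filter fun y => y.length % 2 = 0

/-- Keys: type, seed, number of the copy. -/
abbrev Ky (W : Type) (M J : ℕ) (b : W → ℕ) : Type := Σ w : W, (Vc M × Fin J) × Fin (b w)

end Pool.Agent.Work.MP_bf01b2_co.Sh
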