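import Pool.Agent.Work.MP_bf01b2_co.Fw.StmtsL

/-!
# MP_bf01b2_co, theorem SHALLOW, part T (typed lossless core): definitions

A tree is a prefix closed finite set `T` of bit strings; `K : Fin k → Finset (List Bool)` is a family
of subsets of `T` (the types). The landed core (`Bd/`, `Fw/`) is repeated with bounds for the
number of vertices of each type, in the fibres (as long as the fibres are large) and in the
neighbourhoods of a point in a class of directions (until the end).
-/

set_option autoImplicit false

namespace Pool.Agent.Work.MP_bf01b2_co.Sh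

open Pool.Agent.Work.MP_bf01b2_co.Bd

open Pool.Agent.Work.MP_bf01b2_co.Fw

open Classical

/-- The map with the halving coordinates `c0 < c ≤ I` (`Ph B I` is the case `c0 = 0`). -/
def Ps {s : ℕ} (B c0 I : ℕ) (ω : List Bool → Opt s) (κ : ℕ → List Bool → Bool)
    (v : List Bool) : (ℕ × ℕ → ZMod 2) × (ℕ → Bool) :=
  (Bd.P B ω v, fun c => if c0 < c ∧ c ≤ I then bit (fun t => col t = c) (κ c) v else false)

/-- The probability that a fibre is too large in the halving step at the scale `r`. -/
noncomputable def pr (r : ℕ) : ℝ :=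
  Real.exp (-(2 * (aa (r - 1) - aa r / 2 - 31) ^ 2 / (31 * aa r)))

/-- The numerical condition for a halving step with typed fibres: `k` types, scale `r`, density
`a`. -/
def NumF (k r : ℕ) (a : ℝ) : Prop :=
  31 ≤ a * (aa (r - 1) - aa r / 2) ∧
  20 * (r : ℝ) ^ 2 + r + k + 8 ≤
    2 * (a * (aa (r - 1) - aa r / 2) - 31) ^ 2 / (31 * (a * aa r))

/-- The number of pairs `(y, v)`, `y ∈ Ys`, `v ∈ K`, such that `φ v` is the translate of `u` in the
direction `y`. -/
noncomputable def rc {X Y : Type} (K : Finset (List Bool)) (φ : List Bool → X) (M : Y → X → X)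
    (Ys : Finset Y) (u : X) : ℕ :=
  ∑ y ∈ Ys, (K.filter fun v => φ v = M y u).card

/-- The weight of `v` in `rc`: the number of `y ∈ Ys` with `φ v = M y u`, if `v ∈ K`. -/
noncomputable def cw {X Y : Type} (K : Finset (List Bool)) (φ : List Bool → X) (M : Y → X → X)
    (Ys : Finset Y) (u : X) (v : List Bool) : ℝ :=
  if v ∈ K then ((Ys.filter fun y => φ v = M y u).card : ℝ) else 0

/-- `v` lies below `q` (or is `q`), at most `D` levels. -/
def Bel (D : ℕ) (q v : List Bool) : Prop := v.take q.length = q ∧ v.length ≤ q.length + D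

/-- Translation by the real coordinate `y` in the target of `Ps` and `Ph`. -/
def tr (y : ℕ × ℕ) (u : (ℕ × ℕ → ZMod 2) × (ℕ → Bool)) : (ℕ × ℕ → ZMod 2) × (ℕ → Bool) :=
  (u.1 + Pi.single y 1, u.2)

/-- Flip of the bit `x`. -/
def flp {R : ℕ} (x : Fin R) (u : Fin R → Bool) : Fin R → Bool :=
  fun i => if i = x then !(u i) else u i

/-- Block roots `β` in `Nz` with `β ++ w ∈ K`. -/
noncomputable def NK (s B : ℕ) (T K : Finset (List Bool)) (w z : List Bool) :
    Finset (List Bool) := (Nz s B T w z).filter fun β => β ++ w ∈ K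

/-- The number of block roots in `NK` with `β ++ w` at the position `x`. -/
noncomputable def XK {s : ℕ} (B : ℕ) (T K : Finset (List Bool)) (o0 : Opt s)
    (x : ℕ × ℕ → ZMod 2) (w z : List Bool) (η : {y // y ∈ T} → Opt s) : ℕ :=
  ((NK s B T K w z).filter fun β => Bd.P B (ex T o0 η) (β ++ w) = x).card

end Pool.Agent.Work.MP_bf01b2_co.Sh
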