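import Pool.Agent.Work.MP_bf01b2_co.Sh.StmtsG

set_option autoImplicit false

namespace Pool.Agent.Work.MP_bf01b2_co.Sh

open Pool.Agent.Work.MP_bf01b2_co.Bd

open Classical

/-- [Dcm] every vertex outside the core is a child of a core vertex or lies below an item. -/
theorem pr_Dcm (hSub : StSub) (hCrp : StCrp) (hShp : StShp) (hHgt : StHgt) : StDcm := by
  intro S T hT x hx hxc
  obtain ⟨h1, h2, h3, h4⟩ := (hHgt S T hT).2 x hx hxc
  set t := ht S T x with ht
  obtain ⟨s1, s2, s3, s4, s5⟩ := hSub T
  obtain ⟨c1, c2, c3, c4, c5⟩ := hCrp S T hT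
  have hget : x.getD t false = x[t] := by
    rw [List.getD_eq_getElem?_getD, List.getElem?_eq_getElem h1, Option.getD_some]
  have hx1 : x = x.take t ++ x.getD t false :: x.drop (t + 1) := by
    rw [hget, List.cons_getElem_drop_succ, List.take_append_drop]
  set a := x.getD t false with ha
  set v := x.take t with hv
  have hvl : v.length = t := by
    rw [hv, List.length_take]
    omega
  clear_value a v
  rcases hd : x.drop (t + 1) with _ | ⟨e, u⟩
  · left
    rw [hd] at hx1
    exact ⟨v, a, h2, h3, h4, hx1⟩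
  · right
    rw [hd] at hx1
    have hx2 : x = v ++ [a, e] ++ u := by
      rw [hx1]
      simp
    have hT2 : v ++ [a, e] ∈ T := by
      have h5 := hT x hx (v ++ [a, e]).length
      rw [hx2, List.take_left' rfl] at h5
      exact h5
    have hnc : v ++ [a, e] ∉ cor S T := by
      intro h
      have h5 := c1 _ h (v ++ [a]).length
      have h6 : v ++ [a, e] = (v ++ [a]) ++ [e] := by simp
      rw [h6, List.take_left' rfl] at h5
      exact h3 h5
    have hcard := c5 _ hT2 hnc
    have hsh : sub T (v ++ [a, e]) ∈ shp S :=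
      hShp.1 S _ ⟨[], s5 _ hT2⟩ (s2 hT _) hcard
    refine ⟨((a, e), (⟨sub T (v ++ [a, e]), hsh⟩, (v.length : ZMod 2))), v, u, ?_, ?_, hx2⟩
    · unfold Kw
      rw [Finset.mem_filter]
      exact ⟨h2, h4, h3, hT2, rfl, rfl⟩
    · change u ∈ sub T (v ++ [a, e])
      rw [s1, ← hx2]
      exact hx

end Pool.Agent.Work.MP_bf01b2_co.Sh
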