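import Pool.Agent.Work.MP_bf01b2_co.Sh.StmtsM

/-!
# MP_bf01b2_co, theorem SHALLOW, item Map: the final map
-/

set_option autoImplicit false

namespace Pool.Agent.Work.MP_bf01b2_co.Sh

open Pool.Agent.Work.MP_bf01b2_co.Bd

open Classical

namespace IMMap

/-- second kind: a child of a core vertex -/
def K2 (S : ℕ) (T : Finset (List Bool)) (x : List Bool) (q : List Bool × Bool) : Prop :=
  q.1 ∈ cor S T ∧ q.1 ++ [q.2] ∉ cor S T ∧ x = q.1 ++ [q.2]

/-- third kind: a vertex of a piece -/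
def K3 (S : ℕ) (T : Finset (List Bool)) (x : List Bool) (q : Wt S × List Bool × List Bool) : Prop :=
  q.2.1 ∈ Kw S T q.1 ∧ q.2.2 ∈ q.1.2.1.1 ∧ x = q.2.1 ++ [q.1.1.1, q.1.1.2] ++ q.2.2

/-- the final map -/
noncomputable def cc {S R M : ℕ} (T : Finset (List Bool)) (Φ : List Bool → Fin R → ZMod 2)
    (ψ : List Bool → Fin M → ZMod 2) (f : Bool → Fin M)
    (G : Wt S → List Bool → List Bool → (Fin R → ZMod 2) × (Fin M → ZMod 2)) (x : List Bool) :
    (Fin R → ZMod 2) × (Fin M → ZMod 2) :=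
  if x ∈ cor S T then (Φ x, ψ x)
  else if h : ∃ q, K2 S T x q then (Φ h.choose.1, ψ h.choose.1 + Pi.single (f h.choose.2) 1)
  else if h : ∃ q, K3 S T x q then G h.choose.1 h.choose.2.1 h.choose.2.2
  else (0, 0)

end IMMap

open IMMap in
theorem pr_Map (hSub : StSub) (hCrp : StCrp) (hHgt : StHgt) (hDcm : StDcm) (hUnq : StUnq) :
    StMap := by
  intro S R M T Φ ψ f bad G hT hstep hinj hbad hf1 hf2 hp hG1 hG2 hG3
  obtain ⟨hcp, hcT, -, -, -⟩ := hCrp S T hT
  obtain ⟨u1, u2, u3, u4⟩ := hUnq S T hT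
  set c := cc T Φ ψ f G with hc
  have c1 : ∀ x ∈ cor S T, c x = (Φ x, ψ x) := by
    intro x hx
    simp only [hc, cc]
    rw [if_pos hx]
  have c2 : ∀ v a, v ∈ cor S T → v ++ [a] ∉ cor S T →
      c (v ++ [a]) = (Φ v, ψ v + Pi.single (f a) 1) := by
    intro v a hv hva
    have hex : ∃ q, K2 S T (v ++ [a]) q := ⟨(v, a), hv, hva, rfl⟩
    simp only [hc, cc]
    rw [if_neg hva, dif_pos hex]
    obtain ⟨e1, e2, e3⟩ := hex.choose_spec
    obtain ⟨e4, e5⟩ := u1 _ _ _ _ hv e1 hva e2 e3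
    rw [← e4, ← e5]
  have c3 : ∀ w v u, v ∈ Kw S T w → u ∈ w.2.1.1 → c (v ++ [w.1.1, w.1.2] ++ u) = G w v u := by
    intro w v u hv hu
    have hex : ∃ q, K3 S T (v ++ [w.1.1, w.1.2] ++ u) q := ⟨(w, v, u), hv, hu, rfl⟩
    have hn2 : ¬ ∃ q, K2 S T (v ++ [w.1.1, w.1.2] ++ u) q := by
      rintro ⟨⟨v', a⟩, e1, e2, e3⟩
      exact u3 w v v' u a hv e1 e2 e3
    simp only [hc, cc]
    rw [if_neg (u4 w v u hv), dif_neg hn2, dif_pos hex]
    obtain ⟨e1, e2, e3⟩ := hex.choose_spec
    obtain ⟨e4, e5, e6⟩ := u2 _ _ _ _ _ _ hv e1 e3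
    rw [← e4, ← e5, ← e6]
  have hKw : ∀ w v, v ∈ Kw S T w → v ∈ cor S T ∧ v ++ [w.1.1] ∉ cor S T ∧
      sub T (v ++ [w.1.1, w.1.2]) = w.2.1.1 := by
    intro w v hv
    obtain ⟨e1, e2, e3, e4, e5, e6⟩ := Finset.mem_filter.mp hv
    exact ⟨e1, e3, e5⟩
  refine ⟨c, ?_, ?_⟩
  · -- injectivity
    have h13 : ∀ x ∈ cor S T, ∀ w v u, v ∈ Kw S T w → u ∈ w.2.1.1 →
        (Φ x, ψ x) ≠ G w v u := by
      intro x hx w v u hv hu he
      rcases hG2 w v hv u hu with h | h
      · apply h
        rw [← he]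
        exact (hbad x hx).1
      · apply h x hx
        rw [← he]
    have h23 : ∀ v' a, v' ∈ cor S T → ∀ w v u, v ∈ Kw S T w → u ∈ w.2.1.1 →
        (Φ v', ψ v' + Pi.single (f a) 1) ≠ G w v u := by
      intro v' a hv' w v u hv hu he
      rcases hG2 w v hv u hu with h | h
      · apply h
        rw [← he]
        exact (hbad v' hv').2 a
      · apply h v' hv'
        rw [← he]
    have h12 : ∀ x ∈ cor S T, ∀ v a, v ∈ cor S T →
        (Φ x, ψ x) ≠ (Φ v, ψ v + Pi.single (f a) 1) := by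
      intro x hx v a hv he
      exact hf2 x hx v hv a (Prod.mk.inj he).2
    intro x hx y hy hxy
    by_cases hx1 : x ∈ cor S T
    · rw [c1 x hx1] at hxy
      by_cases hy1 : y ∈ cor S T
      · rw [c1 y hy1] at hxy
        obtain ⟨e1, e2⟩ := Prod.mk.inj hxy
        exact hinj x hx1 y hy1 e1 e2
      · rcases hDcm S T hT y hy hy1 with ⟨v, a, d1, d2, d3, rfl⟩ | ⟨w, v, u, d1, d2, rfl⟩
        · rw [c2 v a d1 d2] at hxy
          exact absurd hxy (h12 x hx1 v a d1)
        · rw [c3 w v u d1 d2] at hxy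
          exact absurd hxy (h13 x hx1 w v u d1 d2)
    · rcases hDcm S T hT x hx hx1 with ⟨v, a, d1, d2, d3, rfl⟩ | ⟨w, v, u, d1, d2, rfl⟩
      · rw [c2 v a d1 d2] at hxy
        by_cases hy1 : y ∈ cor S T
        · rw [c1 y hy1] at hxy
          exact absurd hxy.symm (h12 y hy1 v a d1)
        · rcases hDcm S T hT y hy hy1 with ⟨v', a', d1', d2', d3', rfl⟩ |
            ⟨w', v', u', d1', d2', rfl⟩
          · rw [c2 v' a' d1' d2'] at hxy
            obtain ⟨e1, e2⟩ := Prod.mk.inj hxy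
            obtain ⟨e3, e4⟩ := hf1 v d1 v' d1' a a' e2
            rw [hinj v d1 v' d1' e1 e4, e3]
          · rw [c3 w' v' u' d1' d2'] at hxy
            exact absurd hxy (h23 v a d1 w' v' u' d1' d2')
      · rw [c3 w v u d1 d2] at hxy
        by_cases hy1 : y ∈ cor S T
        · rw [c1 y hy1] at hxy
          exact absurd hxy.symm (h13 y hy1 w v u d1 d2)
        · rcases hDcm S T hT y hy hy1 with ⟨v', a', d1', d2', d3', rfl⟩ |
            ⟨w', v', u', d1', d2', rfl⟩
          · rw [c2 v' a' d1' d2'] at hxy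
            exact absurd hxy.symm (h23 v' a' d1' w v u d1 d2)
          · rw [c3 w' v' u' d1' d2'] at hxy
            obtain ⟨e1, e2, e3⟩ := hG3 w w' v d1 v' d1' u d2 u' d2' hxy
            rw [e1, e2, e3]
  · -- steps
    intro x e hxe
    have htake : (x ++ [e]).take x.length = x := by simp
    have hxT : x ∈ T := by
      have := hT _ hxe x.length
      rwa [htake] at this
    by_cases h1 : x ++ [e] ∈ cor S T
    · have h2 : x ∈ cor S T := by
        have := hcp _ h1 x.length
        rwa [htake] at this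
      rw [c1 _ h1, c1 _ h2]
      exact hstep x e h1
    · by_cases h2 : x ∈ cor S T
      · rw [c1 _ h2, c2 x e h2 h1]
        exact Or.inr ⟨f e, rfl, rfl⟩
      · rcases hDcm S T hT x hxT h2 with ⟨v, a, d1, d2, d3, rfl⟩ | ⟨w, v, u, d1, d2, rfl⟩
        · rcases hDcm S T hT _ hxe h1 with ⟨v', a', d1', d2', d3', d4'⟩ |
            ⟨w, v', u, d1', d2', d4'⟩
          · exfalso
            apply h2
            have h3 := List.append_inj' d4' rfl
            rw [h3.1]
            exact d1'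
          · have h4 : (v ++ [a]) ++ [e] = v ++ a :: [e] := by simp
            have h5 : v' ++ [w.1.1, w.1.2] ++ u = v' ++ w.1.1 :: (w.1.2 :: u) := by simp
            obtain ⟨k1, k2, k3⟩ := hKw w v' d1'
            have h6 := (hHgt S T hT).1 v [e] a d1 d2
            have h7 := (hHgt S T hT).1 v' (w.1.2 :: u) w.1.1 k1 k2
            rw [h4, h5] at d4'
            rw [d4', h7] at h6
            obtain ⟨e1, e2⟩ := List.append_inj d4' h6.symm
            rw [List.cons.injEq, List.cons.injEq] at e2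
            obtain ⟨e3, e4, e5⟩ := e2
            subst e1
            have h8 : c (v ++ [a] ++ [e]) = G w v [] := by
              have h10 : v ++ [a] ++ [e] = v ++ [w.1.1, w.1.2] ++ [] := by
                rw [e3, e4]
                simp
              rw [h10]
              exact c3 w v [] d1' (by rw [e5]; exact d2')
            rw [h8, c2 v a d1 d2]
            obtain ⟨p1, i, p2⟩ := hp w v d1'
            left
            refine ⟨i, p2, ?_⟩
            show (G w v []).2 = ψ v + Pi.single (f a) 1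
            rw [p1, e3]
        · have h3 : v ++ [w.1.1, w.1.2] ++ u ++ [e] = v ++ [w.1.1, w.1.2] ++ (u ++ [e]) := by
            simp
          have h4 : u ++ [e] ∈ w.2.1.1 := by
            rw [← (hKw w v d1).2.2, (hSub T).1, ← h3]
            exact hxe
          rw [h3, c3 w v u d1 d2, c3 w v (u ++ [e]) d1 h4]
          exact hG1 w v d1 u e h4

end Pool.Agent.Work.MP_bf01b2_co.Sh
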