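import Pool.Agent.Work.MP_bf01b2_co.Sh.StmtsG

/-!
# MP_bf01b2_co, theorem SHALLOW: the final map, statements

Positions are pairs `(y, z)`, `y : Fin R → ZMod 2` (column), `z : Fin M → ZMod 2` (label).
Every item `X` is a statement `StX`, file `Sh/M_X.lean`, theorem `pr_X`.
-/

set_option autoImplicit false

namespace Pool.Agent.Work.MP_bf01b2_co.Sh

open Pool.Agent.Work.MP_bf01b2_co.Bd

open Classical

/-- Unit step: exactly one coordinate of exactly one of the two components changes. -/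
def Ust {R M : ℕ} (x y : (Fin R → ZMod 2) × (Fin M → ZMod 2)) : Prop :=
  (∃ i, y.1 = x.1 + Pi.single i 1 ∧ y.2 = x.2) ∨ (∃ i, y.1 = x.1 ∧ y.2 = x.2 + Pi.single i 1)

/-- [Map] (EASY-MEDIUM) the final map. `G w v u` is the position of the vertex
`v ++ [w.1.1, w.1.2] ++ u` of the piece of the item `(v, w)`. (hSub : StSub) (hCrp : StCrp)
(hHgt : StHgt) (hDcm : StDcm) (hUnq : StUnq)
Proof. Let `H = cor S T`. Define `c x` for `x ∈ T` by cases (classical choice, `StDcm`): `(Φ x, ψ x)` if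
`x ∈ H`; `(Φ v, ψ v + Pi.single (f a) 1)` if `x ∉ H`, `x = v ++ [a]` with `v ∈ H`, `v ++ [a] ∉ H` (`v, a`
are unique); `G w v u` if `x ∉ H` is not of this form and `x = v ++ [w.1.1, w.1.2] ++ u`, `v ∈ Kw S T w`,
`u` in the shape of `w` (`w, v, u` are unique by `StUnq`; the kinds exclude each other by (3), (4) of
`StUnq`). Steps, `x ++ [e] ∈ T`: (i) `x ++ [e] ∈ H`: then `x ∈ H`, hypothesis. (ii) `x ∈ H`,
`x ++ [e] ∉ H`: the step `(Φ x, ψ x) → (Φ x, ψ x + Pi.single (f e) 1)`. (iii) `x ∉ H`: then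
`x ++ [e] ∉ H` (`H` is prefix closed). If `x = v ++ [a]` is of the second kind, then
`x ++ [e] = v ++ [a, e] ++ []` belongs to the item `(v, w)` with `w` of `StDcm` (or directly: the type of
`(v, a, e)`), and the step is `(Φ v, ψ v + ..) → G w v [] = (p, ψ v + ..)`, a column step by `hp`. If
`x = v ++ [..] ++ u` is of the third kind then `x ++ [e] = v ++ [..] ++ (u ++ [e])` and
`u ++ [e]` is in the shape (`sub T (v ++ [..])`, `StSub`): `hG1`. Injectivity: both in `H`: hypothesis;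
both of the second kind: the labels give `a = a'`, `ψ v = ψ v'` (`hf1`), the columns `Φ v = Φ v'`, so
`v = v'`; both of the third kind: `hG3`; `x ∈ H` and `y` of the second kind: `hf2`; `x` of the first
or second kind and `y` of the third: the label of `x` is bad and its column is `Φ v'`, `v' ∈ H`,
contradiction to `hG2`. -/
def StMap : Prop := ∀ (S R M : ℕ) (T : Finset (List Bool)) (Φ : List Bool → Fin R → ZMod 2)
  (ψ : List Bool → Fin M → ZMod 2) (f : Bool → Fin M) (bad : (Fin M → ZMod 2) → Prop)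
  (G : Wt S → List Bool → List Bool → (Fin R → ZMod 2) × (Fin M → ZMod 2)),
  Bd.PrefClosed T →
  (∀ y e, y ++ [e] ∈ cor S T → Ust (Φ y, ψ y) (Φ (y ++ [e]), ψ (y ++ [e]))) →
  (∀ u ∈ cor S T, ∀ v ∈ cor S T, Φ u = Φ v → ψ u = ψ v → u = v) →
  (∀ v ∈ cor S T, bad (ψ v) ∧ ∀ a, bad (ψ v + Pi.single (f a) 1)) →
  (∀ v ∈ cor S T, ∀ v' ∈ cor S T, ∀ a a',
    ψ v + Pi.single (f a) 1 = ψ v' + Pi.single (f a') 1 → a = a' ∧ ψ v = ψ v') →
  (∀ v ∈ cor S T, ∀ v' ∈ cor S T, ∀ a, ψ v ≠ ψ v' + Pi.single (f a) 1) →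
  (∀ w, ∀ v ∈ Kw S T w, (G w v []).2 = ψ v + Pi.single (f w.1.1) 1 ∧
    ∃ i, (G w v []).1 = Φ v + Pi.single i 1) →
  (∀ w, ∀ v ∈ Kw S T w, ∀ u e, u ++ [e] ∈ w.2.1.1 → Ust (G w v u) (G w v (u ++ [e]))) →
  (∀ w, ∀ v ∈ Kw S T w, ∀ u ∈ w.2.1.1,
    ¬ bad (G w v u).2 ∨ ∀ v' ∈ cor S T, (G w v u).1 ≠ Φ v') →
  (∀ w w', ∀ v ∈ Kw S T w, ∀ v' ∈ Kw S T w', ∀ u ∈ w.2.1.1, ∀ u' ∈ w'.2.1.1,
    G w v u = G w' v' u' → w = w' ∧ v = v' ∧ u = u') →
  ∃ c : List Bool → (Fin R → ZMod 2) × (Fin M → ZMod 2),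
    (∀ u ∈ T, ∀ v ∈ T, c u = c v → u = v) ∧
    ∀ x e, x ++ [e] ∈ T → Ust (c x) (c (x ++ [e]))

/-- [Cb2] (EASY) the product of the two cubes is a cube. Proof. Identify `Fin n` with
`Fin R ⊕ Fin M` (`finSumFinEquiv` and a cast); `c p i` is the truth value of: the corresponding
coordinate is `1`; `ZMod 2` has the two elements `0`, `1`. -/
def StCb2 : Prop := ∀ R M n : ℕ, n = R + M →
  ∃ c : (Fin R → ZMod 2) × (Fin M → ZMod 2) → Fin n → Bool, Function.Injective c ∧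
    ∀ p q, Ust p q → hammingDist (c p) (c q) = 1

end Pool.Agent.Work.MP_bf01b2_co.Sh
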