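import Pool.Agent.Work.MP_bf01b2_co.Sh.DefsP
import Pool.Agent.Work.MP_bf01b2_co.Bd.Defs

/-!
# MP_bf01b2_co, shallow trees, part P: tiles, bridge, numbers

Every item `X` is a statement `StX`, file `Sh/I_X.lean`, theorem `pr_X`; the hypotheses named in the
docstring `(h : StY)` are other items (nobody waits). All auxiliary lemmas private or with names
beginning with `X_`.
-/

set_option autoImplicit false

namespace Pool.Agent.Work.MP_bf01b2_co.Sh

open Classical

open Pool.Agent.Work.MP_bf01b2_co.Bd (PrefClosed)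

/-! ### One tile -/

/-- [Adj] (MEDIUM) consecutive addresses have adjacent positions. Proof. Write `|u|` for the length.
`tg g (u ++ [e]) i = tg g u i` if `2 i < |u|` (the letter `2 i` is a letter of `u`).
(A) `|u| = 2 i < 2 M`. Both are in the transport part (`¬ Tl`), `ev (u ++ [e]) = u = ev u`, the bits
`< i` are processed for `u`, the bits `≤ i` for `u ++ [e]`, with the same targets for `j < i`. Let
`T = tg g (u ++ [e]) i`. If `T = l i` the labels are equal and `alp` grows by `1 + l i + T = 1`: a real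
step `Pi.single a 1` (first alternative of `Ad`). If `T ≠ l i` then `l i + T = 1`, `alp` is the same, and the
labels differ exactly at `i`: `lab (u ++ [e]) = lab u + Pi.single i 1`.
(B) `|u| = 2 i + 1 < 2 M`. Here `(|u| + 1) / 2 = (|u ++ [e]| + 1) / 2 = i + 1`: same label, same `alp`;
`u ++ [e] = y ++ [e1, e]` with `y = ev u = u.take (2 i)`, `ev (u ++ [e]) = u ++ [e]`, and `TD.cps`.
(C) `|u| = 2 M`. `ev u = u = ev (u ++ [e])`, `tg g (u ++ [e]) = tg g u`, all bits are processed, so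
`lab g l u = tg g u` and `alp g l u = ∑ i, (1 + l i + tg g u i) = M + κ + par (tg g u) = al0 g κ u`.
If `Bad m1 (tg g u)`: `¬ Tl (u ++ [e])`, same column, and `mu = tg g u + un M n` with `n < M`, a step
of the label (`un M n = Pi.single ⟨n, _⟩ 1`). If not bad: `Tl (u ++ [e])`, `mu = tg g u`, and `TD.ct1`.
(D) `|u| = 2 M + 1`, bad: `u = y ++ [e1]`, `|y| = 2 M`; the position of `u` is
`(cp y + Pi.single a (al0 g κ y), mu u)` and `mu (u ++ [e]) = mu u` (same targets, same letter number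
`2 M`); `TD.ct2`. (E) `Tl u`: then `Tl (u ++ [e])`, `mu (u ++ [e]) = mu u`, `TD.ct3`. -/
def StAdj : Prop := ∀ (R M m1 J : ℕ) (a : Fin R) (g : Vc M) (s : ℕ) (κ : ZMod 2)
  (t : Finset (List Bool)) (cp ct : List Bool → Vc R) (l : Vc M), m1 + 2 + J = M → 1 ≤ J →
  TD m1 a g κ t cp ct → par l = κ → ∀ (u : List Bool) (e : Bool), u ++ [e] ∈ t →
    Ad (pos m1 J a g s cp ct l u) (pos m1 J a g s cp ct l (u ++ [e]))

/-- [Pty] (EASY) parity of the positions. (h : StAdj) Proof. `pos [] = (0, l)`: `¬ Tl []`, `ev [] = []`,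
`cp [] = 0`, no bit is processed. Induction from the right (`List.reverseRecOn`): if `u ++ [e] ∈ t`
then `u ∈ t` (take of the length of `u`); a step of `Ad` changes `par` of one component by `1`
(`par (x + Pi.single i 1) = par x + 1`: `Finset.sum_add_distrib`, `Finset.sum_pi_single'`). -/
def StPty : Prop := ∀ (R M m1 J : ℕ) (a : Fin R) (g : Vc M) (s : ℕ) (κ : ZMod 2)
  (t : Finset (List Bool)) (cp ct : List Bool → Vc R) (l : Vc M), m1 + 2 + J = M → 1 ≤ J →
  PrefClosed t → TD m1 a g κ t cp ct → par l = κ →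
    pos m1 J a g s cp ct l [] = (0, l) ∧
    ∀ u ∈ t, par (pos m1 J a g s cp ct l u).1 + par (pos m1 J a g s cp ct l u).2 =
      par l + (u.length : ZMod 2)

/-- [Loc] (EASY-MEDIUM) vertices of the transport in the same column have different labels. Proof.
`¬ Tl` gives `|u| ≤ 2 M + 1`, and `Bad m1 (tg g u)` if `|u| = 2 M + 1`. Let `y = ev u = ev u'`, of even
length `2 i ≤ 2 M`; so `u = y` or `u = y ++ [e]`, and the same for `u'`. Suppose `u ≠ u'`.
(1) `i < M`. If `u = y`, `u' = y ++ [e]`: the label of `y` has the bit `l i`, the one of `u'` the bit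
`T = tg g u' i`, and `alp u' = alp y + 1 + l i + T`, so `l i + T = 1`, `T ≠ l i`: the labels differ.
If `u = y ++ [e]`, `u' = y ++ [!e]`: the bits number `i` are `g i + lt`, different.
(2) `i = M`. The label of `y` is `tg g y`, the one of `y ++ [e]` is `tg g y + un M (m1 + 2 + (s + e) % J)`
(bad), different from it as the number is `< M`; for `e = false, true` the numbers `s % J`,
`(s + 1) % J` are different because `2 ≤ J`. -/
def StLoc : Prop := ∀ (M m1 J : ℕ) (g : Vc M) (s : ℕ) (l : Vc M) (u u' : List Bool),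
  m1 + 2 + J = M → 2 ≤ J → ¬ Tl m1 g u → ¬ Tl m1 g u' → ev u = ev u' →
  alp g l u = alp g l u' →
  (if u.length ≤ 2 * M then lab g l u else mu m1 J g s u) =
    (if u'.length ≤ 2 * M then lab g l u' else mu m1 J g s u') → u = u'

/-- [Law] (EASY-MEDIUM) the law of the final label. Proof. First claim: if `tg g u` is not bad then
`mu = tg g u ≠ μ`. If it is bad its coordinates `≥ m1 + 2` vanish and `mu` has one coordinate
`≥ m1 + 2` equal to `1` (the number `m1 + 2 + j`, `j < J`, is `< M`), so `mu` is not bad.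
Second claim: the pairs `(g, s)` with `tg g u` not bad: `tg g u = μ`, so `g` is determined
(`g i = μ i - lt ..`): at most `J` pairs. The pairs with `tg g u` bad: `μ = tg g u + un M (m1 + 2 + j)`,
`j = (s + e) % J`; `j` is determined by `μ` (the only coordinate `≥ m1 + 2` equal to `1`), so `s` is
determined (`s ↦ (s + e) % J` is injective on `s < J`, `e ≤ 1`), and then `g`: at most one pair. -/
def StLaw : Prop := ∀ (M m1 J : ℕ) (u : List Bool) (μ : Vc M), m1 + 2 + J = M → 1 ≤ J →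
  (Bad m1 μ → ∀ (g : Vc M) (s : ℕ), mu m1 J g s u ≠ μ) ∧
  (Finset.univ.filter fun x : Vc M × Fin J => mu m1 J x.1 x.2.1 u = μ).card ≤ J + 1

/-! ### All tiles -/

/-- [Pri] (EASY) private syndromes. Proof. An injection `ι : P → Vc k` (`2 ^ k` elements),
`S x = Fin.cons 0 (ι x)`; the coordinate `0` gives `α = α'`, the others `ι x = ι x'`. -/
def StPri : Prop := ∀ (k : ℕ) (P : Type) [Fintype P], Fintype.card P ≤ 2 ^ k →
  ∃ S : P → Vc (k + 1), ∀ (x x' : P) (α α' : ZMod 2),
    S x + Pi.single 0 α = S x' + Pi.single 0 α' → x = x' ∧ α = α'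

/-- [Yc] (EASY) the number of private addresses. Proof. The strings of length `n` are at most
`2 ^ n` (`Finset.card_image_le`), `∑ n < L + 1, 2 ^ n = 2 ^ (L + 1) - 1`; a list `y` of length
`n ≤ L` is `List.ofFn y.get`. -/
def StYc : Prop := (∀ (L : ℕ) (y : List Bool), y ∈ shs L ↔ y.length ≤ L) ∧
  ∀ L : ℕ, (shs L).card ≤ 2 ^ (L + 1)

/-- nodes: key, parity, address -/
abbrev Nd (W : Type) (M J : ℕ) (b : W → ℕ) (t : W → Finset (List Bool)) : Type :=
  Σ x : Ky W M J b, ZMod 2 × {u // u ∈ t x.1}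

/-- the nodes of a class: parity class `c`, label `μ` -/
def InC {W : Type} {M : ℕ} (m1 J : ℕ) {b : W → ℕ} {t : W → Finset (List Bool)} (dw : W → ZMod 2)
    (c : ZMod 2) (μ : Vc M) (x : Nd W M J b t) : Prop :=
  (x.2.2.1.length : ZMod 2) = dw x.1.1 + c ∧ mu m1 J x.1.2.1.1 x.1.2.1.2.1 x.2.2.1 = μ

/-- the size of the parity class `c` of the piece of type `w` -/
noncomputable def Nw {W : Type} (t : W → Finset (List Bool)) (dw : W → ZMod 2) (w : W)
    (c : ZMod 2) : ℕ := ((t w).filter fun u => (u.length : ZMod 2) = dw w + c).card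

/-- [Cls] (EASY-MEDIUM) the size of a class. (h : StLaw) Proof. The nodes of the class are counted by
type `w`, number of the copy (`b w`), parity (`2`), address `u ∈ t w` of the right length parity
(`Nw t dw w c`), and seed (`≤ J + 1` by `StLaw`). (`Fintype.card_sigma`, `Finset.card_sigma`, or an
injection into `Σ w, Fin (b w) × ZMod 2 × ..`.) -/
def StCls : Prop := ∀ (W : Type) [Fintype W] (M m1 J : ℕ) (b : W → ℕ)
  (t : W → Finset (List Bool)) (dw : W → ZMod 2) (c : ZMod 2) (μ : Vc M), m1 + 2 + J = M →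
  1 ≤ J → (Finset.univ.filter fun x : Nd W M J b t => InC m1 J dw c μ x).card ≤
    ∑ w, 2 * b w * (J + 1) * Nw t dw w c

/-- the numerical condition for the packing -/
def Fits {W : Type} [Fintype W] (k M J : ℕ) (b : W → ℕ) (t : W → Finset (List Bool))
    (dw : W → ZMod 2) : Prop :=
  ∀ c : ZMod 2, ∑ w, 2 * b w * (J + 1) * Nw t dw w c +
    2 * (Fintype.card (Ky W M J b) * 2 ^ (2 * M + 1)) ≤ 2 ^ k

/-- [Clr] (EASY-MEDIUM) the syndromes of all tiles. (h2 : StPri) (h3 : StYc) (h4 : StCls)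
`S` = syndromes of the private columns, `C` = syndromes of the other vertices.
Proof. `StPri` with `P = Ky W M J b × {y // y ∈ Ya M}`: `card P ≤ card Ky * 2 ^ (2 M + 1) ≤ 2 ^ k` by
`Fits` (`Ya M ⊆ shs (2 M)`). Let `A` be the complement in `Vc (k + 1)` of the values
`S x y + Pi.single 0 α`, so `A.card ≥ 2 ^ (k + 1) - 2 card P` (`ZMod 2` has two elements). For every
`c : ZMod 2`, `μ : Vc M` the nodes of the class `InC m1 J dw c μ` are at most `A.card` by `StCls` and `Fits`,
so there is an injection `f c μ` of the class into `A` (`Function.Embedding.nonempty_of_card_le` for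
the subtypes). For `u ∈ t x.1` let `C x π u` be the value of `f c μ` at the node `⟨x, π, u⟩`, with
`c = (u.length : ZMod 2) - dw x.1` and `μ` its label; `0` if `u ∉ t x.1`. `S x y` is `0` if `y ∉ Ya M`. Third
property: equal labels and equal `dw x.1 + |u|` (so equal `|u| - dw x.1`: in `ZMod 2` `-a = a`) mean the
same class. -/
def StClr : Prop := ∀ (W : Type) [Fintype W] (k M m1 J : ℕ) (b : W → ℕ)
  (t : W → Finset (List Bool)) (dw : W → ZMod 2), m1 + 2 + J = M → 1 ≤ J →
  Fits (k + 1) M J b t dw →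
  ∃ (S : Ky W M J b → List Bool → Vc (k + 1)) (C : Ky W M J b → ZMod 2 → List Bool → Vc (k + 1)),
    (∀ x x' y y' α α', y ∈ Ya M → y' ∈ Ya M →
      S x y + Pi.single 0 α = S x' y' + Pi.single 0 α' → x = x' ∧ y = y' ∧ α = α') ∧
    (∀ x π x' y' α', ∀ u ∈ t x.1, y' ∈ Ya M → C x π u ≠ S x' y' + Pi.single 0 α') ∧
    ∀ x π x' π', ∀ u ∈ t x.1, ∀ u' ∈ t x'.1, C x π u = C x' π' u' →
      mu m1 J x.2.1.1 x.2.1.2.1 u = mu m1 J x'.2.1.1 x'.2.1.2.1 u' →
      dw x.1 + (u.length : ZMod 2) = dw x'.1 + (u'.length : ZMod 2) → x = x' ∧ π = π' ∧ u = u'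

/-- [Cp] (EASY-MEDIUM) the private columns. Proof. For `s : Vc k` let `dir s` be a coordinate with
`sy (dir s) = s`. `cp u = ∑ i ∈ range (|u| / 2), Pi.single (dir (S (u.take (2 i)) + S (u.take (2 i + 2)))) 1`.
(`cp (y ++ [e, e'])` for even `|y|`: the prefixes of even length `≤ |y|` are those of `y`.) `syn` is
additive, the syndrome of `Pi.single (dir s) 1` is `s`, and the sum telescopes (`z + z = 0`). -/
def StCp : Prop := ∀ (R k : ℕ) (sy : Fin R → Vc k) (S : List Bool → Vc k),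
  (∀ s : Vc k, ∃ i, sy i = s) →
  ∃ cp : List Bool → Vc R, cp [] = 0 ∧
    (∀ (y : List Bool) (e e' : Bool), y.length % 2 = 0 →
      ∃ i, cp (y ++ [e, e']) = cp y + Pi.single i 1) ∧
    ∀ y : List Bool, y.length % 2 = 0 → syn sy (cp y) = S [] + S y

/-- [Ct] (MEDIUM) the other columns of one tile. Proof. `dir` as in [Cp]. For every `u` put `D u = C u`
if `Tl m1 g u` and `D u = S (u.take (2 M)) + Pi.single 0 (al0 g κ (u.take (2 M)))` otherwise, and
`ct u = cp (u.take (2 M)) + Pi.single a (al0 g κ (u.take (2 M))) +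
∑ i ∈ (range |u|).filter (fun i => Tl m1 g (u.take (i + 1))), Pi.single (dir (D (u.take i) + D (u.take (i + 1)))) 1`
(`Tl m1 g (u.take (i + 1))` implies `2 M ≤ i`). `Tl` is inherited by longer strings: if `|z| > 2 M` and
`Tl m1 g (z.take j)` then `Tl m1 g z`. If `Tl m1 g (u ++ [e])` then the sum for `u ++ [e]` is the sum for `u` plus
one unit vector (the prefixes of `u ++ [e]` of length `≤ |u|` are those of `u`). If `Tl u` this is `ct3`;
if not, the sum for `u` is empty and this is `ct1` (`u = y`) or `ct2` (`u = y ++ [e]` bad, `u.take (2 M) = y`);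
there `tg g z = tg g y` for all `z` with the prefix `y`, `|y| = 2 M`. The syndrome: `syn` is additive,
`syn (Pi.single a α) = Pi.single 0 α` as `sy a = Pi.single 0 1`; the sum telescopes because `D` does
not change between `u.take (2 M)` and the last prefix which is not `Tl`; the result is
`(S [] + S (u.take (2 M))) + Pi.single 0 (al0 ..) + D (u.take (2 M)) + D u = S [] + D u`. -/
def StCt : Prop := ∀ (R k M m1 : ℕ) (sy : Fin R → Vc (k + 1)) (a : Fin R) (g : Vc M) (κ : ZMod 2)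
  (S C : List Bool → Vc (k + 1)) (cp : List Bool → Vc R),
  (∀ s : Vc (k + 1), ∃ i, sy i = s) → sy a = Pi.single 0 1 →
  (∀ y : List Bool, y.length % 2 = 0 → syn sy (cp y) = S [] + S y) →
  ∃ ct : List Bool → Vc R,
    (∀ (y : List Bool) (e : Bool), y.length = 2 * M → ¬ Bad m1 (tg g y) →
      ∃ i, ct (y ++ [e]) = cp y + Pi.single a (al0 g κ y) + Pi.single i 1) ∧
    (∀ (y : List Bool) (e e' : Bool), y.length = 2 * M → Bad m1 (tg g y) →
      ∃ i, ct (y ++ [e, e']) = cp y + Pi.single a (al0 g κ y) + Pi.single i 1) ∧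
    (∀ (y : List Bool) (e : Bool), Tl m1 g y → ∃ i, ct (y ++ [e]) = ct y + Pi.single i 1) ∧
    ∀ u : List Bool, Tl m1 g u → syn sy (ct u) = S [] + C u

/-- [Tile] (MEDIUM) THE TILES. (h1 : StAdj) (h2 : StPty) (h3 : StLoc) (h4 : StLaw) (h5 : StYc)
(h6 : StClr) (h7 : StCp) (h8 : StCt)
`Sg x` = syndrome of the base points of the key `x`, `Cx x` = private offsets, `F x π l u` = position of
the address `u` relative to a base point of parity `π`, for the initial label `l`.
Proof. `a` with `sy a = Pi.single 0 1`. `S, C` from `StClr`, `cp x` from `StCp` (for `S x`), `ct x π` from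
`StCt` (with `κ = dw x.1 + π`, `C x π`), so `TD m1 a g κ (t x.1) cp ct` holds; `Sg x = S x []`,
`Cx x = (Ya M ×ˢ univ).image (fun q => cp x q.1 + Pi.single a q.2)`, at most `2 * 2 ^ (2 M + 1)` elements,
`F x π l u = pos m1 J a g s (cp x) (ct x π) l u` with `(g, s)` the seed of `x`. `Sg` is injective
(`[] ∈ Ya M`). `F x π l [] = (0, l)` and the steps: `StPty`, `StAdj`. If `Tl m1 g u` the label is `mu`, not
bad by `StLaw`; if not, `|u| ≤ 2 M + 1`, `ev u ∈ Ya M`, the offset is in `Cx x`. Injectivity: let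
`p + (F x π l u).1 = p' + (F x' π' l' u').1`, equal labels. The syndrome of the point is
`S x [] + syn (F ..).1`, which is `S x (ev u) + Pi.single 0 (alp ..)` in the transport part and
`C x π u` otherwise. (1) Both in the transport: `x = x'`, `ev u = ev u'`, equal `alp`, so `p = p'`; if
`l = l'` then `u = u'` by `StLoc` (also `π = par p = par p' = π'`). (2) One in the transport, the other not:
impossible by the second property of `StClr`. (3) Both not: `par p + par (ct ..)` is the same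
for both, and by `StPty` it is `π + (par l + |u| - par (mu ..)) = dw x.1 + |u| + par (mu ..)` (signs do not
matter in `ZMod 2`); so `dw x.1 + |u| = dw x'.1 + |u'|`, and the third property gives `x = x'`, `π = π'`,
`u = u'`, so `p = p'`. -/
def StTile : Prop := ∀ (W : Type) [Fintype W] (R k M m1 J : ℕ) (b : W → ℕ)
  (t : W → Finset (List Bool)) (dw : W → ZMod 2) (sy : Fin R → Vc (k + 1)),
  m1 + 2 + J = M → 2 ≤ J → (∀ w, PrefClosed (t w)) → Fits (k + 1) M J b t dw →
  (∀ s : Vc (k + 1), ∃ i, sy i = s) →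
  ∃ (Sg : Ky W M J b → Vc (k + 1)) (Cx : Ky W M J b → Finset (Vc R))
    (F : Ky W M J b → ZMod 2 → Vc M → List Bool → Vc R × Vc M),
    Function.Injective Sg ∧ (∀ x, (Cx x).card ≤ 2 ^ (2 * M + 2)) ∧
    (∀ x π l, par l = dw x.1 + π → F x π l [] = (0, l) ∧
      (∀ u e, u ++ [e] ∈ t x.1 → Ad (F x π l u) (F x π l (u ++ [e]))) ∧
      ∀ u ∈ t x.1, ¬ Bad m1 (F x π l u).2 ∨ (F x π l u).1 ∈ Cx x) ∧
    ∀ x x' π π' l l' p p', ∀ u ∈ t x.1, ∀ u' ∈ t x'.1, par l = dw x.1 + π →
      par l' = dw x'.1 + π' → syn sy p = Sg x → syn sy p' = Sg x' → par p = π → par p' = π' →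
      p + (F x π l u).1 = p' + (F x' π' l' u').1 → (F x π l u).2 = (F x' π' l' u').2 →
        x = x' ∧ p = p' ∧ (l = l' → u = u')

/-! ### The bridge -/

/-- [Hal] (EASY-MEDIUM) Hall's theorem for degrees. Proof. `Finset.all_card_le_biUnion_card_iff_exists_injective`
for the finite sets `N v = {p | r v p}`: for a finset `A` of items, counting the pairs,
`|A| D ≤ ∑ v ∈ A, |N v| ≤ ∑ p ∈ N(A), #{v ∈ V | r v p} ≤ |N(A)| D`, and `0 < D`. -/
def StHal : Prop := ∀ (I P : Type) [Fintype P] [Nonempty P] (V : Finset I) (r : I → P → Prop)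
  (D : ℝ), 0 < D →
  (∀ v ∈ V, D ≤ ((Finset.univ.filter fun p => r v p).card : ℝ)) →
  (∀ p, ((V.filter fun v => r v p).card : ℝ) ≤ D) →
    ∃ f : I → P, (∀ v ∈ V, r v (f v)) ∧ ∀ v ∈ V, ∀ v' ∈ V, f v = f v' → v = v'

/-- radius one count of `K` around `x` in the class of coordinates with the syndrome `s` -/
noncomputable def ct1 {R k : ℕ} (sy : Fin R → Vc k) (Φ : List Bool → Vc R)
    (K : Finset (List Bool)) (s : Vc k) (x : Vc R) : ℕ :=
  ∑ i ∈ Finset.univ.filter (fun i => sy i = s), (K.filter fun v => Φ v = x + Pi.single i 1).card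

/-- [Brg] (MEDIUM) the bridge: base points for all items. (h : StHal) Proof. `b w` = number of the
`x : X` with `wt x = w`. Fix `w`. Relation between `v ∈ K w` and `p`: there is `x` with `wt x = w`,
`syn sy p = Sg x`, `p = Φ v + Pi.single i 1` for some `i`, and no `h ∈ H`, `c ∈ Cx x` with `Φ h = p + c`.
Number of `p` for `v`: for each `x` with `wt x = w` and `s := Sg x + syn sy (Φ v) ≠ 0` (all but at most
one `x`, as `Sg` is injective) the `N1` points `Φ v + Pi.single i 1`, `sy i = s`, have the syndrome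
`Sg x`; they are different for different `(x, i)`; for each `c ∈ Cx x` the number of `i` with
`sy i = s` such that some `h ∈ H` has `Φ h = (Φ v + c) + Pi.single i 1` is at most
`ct1 sy Φ H s (Φ v + c) ≤ ρ N1`. So the degree is at least `(b w - 1) N1 - b w CL ρ N1 ≥ lam w 2^k N1 =: D`.
Number of `v` for `p`: `Φ v = p + Pi.single i 1` with `sy i = syn p + syn (Φ v)`, and this is not zero if
we add to the relation that `sy i ≠ 0` (do so): at most `∑ s ≠ 0, ct1 sy Φ (K w) s p ≤ 2^k lam w N1`.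
`StHal` gives `p w`, injective on `K w`, and `ξ w v` = the `x`. If `p w v = p w' v'` then
`Sg (ξ w v) = Sg (ξ w' v')`, so `ξ w v = ξ w' v'` and `w = wt (ξ w v) = w'`. -/
def StBrg : Prop := ∀ (W X : Type) [Fintype W] [Fintype X] (R k N1 CL : ℕ)
  (sy : Fin R → Vc k) (Φ : List Bool → Vc R) (H : Finset (List Bool))
  (K : W → Finset (List Bool)) (wt : X → W) (Sg : X → Vc k) (Cx : X → Finset (Vc R))
  (lam : W → ℝ) (ρ : ℝ), 0 < N1 →
  (∀ s : Vc k, s ≠ 0 → (Finset.univ.filter fun i => sy i = s).card = N1) →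
  Function.Injective Sg → (∀ w, 0 < lam w) → 0 ≤ ρ →
  (∀ w s x, s ≠ 0 → (ct1 sy Φ (K w) s x : ℝ) ≤ lam w * N1) →
  (∀ s x, s ≠ 0 → (ct1 sy Φ H s x : ℝ) ≤ ρ * N1) → (∀ x, (Cx x).card ≤ CL) →
  (∀ w, lam w * 2 ^ k + 1 + (Finset.univ.filter fun x => wt x = w).card * CL * ρ ≤
    (Finset.univ.filter fun x => wt x = w).card) →
  ∃ (p : W → List Bool → Vc R) (ξ : W → List Bool → X), ∀ w, ∀ v ∈ K w,
    wt (ξ w v) = w ∧ syn sy (p w v) = Sg (ξ w v) ∧ (∃ i, p w v = Φ v + Pi.single i 1) ∧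
    (∀ c ∈ Cx (ξ w v), ∀ h ∈ H, Φ h ≠ p w v + c) ∧
    ∀ w', ∀ v' ∈ K w', p w v = p w' v' → w = w' ∧ v = v'

/-! ### Numbers -/

/-- [Nms] (EASY-MEDIUM) choice of `k`, `τ` and the numbers of copies (`J = 100`). Here `x w` will be
`|K w| / 2 ^ R` and `y` will be `|H| / 2 ^ R`. Proof. Let `Nt = ∑ w, (t w).card`, `ω = card W`, `Q = 2 ^ (k + 1)`.
`τ = 1 / ((1 + Nt + ω) 2 ^ (2 M + 14))`; `k` with `Q ≥ 2 ^ (4 M + 30) (1 + Nt) (1 + ω)`. `mx = max (x w) τ`.
`b w = ⌈(21/20 * mx * Q + 1) / (998/1000 * 2 ^ M * 100)⌉₊`. With `Bw = b w * 2 ^ M * 100`: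
`998/1000 * Bw ≥ 21/20 mx Q + 1` and `2 ^ (2M+2) * 21/20 * max y τ ≤ 21/20 * 2 ^ (-12) ≤ 2/1000`: the
last claim. `Bw ≤ (21/20 (x w + τ) Q + 1) / (998/1000) + 2 ^ M * 100`. The sum in `Fits` is
`∑ w, 2 * 101 / (100 * 2 ^ M) * Bw * Nw ≤ (202/100) / 2 ^ M * ∑ w, Nw * ((1053/1000) (x w + τ) Q + 2 + 2 ^ M * 100)`
`≤ Q * (202/100 * 1053/1000 * 67/200 + 1/100 + 1/100) ≤ 74/100 * Q` (`Nw ≤ (t w).card`), and
`2 * card Ky * 2 ^ (2M+1) = 2 ^ (2M+2) ∑ Bw ≤ 2 ^ (2M+2) (1053/1000 * Q (4 y + ω τ) + ω (2 + 2 ^ M * 100))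
≤ 1/10 * Q`. (`card Ky = ∑ w, 2 ^ M * 100 * b w`.) -/
def StNms : Prop := ∀ (M : ℕ) (W : Type) [Fintype W] (t : W → Finset (List Bool)), 102 ≤ M →
  ∃ (k : ℕ) (τ : ℝ), 0 < τ ∧ τ ≤ 1 ∧ ∀ (dw : W → ZMod 2) (x : W → ℝ) (y : ℝ),
    (∀ w, 0 ≤ x w) → 0 ≤ y → y * 2 ^ (2 * M + 14) ≤ 1 → ∑ w, x w ≤ 4 * y →
    (∀ c : ZMod 2, ∑ w, x w * Nw t dw w c ≤ 67 / 100 * 2 ^ (M - 1)) →
    ∃ b : W → ℕ, Fits (k + 1) M 100 b t dw ∧
      ∀ w, 21 / 20 * max (x w) τ * 2 ^ (k + 1) + 1 +
        ((b w * (2 ^ M * 100) : ℕ) : ℝ) * 2 ^ (2 * M + 2) * (21 / 20 * max y τ) ≤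
          ((b w * (2 ^ M * 100) : ℕ) : ℝ)

end Pool.Agent.Work.MP_bf01b2_co.Sh
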